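import Pool.Agent.MP_071e05_an.Charts

/-!
Compatibility of the three charts, covering, and the global maps.
-/

set_option autoImplicit false
set_option linter.unusedSectionVars false

open MeasureTheory Metric Set Filter Topology ComplexConjugate

namespace Pool.Agent.BallCurve

/-- comparability of two charts at two points through a common reference -/
def Rel (C C' : OChart V2) (m m' : ℂ) : Prop :=
  ∃ (τ₀ : ℂ) (R : ℂ → ℂ) (r : ℂ → V2), RefAt C m τ₀ R r ∧ RefAt C' m' τ₀ R r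

theorem Rel.loc {C C' : OChart V2} {m m' : ℂ} (h : Rel C C' m m') : LocIso C C' m m' := by
  obtain ⟨τ₀, R, r, h1, h2⟩ := h
  exact locIso_of_ref h1 h2

theorem Rel.symm {C C' : OChart V2} {m m' : ℂ} (h : Rel C C' m m') : Rel C' C m' m := by
  obtain ⟨τ₀, R, r, h1, h2⟩ := h
  exact ⟨τ₀, R, r, h2, h1⟩

theorem ne_zero_of_exp {p : ℕ} (hp : 0 < p) {m τ : ℂ} (h : m ^ p = Complex.exp τ) : m ≠ 0 := by
  intro h0
  rw [h0, zero_pow hp.ne'] at h
  exact Complex.exp_ne_zero _ h.symm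

theorem pair00 (c : CD) {m m' : ℂ} (hm : m ∈ M0 c.p) (hm' : m' ∈ M0 c.p)
    (h : c.chart.T m = c.chart.T m') : LocIso c.chart c.chart m m' := by
  rw [c.T_eq, c.T_eq, Option.some.injEq] at h
  by_cases h0 : m = 0
  · have : m' = 0 := by
      rw [h0, zero_pow c.k2.ppos.ne'] at h
      exact pow_eq_zero_iff c.k2.ppos.ne' |>.mp h.symm
    rw [this, h0]
    exact locIso_refl _ _
  · obtain ⟨τ₀, hτ⟩ := exists_log h0 c.p
    exact Rel.loc ⟨τ₀, _, _, c.ref hm hτ, c.ref hm' (h ▸ hτ)⟩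

theorem pairII (c : CD) {m m' : ℂ} (hm : m ∈ M0 c.p) (hm' : m' ∈ M0 c.p)
    (h : c.chart'.T m = c.chart'.T m') : LocIso c.chart' c.chart' m m' := by
  by_cases h0 : m = 0
  · have : m' = 0 := by
      by_contra hne
      rw [h0, c.T'_zero, c.T'_eq hne] at h
      exact absurd h (by simp)
    rw [this, h0]
    exact locIso_refl _ _
  · have h0' : m' ≠ 0 := by
      intro hne
      rw [hne, c.T'_zero, c.T'_eq h0] at h
      exact absurd h (by simp)
    rw [c.T'_eq h0, c.T'_eq h0', Option.some.injEq, inv_inj] at h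
    obtain ⟨τ₀, hτ⟩ := exists_log h0 c.p
    have hτ' : m ^ c.p = Complex.exp (-(-τ₀)) := by rw [neg_neg]; exact hτ
    exact Rel.loc ⟨-τ₀, _, _, c.ref' hm hτ', c.ref' hm' (h ▸ hτ')⟩

theorem pair11 (c : C1D) {m m' : ℂ} (hm : m ∈ ball (0 : ℂ) c.ε) (hm' : m' ∈ ball (0 : ℂ) c.ε)
    (h : c.chart.T m = c.chart.T m') : LocIso c.chart c.chart m m' := by
  rw [c.T_eq, c.T_eq, Option.some.injEq] at h
  rcases exp_neg_sq_eq (c.lt_one hm) (c.lt_one hm') h with h | h
  · rw [h]; exact locIso_refl _ _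
  · have hsq : -m' ^ 2 = -m ^ 2 := by rw [h]; ring
    by_cases hre : m.re = 0
    · by_cases him : m.im = 0
      · have : m = 0 := Complex.ext hre him
        rw [h, this, neg_zero]
        exact locIso_refl _ _
      · have r1 := c.ref_b hm him
        have r2 := c.ref_b hm' (by rw [h, Complex.neg_im]; exact neg_ne_zero.mpr him)
        rw [hsq] at r2
        exact Rel.loc ⟨_, _, _, r1, r2⟩
    · have r1 := c.ref_a hm hre
      have r2 := c.ref_a hm' (by rw [h, Complex.neg_re]; exact neg_ne_zero.mpr hre)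
      rw [hsq] at r2
      exact Rel.loc ⟨_, _, _, r1, r2⟩

theorem re_ne_of_slit {m : ℂ} (h : 1 - Complex.exp (-m ^ 2) ∈ Complex.slitPlane) : m.re ≠ 0 := by
  intro h0
  have h1 : -m ^ 2 = ((m.im ^ 2 : ℝ) : ℂ) := by
    apply Complex.ext
    · rw [neg_sq_re, h0, Complex.ofReal_re]; ring
    · rw [neg_sq_im, h0, Complex.ofReal_im]; ring
  rw [h1, ← Complex.ofReal_exp, Complex.mem_slitPlane_iff] at h
  have h2 : (1 : ℝ) ≤ Real.exp (m.im ^ 2) := Real.one_le_exp (sq_nonneg _)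
  rcases h with h | h
  · rw [Complex.sub_re, Complex.one_re, Complex.ofReal_re] at h
    linarith
  · apply h
    rw [Complex.sub_im, Complex.one_im, Complex.ofReal_im, sub_zero]

theorem im_ne_of_slit {m : ℂ} (h : 1 - Complex.exp (-(-m ^ 2)) ∈ Complex.slitPlane) :
    m.im ≠ 0 := by
  intro h0
  have h1 : -(-m ^ 2) = ((m.re ^ 2 : ℝ) : ℂ) := by
    apply Complex.ext
    · rw [Complex.neg_re, neg_sq_re, h0, Complex.ofReal_re]; ring
    · rw [Complex.neg_im, neg_sq_im, h0, Complex.ofReal_im]; ring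
  rw [h1, ← Complex.ofReal_exp, Complex.mem_slitPlane_iff] at h
  have h2 : (1 : ℝ) ≤ Real.exp (m.re ^ 2) := Real.one_le_exp (sq_nonneg _)
  rcases h with h | h
  · rw [Complex.sub_re, Complex.one_re, Complex.ofReal_re] at h
    linarith
  · apply h
    rw [Complex.sub_im, Complex.one_im, Complex.ofReal_im, sub_zero]

/-- the complete system of charts -/
structure Sys where
  c0 : CD
  cI : CD
  c1 : C1D
  e02 : c0.E2 = c1.D2
  e03 : c0.E3 = c1.D3
  eI2 : cI.E2 = c1.D2.dual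
  eI3 : cI.E3 = c1.D3.dual

theorem Sys.pair01 (S : Sys) {m m' : ℂ} (hm : m ∈ M0 S.c0.p) (hm' : m' ∈ ball (0 : ℂ) S.c1.ε)
    (h : S.c0.chart.T m = S.c1.chart.T m') : Rel S.c0.chart S.c1.chart m m' := by
  rw [CD.T_eq, C1D.T_eq, Option.some.injEq] at h
  have hre : m'.re ≠ 0 := by
    apply re_ne_of_slit
    rw [← h]; exact hm
  have r1 := S.c0.ref hm h
  rw [S.e02, S.e03] at r1
  exact ⟨_, _, _, r1, S.c1.ref_a hm' hre⟩

theorem Sys.pairI1 (S : Sys) {m m' : ℂ} (hm : m ∈ M0 S.cI.p) (hm' : m' ∈ ball (0 : ℂ) S.c1.ε)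
    (h : S.cI.chart'.T m = S.c1.chart.T m') : Rel S.cI.chart' S.c1.chart m m' := by
  have h0 : m ≠ 0 := by
    intro h0
    rw [h0, CD.T'_zero, C1D.T_eq] at h
    exact absurd h (by simp)
  rw [CD.T'_eq _ h0, C1D.T_eq, Option.some.injEq] at h
  have h' : m ^ S.cI.p = Complex.exp (-(-m' ^ 2)) := by
    rw [Complex.exp_neg, ← h, inv_inv]
  have him : m'.im ≠ 0 := by
    apply im_ne_of_slit
    rw [← h']; exact hm
  have r1 := S.cI.ref' hm h'
  rw [S.eI2, S.eI3] at r1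
  exact ⟨_, _, _, r1, S.c1.ref_b hm' him⟩

theorem Sys.pair0I (S : Sys) {m m' : ℂ} (hm : m ∈ M0 S.c0.p) (hm' : m' ∈ M0 S.cI.p)
    (h : S.c0.chart.T m = S.cI.chart'.T m') : Rel S.c0.chart S.cI.chart' m m' := by
  have h0' : m' ≠ 0 := by
    intro h0
    rw [h0, CD.T'_zero, CD.T_eq] at h
    exact absurd h (by simp)
  rw [CD.T_eq, CD.T'_eq _ h0', Option.some.injEq] at h
  have h0 : m ≠ 0 := by
    intro h0
    rw [h0, zero_pow S.c0.k2.ppos.ne'] at h
    exact inv_ne_zero (pow_ne_zero _ h0') h.symm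
  obtain ⟨τ, hτ⟩ := exists_log h0 S.c0.p
  have hs : 1 - Complex.exp τ ∈ Complex.slitPlane := by rw [← hτ]; exact hm
  obtain ⟨k, hk⟩ := slit_cases hs
  set τ₀ := τ + k * (2 * Real.pi * Complex.I) with hτ₀
  have hexp : Complex.exp τ₀ = Complex.exp τ := exp_shift τ k
  have hmτ : m ^ S.c0.p = Complex.exp τ₀ := by rw [hexp, hτ]
  have hm'τ : m' ^ S.cI.p = Complex.exp (-τ₀) := by
    rw [Complex.exp_neg, ← hmτ, h, inv_inv]
  have hS : τ₀ ∈ S0 := by
    rcases hk with hk | hk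
    · exact hk
    · exfalso
      have h1 : -τ₀ = ((-τ₀.re : ℝ) : ℂ) := by
        apply Complex.ext
        · simp
        · simp [hk.1]
      have h2 : 1 - Complex.exp (-τ₀) ∈ Complex.slitPlane := by rw [← hm'τ]; exact hm'
      rw [h1, ← Complex.ofReal_exp, Complex.mem_slitPlane_iff] at h2
      have h3 : (1 : ℝ) ≤ Real.exp (-τ₀.re) := Real.one_le_exp (by linarith [hk.2])
      rcases h2 with h2 | h2
      · rw [Complex.sub_re, Complex.one_re, Complex.ofReal_re] at h2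
        linarith
      · apply h2
        rw [Complex.sub_im, Complex.one_im, Complex.ofReal_im, sub_zero]
  have r1 := S.c0.ref hm hmτ
  have r2 := S.cI.ref' hm' hm'τ
  rw [S.e02, S.e03] at r1
  rw [S.eI2, S.eI3] at r2
  obtain ⟨L, hL, hL1⟩ := RF_dual S.c1.s3
  obtain ⟨L₂, hL₂, hL₂1⟩ := RF_dual S.c1.s2
  obtain ⟨ψ, hψ, hψ1⟩ := UG_transport iso1 hL₂
  refine ⟨τ₀, _, _, r1.change hψ hL ?_, r2⟩
  filter_upwards [isOpen_S0.mem_nhds hS] with τ' hτ'
  have hs' : 1 - Complex.exp (-τ') ∈ Complex.slitPlane := by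
    apply slit_of_strip_neg
    · simpa using hτ'.1
    · simpa using hτ'.2
  refine ⟨Rz_mem S.c1.s2.posD' hs', RF_mem S.c1.s3.posD' hs', ?_, hL1 τ' hτ'⟩
  unfold Rz
  rw [hL₂1 τ' hτ']
  exact (hψ1 _).symm

/-- the three charts -/
noncomputable def Sys.C (S : Sys) : Fin 3 → OChart V2 := ![S.c0.chart, S.cI.chart', S.c1.chart]

theorem Sys.compat (S : Sys) : ∀ i j, ∀ m ∈ (S.C i).M, ∀ m' ∈ (S.C j).M,
    (S.C i).T m = (S.C j).T m' → LocIso (S.C i) (S.C j) m m' := by
  intro i j m hm m' hm' h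
  fin_cases i <;> fin_cases j
  · exact pair00 S.c0 hm hm' h
  · exact (S.pair0I hm hm' h).loc
  · exact (S.pair01 hm hm' h).loc
  · exact (S.pair0I hm' hm h.symm).symm.loc
  · exact pairII S.cI hm hm' h
  · exact (S.pairI1 hm hm' h).loc
  · exact (S.pair01 hm' hm h.symm).symm.loc
  · exact (S.pairI1 hm' hm h.symm).symm.loc
  · exact pair11 S.c1 hm hm' h

/-- compact pieces of the centre charts -/
def Kc (p : ℕ) (δ : ℝ) : Set ℂ := closedBall 0 1 ∩ {ζ | δ ≤ ‖ζ ^ p - 1‖}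

theorem isCompact_Kc (p : ℕ) (δ : ℝ) : IsCompact (Kc p δ) := by
  apply (isCompact_closedBall 0 1).inter_right
  apply isClosed_le continuous_const
  fun_prop

theorem Kc_subset {p : ℕ} {δ : ℝ} (hδ : 0 < δ) : Kc p δ ⊆ M0 p := by
  rintro ζ ⟨h1, h2⟩
  have h3 : ‖ζ ^ p‖ ≤ 1 := by
    rw [norm_pow]
    exact pow_le_one₀ (norm_nonneg _) (by simpa using h1)
  have h4 : ζ ^ p ≠ 1 := by
    intro h
    have : δ ≤ ‖ζ ^ p - 1‖ := h2
    rw [h, sub_self, norm_zero] at this
    linarith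
  change 1 - ζ ^ p ∈ Complex.slitPlane
  rw [Complex.mem_slitPlane_iff]
  rcases lt_or_ge (ζ ^ p).re 1 with h | h
  · left
    rw [Complex.sub_re, Complex.one_re]; linarith
  · exfalso
    have h5 := Complex.sq_norm_sub_sq_re (ζ ^ p)
    have h6 : (ζ ^ p).re ≤ 1 := (Complex.re_le_norm _).trans h3
    have h7 : (ζ ^ p).re = 1 := le_antisymm h6 h
    have h8 : (ζ ^ p).im ^ 2 ≤ 0 := by
      rw [← h5, h7]; nlinarith [norm_nonneg (ζ ^ p)]
    have h9 : (ζ ^ p).im = 0 := by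
      have := sq_nonneg (ζ ^ p).im
      exact pow_eq_zero_iff two_ne_zero |>.mp (le_antisymm h8 this)
    exact h4 (Complex.ext (by simpa using h7) (by simpa using h9))

theorem exists_root {p : ℕ} (hp : 0 < p) (t : ℂ) (ht : ‖t‖ ≤ 1) : ∃ m : ℂ, m ^ p = t ∧ ‖m‖ ≤ 1 := by
  obtain ⟨m, hm⟩ := IsAlgClosed.exists_pow_nat_eq t hp
  refine ⟨m, hm, ?_⟩
  have h1 : ‖m‖ ^ p ≤ 1 := by rw [← norm_pow, hm]; exact ht
  by_contra hc
  push Not at hc
  have := one_lt_pow₀ hc hp.ne'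
  linarith

theorem Sys.cover (S : Sys) : ∃ N : Fin 3 → Set ℂ, (∀ i, IsCompact (N i)) ∧
    (∀ i, N i ⊆ (S.C i).M) ∧ ∀ t : Option ℂ, ∃ j, ∃ m' ∈ N j, (S.C j).T m' = t := by
  have hε := S.c1.εpos
  -- the logarithm near 1
  have hlog : ∀ᶠ t : ℂ in 𝓝 1, t ≠ 0 ∧ ‖Complex.log t‖ < (S.c1.ε / 2) ^ 2 := by
    have h1 : ContinuousAt Complex.log 1 := continuousAt_clog (by simp)
    have h2 : Tendsto (fun t : ℂ => ‖Complex.log t‖) (𝓝 1) (𝓝 0) := by
      have := h1.norm.tendsto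
      simpa using this
    have h3 := h2.eventually (gt_mem_nhds (show (0 : ℝ) < (S.c1.ε / 2) ^ 2 by positivity))
    filter_upwards [isOpen_ne.mem_nhds (one_ne_zero), h3] with t ht1 ht2
    exact ⟨ht1, ht2⟩
  obtain ⟨δ', hδ', hball⟩ := Metric.eventually_nhds_iff_ball.mp hlog
  set δ := min (δ' / 2) (1 / 2) with hδdef
  have hδ : 0 < δ := by positivity
  refine ⟨![Kc S.c0.p δ, Kc S.cI.p δ, closedBall 0 (S.c1.ε / 2)], ?_, ?_, ?_⟩
  · intro i
    fin_cases i
    · exact isCompact_Kc _ _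
    · exact isCompact_Kc _ _
    · exact isCompact_closedBall _ _
  · intro i
    fin_cases i
    · exact Kc_subset hδ
    · exact Kc_subset hδ
    · exact closedBall_subset_ball (by linarith)
  · have hzero : ∀ p : ℕ, 0 < p → (0 : ℂ) ∈ Kc p δ := by
      intro p hp
      refine ⟨by simp, ?_⟩
      change δ ≤ ‖(0 : ℂ) ^ p - 1‖
      rw [zero_pow hp.ne', zero_sub, norm_neg, norm_one]
      exact (min_le_right _ _).trans (by norm_num)
    intro t
    cases t with
    | none => exact ⟨1, 0, hzero _ S.cI.k2.ppos, S.cI.T'_zero⟩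
    | some t =>
      by_cases h1 : t ∈ ball (1 : ℂ) δ'
      · obtain ⟨ht0, ht1⟩ := hball t h1
        obtain ⟨m, hm⟩ := IsAlgClosed.exists_pow_nat_eq (-Complex.log t) two_pos
        refine ⟨2, m, ?_, ?_⟩
        · change m ∈ closedBall (0 : ℂ) (S.c1.ε / 2)
          rw [mem_closedBall_zero_iff]
          have : ‖m‖ ^ 2 ≤ (S.c1.ε / 2) ^ 2 := by
            rw [← norm_pow, hm, norm_neg]; exact ht1.le
          exact (pow_le_pow_iff_left₀ (norm_nonneg _) (by positivity) two_ne_zero).mp this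
        · change S.c1.chart.T m = _
          rw [S.c1.T_eq, hm, neg_neg, Complex.exp_log ht0]
      · have h1' : δ' ≤ ‖t - 1‖ := by
          rw [mem_ball, dist_eq_norm] at h1
          linarith
        rcases le_or_gt ‖t‖ 1 with h2 | h2
        · obtain ⟨m, hm, hm1⟩ := exists_root S.c0.k2.ppos t h2
          refine ⟨0, m, ⟨by simpa using hm1, ?_⟩, ?_⟩
          · change δ ≤ ‖m ^ S.c0.p - 1‖
            rw [hm]
            have : δ ≤ δ' / 2 := min_le_left _ _
            linarith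
          · change S.c0.chart.T m = _
            rw [S.c0.T_eq, hm]
        · have ht0 : t ≠ 0 := by
            intro h; rw [h, norm_zero] at h2; linarith
          obtain ⟨m, hm, hm1⟩ := exists_root S.cI.k2.ppos t⁻¹ (by
            rw [norm_inv]; exact inv_le_one_of_one_le₀ h2.le)
          have hm0 : m ≠ 0 := by
            intro h
            rw [h, zero_pow S.cI.k2.ppos.ne'] at hm
            exact inv_ne_zero ht0 hm.symm
          refine ⟨1, m, ⟨by simpa using hm1, ?_⟩, ?_⟩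
          · change δ ≤ ‖m ^ S.cI.p - 1‖
            rw [hm]
            have e1 : ‖t⁻¹ - 1‖ = ‖t - 1‖ / ‖t‖ := by
              rw [← norm_div, ← norm_neg (t⁻¹ - 1)]
              congr 1
              field_simp
              ring
            rw [e1, le_div_iff₀ (by linarith)]
            have e2 : ‖t‖ - 1 ≤ ‖t - 1‖ := by
              have := norm_sub_norm_le t 1
              simpa using this
            have e3 : δ ≤ δ' / 2 := min_le_left _ _
            have e4 : δ ≤ 1 / 2 := min_le_right _ _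
            rcases le_or_gt ‖t‖ 2 with h3 | h3
            · nlinarith
            · nlinarith
          · change S.cI.chart'.T m = _
            rw [S.cI.T'_eq hm0, hm, inv_inv]

theorem Sys.conn (S : Sys) : ∀ i, ∃ m ∈ (S.C 0).M, ∃ m' ∈ (S.C i).M, (S.C 0).T m = (S.C i).T m' := by
  have hslit : ∀ p : ℕ, ∀ m : ℂ, m ^ p = -1 → m ∈ M0 p := by
    intro p m hm
    change 1 - m ^ p ∈ Complex.slitPlane
    rw [hm, Complex.mem_slitPlane_iff]
    left; norm_num
  intro i
  fin_cases i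
  · obtain ⟨m, hm⟩ := IsAlgClosed.exists_pow_nat_eq (-1 : ℂ) S.c0.k2.ppos
    exact ⟨m, hslit _ m hm, m, hslit _ m hm, rfl⟩
  · obtain ⟨m, hm⟩ := IsAlgClosed.exists_pow_nat_eq (-1 : ℂ) S.c0.k2.ppos
    obtain ⟨m', hm'⟩ := IsAlgClosed.exists_pow_nat_eq (-1 : ℂ) S.cI.k2.ppos
    refine ⟨m, hslit _ m hm, m', hslit _ m' hm', ?_⟩
    change S.c0.chart.T m = S.cI.chart'.T m'
    have h0 : m' ≠ 0 := by
      intro h
      rw [h, zero_pow S.cI.k2.ppos.ne'] at hm'
      norm_num at hm'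
    rw [S.c0.T_eq, S.cI.T'_eq h0, hm, hm']
    norm_num
  · have hε := S.c1.εpos
    obtain ⟨m, hm⟩ := IsAlgClosed.exists_pow_nat_eq (Complex.exp (-((S.c1.ε / 2 : ℝ) : ℂ) ^ 2))
      S.c0.k2.ppos
    refine ⟨m, ?_, ((S.c1.ε / 2 : ℝ) : ℂ), ?_, ?_⟩
    · change 1 - m ^ S.c0.p ∈ Complex.slitPlane
      rw [hm]
      have e1 : -((S.c1.ε / 2 : ℝ) : ℂ) ^ 2 = ((-(S.c1.ε / 2) ^ 2 : ℝ) : ℂ) := by push_cast; ring
      rw [e1, ← Complex.ofReal_exp, Complex.mem_slitPlane_iff]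
      left
      rw [Complex.sub_re, Complex.one_re, Complex.ofReal_re]
      have : Real.exp (-(S.c1.ε / 2) ^ 2) < 1 := by
        rw [Real.exp_lt_one_iff]
        have : 0 < (S.c1.ε / 2) ^ 2 := by positivity
        linarith
      linarith
    · change ((S.c1.ε / 2 : ℝ) : ℂ) ∈ ball (0 : ℂ) S.c1.ε
      rw [mem_ball_zero_iff, Complex.norm_real, Real.norm_eq_abs, abs_of_pos (by positivity)]
      linarith
    · change S.c0.chart.T m = S.c1.chart.T _
      rw [S.c0.T_eq, S.c1.T_eq, hm]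

end Pool.Agent.BallCurve
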