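import Mathlib

/-!
Basic API: the unit ball of a complex inner product space `V`, seen as the projectivised
positive cone of the form `‖c‖² - ‖v‖²` on `ℂ × V`, and its automorphisms `act L`.
-/

set_option autoImplicit false
set_option linter.unusedSectionVars false
set_option linter.unusedSimpArgs false

open Metric Set Filter Topology ComplexConjugate

namespace Pool.Agent.BallCurve

variable {V : Type*} [NormedAddCommGroup V] [InnerProductSpace ℂ V]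

/-- The quadratic form `|c|² - ‖v‖²` on `ℂ × V`. -/
noncomputable def qf (x : ℂ × V) : ℝ := ‖x.1‖ ^ 2 - ‖x.2‖ ^ 2

/-- The hermitian form polarising `qf` (conjugate linear in the first variable). -/
noncomputable def hf (x y : ℂ × V) : ℂ := conj x.1 * y.1 - inner ℂ x.2 y.2

variable (V) in
/-- The group `U(1,V)`. -/
noncomputable def UG : Subgroup ((ℂ × V) ≃L[ℂ] (ℂ × V)) where
  carrier := {L | ∀ x, qf (L x) = qf x}
  mul_mem' := by
    intro a b ha hb x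
    have h1 : (a * b) x = a (b x) := rfl
    rw [h1, ha, hb]
  one_mem' := by
    intro x; rfl
  inv_mem' := by
    intro a ha x
    have h := ha (a⁻¹ x)
    have h1 : a (a⁻¹ x) = x := a.apply_symm_apply x
    rw [h1] at h
    exact h.symm

/-- Action of a linear map of `ℂ × V` on `V` by linear fractional maps. -/
noncomputable def act (L : (ℂ × V) ≃L[ℂ] (ℂ × V)) (v : V) : V :=
  (L (1, v)).1⁻¹ • (L (1, v)).2

/-- The invariant `cosh²` of the hyperbolic distance. -/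
noncomputable def Yf (a b : V) : ℝ := ‖1 - inner ℂ a b‖ ^ 2 / ((1 - ‖a‖ ^ 2) * (1 - ‖b‖ ^ 2))

theorem hf_self (x : ℂ × V) : hf x x = (qf x : ℂ) := by
  unfold hf qf
  rw [inner_self_eq_norm_sq_to_K, ← Complex.normSq_eq_conj_mul_self, Complex.normSq_eq_norm_sq]
  push_cast
  simp

theorem qf_add (x y : ℂ × V) : qf (x + y) = qf x + qf y + 2 * (hf x y).re := by
  unfold qf hf
  have h1 : ‖x.1 + y.1‖ ^ 2 = ‖x.1‖ ^ 2 + 2 * (conj x.1 * y.1).re + ‖y.1‖ ^ 2 := by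
    rw [← Complex.normSq_eq_norm_sq, ← Complex.normSq_eq_norm_sq, ← Complex.normSq_eq_norm_sq,
      Complex.normSq_add]
    have : (x.1 * conj y.1).re = (conj x.1 * y.1).re := by
      rw [← Complex.conj_re]; simp
    rw [this]; ring
  have h2 : ‖x.2 + y.2‖ ^ 2 = ‖x.2‖ ^ 2 + 2 * (inner ℂ x.2 y.2).re + ‖y.2‖ ^ 2 := by
    have := @norm_add_sq ℂ V _ _ _ x.2 y.2
    simpa using this
  simp only [Prod.fst_add, Prod.snd_add, Complex.sub_re]
  rw [h1, h2]; ring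

theorem hf_smul_right (c : ℂ) (x y : ℂ × V) : hf x (c • y) = c * hf x y := by
  unfold hf
  simp only [Prod.smul_fst, Prod.smul_snd, inner_smul_right, smul_eq_mul]
  ring

theorem hf_smul_left (c : ℂ) (x y : ℂ × V) : hf (c • x) y = conj c * hf x y := by
  unfold hf
  simp only [Prod.smul_fst, Prod.smul_snd, inner_smul_left, smul_eq_mul, map_mul]
  ring

theorem hf_conj_symm (x y : ℂ × V) : conj (hf x y) = hf y x := by
  unfold hf
  simp only [map_sub, map_mul, Complex.conj_conj, inner_conj_symm]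
  ring

theorem hf_map (L : (ℂ × V) ≃L[ℂ] (ℂ × V)) (hL : L ∈ UG V) (x y : ℂ × V) :
    hf (L x) (L y) = hf x y := by
  have key : ∀ x y : ℂ × V, (hf (L x) (L y)).re = (hf x y).re := by
    intro x y
    have h1 := hL (x + y)
    rw [map_add, qf_add, qf_add, hL x, hL y] at h1
    linarith
  apply Complex.ext
  · exact key x y
  · have h := key x ((-Complex.I) • y)
    rw [map_smul, hf_smul_right, hf_smul_right] at h
    simpa [Complex.mul_re] using h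

theorem qf_one (v : V) : qf ((1 : ℂ), v) = 1 - ‖v‖ ^ 2 := by
  simp [qf]

theorem qf_pos_of_mem {v : V} (hv : v ∈ ball (0 : V) 1) : 0 < qf ((1 : ℂ), v) := by
  rw [qf_one]
  have : ‖v‖ < 1 := by simpa using hv
  nlinarith [norm_nonneg v]

theorem fst_ne_zero_of_qf_pos {x : ℂ × V} (hx : 0 < qf x) : x.1 ≠ 0 := by
  intro h
  unfold qf at hx
  rw [h] at hx
  simp at hx
  nlinarith [sq_nonneg ‖x.2‖]

theorem fst_ne_zero {L : (ℂ × V) ≃L[ℂ] (ℂ × V)} (hL : L ∈ UG V) {v : V}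
    (hv : v ∈ ball (0 : V) 1) : (L (1, v)).1 ≠ 0 := by
  apply fst_ne_zero_of_qf_pos
  rw [hL]; exact qf_pos_of_mem hv

/-- `L (1, v) = c • (1, act L v)`. -/
theorem map_one_eq {L : (ℂ × V) ≃L[ℂ] (ℂ × V)} (hL : L ∈ UG V) {v : V}
    (hv : v ∈ ball (0 : V) 1) : L (1, v) = (L (1, v)).1 • ((1 : ℂ), act L v) := by
  have h := fst_ne_zero hL hv
  apply Prod.ext
  · simp
  · simp [act, smul_smul, mul_inv_cancel₀ h]

theorem mem_ball_of_qf_pos {x : ℂ × V} (hx : 0 < qf x) : x.1⁻¹ • x.2 ∈ ball (0 : V) 1 := by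
  have h := fst_ne_zero_of_qf_pos hx
  unfold qf at hx
  rw [mem_ball_zero_iff, norm_smul, norm_inv]
  have h1 : ‖x.2‖ < ‖x.1‖ := by
    have := norm_nonneg x.1
    have := norm_nonneg x.2
    nlinarith
  rw [inv_mul_lt_iff₀ (norm_pos_iff.mpr h)]
  simpa using h1

theorem act_mem {L : (ℂ × V) ≃L[ℂ] (ℂ × V)} (hL : L ∈ UG V) {v : V}
    (hv : v ∈ ball (0 : V) 1) : act L v ∈ ball (0 : V) 1 := by
  apply mem_ball_of_qf_pos
  rw [hL]; exact qf_pos_of_mem hv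

theorem act_of_eq_smul {L : (ℂ × V) ≃L[ℂ] (ℂ × V)} {v w : V} {c : ℂ} (hc : c ≠ 0)
    (h : L (1, v) = c • ((1 : ℂ), w)) : act L v = w := by
  unfold act
  rw [h]
  simp [smul_smul, inv_mul_cancel₀ hc]

theorem act_mul {L M : (ℂ × V) ≃L[ℂ] (ℂ × V)} (hL : L ∈ UG V) (hM : M ∈ UG V) {v : V}
    (hv : v ∈ ball (0 : V) 1) : act (L * M) v = act L (act M v) := by
  have h1 : (L * M) (1, v) = L (M (1, v)) := rfl
  have h2 := map_one_eq hM hv
  have h3 := map_one_eq hL (act_mem hM hv)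
  apply act_of_eq_smul (c := (M (1, v)).1 * (L (1, act M v)).1)
  · exact mul_ne_zero (fst_ne_zero hM hv) (fst_ne_zero hL (act_mem hM hv))
  · rw [h1, h2, map_smul, h3, smul_smul]
    simp

theorem act_one (v : V) : act (1 : (ℂ × V) ≃L[ℂ] (ℂ × V)) v = v := by
  have : (1 : (ℂ × V) ≃L[ℂ] (ℂ × V)) (1, v) = (1, v) := rfl
  simp [act, this]

theorem act_inv_act {L : (ℂ × V) ≃L[ℂ] (ℂ × V)} (hL : L ∈ UG V) {v : V}
    (hv : v ∈ ball (0 : V) 1) : act L⁻¹ (act L v) = v := by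
  rw [← act_mul ((UG V).inv_mem hL) hL hv, inv_mul_cancel, act_one]

theorem act_act_inv {L : (ℂ × V) ≃L[ℂ] (ℂ × V)} (hL : L ∈ UG V) {v : V}
    (hv : v ∈ ball (0 : V) 1) : act L (act L⁻¹ v) = v := by
  rw [← act_mul hL ((UG V).inv_mem hL) hv, mul_inv_cancel, act_one]

theorem act_injOn {L : (ℂ × V) ≃L[ℂ] (ℂ × V)} (hL : L ∈ UG V) :
    InjOn (act L) (ball (0 : V) 1) := by
  intro x hx y hy hxy
  rw [← act_inv_act hL hx, ← act_inv_act hL hy, hxy]

theorem act_differentiableAt {L : (ℂ × V) ≃L[ℂ] (ℂ × V)} (hL : L ∈ UG V) {v : V}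
    (hv : v ∈ ball (0 : V) 1) : DifferentiableAt ℂ (act L) v := by
  unfold act
  have h1 : DifferentiableAt ℂ (fun v : V => L ((1 : ℂ), v)) v :=
    L.differentiableAt.comp v ((differentiableAt_const _).prodMk differentiableAt_id)
  exact (h1.fst.inv (fst_ne_zero hL hv)).smul h1.snd

theorem act_differentiableOn {L : (ℂ × V) ≃L[ℂ] (ℂ × V)} (hL : L ∈ UG V) :
    DifferentiableOn ℂ (act L) (ball (0 : V) 1) := fun _ hv =>
  (act_differentiableAt hL hv).differentiableWithinAt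

theorem act_continuousOn {L : (ℂ × V) ≃L[ℂ] (ℂ × V)} (hL : L ∈ UG V) :
    ContinuousOn (act L) (ball (0 : V) 1) := (act_differentiableOn hL).continuousOn

theorem Yf_eq (a b : V) : Yf a b = ‖hf ((1 : ℂ), a) ((1 : ℂ), b)‖ ^ 2 /
    (qf ((1 : ℂ), a) * qf ((1 : ℂ), b)) := by
  simp [Yf, hf, qf]

theorem qf_smul (c : ℂ) (x : ℂ × V) : qf (c • x) = ‖c‖ ^ 2 * qf x := by
  simp only [qf, Prod.smul_fst, Prod.smul_snd, norm_smul, smul_eq_mul, norm_mul]
  ring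

theorem Yf_act {L : (ℂ × V) ≃L[ℂ] (ℂ × V)} (hL : L ∈ UG V) {a b : V}
    (ha : a ∈ ball (0 : V) 1) (hb : b ∈ ball (0 : V) 1) : Yf (act L a) (act L b) = Yf a b := by
  rw [Yf_eq, Yf_eq]
  have h1 := hf_map L hL (1, a) (1, b)
  have h2 := hL (1, a)
  have h3 := hL (1, b)
  rw [map_one_eq hL ha, map_one_eq hL hb, hf_smul_left, hf_smul_right] at h1
  rw [map_one_eq hL ha, qf_smul] at h2
  rw [map_one_eq hL hb, qf_smul] at h3
  rw [← h1, ← h2, ← h3]
  have hca := fst_ne_zero hL ha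
  have hcb := fst_ne_zero hL hb
  have h4 : 0 < ‖(L (1, a)).1‖ := norm_pos_iff.mpr hca
  have h5 : 0 < ‖(L (1, b)).1‖ := norm_pos_iff.mpr hcb
  simp only [norm_mul, RCLike.norm_conj]
  have h6 := (qf_pos_of_mem (act_mem hL ha)).ne'
  have h7 := (qf_pos_of_mem (act_mem hL hb)).ne'
  field_simp

/-- For `L ∈ U(1,V)`: `‖act L 0‖ = ‖act L⁻¹ 0‖`. -/
theorem norm_act_zero {L : (ℂ × V) ≃L[ℂ] (ℂ × V)} (hL : L ∈ UG V) :
    ‖act L 0‖ = ‖act L⁻¹ 0‖ := by
  have h0 : (0 : V) ∈ ball (0 : V) 1 := by simp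
  have h1 : hf ((1 : ℂ), (0 : V)) (L (1, 0)) = (L (1, 0)).1 := by simp [hf]
  have h2 : hf ((1 : ℂ), (0 : V)) (L⁻¹ (1, 0)) = (L⁻¹ (1, 0)).1 := by simp [hf]
  have h3 : hf ((1 : ℂ), (0 : V)) (L⁻¹ (1, 0)) = conj (hf ((1 : ℂ), (0 : V)) (L (1, 0))) := by
    rw [hf_conj_symm]
    have := hf_map L hL (1, 0) (L⁻¹ (1, 0))
    have h4 : L (L⁻¹ (1, 0)) = (1, 0) := L.apply_symm_apply _
    rw [h4] at this
    exact this.symm
  have h5 : ‖(L⁻¹ ((1 : ℂ), (0 : V))).1‖ = ‖(L (1, 0)).1‖ := by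
    rw [← h1, ← h2, h3, RCLike.norm_conj]
  have key : ∀ M ∈ UG V, ‖act M (0 : V)‖ ^ 2 = 1 - 1 / ‖(M ((1 : ℂ), (0 : V))).1‖ ^ 2 := by
    intro M hM
    have h6 := hM ((1 : ℂ), (0 : V))
    rw [map_one_eq hM h0, qf_smul, qf_one, qf_one] at h6
    have h7 : 0 < ‖(M ((1 : ℂ), (0 : V))).1‖ ^ 2 := by
      have := norm_pos_iff.mpr (fst_ne_zero hM h0); positivity
    simp only [norm_zero] at h6
    have h8 : ‖act M (0 : V)‖ ^ 2 = 1 - 1 / ‖(M ((1 : ℂ), (0 : V))).1‖ ^ 2 := by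
      rw [eq_sub_iff_add_eq, ← eq_sub_iff_add_eq', div_eq_iff h7.ne']
      linarith
    exact h8
  have h8 := key L hL
  have h9 := key L⁻¹ ((UG V).inv_mem hL)
  rw [h5] at h9
  have h10 : ‖act L (0 : V)‖ ^ 2 = ‖act L⁻¹ (0 : V)‖ ^ 2 := by rw [h8, h9]
  exact (pow_left_inj₀ (norm_nonneg _) (norm_nonneg _) two_ne_zero).mp h10

/-- The boost with parameter `a` as a linear map. -/
noncomputable def boostL (a : V) : (ℂ × V) →ₗ[ℂ] (ℂ × V) where
  toFun x := (((Real.sqrt (1 - ‖a‖ ^ 2) : ℝ) : ℂ)⁻¹ * (x.1 - inner ℂ a x.2),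
    x.2 + ((((Real.sqrt (1 - ‖a‖ ^ 2) : ℝ) : ℂ) * (1 + ((Real.sqrt (1 - ‖a‖ ^ 2) : ℝ) : ℂ)))⁻¹ *
      inner ℂ a x.2) • a - (((Real.sqrt (1 - ‖a‖ ^ 2) : ℝ) : ℂ)⁻¹ * x.1) • a)
  map_add' x y := by
    ext
    · simp [inner_add_right]; ring
    · simp only [Prod.fst_add, Prod.snd_add, inner_add_right]
      module
  map_smul' c x := by
    ext
    · simp [inner_smul_right]; ring
    · simp only [Prod.smul_fst, Prod.smul_snd, inner_smul_right, smul_eq_mul, RingHom.id_apply]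
      module

theorem boostL_boostL {a : V} (ha : a ∈ ball (0 : V) 1) (x : ℂ × V) :
    boostL (-a) (boostL a x) = x := by
  have hn : ‖a‖ < 1 := by simpa using ha
  set s : ℝ := Real.sqrt (1 - ‖a‖ ^ 2) with hs
  have hs2 : s ^ 2 = 1 - ‖a‖ ^ 2 := Real.sq_sqrt (by nlinarith [norm_nonneg a])
  have hspos : 0 < s := Real.sqrt_pos.mpr (by nlinarith [norm_nonneg a])
  have hsc : ((s : ℝ) : ℂ) ≠ 0 := by exact_mod_cast hspos.ne'
  have hs1 : (1 + (s : ℂ)) ≠ 0 := by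
    have : (1 + s : ℝ) ≠ 0 := by positivity
    exact_mod_cast this
  have haa : (inner ℂ a a : ℂ) = 1 - (s : ℂ) ^ 2 := by
    rw [inner_self_eq_norm_sq_to_K]
    have : ‖a‖ ^ 2 = 1 - s ^ 2 := by linarith
    have h2 : ((‖a‖ : ℝ) : ℂ) ^ 2 = ((‖a‖ ^ 2 : ℝ) : ℂ) := by push_cast; ring
    calc ((‖a‖ : ℝ) : ℂ) ^ 2 = ((‖a‖ ^ 2 : ℝ) : ℂ) := h2
      _ = 1 - (s : ℂ) ^ 2 := by rw [this]; push_cast; ring
  unfold boostL
  simp only [LinearMap.coe_mk, AddHom.coe_mk, norm_neg, ← hs]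
  ext
  · simp only [inner_neg_left, inner_sub_right, inner_add_right, inner_smul_right, haa]
    field_simp
    ring
  · simp only [inner_neg_left, inner_sub_right, inner_add_right, inner_smul_right, haa, smul_neg]
    match_scalars
    · ring
    · field_simp
      ring

theorem continuous_boostL (a : V) : Continuous (boostL a) := by
  have : (boostL a : ℂ × V → ℂ × V) = fun x => (((Real.sqrt (1 - ‖a‖ ^ 2) : ℝ) : ℂ)⁻¹ *
      (x.1 - inner ℂ a x.2),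
    x.2 + ((((Real.sqrt (1 - ‖a‖ ^ 2) : ℝ) : ℂ) * (1 + ((Real.sqrt (1 - ‖a‖ ^ 2) : ℝ) : ℂ)))⁻¹ *
      inner ℂ a x.2) • a - (((Real.sqrt (1 - ‖a‖ ^ 2) : ℝ) : ℂ)⁻¹ * x.1) • a) := rfl
  rw [this]
  fun_prop

theorem qf_boostL {a : V} (ha : a ∈ ball (0 : V) 1) (x : ℂ × V) :
    qf (boostL a x) = qf x := by
  have hn : ‖a‖ < 1 := by simpa using ha
  set s : ℝ := Real.sqrt (1 - ‖a‖ ^ 2) with hs
  have hs2 : s ^ 2 = 1 - ‖a‖ ^ 2 := Real.sq_sqrt (by nlinarith [norm_nonneg a])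
  have hspos : 0 < s := Real.sqrt_pos.mpr (by nlinarith [norm_nonneg a])
  have hsc : ((s : ℝ) : ℂ) ≠ 0 := by exact_mod_cast hspos.ne'
  have hs1 : (1 + (s : ℂ)) ≠ 0 := by
    have : (1 + s : ℝ) ≠ 0 := by positivity
    exact_mod_cast this
  have haa : (inner ℂ a a : ℂ) = 1 - (s : ℂ) ^ 2 := by
    rw [inner_self_eq_norm_sq_to_K]
    have : ‖a‖ ^ 2 = 1 - s ^ 2 := by linarith
    have h2 : ((‖a‖ : ℝ) : ℂ) ^ 2 = ((‖a‖ ^ 2 : ℝ) : ℂ) := by push_cast; ring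
    calc ((‖a‖ : ℝ) : ℂ) ^ 2 = ((‖a‖ ^ 2 : ℝ) : ℂ) := h2
      _ = 1 - (s : ℂ) ^ 2 := by rw [this]; push_cast; ring
  have key : ((qf (boostL a x) : ℝ) : ℂ) = ((qf x : ℝ) : ℂ) := by
    rw [← hf_self, ← hf_self]
    unfold hf boostL
    have hcj : (inner ℂ x.2 a : ℂ) = conj (inner ℂ a x.2) := (inner_conj_symm _ _).symm
    simp only [LinearMap.coe_mk, AddHom.coe_mk, ← hs, inner_sub_right, inner_add_right,
      inner_smul_right, inner_sub_left, inner_add_left, inner_smul_left, haa, map_mul, map_sub,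
      map_inv₀, map_add, map_one, Complex.conj_ofReal, hcj]
    field_simp
    ring
  exact_mod_cast key

/-- The boost as an element of `U(1,V)`. -/
noncomputable def boost (a : V) (ha : a ∈ ball (0 : V) 1) : (ℂ × V) ≃L[ℂ] (ℂ × V) where
  toLinearEquiv := LinearEquiv.ofLinearMap (boostL a) (boostL (-a))
    (by
      apply LinearMap.ext; intro x
      have := boostL_boostL (a := -a) (by simpa using ha) x
      simpa using this)
    (by
      apply LinearMap.ext; intro x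
      have := boostL_boostL ha x
      simpa using this)
  continuous_toFun := continuous_boostL a
  continuous_invFun := continuous_boostL (-a)

theorem boost_mem {a : V} (ha : a ∈ ball (0 : V) 1) : boost a ha ∈ UG V := fun x =>
  qf_boostL ha x

theorem act_boost {a : V} (ha : a ∈ ball (0 : V) 1) : act (boost a ha) a = 0 := by
  have hn : ‖a‖ < 1 := by simpa using ha
  set s : ℝ := Real.sqrt (1 - ‖a‖ ^ 2) with hs
  have hs2 : s ^ 2 = 1 - ‖a‖ ^ 2 := Real.sq_sqrt (by nlinarith [norm_nonneg a])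
  have hspos : 0 < s := Real.sqrt_pos.mpr (by nlinarith [norm_nonneg a])
  have hsc : ((s : ℝ) : ℂ) ≠ 0 := by exact_mod_cast hspos.ne'
  have hs1 : (1 + (s : ℂ)) ≠ 0 := by
    have : (1 + s : ℝ) ≠ 0 := by positivity
    exact_mod_cast this
  have haa : (inner ℂ a a : ℂ) = 1 - (s : ℂ) ^ 2 := by
    rw [inner_self_eq_norm_sq_to_K]
    have : ‖a‖ ^ 2 = 1 - s ^ 2 := by linarith
    have h2 : ((‖a‖ : ℝ) : ℂ) ^ 2 = ((‖a‖ ^ 2 : ℝ) : ℂ) := by push_cast; ring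
    calc ((‖a‖ : ℝ) : ℂ) ^ 2 = ((‖a‖ ^ 2 : ℝ) : ℂ) := h2
      _ = 1 - (s : ℂ) ^ 2 := by rw [this]; push_cast; ring
  have h1 : (boost a ha) ((1 : ℂ), a) = boostL a (1, a) := rfl
  unfold act
  rw [h1]
  unfold boostL
  simp only [LinearMap.coe_mk, AddHom.coe_mk, ← hs, haa]
  rw [show (a + (((s : ℂ) * (1 + (s : ℂ)))⁻¹ * (1 - (s : ℂ) ^ 2)) • a - ((s : ℂ)⁻¹ * 1) • a : V)
    = (1 + ((s : ℂ) * (1 + (s : ℂ)))⁻¹ * (1 - (s : ℂ) ^ 2) - (s : ℂ)⁻¹ * 1) • a by module]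
  have : (1 + ((s : ℂ) * (1 + (s : ℂ)))⁻¹ * (1 - (s : ℂ) ^ 2) - (s : ℂ)⁻¹ * 1) = 0 := by
    field_simp
    ring
  rw [this]; simp

/-- Transitivity. -/
theorem exists_act_eq_zero {a : V} (ha : a ∈ ball (0 : V) 1) :
    ∃ L ∈ UG V, act L a = 0 := ⟨boost a ha, boost_mem ha, act_boost ha⟩

theorem exists_act_zero_eq {a : V} (ha : a ∈ ball (0 : V) 1) :
    ∃ L ∈ UG V, act L 0 = a := by
  refine ⟨(boost a ha)⁻¹, (UG V).inv_mem (boost_mem ha), ?_⟩
  rw [← act_boost ha, act_inv_act (boost_mem ha) ha]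

/-- Multiplication by a scalar of modulus one on the `V` part. -/
noncomputable def rot (c : ℂ) (hc : ‖c‖ = 1) : (ℂ × V) ≃L[ℂ] (ℂ × V) :=
  (ContinuousLinearEquiv.refl ℂ ℂ).prodCongr
    (ContinuousLinearEquiv.smulLeft (Units.mk0 c (by rintro rfl; simp at hc)))

theorem rot_mem (c : ℂ) (hc : ‖c‖ = 1) : (rot c hc : (ℂ × V) ≃L[ℂ] (ℂ × V)) ∈ UG V := by
  intro x
  have : (rot c hc : (ℂ × V) ≃L[ℂ] (ℂ × V)) x = (x.1, c • x.2) := rfl
  rw [this]
  simp [qf, norm_smul, hc]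

theorem act_rot (c : ℂ) (hc : ‖c‖ = 1) (v : V) : act (rot c hc) v = c • v := by
  have : (rot c hc : (ℂ × V) ≃L[ℂ] (ℂ × V)) (1, v) = (1, c • v) := rfl
  simp [act, this]

end Pool.Agent.BallCurve
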