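import Pool.Agent.MP_071e05_an.Kernel

/-!
Facts about `FK` in the logarithmic variable, boundary behaviour on the cut.
-/

set_option autoImplicit false
set_option linter.unusedVariables false

open MeasureTheory Set Filter Topology ComplexConjugate

namespace Pool.Agent.BallCurve

variable {ν : Measure ℝ}

theorem FK_conj (e : ℝ) (τ : ℂ) : FK ν e (conj τ) = conj (FK ν e τ) := by
  unfold FK
  rw [Complex.exp_conj τ, hK_conj, map_mul, ← Complex.exp_conj, map_mul, Complex.conj_ofReal]

theorem FK_period (e : ℝ) (τ : ℂ) :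
    FK ν e (τ + 2 * Real.pi * Complex.I) =
      Complex.exp (e * (2 * Real.pi * Complex.I)) * FK ν e τ := by
  unfold FK
  rw [Complex.exp_periodic τ, mul_add, Complex.exp_add]
  ring

theorem slit_of_re_neg {τ : ℂ} (h : τ.re < 0) : 1 - Complex.exp τ ∈ Complex.slitPlane := by
  left
  rw [Complex.sub_re, Complex.one_re]
  have h1 : (Complex.exp τ).re ≤ ‖Complex.exp τ‖ := Complex.re_le_norm _
  rw [Complex.norm_exp] at h1
  have : Real.exp τ.re < 1 := by simpa using h
  linarith

theorem slit_of_strip {τ : ℂ} (h0 : 0 < τ.im) (h1 : τ.im < 2 * Real.pi) :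
    1 - Complex.exp τ ∈ Complex.slitPlane := by
  rcases lt_trichotomy τ.im Real.pi with h | h | h
  · right
    rw [Complex.sub_im, Complex.one_im, Complex.exp_im]
    have := Real.sin_pos_of_pos_of_lt_pi h0 h
    have := Real.exp_pos τ.re
    have : 0 < Real.exp τ.re * Real.sin τ.im := by positivity
    linarith
  · left
    rw [Complex.sub_re, Complex.one_re, Complex.exp_re, h, Real.cos_pi]
    have := Real.exp_pos τ.re
    linarith
  · right
    rw [Complex.sub_im, Complex.one_im, Complex.exp_im]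
    have h2 : Real.sin (τ.im - Real.pi) > 0 :=
      Real.sin_pos_of_pos_of_lt_pi (by linarith) (by linarith)
    rw [Real.sin_sub_pi] at h2
    have := Real.exp_pos τ.re
    have : 0 < Real.exp τ.re * (-Real.sin τ.im) := by positivity
    intro h3
    linarith

theorem slit_of_strip_neg {τ : ℂ} (h0 : τ.im < 0) (h1 : -(2 * Real.pi) < τ.im) :
    1 - Complex.exp τ ∈ Complex.slitPlane := by
  have h := slit_of_strip (τ := τ + 2 * Real.pi * Complex.I) (by simp; linarith) (by simp; linarith)
  rwa [Complex.exp_periodic τ] at h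

theorem KM.FK_differentiableAt (hν : KM ν) {e : ℝ} (he : 0 ≤ e) {τ : ℂ}
    (h : 1 - Complex.exp τ ∈ Complex.slitPlane) : DifferentiableAt ℂ (FK ν e) τ := by
  unfold FK
  have h1 : DifferentiableAt ℂ (fun τ => hK ν e (Complex.exp τ)) τ :=
    (hν.hK_hasDerivAt he h).comp τ Complex.differentiableAt_exp
  have h2 : DifferentiableAt ℂ (fun τ : ℂ => Complex.exp (e * τ)) τ := by fun_prop
  exact h2.mul h1

theorem KM.FK_continuousOn (hν : KM ν) {e : ℝ} (he : 0 ≤ e) :
    ContinuousOn (FK ν e) {τ | τ.re ≤ 0} := by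
  unfold FK
  apply ContinuousOn.mul
  · fun_prop
  · apply (hν.hK_continuousOn he).comp (by fun_prop)
    intro τ hτ
    simp only [mem_ofPred_eq] at hτ
    simpa [Complex.norm_exp] using hτ

/-! ### The regularised kernel -/

/-- `(e^{e x} - 1)/(e^x - 1)`, extended through `x = 0`. -/
noncomputable def kap (e : ℝ) (x : ℂ) : ℂ :=
  dslope (fun x : ℂ => Complex.exp (e * x)) 0 x / dslope Complex.exp 0 x

theorem kap_of_ne {e : ℝ} {x : ℂ} (hx : x ≠ 0) :
    kap e x = (Complex.exp (e * x) - 1) / (Complex.exp x - 1) := by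
  unfold kap
  rw [dslope_of_ne _ hx, dslope_of_ne _ hx, slope_def_field, slope_def_field]
  simp only [sub_zero, mul_zero, Complex.exp_zero]
  rw [div_div_div_cancel_right₀ hx]

theorem kap_zero (e : ℝ) : kap e 0 = e := by
  unfold kap
  rw [dslope_same, dslope_same, Complex.deriv_exp, Complex.exp_zero, div_one]
  have : HasDerivAt (fun x : ℂ => Complex.exp (e * x)) (Complex.exp (e * 0) * (e * 1)) 0 :=
    ((hasDerivAt_id (0 : ℂ)).const_mul (e : ℂ)).cexp
  rw [this.deriv]; simp

theorem kap_ofReal_im (e x : ℝ) : (kap e (x : ℂ)).im = 0 := by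
  by_cases hx : x = 0
  · subst hx; rw [Complex.ofReal_zero, kap_zero]; simp
  · rw [kap_of_ne (by exact_mod_cast hx)]
    have : (Complex.exp ((e : ℂ) * (x : ℂ)) - 1) / (Complex.exp (x : ℂ) - 1) =
      (((Real.exp (e * x) - 1) / (Real.exp x - 1) : ℝ) : ℂ) := by push_cast; rfl
    rw [this, Complex.ofReal_im]

theorem dslope_exp_ne_zero {x : ℂ} (hx : |x.im| < 2 * Real.pi) : dslope Complex.exp 0 x ≠ 0 := by
  by_cases h0 : x = 0
  · subst h0; rw [dslope_same]; simp
  · rw [dslope_of_ne _ h0, slope_def_field]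
    simp only [sub_zero, Complex.exp_zero]
    apply div_ne_zero _ h0
    intro h
    have h1 : Complex.exp x = 1 := sub_eq_zero.mp h
    rw [Complex.exp_eq_one_iff] at h1
    obtain ⟨n, hn⟩ := h1
    have h2 : x.im = n * (2 * Real.pi) := by rw [hn]; simp
    rw [h2, abs_mul, abs_of_pos Real.two_pi_pos] at hx
    have h3 : |(n : ℝ)| < 1 := by
      by_contra hcon
      push Not at hcon
      nlinarith [Real.two_pi_pos]
    have h4 : n = 0 := by
      have : |n| < 1 := by exact_mod_cast h3
      exact Int.abs_lt_one_iff.mp this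
    apply h0
    rw [hn, h4]; simp

theorem kap_continuousAt {e : ℝ} {x : ℂ} (hx : |x.im| < 2 * Real.pi) :
    ContinuousAt (kap e) x := by
  unfold kap
  apply ContinuousAt.div _ _ (dslope_exp_ne_zero hx)
  · by_cases h0 : x = 0
    · subst h0
      apply continuousAt_dslope_same.mpr; fun_prop
    · rw [continuousAt_dslope_of_ne h0]; fun_prop
  · by_cases h0 : x = 0
    · subst h0
      apply continuousAt_dslope_same.mpr; fun_prop
    · rw [continuousAt_dslope_of_ne h0]; fun_prop

theorem kap_bounded (e : ℝ) (he : 0 ≤ e) (R : ℝ) :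
    ∃ C : ℝ, ∀ x : ℂ, x.re ≤ R → |x.im| ≤ 1 → ‖kap e x‖ ≤ C := by
  have hpi : (1 : ℝ) < 2 * Real.pi := by nlinarith [Real.pi_gt_three]
  have hK : IsCompact ((Icc (-1 : ℝ) R) ×ℂ (Icc (-1 : ℝ) 1)) := isCompact_Icc.reProdIm isCompact_Icc
  have hc : ContinuousOn (fun x => ‖kap e x‖) ((Icc (-1 : ℝ) R) ×ℂ (Icc (-1 : ℝ) 1)) := by
    intro x hx
    rw [Complex.mem_reProdIm] at hx
    have : |x.im| < 2 * Real.pi := lt_of_le_of_lt (abs_le.mpr hx.2) hpi
    exact (kap_continuousAt this).norm.continuousWithinAt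
  obtain ⟨C, hC⟩ := hK.bddAbove_image hc
  refine ⟨max C (2 / (1 - Real.exp (-1))), ?_⟩
  intro x hxR hxi
  by_cases hx : x.re ≤ -1
  · apply le_max_of_le_right
    have hx0 : x ≠ 0 := by rintro rfl; simp at hx; linarith
    rw [kap_of_ne hx0, norm_div]
    have h1 : ‖Complex.exp (e * x) - 1‖ ≤ 2 := by
      calc ‖Complex.exp (e * x) - 1‖ ≤ ‖Complex.exp (e * x)‖ + ‖(1 : ℂ)‖ := norm_sub_le _ _
        _ ≤ 1 + 1 := by
          rw [Complex.norm_exp, norm_one]
          have : (e * x : ℂ).re ≤ 0 := by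
            simp; nlinarith
          have : Real.exp (e * x : ℂ).re ≤ 1 := by simpa using this
          linarith
        _ = 2 := by norm_num
    have h2 : 1 - Real.exp (-1) ≤ ‖Complex.exp x - 1‖ := by
      have h3 : ‖(1 : ℂ)‖ - ‖Complex.exp x‖ ≤ ‖1 - Complex.exp x‖ := norm_sub_norm_le _ _
      rw [norm_one, Complex.norm_exp, norm_sub_rev] at h3
      have : Real.exp x.re ≤ Real.exp (-1) := Real.exp_le_exp.mpr hx
      linarith
    have h4 : 0 < 1 - Real.exp (-1) := by
      have : Real.exp (-1) < 1 := by simp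
      linarith
    exact div_le_div₀ (by norm_num) h1 h4 h2
  · apply le_max_of_le_left
    push Not at hx
    apply hC
    refine ⟨x, ?_, rfl⟩
    rw [Complex.mem_reProdIm]
    exact ⟨⟨hx.le, hxR⟩, abs_le.mp hxi⟩

/-- Difference of two kernels in terms of `kap`. -/
theorem KM.FK_sub (hν : KM ν) {e : ℝ} (he : 0 ≤ e) {τ : ℂ} (h0 : 0 < τ.im) (h1 : τ.im < Real.pi) :
    FK ν e τ - FK ν 0 τ = ∫ y, -kap e (τ + Real.log y) ∂ν := by
  have hs : 1 - Complex.exp τ ∈ Complex.slitPlane :=
    slit_of_strip h0 (by linarith [Real.pi_pos])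
  unfold FK hK
  rw [← integral_const_mul, ← integral_const_mul, ← integral_sub
    ((hν.int_hK he hs).const_mul _) ((hν.int_hK le_rfl hs).const_mul _)]
  apply integral_congr_ae
  filter_upwards [hν.supp] with y hy
  have hx : τ + Real.log y ≠ 0 := by
    intro h
    have : (τ + (Real.log y : ℂ)).im = 0 := by rw [h]; simp
    rw [Complex.add_im, Complex.ofReal_im, add_zero] at this
    linarith
  rw [kap_of_ne hx]
  have h3 : Complex.exp (τ + Real.log y) = Complex.exp τ * y := by
    rw [Complex.exp_add, ← Complex.ofReal_exp, Real.exp_log hy.1]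
  have h4 : Complex.exp (e * (τ + Real.log y)) = Complex.exp (e * τ) * ((y ^ e : ℝ) : ℂ) := by
    rw [mul_add, Complex.exp_add, Real.rpow_def_of_pos hy.1, Complex.ofReal_exp]
    congr 2; push_cast; ring
  rw [h3, h4]
  have h5 : 1 - Complex.exp τ * (y : ℂ) ≠ 0 := one_sub_ne_zero hs ⟨hy.1.le, hy.2.le⟩
  have h6 : Complex.exp τ * (y : ℂ) - 1 ≠ 0 := by
    intro h; apply h5; rw [← neg_sub, h, neg_zero]
  simp only [Complex.ofReal_zero, zero_mul, Complex.exp_zero, Real.rpow_zero, Complex.ofReal_one,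
    one_mul]
  field_simp
  ring

theorem KM.tendsto_FK_sub_im (hν : KM ν) {e : ℝ} (he : 0 ≤ e) (τ₀ : ℝ) :
    Tendsto (fun ε : ℝ => (FK ν e (τ₀ + ε * Complex.I) - FK ν 0 (τ₀ + ε * Complex.I)).im)
      (𝓝[>] 0) (𝓝 0) := by
  have := hν.fin
  obtain ⟨C, hC⟩ := kap_bounded e he τ₀
  have hpi := Real.pi_gt_three
  have h1 : ∀ᶠ ε : ℝ in 𝓝[>] 0,
      (FK ν e (τ₀ + ε * Complex.I) - FK ν 0 (τ₀ + ε * Complex.I)).im =
        ∫ y, (-kap e (τ₀ + ε * Complex.I + Real.log y)).im ∂ν := by
    filter_upwards [Ioo_mem_nhdsGT (show (0 : ℝ) < 1 by norm_num)] with ε hε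
    rw [hν.FK_sub he (by simpa using hε.1) (by simp; linarith [hε.2])]
    have hint : Integrable (fun y : ℝ => -kap e (τ₀ + ε * Complex.I + Real.log y)) ν := by
      have h2 : Integrable (fun y : ℝ => FK ν e (τ₀ + ε * Complex.I)) ν := integrable_const _
      refine Integrable.mono' (integrable_const C) ?_ ?_
      · have hs : 1 - Complex.exp (τ₀ + ε * Complex.I) ∈ Complex.slitPlane :=
          slit_of_strip (by simpa using hε.1) (by simp; linarith [hε.2])
        have hm : Continuous (fun x : ℝ => kap e (τ₀ + ε * Complex.I + x)) := by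
          rw [continuous_iff_continuousAt]
          intro x
          have h3 : ContinuousAt (kap e) (τ₀ + ε * Complex.I + x) := by
            apply kap_continuousAt
            simp only [Complex.add_im, Complex.ofReal_im, Complex.mul_im, Complex.ofReal_re,
              Complex.I_im, mul_one, Complex.I_re, mul_zero, add_zero, zero_add]
            rw [abs_of_pos hε.1]; linarith [hε.2]
          exact ContinuousAt.comp (f := fun x : ℝ => (τ₀ + ε * Complex.I + x : ℂ)) h3 (by fun_prop)
        exact (hm.measurable.comp Real.measurable_log).neg.aestronglyMeasurable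
      · filter_upwards [hν.supp] with y hy
        rw [norm_neg]
        apply hC
        · simp; exact Real.log_nonpos hy.1.le hy.2.le
        · simp; rw [abs_of_pos hε.1]; exact hε.2.le
    have := integral_im hint
    simpa using this.symm
  rw [tendsto_congr' h1]
  suffices hs : Tendsto (fun ε : ℝ => ∫ y, (-kap e (τ₀ + ε * Complex.I + Real.log y)).im ∂ν)
      (𝓝[>] 0) (𝓝 (∫ y, (fun _ => (0 : ℝ)) y ∂ν)) by simpa using hs
  apply tendsto_integral_filter_of_dominated_convergence (bound := fun _ => C)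
  · filter_upwards [Ioo_mem_nhdsGT (show (0 : ℝ) < 1 by norm_num)] with ε hε
    have hm : Continuous (fun x : ℝ => kap e (τ₀ + ε * Complex.I + x)) := by
      rw [continuous_iff_continuousAt]
      intro x
      have h3 : ContinuousAt (kap e) (τ₀ + ε * Complex.I + x) := by
        apply kap_continuousAt
        simp only [Complex.add_im, Complex.ofReal_im, Complex.mul_im, Complex.ofReal_re,
          Complex.I_im, mul_one, Complex.I_re, mul_zero, add_zero, zero_add]
        rw [abs_of_pos hε.1]; linarith [hε.2]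
      exact ContinuousAt.comp (f := fun x : ℝ => (τ₀ + ε * Complex.I + x : ℂ)) h3 (by fun_prop)
    have hm2 := (hm.measurable.comp Real.measurable_log).neg
    exact (Complex.measurable_im.comp hm2).aestronglyMeasurable
  · filter_upwards [Ioo_mem_nhdsGT (show (0 : ℝ) < 1 by norm_num)] with ε hε
    filter_upwards [hν.supp] with y hy
    rw [Real.norm_eq_abs]
    refine (Complex.abs_im_le_norm _).trans ?_
    rw [norm_neg]
    apply hC
    · simp; exact Real.log_nonpos hy.1.le hy.2.le
    · simp; rw [abs_of_pos hε.1]; exact hε.2.le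
  · exact integrable_const _
  · filter_upwards [hν.supp] with y hy
    have h3 : ContinuousAt (fun ε : ℝ => (-kap e (τ₀ + ε * Complex.I + Real.log y)).im) 0 := by
      have h4 : ContinuousAt (kap e) (τ₀ + (0 : ℝ) * Complex.I + Real.log y) := by
        apply kap_continuousAt
        simp [Real.pi_pos]
      have h5 : ContinuousAt (fun ε : ℝ => kap e (τ₀ + ε * Complex.I + Real.log y)) 0 :=
        ContinuousAt.comp (f := fun ε : ℝ => (τ₀ + ε * Complex.I + Real.log y : ℂ)) h4 (by fun_prop)
      exact Complex.continuous_im.continuousAt.comp h5.neg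
    have h6 : (-kap e (τ₀ + (0 : ℝ) * Complex.I + Real.log y)).im = 0 := by
      have : (τ₀ + ((0 : ℝ) : ℂ) * Complex.I + (Real.log y : ℂ)) = ((τ₀ + Real.log y : ℝ) : ℂ) := by
        push_cast; ring
      rw [this, Complex.neg_im, kap_ofReal_im, neg_zero]
    have h7 := h3.tendsto
    simp only [h6] at h7
    exact h7.mono_left nhdsWithin_le_nhds

/-- Equality of the imaginary parts of the boundary values on the cut. -/
theorem KM.im_eq_of_tendsto (hν : KM ν) {e e' : ℝ} (he : 0 ≤ e) (he' : 0 ≤ e') (τ₀ : ℝ) {v v' : ℂ}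
    (hv : Tendsto (fun ε : ℝ => FK ν e (τ₀ + ε * Complex.I)) (𝓝[>] 0) (𝓝 v))
    (hv' : Tendsto (fun ε : ℝ => FK ν e' (τ₀ + ε * Complex.I)) (𝓝[>] 0) (𝓝 v')) :
    v.im = v'.im := by
  have h1 := hν.tendsto_FK_sub_im he τ₀
  have h2 := hν.tendsto_FK_sub_im he' τ₀
  have h3 : Tendsto (fun ε : ℝ => (FK ν e (τ₀ + ε * Complex.I)).im -
      (FK ν e' (τ₀ + ε * Complex.I)).im) (𝓝[>] 0) (𝓝 (0 - 0)) := by
    refine (h1.sub h2).congr fun ε => ?_
    simp only [Complex.sub_im]; ring
  have h4 := ((Complex.continuous_im.tendsto v).comp hv).sub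
    ((Complex.continuous_im.tendsto v').comp hv')
  have h5 := tendsto_nhds_unique h3 h4
  linarith

theorem KM.im_nonneg_of_tendsto (hν : KM ν) {e : ℝ} (he : 0 ≤ e) (τ₀ : ℝ) {v : ℂ}
    (hv : Tendsto (fun ε : ℝ => FK ν e (τ₀ + ε * Complex.I)) (𝓝[>] 0) (𝓝 v)) :
    0 ≤ v.im := by
  have h1 := hν.tendsto_FK_sub_im he τ₀
  have h4 := (Complex.continuous_im.tendsto v).comp hv
  have h3 : Tendsto (fun ε : ℝ => (FK ν 0 (τ₀ + ε * Complex.I)).im) (𝓝[>] 0) (𝓝 (v.im - 0)) := by
    refine (h4.sub h1).congr fun ε => ?_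
    simp only [Complex.sub_im, Function.comp]; ring
  rw [sub_zero] at h3
  apply ge_of_tendsto h3
  filter_upwards [Ioo_mem_nhdsGT (show (0 : ℝ) < 1 by norm_num)] with ε hε
  unfold FK
  simp only [Complex.ofReal_zero, zero_mul, Complex.exp_zero, one_mul]
  apply le_of_lt
  apply hν.hK_im_pos le_rfl
  rw [Complex.exp_im]
  apply mul_pos (Real.exp_pos _)
  apply Real.sin_pos_of_pos_of_lt_pi
  · simpa using hε.1
  · simp; linarith [hε.2, Real.pi_gt_three]

/-- `FK ν e` does not vanish on the open strip. -/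
theorem KM.FK_ne_zero (hν : KM ν) {e : ℝ} (he : 0 ≤ e) {τ : ℂ} (h0 : 0 < τ.im)
    (h1 : τ.im < 2 * Real.pi) : FK ν e τ ≠ 0 := by
  have key : ∀ τ : ℂ, 0 < τ.im → τ.im < Real.pi → FK ν e τ ≠ 0 := by
    intro τ h0 h1 h
    unfold FK at h
    rcases mul_eq_zero.mp h with h3 | h3
    · exact Complex.exp_ne_zero _ h3
    · have h2 := hν.hK_im_pos he (t := Complex.exp τ) (by
        rw [Complex.exp_im]
        exact mul_pos (Real.exp_pos _) (Real.sin_pos_of_pos_of_lt_pi h0 h1))
      rw [h3] at h2; simp at h2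
  rcases lt_trichotomy τ.im Real.pi with h | h | h
  · exact key τ h0 h
  · unfold FK
    apply mul_ne_zero (Complex.exp_ne_zero _)
    have h2 : Complex.exp τ = ((-Real.exp τ.re : ℝ) : ℂ) := by
      apply Complex.ext
      · rw [Complex.exp_re, h, Real.cos_pi, Complex.ofReal_re]; ring
      · rw [Complex.exp_im, h, Real.sin_pi, Complex.ofReal_im]; ring
    rw [h2, hK_ofReal]
    have := hν.hR_pos (e := e) (t := -Real.exp τ.re) he (by linarith [Real.exp_pos τ.re])
    exact_mod_cast this.ne'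
  · intro h2
    apply key (conj τ + 2 * Real.pi * Complex.I)
    · simp; linarith
    · simp; linarith
    · rw [FK_period, FK_conj, h2]; simp

end Pool.Agent.BallCurve
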