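import Pool.Agent.MP_071e05_an.Ex

/-!
Numerical bounds for the values of the normalised vector on the closed strip.
-/

set_option autoImplicit false
set_option linter.unusedSectionVars false

open MeasureTheory Set Filter Topology ComplexConjugate

namespace Pool.Agent.BallCurve

variable {n : ℕ}

theorem HD.norm_uv_two {D : HD (1 + 1)} (h : D.Sgn) (τ : ℂ) :
    ‖D.uv τ‖ ^ 2 = -D.dual.om 1 / D.dual.om 0 * (‖D.Fx 1 τ‖ ^ 2 / ‖D.Fx 0 τ‖ ^ 2) := by
  rw [EuclideanSpace.norm_sq_eq]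
  rw [Fin.sum_univ_one (f := fun i => ‖D.uv τ i‖ ^ 2)]
  have : D.uv τ 0 = (D.cst 0 : ℂ) * (D.Fx 1 τ / D.Fx 0 τ) := rfl
  rw [this, norm_mul, mul_pow, norm_div, div_pow, Complex.norm_real, Real.norm_eq_abs, sq_abs,
    h.cst_sq]
  rfl

/-- the value at the left edge -/
theorem HD.left_edge {D : HD (1 + 1)} (h : D.Sgn) {x : ℝ} (hx : x ≤ 0) :
    ‖D.uv x‖ ^ 2 ≤ D.dual.om 0 / (-D.dual.om 1) := by
  rw [HD.norm_uv_two h]
  have hw0 := D.dual.om_zero_pos
  have hw1 : D.dual.om 1 < 0 := h.hom' 0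
  have h1 := D.Fx_eq_left 0 (τ := (x : ℂ)) (by simpa using hx)
  have h2 := D.Fx_eq_left 1 (τ := (x : ℂ)) (by simpa using hx)
  unfold HD.F at h1 h2
  rw [FK_ofReal] at h1 h2
  have p0 := D.hν.FR_pos (D.e_nonneg 0) hx
  have p1 := D.hν.FR_pos (D.e_nonneg 1) hx
  have hs := D.dual.sum_om_nonneg hx
  rw [Fin.sum_univ_two (f := fun i => D.dual.om i * FR D.dual.ν' (D.dual.al i) x)] at hs
  change 0 ≤ D.dual.om 0 * FR D.ν (D.e 0) x + D.dual.om 1 * FR D.ν (D.e 1) x at hs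
  rw [h1, h2, Complex.norm_real, Complex.norm_real, Real.norm_eq_abs, Real.norm_eq_abs, sq_abs,
    sq_abs]
  set f0 := FR D.ν (D.e 0) x
  set f1 := FR D.ν (D.e 1) x
  set w0 := D.dual.om 0
  set w1 := D.dual.om 1
  rw [div_mul_div_comm, div_le_div_iff₀ (by positivity) (by linarith)]
  have h3 : -w1 * f1 ≤ w0 * f0 := by linarith
  have h4 : (-w1 * f1) ^ 2 ≤ (w0 * f0) ^ 2 := by
    apply pow_le_pow_left₀ (by nlinarith) h3
  nlinarith

theorem norm_sub_exp (a b θ φ : ℝ) :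
    ‖(a : ℂ) * Complex.exp (θ * Complex.I) - b * Complex.exp (φ * Complex.I)‖ ^ 2 =
      a ^ 2 + b ^ 2 - 2 * a * b * Real.cos (θ - φ) := by
  rw [← Complex.normSq_eq_norm_sq, Complex.normSq_apply]
  rw [Complex.exp_mul_I, Complex.exp_mul_I, ← Complex.ofReal_cos, ← Complex.ofReal_sin,
    ← Complex.ofReal_cos, ← Complex.ofReal_sin]
  simp only [Complex.sub_re, Complex.mul_re, Complex.ofReal_re, Complex.add_re, Complex.ofReal_im,
    Complex.I_re, Complex.I_im, Complex.sub_im, Complex.mul_im, Complex.add_im]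
  rw [Real.cos_sub]
  linear_combination a ^ 2 * Real.sin_sq_add_cos_sq θ + b ^ 2 * Real.sin_sq_add_cos_sq φ

theorem law_sin (x y : ℝ) : Real.sin x ^ 2 + Real.sin y ^ 2 -
    2 * Real.cos (x - y) * (Real.sin x * Real.sin y) = Real.sin (x - y) ^ 2 := by
  rw [Real.cos_sub, Real.sin_sub]
  have h1 := Real.sin_sq_add_cos_sq x
  have h2 := Real.sin_sq_add_cos_sq y
  have h3 : Real.cos x ^ 2 = 1 - Real.sin x ^ 2 := by linarith
  have h4 : Real.cos y ^ 2 = 1 - Real.sin y ^ 2 := by linarith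
  linear_combination (-Real.sin x ^ 2) * h2 - (Real.sin y ^ 2) * h1

/-- the value of `‖Fx j‖²` on the right edge -/
theorem HD.norm_Fx_right (D : HD (1 + 1)) (j : Fin (1 + 1)) {x : ℝ} (hx : 0 ≤ x) :
    ‖D.Fx j x‖ ^ 2 =
      (D.om 0 * FR D.ν' (D.al 0) (-x) / D.ss j 0) ^ 2 +
      (-D.om 1 * FR D.ν' (D.al 1) (-x) / D.ss j 1) ^ 2 -
      2 * (D.om 0 * FR D.ν' (D.al 0) (-x) / D.ss j 0) *
        (-D.om 1 * FR D.ν' (D.al 1) (-x) / D.ss j 1) * Real.cos (Real.pi * (D.al 1 - D.al 0)) := by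
  have hxS : (x : ℂ) ∈ Sc := by
    constructor <;> simp [Real.pi_pos.le]
  rw [D.Fx_eq_right j (τ := (x : ℂ)) (by simpa using hx) hxS]
  rw [Fin.sum_univ_two (f := fun i => D.W j i * D.G i x)]
  rw [D.W_explicit j 0, D.W_explicit j 1, D.G_ofReal, D.G_ofReal]
  have n0 := D.ss_ne j 0
  have n1 := D.ss_ne j 1
  unfold HD.ss at n0 n1 ⊢
  have n0' : (Real.sin (Real.pi * (D.e j + D.al 0)) : ℂ) ≠ 0 := Complex.ofReal_ne_zero.mpr n0
  have n1' : (Real.sin (Real.pi * (D.e j + D.al 1)) : ℂ) ≠ 0 := Complex.ofReal_ne_zero.mpr n1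
  have key := norm_sub_exp (D.om 0 * FR D.ν' (D.al 0) (-x) / Real.sin (Real.pi * (D.e j + D.al 0)))
    (-D.om 1 * FR D.ν' (D.al 1) (-x) / Real.sin (Real.pi * (D.e j + D.al 1)))
    (Real.pi * (D.e j + D.al 0)) (Real.pi * (D.e j + D.al 1))
  have hcos : Real.cos (Real.pi * (D.e j + D.al 0) - Real.pi * (D.e j + D.al 1)) =
      Real.cos (Real.pi * (D.al 1 - D.al 0)) := by
    rw [← Real.cos_neg]; congr 1; ring
  rw [hcos] at key
  rw [← key]
  congr 2
  push_cast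
  field_simp
  ring

theorem edge_alg {a b c d P Q κ σ : ℝ} (ha : 0 < a) (hb : 0 < b) (hc : 0 < c) (hd : 0 < d)
    (hQ : 0 ≤ Q) (hPQ : Q ≤ P) (hκ : 0 ≤ κ) (h1 : a * d ≤ 0.81 * (b * c))
    (h2 : a * b ≤ 0.81 * (c * d)) (l1 : a ^ 2 + b ^ 2 - 2 * κ * (a * b) = σ ^ 2)
    (l2 : c ^ 2 + d ^ 2 - 2 * κ * (c * d) = σ ^ 2) :
    a * b * (P ^ 2 * d ^ 2 + Q ^ 2 * c ^ 2 - 2 * P * Q * κ * (c * d)) ≤
      0.81 * (c * d) * (P ^ 2 * b ^ 2 + Q ^ 2 * a ^ 2 - 2 * P * Q * κ * (a * b)) := by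
  have e1 : 0 ≤ b * d * (0.81 * (b * c) - a * d) * (P ^ 2 - Q ^ 2) := by
    apply mul_nonneg (mul_nonneg (by positivity) (by linarith))
    nlinarith
  have e2 : 0 ≤ κ * (a * b * c * d) * (P * Q - Q ^ 2) := by
    apply mul_nonneg (by positivity)
    nlinarith
  have e3 : 0 ≤ Q ^ 2 * σ ^ 2 * (0.81 * (c * d) - a * b) := by
    apply mul_nonneg (by positivity) (by linarith)
  have key : 0.81 * (c * d) * (P ^ 2 * b ^ 2 + Q ^ 2 * a ^ 2 - 2 * P * Q * κ * (a * b)) -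
      a * b * (P ^ 2 * d ^ 2 + Q ^ 2 * c ^ 2 - 2 * P * Q * κ * (c * d)) =
      b * d * (0.81 * (b * c) - a * d) * (P ^ 2 - Q ^ 2) +
      0.38 * (κ * (a * b * c * d) * (P * Q - Q ^ 2)) +
      Q ^ 2 * σ ^ 2 * (0.81 * (c * d) - a * b) := by
    linear_combination (0.81 * Q ^ 2 * (c * d)) * l1 - (Q ^ 2 * (a * b)) * l2
  nlinarith

theorem HD.right_edge {D : HD (1 + 1)} (h : D.Sgn) (hs : ∀ j i, 0 < D.ss j i)
    (hκ : 0 ≤ Real.cos (Real.pi * (D.al 1 - D.al 0)))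
    (h1 : D.ss 0 0 * D.ss 1 1 ≤ 0.81 * (D.ss 0 1 * D.ss 1 0))
    (h2 : D.ss 0 0 * D.ss 0 1 ≤ 0.81 * (D.ss 1 0 * D.ss 1 1)) {x : ℝ} (hx : 0 ≤ x) :
    ‖D.uv x‖ ^ 2 ≤ 0.81 := by
  rw [HD.norm_uv_two h]
  have hw0 := D.dual.om_zero_pos
  have hw1 : D.dual.om 1 < 0 := h.hom' 0
  have ho0 := D.om_zero_pos
  have ho1 : D.om 1 < 0 := h.hom 0
  have hxS : (x : ℂ) ∈ Sc := by
    constructor <;> simp [Real.pi_pos.le]
  have hF0 := h.Fx_zero_ne hxS
  have hx' : -x ≤ 0 := by linarith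
  have g0 := D.hν'.FR_pos (D.al_nonneg 0) hx'
  have g1 := D.hν'.FR_pos (D.al_nonneg 1) hx'
  have hsum := D.sum_om_nonneg hx'
  rw [Fin.sum_univ_two (f := fun i => D.om i * FR D.ν' (D.al i) (-x))] at hsum
  have hF0' : 0 < ‖D.Fx 0 x‖ ^ 2 := by positivity
  rw [← mul_div_assoc, div_le_iff₀ hF0']
  rw [div_mul_eq_mul_div, div_le_iff₀ hw0]
  rw [D.norm_Fx_right 0 hx, D.norm_Fx_right 1 hx]
  have a0 := hs 0 0
  have a1 := hs 0 1
  have a2 := hs 1 0
  have a3 := hs 1 1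
  have l1 := law_sin (Real.pi * (D.e 0 + D.al 0)) (Real.pi * (D.e 0 + D.al 1))
  have l2 := law_sin (Real.pi * (D.e 1 + D.al 0)) (Real.pi * (D.e 1 + D.al 1))
  have t1 : Real.pi * (D.e 0 + D.al 0) - Real.pi * (D.e 0 + D.al 1) =
    -(Real.pi * (D.al 1 - D.al 0)) := by ring
  have t2 : Real.pi * (D.e 1 + D.al 0) - Real.pi * (D.e 1 + D.al 1) =
    -(Real.pi * (D.al 1 - D.al 0)) := by ring
  rw [t1, Real.cos_neg] at l1
  rw [t2, Real.cos_neg] at l2
  have hr := D.ratio2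
  set P := D.om 0 * FR D.ν' (D.al 0) (-x) with hP
  set Q := -D.om 1 * FR D.ν' (D.al 1) (-x) with hQ
  have hQ0 : 0 ≤ Q := by rw [hQ]; nlinarith
  have hPQ : Q ≤ P := by rw [hQ, hP]; linarith
  have key := edge_alg a0 a1 a2 a3 hQ0 hPQ hκ h1 h2 l1 l2
  change _ at key
  set a := D.ss 0 0
  set b := D.ss 0 1
  set c := D.ss 1 0
  set d := D.ss 1 1
  set κ := Real.cos (Real.pi * (D.al 1 - D.al 0))
  set w0 := D.dual.om 0
  set w1 := D.dual.om 1
  have e1 : -w1 * ((P / c) ^ 2 + (Q / d) ^ 2 - 2 * (P / c) * (Q / d) * κ) =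
      w0 * (a * b * (P ^ 2 * d ^ 2 + Q ^ 2 * c ^ 2 - 2 * P * Q * κ * (c * d))) /
        ((a * b) ^ 2 * (c * d)) := by
    have : -w1 = w0 * (c * d) / (a * b) := by
      field_simp
      linarith
    rw [this]
    field_simp
  have e2 : 0.81 * ((P / a) ^ 2 + (Q / b) ^ 2 - 2 * (P / a) * (Q / b) * κ) * w0 =
      w0 * (0.81 * (c * d) * (P ^ 2 * b ^ 2 + Q ^ 2 * a ^ 2 - 2 * P * Q * κ * (a * b))) /
        ((a * b) ^ 2 * (c * d)) := by
    field_simp
  rw [e1, e2]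
  apply div_le_div_of_nonneg_right _ (by positivity)
  exact mul_le_mul_of_nonneg_left key hw0.le

theorem HD.norm_Fx_shift (D : HD (n + 1)) (j : Fin (n + 1)) (x : ℝ) :
    ‖D.Fx j (x + 2 * Real.pi * Complex.I)‖ = ‖D.Fx j x‖ := by
  rcases le_total x 0 with hx | hx
  · rw [D.Fx_eq_left j (τ := (x : ℂ) + 2 * Real.pi * Complex.I) (by simpa using hx),
      D.Fx_eq_left j (τ := (x : ℂ)) (by simpa using hx)]
    unfold HD.F
    rw [norm_FK_shift]
    · simp
    · simp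
  · have hxS : (x : ℂ) ∈ Sc := by
      constructor <;> simp [Real.pi_pos.le]
    have hxS' : (x : ℂ) + 2 * Real.pi * Complex.I ∈ Sc := by
      constructor <;> simp [Real.pi_pos.le]
    rw [D.Fx_eq_right j (τ := (x : ℂ) + 2 * Real.pi * Complex.I) (by simpa using hx) hxS',
      D.Fx_eq_right j (τ := (x : ℂ)) (by simpa using hx) hxS]
    have h1 : ∀ i, D.W j i * D.G i (x + 2 * Real.pi * Complex.I) =
        Complex.exp (2 * Real.pi * D.e j * Complex.I) * conj (D.W j i * D.G i x) := by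
      intro i
      have e1 : D.G i (x + 2 * Real.pi * Complex.I) =
          Complex.exp (-(2 * Real.pi * D.al i * Complex.I)) * D.G i x := by
        unfold HD.G
        have := FK_int D.ν' (D.al i) (-(x : ℂ)) (-1)
        have e2 : -((x : ℂ) + 2 * Real.pi * Complex.I) =
          -(x : ℂ) + ((-1 : ℤ) : ℂ) * (2 * Real.pi * Complex.I) := by push_cast; ring
        rw [e2, this]
        congr 2
        push_cast
        ring
      rw [e1, map_mul, D.G_ofReal, Complex.conj_ofReal]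
      have e3 := D.W_conj j i
      unfold HD.ph at e3
      have e4 : Complex.exp (2 * Real.pi * (D.e j + D.al i) * Complex.I) =
          Complex.exp (2 * Real.pi * D.e j * Complex.I) *
            Complex.exp (2 * Real.pi * D.al i * Complex.I) := by
        rw [← Complex.exp_add]; congr 1; ring
      have e5 : Complex.exp (2 * Real.pi * D.al i * Complex.I) *
          Complex.exp (-(2 * Real.pi * D.al i * Complex.I)) = 1 := by
        rw [← Complex.exp_add]; simp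
      rw [e4] at e3
      linear_combination (Complex.exp (-(2 * Real.pi * D.al i * Complex.I)) *
        (FR D.ν' (D.al i) (-x) : ℂ)) * e3 + Complex.exp (2 * Real.pi * D.e j * Complex.I) *
        conj (D.W j i) * (FR D.ν' (D.al i) (-x) : ℂ) * e5
    rw [Finset.sum_congr rfl (fun i _ => h1 i), ← Finset.mul_sum, norm_mul]
    have h2 : ‖Complex.exp (2 * Real.pi * D.e j * Complex.I)‖ = 1 := by
      have : (2 * Real.pi * D.e j * Complex.I : ℂ) = ((2 * Real.pi * D.e j : ℝ) : ℂ) * Complex.I := by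
        push_cast; ring
      rw [this, Complex.norm_exp_ofReal_mul_I]
    rw [h2, one_mul, ← map_sum, Complex.norm_conj]

theorem HD.uv_shift {D : HD (1 + 1)} (h : D.Sgn) (x : ℝ) :
    ‖D.uv (x + 2 * Real.pi * Complex.I)‖ = ‖D.uv x‖ := by
  have := HD.norm_uv_two h (x + 2 * Real.pi * Complex.I)
  rw [D.norm_Fx_shift, D.norm_Fx_shift, ← HD.norm_uv_two h] at this
  exact (pow_left_inj₀ (norm_nonneg _) (norm_nonneg _) two_ne_zero).mp this

section D2

variable {D : HD (1 + 1)}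

theorem ss2_eq (he : D.e = e2) (ha : D.al = a2) :
    D.ss 0 0 = Real.sin (53 * Real.pi / 420) ∧ D.ss 0 1 = Real.sin (137 * Real.pi / 420) ∧
    D.ss 1 0 = Real.sin (73 * Real.pi / 420) ∧ D.ss 1 1 = Real.sin (157 * Real.pi / 420) := by
  unfold HD.ss
  rw [he, ha]
  refine ⟨?_, ?_, ?_, ?_⟩ <;> simp only [e2, a2, Matrix.cons_val_zero, Matrix.cons_val_one] <;>
    congr 1 <;> ring

theorem ss2_pos (he : D.e = e2) (ha : D.al = a2) : ∀ j i, 0 < D.ss j i := by
  intro j i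
  unfold HD.ss
  rw [he, ha]
  fin_cases j <;> fin_cases i <;> simp [e2, a2] <;> apply sin_pos_of <;> norm_num

theorem left2 (he : D.e = e2) (ha : D.al = a2) {x : ℝ} (hx : x ≤ 0) :
    ‖D.uv x‖ ≤ 0.835 := by
  have h := sgn_D2 he ha
  have h1 := HD.left_edge h hx
  obtain ⟨q1, q2, q3, q4⟩ := ss2_eq he ha
  have hw0 := D.dual.om_zero_pos
  have hw1 : D.dual.om 1 < 0 := h.hom' 0
  have hr := D.ratio2
  have hz := num_zQ
  rw [← q1, ← q2, ← q3, ← q4] at hz
  have p := ss2_pos he ha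
  have p00 := p 0 0
  have p01 := p 0 1
  have p10 := p 1 0
  have p11 := p 1 1
  have h2 : D.dual.om 0 / (-D.dual.om 1) ≤ (0.835 : ℝ) ^ 2 := by
    rw [div_le_iff₀ (by linarith)]
    by_contra hc
    push Not at hc
    have := mul_lt_mul_of_pos_right hc (mul_pos p10 p11)
    nlinarith [mul_le_mul_of_nonneg_left hz (neg_pos.mpr hw1).le]
  have h3 : ‖D.uv x‖ ^ 2 ≤ (0.835 : ℝ) ^ 2 := h1.trans h2
  exact (pow_le_pow_iff_left₀ (norm_nonneg _) (by norm_num) two_ne_zero).mp h3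

theorem right2 (he : D.e = e2) (ha : D.al = a2) {x : ℝ} (hx : 0 ≤ x) :
    ‖D.uv x‖ ≤ 0.9 := by
  have h := sgn_D2 he ha
  obtain ⟨q1, q2, q3, q4⟩ := ss2_eq he ha
  have hz := num_zQ
  have hz' := num_zR
  rw [← q1, ← q2, ← q3, ← q4] at hz
  rw [← q1, ← q2, ← q3, ← q4] at hz'
  have p := ss2_pos he ha
  have p10 := p 1 0
  have p11 := p 1 1
  have hκ : 0 ≤ Real.cos (Real.pi * (D.al 1 - D.al 0)) := by
    apply Real.cos_nonneg_of_mem_Icc
    rw [ha]
    constructor <;> simp only [a2, Matrix.cons_val_zero, Matrix.cons_val_one] <;>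
      nlinarith [Real.pi_pos]
  have h3 := HD.right_edge h p hκ (by nlinarith) (by nlinarith [mul_pos p10 p11]) hx
  have h4 : ‖D.uv x‖ ^ 2 ≤ (0.9 : ℝ) ^ 2 := h3.trans (by norm_num)
  exact (pow_le_pow_iff_left₀ (norm_nonneg _) (by norm_num) two_ne_zero).mp h4

theorem uv2_le (he : D.e = e2) (ha : D.al = a2) {τ : ℂ} (hτ : τ ∈ Sc) : ‖D.uv τ‖ ≤ 0.9 := by
  have h := sgn_D2 he ha
  have hreal : ∀ x : ℝ, ‖D.uv x‖ ≤ 0.9 := by
    intro x
    rcases le_total x 0 with hx | hx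
    · exact (left2 he ha hx).trans (by norm_num)
    · exact right2 he ha hx
  apply h.uv_le _ hτ
  intro τ hτ
  rcases hτ with h0 | h0
  · have : τ = (τ.re : ℂ) := by
      apply Complex.ext <;> simp [h0]
    rw [this]; exact hreal _
  · have : τ = (τ.re : ℂ) + 2 * Real.pi * Complex.I := by
      apply Complex.ext <;> simp [h0]
    rw [this, HD.uv_shift h]; exact hreal _

end D2

theorem main_alg {v0 v1 v2 F0 F1 F2 w0 w1 w2 : ℝ} (hv0 : 0 < v0) (hv2 : 0 ≤ v2)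
    (hF0 : 0 < F0) (hF1 : 0 < F1) (hF21 : F2 ≤ F1) (hw0 : 0 < w0) (hw1 : 0 < w1) (hw2 : 0 < w2)
    (hsum : v0 * F0 = v1 * F1 + v2 * F2) (A : v1 * w0 = v0 * w1) (B : v2 * w0 = v0 * w2) :
    w0 * w1 / (w1 + w2) ^ 2 ≤ v1 / v0 * (F1 ^ 2 / F0 ^ 2) := by
  have hx : v0 * F0 ≤ (v1 + v2) * F1 := by
    nlinarith [mul_le_mul_of_nonneg_left hF21 hv2]
  have hx' : w0 * F0 ≤ (w1 + w2) * F1 := by
    have t1 : v0 * (w0 * F0) ≤ v0 * ((w1 + w2) * F1) := by
      have := mul_le_mul_of_nonneg_left hx hw0.le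
      calc v0 * (w0 * F0)
          = w0 * (v0 * F0) := by ring
        _ ≤ _ := this
        _ = _ := by linear_combination (A + B) * F1
    exact le_of_mul_le_mul_left t1 hv0
  have hom : v1 / v0 = w1 / w0 := by
    rw [div_eq_div_iff hv0.ne' hw0.ne']
    linarith
  rw [hom, div_mul_div_comm, div_le_div_iff₀ (by positivity) (by positivity)]
  have t2 := pow_le_pow_left₀ (by positivity) hx' 2
  have t3 := mul_le_mul_of_nonneg_left t2 hw1.le
  calc w0 * w1 * (w0 * F0 ^ 2)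
      = w1 * (w0 * F0) ^ 2 := by ring
    _ ≤ w1 * ((w1 + w2) * F1) ^ 2 := t3
    _ = _ := by ring

theorem main_alg2 {b z S0 S1 w0 w1 w2 Y : ℝ} (hz : z * S1 ≤ S0) (hS1 : 0 < S1)
    (hw1 : 0 < w1) (hw2 : 0 < w2)
    (hm : b ^ 2 * S0 * (w1 + w2) ^ 2 ≤ w0 * w1 * S1) (hY : w0 * w1 / (w1 + w2) ^ 2 ≤ Y) :
    b ^ 2 * z ≤ Y := by
  refine le_trans ?_ hY
  rw [le_div_iff₀ (by positivity)]
  have t4 : (b ^ 2 * z * (w1 + w2) ^ 2) * S1 ≤ (w0 * w1) * S1 := by
    calc (b ^ 2 * z * (w1 + w2) ^ 2) * S1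
        = b ^ 2 * (w1 + w2) ^ 2 * (z * S1) := by ring
      _ ≤ b ^ 2 * (w1 + w2) ^ 2 * S0 := mul_le_mul_of_nonneg_left hz (by positivity)
      _ = b ^ 2 * S0 * (w1 + w2) ^ 2 := by ring
      _ ≤ _ := hm
  exact le_of_mul_le_mul_right t4 hS1

/-- the main inequality at the point over `t = 1` -/
theorem main_ineq {D : HD (1 + 1)} (he : D.e = e2) (ha : D.al = a2) {D' : HD (2 + 1)}
    (he' : D'.e = e3) (ha' : D'.al = a3) : 0.9975 * ‖D.uv 0‖ ≤ ‖D'.uv 0 0‖ := by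
  have h := sgn_D2 he ha
  have h' := sgn_D3 he' ha'
  -- the disc side
  have h1 := HD.left_edge h (le_refl (0 : ℝ))
  rw [Complex.ofReal_zero] at h1
  obtain ⟨q1, q2, q3, q4⟩ := ss2_eq he ha
  have hw0 := D.dual.om_zero_pos
  have hw1 : D.dual.om 1 < 0 := h.hom' 0
  have hr := D.ratio2
  have p := ss2_pos he ha
  have p00 := p 0 0
  have p01 := p 0 1
  have p10 := p 1 0
  have p11 := p 1 1
  have h2 : ‖D.uv 0‖ ^ 2 * (D.ss 1 0 * D.ss 1 1) ≤ D.ss 0 0 * D.ss 0 1 := by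
    have : D.dual.om 0 / (-D.dual.om 1) = D.ss 0 0 * D.ss 0 1 / (D.ss 1 0 * D.ss 1 1) := by
      rw [div_eq_div_iff (by linarith) (by positivity)]
      linarith
    rw [this, le_div_iff₀ (by positivity)] at h1
    exact h1
  -- the ball side
  have hv0 := D'.dual.om_zero_pos
  have hv1 : D'.dual.om 1 < 0 := h'.hom' 0
  have hv2 : D'.dual.om 2 < 0 := h'.hom' 1
  have hF0 := D'.Fx_eq_left 0 (τ := (0 : ℂ)) (by simp)
  have hF1 := D'.Fx_eq_left 1 (τ := (0 : ℂ)) (by simp)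
  rw [D'.F_zero] at hF0 hF1
  have f0 := D'.hν.FR_pos (D'.e_nonneg 0) (le_refl (0 : ℝ))
  have f1 := D'.hν.FR_pos (D'.e_nonneg 1) (le_refl (0 : ℝ))
  have f2 := D'.hν.FR_pos (D'.e_nonneg 2) (le_refl (0 : ℝ))
  have f21 := D'.hν.FR_lt (D'.e_nonneg 1) (D'.e_mono (show (1 : Fin 3) < 2 by decide))
    (le_refl (0 : ℝ))
  have hsum := D'.dual.sum_om_one
  rw [Fin.sum_univ_three (f := fun i => D'.dual.om i * FR D'.dual.ν' (D'.dual.al i) 0)] at hsum
  change D'.dual.om 0 * FR D'.ν (D'.e 0) 0 + D'.dual.om 1 * FR D'.ν (D'.e 1) 0 +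
    D'.dual.om 2 * FR D'.ν (D'.e 2) 0 = 0 at hsum
  have hcomp : D'.uv 0 0 = (D'.cst 0 : ℂ) * (D'.Fx 1 0 / D'.Fx 0 0) := rfl
  have hn : ‖D'.uv 0 0‖ ^ 2 = -D'.dual.om 1 / D'.dual.om 0 *
      (FR D'.ν (D'.e 1) 0 ^ 2 / FR D'.ν (D'.e 0) 0 ^ 2) := by
    rw [hcomp, norm_mul, mul_pow, norm_div, div_pow, Complex.norm_real, Real.norm_eq_abs, sq_abs,
      h'.cst_sq, hF0, hF1, Complex.norm_real, Complex.norm_real, Real.norm_eq_abs,
      Real.norm_eq_abs, sq_abs, sq_abs]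
    rfl
  have ha21 : D'.al 2 - D'.al 1 = 1 / 5 := by
    rw [ha']; simp only [a3, Matrix.cons_val]; norm_num
  obtain ⟨A, B⟩ := D'.ratio3 (by
    rw [ha21]; exact (sin_pos_of (by norm_num) (by norm_num)).ne')
  have hm := num_main
  rw [← q1, ← q2, ← q3, ← q4] at hm
  -- identify the sines
  have g21 : Real.sin (Real.pi * (D'.e 2 - D'.e 1)) = Real.sin (270 * Real.pi / 630) := by
    rw [he']; simp only [e3, Matrix.cons_val]; congr 1; ring
  have g20 : Real.sin (Real.pi * (D'.e 2 - D'.e 0)) = Real.sin (300 * Real.pi / 630) := by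
    rw [he']; simp only [e3, Matrix.cons_val]; congr 1; ring
  have g10 : Real.sin (Real.pi * (D'.e 1 - D'.e 0)) = Real.sin (30 * Real.pi / 630) := by
    rw [he']; simp only [e3, Matrix.cons_val]; congr 1; ring
  have s00 : D'.ss 0 0 = Real.sin (79 * Real.pi / 630) := by
    unfold HD.ss; rw [he', ha']; simp only [e3, a3, Matrix.cons_val]; congr 1; ring
  have s01 : D'.ss 0 1 = Real.sin (205 * Real.pi / 630) := by
    unfold HD.ss; rw [he', ha']; simp only [e3, a3, Matrix.cons_val]; congr 1; ring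
  have s02 : D'.ss 0 2 = Real.sin (331 * Real.pi / 630) := by
    unfold HD.ss; rw [he', ha']; simp only [e3, a3, Matrix.cons_val]; congr 1; ring
  have s10 : D'.ss 1 0 = Real.sin (109 * Real.pi / 630) := by
    unfold HD.ss; rw [he', ha']; simp only [e3, a3, Matrix.cons_val]; congr 1; ring
  have s11 : D'.ss 1 1 = Real.sin (235 * Real.pi / 630) := by
    unfold HD.ss; rw [he', ha']; simp only [e3, a3, Matrix.cons_val]; congr 1; ring
  have s12 : D'.ss 1 2 = Real.sin (361 * Real.pi / 630) := by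
    unfold HD.ss; rw [he', ha']; simp only [e3, a3, Matrix.cons_val]; congr 1; ring
  have s20 : D'.ss 2 0 = Real.sin (379 * Real.pi / 630) := by
    unfold HD.ss; rw [he', ha']; simp only [e3, a3, Matrix.cons_val]; congr 1; ring
  have s21 : D'.ss 2 1 = Real.sin (505 * Real.pi / 630) := by
    unfold HD.ss; rw [he', ha']; simp only [e3, a3, Matrix.cons_val]; congr 1; ring
  have s22 : D'.ss 2 2 = -Real.sin (Real.pi / 630) := by
    unfold HD.ss; rw [he', ha']; simp only [e3, a3, Matrix.cons_val]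
    rw [← Real.sin_add_pi]; congr 1; ring
  have pos : ∀ k : ℝ, 0 < k → k < 630 → 0 < Real.sin (k * Real.pi / 630) := by
    intro k h0 h1
    have : k * Real.pi / 630 = Real.pi * (k / 630) := by ring
    rw [this]
    exact sin_pos_of (by positivity) (by rw [div_lt_one (by norm_num)]; exact h1)
  rw [g21, g20, s00, s01, s02, s10, s11, s12] at A
  rw [g21, g10, s00, s01, s02, s20, s21, s22] at B
  have W0 : 0 < Real.sin (270 * Real.pi / 630) * Real.sin (79 * Real.pi / 630) *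
      Real.sin (205 * Real.pi / 630) * Real.sin (331 * Real.pi / 630) := by
    have := pos 270 (by norm_num) (by norm_num)
    have := pos 79 (by norm_num) (by norm_num)
    have := pos 205 (by norm_num) (by norm_num)
    have := pos 331 (by norm_num) (by norm_num)
    positivity
  have W1 : 0 < Real.sin (300 * Real.pi / 630) * Real.sin (109 * Real.pi / 630) *
      Real.sin (235 * Real.pi / 630) * Real.sin (361 * Real.pi / 630) := by
    have := pos 300 (by norm_num) (by norm_num)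
    have := pos 109 (by norm_num) (by norm_num)
    have := pos 235 (by norm_num) (by norm_num)
    have := pos 361 (by norm_num) (by norm_num)
    positivity
  have W2 : 0 < Real.sin (30 * Real.pi / 630) * Real.sin (379 * Real.pi / 630) *
      Real.sin (505 * Real.pi / 630) * Real.sin (Real.pi / 630) := by
    have := pos 30 (by norm_num) (by norm_num)
    have := pos 379 (by norm_num) (by norm_num)
    have := pos 505 (by norm_num) (by norm_num)
    have := pos 1 (by norm_num) (by norm_num)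
    rw [one_mul] at this
    positivity
  generalize hW0 : Real.sin (270 * Real.pi / 630) * Real.sin (79 * Real.pi / 630) *
      Real.sin (205 * Real.pi / 630) * Real.sin (331 * Real.pi / 630) = w0 at *
  generalize hW1 : Real.sin (300 * Real.pi / 630) * Real.sin (109 * Real.pi / 630) *
      Real.sin (235 * Real.pi / 630) * Real.sin (361 * Real.pi / 630) = w1 at *
  generalize hW2 : Real.sin (30 * Real.pi / 630) * Real.sin (379 * Real.pi / 630) *
      Real.sin (505 * Real.pi / 630) * Real.sin (Real.pi / 630) = w2 at *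
  have A' : -D'.dual.om 1 * w0 = D'.dual.om 0 * w1 := by
    rw [← hW0, ← hW1]; linear_combination -A
  have B' : -D'.dual.om 2 * w0 = D'.dual.om 0 * w2 := by
    rw [← hW0, ← hW2]; linear_combination -B
  have hlow : w0 * w1 / (w1 + w2) ^ 2 ≤ ‖D'.uv 0 0‖ ^ 2 := by
    rw [hn]
    exact main_alg hv0 (neg_pos.mpr hv2).le f0 f1 f21.le W0 W1 W2 (by linarith) A' B'
  have hfin : 0.9975 ^ 2 * ‖D.uv 0‖ ^ 2 ≤ ‖D'.uv 0 0‖ ^ 2 :=
    main_alg2 h2 (mul_pos p10 p11) W1 W2 hm hlow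
  rw [← mul_pow] at hfin
  exact (pow_le_pow_iff_left₀ (by positivity) (norm_nonneg _) two_ne_zero).mp hfin

end Pool.Agent.BallCurve
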