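import Pool.Agent.MP_071e05_an.Ball

/-!
Normalisation of diagonal indefinite forms on `ℂ^{n+1}` to the standard ball.
-/

set_option autoImplicit false
set_option linter.unusedVariables false
set_option linter.unusedSectionVars false

open Metric Set Filter Topology ComplexConjugate

namespace Pool.Agent.BallCurve

variable {n : ℕ}

/-- Weights with signature `(1, n)`. -/
def SgnW (w : Fin (n + 1) → ℝ) : Prop := 0 < w 0 ∧ ∀ k : Fin n, w k.succ < 0

/-- The quadratic form `∑ w_j |x_j|²`. -/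
noncomputable def qw (w : Fin (n + 1) → ℝ) (x : Fin (n + 1) → ℂ) : ℝ := ∑ j, w j * ‖x j‖ ^ 2

/-- The normalised point of the ball. -/
noncomputable def nrm (w : Fin (n + 1) → ℝ) (x : Fin (n + 1) → ℂ) : EuclideanSpace ℂ (Fin n) :=
  WithLp.toLp 2 (fun k => (Real.sqrt (-w k.succ / w 0) : ℂ) * (x k.succ / x 0))

theorem qw_le {w : Fin (n + 1) → ℝ} (hw : SgnW w) (x : Fin (n + 1) → ℂ) :
    qw w x ≤ w 0 * ‖x 0‖ ^ 2 := by
  unfold qw
  rw [Fin.sum_univ_succ]
  have : ∑ k : Fin n, w k.succ * ‖x k.succ‖ ^ 2 ≤ 0 :=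
    Finset.sum_nonpos fun k _ => mul_nonpos_of_nonpos_of_nonneg (hw.2 k).le (by positivity)
  linarith

theorem x0_ne_of_qw {w : Fin (n + 1) → ℝ} (hw : SgnW w) {x : Fin (n + 1) → ℂ} (hx : 0 < qw w x) :
    x 0 ≠ 0 := by
  intro h
  have := qw_le hw x
  rw [h] at this
  simp at this
  linarith

theorem norm_nrm_sq {w : Fin (n + 1) → ℝ} (hw : SgnW w) {x : Fin (n + 1) → ℂ} (hx : x 0 ≠ 0) :
    ‖nrm w x‖ ^ 2 = 1 - qw w x / (w 0 * ‖x 0‖ ^ 2) := by
  have h1 : 0 < ‖x 0‖ := norm_pos_iff.mpr hx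
  have h2 := hw.1
  have h3 : ∀ k : Fin n, Real.sqrt (-w k.succ / w 0) ^ 2 = -w k.succ / w 0 := fun k =>
    Real.sq_sqrt (div_nonneg (by have := hw.2 k; linarith) h2.le)
  rw [EuclideanSpace.norm_sq_eq]
  simp only [nrm, norm_mul, norm_div, Complex.norm_real, mul_pow, div_pow, Real.norm_eq_abs,
    sq_abs, h3]
  unfold qw
  rw [Fin.sum_univ_succ, add_div, div_self (by positivity), Finset.sum_div]
  rw [sub_add_cancel_left, ← Finset.sum_neg_distrib]
  apply Finset.sum_congr rfl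
  intro k _
  field_simp

theorem nrm_mem {w : Fin (n + 1) → ℝ} (hw : SgnW w) {x : Fin (n + 1) → ℂ} (hx : 0 < qw w x) :
    nrm w x ∈ ball (0 : EuclideanSpace ℂ (Fin n)) 1 := by
  have h0 := x0_ne_of_qw hw hx
  have h1 := norm_nrm_sq hw h0
  have h2 : 0 < w 0 * ‖x 0‖ ^ 2 := mul_pos hw.1 (pow_pos (norm_pos_iff.mpr h0) 2)
  have h3 : 0 < qw w x / (w 0 * ‖x 0‖ ^ 2) := div_pos hx h2
  rw [mem_ball_zero_iff]
  have := norm_nonneg (nrm w x)
  nlinarith

theorem nrm_smul (w : Fin (n + 1) → ℝ) (x : Fin (n + 1) → ℂ) {c : ℂ} (hc : c ≠ 0) :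
    nrm w (fun j => c * x j) = nrm w x := by
  unfold nrm
  congr 1
  ext k
  rw [mul_div_mul_left _ _ hc]

/-- An isometry of diagonal forms gives an element of `U(1,n)`. -/
theorem exists_UG_of_isom {w w' : Fin (n + 1) → ℝ} (hw : SgnW w) (hw' : SgnW w')
    (A : Fin (n + 1) → Fin (n + 1) → ℂ)
    (hA : ∀ x : Fin (n + 1) → ℂ, qw w' (fun j => ∑ i, A j i * x i) = qw w x) :
    ∃ L ∈ UG (EuclideanSpace ℂ (Fin n)), ∀ x : Fin (n + 1) → ℂ, 0 < qw w x →
      nrm w' (fun j => ∑ i, A j i * x i) = act L (nrm w x) := by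
  classical
  have hw0 : (Real.sqrt (w 0) : ℂ) ≠ 0 := by
    exact_mod_cast (Real.sqrt_pos.mpr hw.1).ne'
  have hw0' : (Real.sqrt (w' 0) : ℂ) ≠ 0 := by
    exact_mod_cast (Real.sqrt_pos.mpr hw'.1).ne'
  have hwk : ∀ k : Fin n, (Real.sqrt (-w k.succ) : ℂ) ≠ 0 := fun k => by
    exact_mod_cast (Real.sqrt_pos.mpr (by have := hw.2 k; linarith)).ne'
  -- the coordinates
  let X : (ℂ × EuclideanSpace ℂ (Fin n)) →ₗ[ℂ] (Fin (n + 1) → ℂ) :=
    { toFun := fun cv => Fin.cons ((Real.sqrt (w 0) : ℂ)⁻¹ * cv.1)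
        (fun k => (Real.sqrt (-w k.succ) : ℂ)⁻¹ * cv.2 k)
      map_add' := by
        intro a b; ext j
        refine Fin.cases ?_ (fun k => ?_) j
        · simp [mul_add]
        · simp [mul_add]
      map_smul' := by
        intro c a; ext j
        refine Fin.cases ?_ (fun k => ?_) j
        · simp; ring
        · simp; ring }
  let Y : (Fin (n + 1) → ℂ) →ₗ[ℂ] (ℂ × EuclideanSpace ℂ (Fin n)) :=
    { toFun := fun y => ((Real.sqrt (w' 0) : ℂ) * y 0,
        WithLp.toLp 2 (fun k => (Real.sqrt (-w' k.succ) : ℂ) * y k.succ))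
      map_add' := by
        intro a b
        ext k
        · simp [mul_add]
        · simp [mul_add]
      map_smul' := by
        intro c a
        ext k
        · simp; ring
        · simp; ring }
  let Lm : (ℂ × EuclideanSpace ℂ (Fin n)) →ₗ[ℂ] (ℂ × EuclideanSpace ℂ (Fin n)) :=
    Y ∘ₗ (Matrix.mulVecLin (Matrix.of A)) ∘ₗ X
  have hX : ∀ cv, qw w (X cv) = qf cv := by
    intro cv
    unfold qw qf
    rw [Fin.sum_univ_succ, EuclideanSpace.norm_sq_eq]
    have h1 : X cv 0 = (Real.sqrt (w 0) : ℂ)⁻¹ * cv.1 := rfl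
    have h2 : ∀ k : Fin n, X cv k.succ = (Real.sqrt (-w k.succ) : ℂ)⁻¹ * cv.2 k := fun k => rfl
    rw [h1]
    simp_rw [h2]
    rw [norm_mul, norm_inv, Complex.norm_real, mul_pow, inv_pow, Real.norm_eq_abs, sq_abs,
      Real.sq_sqrt hw.1.le, mul_inv_cancel_left₀ hw.1.ne', sub_eq_add_neg, ← Finset.sum_neg_distrib]
    congr 1
    apply Finset.sum_congr rfl; intro k _
    have h3 : 0 < -w k.succ := by have := hw.2 k; linarith
    rw [norm_mul, norm_inv, Complex.norm_real, mul_pow, inv_pow, Real.norm_eq_abs, sq_abs,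
      Real.sq_sqrt h3.le]
    have h4 := (hw.2 k).ne
    field_simp
  have hY : ∀ y, qf (Y y) = qw w' y := by
    intro y
    unfold qw qf
    rw [Fin.sum_univ_succ, EuclideanSpace.norm_sq_eq]
    have h1 : (Y y).1 = (Real.sqrt (w' 0) : ℂ) * y 0 := rfl
    have h2 : ∀ k : Fin n, (Y y).2 k = (Real.sqrt (-w' k.succ) : ℂ) * y k.succ := fun k => rfl
    rw [h1]
    simp_rw [h2]
    rw [norm_mul, Complex.norm_real, mul_pow, Real.norm_eq_abs, sq_abs,
      Real.sq_sqrt hw'.1.le, sub_eq_add_neg, ← Finset.sum_neg_distrib]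
    congr 1
    apply Finset.sum_congr rfl; intro k _
    have h3 : 0 < -w' k.succ := by have := hw'.2 k; linarith
    rw [norm_mul, Complex.norm_real, mul_pow, Real.norm_eq_abs, sq_abs,
      Real.sq_sqrt h3.le]
    ring
  have hLq : ∀ x, qf (Lm x) = qf x := by
    intro x
    have h1 : Lm x = Y (fun j => ∑ i, A j i * X x i) := rfl
    rw [h1, hY, hA, hX]
  -- injectivity
  have hinj : Function.Injective Lm := by
    rw [← LinearMap.ker_eq_bot, LinearMap.ker_eq_bot']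
    intro x hx
    have h1 : ∀ y, (hf x y).re = 0 := by
      intro y
      have h2 := hLq (x + y)
      rw [map_add, hx, zero_add, qf_add, hLq y] at h2
      have h3 : qf x = 0 := by rw [← hLq x, hx]; simp [qf]
      rw [h3] at h2; linarith
    have h4 := h1 (x.1, -x.2)
    unfold hf at h4
    have h5 : (inner ℂ x.2 (-x.2) : ℂ) = -((‖x.2‖ : ℂ) ^ 2) := by
      rw [inner_neg_right, inner_self_eq_norm_sq_to_K]; rfl
    simp only [h5] at h4
    rw [← Complex.normSq_eq_conj_mul_self, Complex.normSq_eq_norm_sq] at h4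
    have h6 : ‖x.1‖ ^ 2 + ‖x.2‖ ^ 2 = 0 := by
      have h7 : (((‖x.1‖ ^ 2 : ℝ) : ℂ) - -((‖x.2‖ : ℂ) ^ 2)) =
        ((‖x.1‖ ^ 2 + ‖x.2‖ ^ 2 : ℝ) : ℂ) := by push_cast; ring
      rw [h7, Complex.ofReal_re] at h4
      exact h4
    have h7 : ‖x.1‖ = 0 := by nlinarith [norm_nonneg x.1, norm_nonneg x.2, sq_nonneg ‖x.1‖, sq_nonneg ‖x.2‖]
    have h8 : ‖x.2‖ = 0 := by nlinarith [norm_nonneg x.1, norm_nonneg x.2, sq_nonneg ‖x.1‖, sq_nonneg ‖x.2‖]
    exact Prod.ext (norm_eq_zero.mp h7) (norm_eq_zero.mp h8)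
  let Le : (ℂ × EuclideanSpace ℂ (Fin n)) ≃ₗ[ℂ] (ℂ × EuclideanSpace ℂ (Fin n)) :=
    LinearEquiv.ofInjectiveEndo Lm hinj
  let L : (ℂ × EuclideanSpace ℂ (Fin n)) ≃L[ℂ] (ℂ × EuclideanSpace ℂ (Fin n)) :=
    Le.toContinuousLinearEquiv
  have hLL : ∀ x, L x = Lm x := fun x => rfl
  refine ⟨L, fun x => by rw [hLL, hLq], ?_⟩
  intro x hx
  have hx0 := x0_ne_of_qw hw hx
  symm
  -- X (1, nrm w x) is proportional to x
  have hXn : X ((1 : ℂ), nrm w x) = fun i => ((Real.sqrt (w 0) : ℂ)⁻¹ * (x 0)⁻¹) * x i := by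
    ext i
    refine Fin.cases ?_ (fun k => ?_) i
    · change (Real.sqrt (w 0) : ℂ)⁻¹ * 1 = _
      field_simp
    · change (Real.sqrt (-w k.succ) : ℂ)⁻¹ * ((Real.sqrt (-w k.succ / w 0) : ℂ) *
        (x k.succ / x 0)) = _
      rw [Real.sqrt_div (by have := hw.2 k; linarith)]
      have := hwk k
      push_cast
      field_simp
  set c : ℂ := (Real.sqrt (w 0) : ℂ)⁻¹ * (x 0)⁻¹ with hc
  have hc0 : c ≠ 0 := mul_ne_zero (inv_ne_zero hw0) (inv_ne_zero hx0)
  set y : Fin (n + 1) → ℂ := fun j => ∑ i, A j i * x i with hy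
  have hLx : L ((1 : ℂ), nrm w x) = Y (fun j => c * y j) := by
    rw [hLL]
    change Y (fun j => ∑ i, A j i * X ((1 : ℂ), nrm w x) i) = _
    rw [hXn]
    congr 1
    ext j
    rw [hy]; simp only
    rw [Finset.mul_sum]
    apply Finset.sum_congr rfl; intro i _; ring
  have hy0 : y 0 ≠ 0 := by
    apply x0_ne_of_qw hw'
    rw [hy, hA]; exact hx
  unfold act
  rw [hLx]
  change ((Real.sqrt (w' 0) : ℂ) * (c * y 0))⁻¹ •
    (WithLp.toLp 2 (fun k => (Real.sqrt (-w' k.succ) : ℂ) * (c * y k.succ)) :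
      EuclideanSpace ℂ (Fin n)) = nrm w' y
  unfold nrm
  ext k
  simp only [PiLp.smul_apply, smul_eq_mul]
  rw [Real.sqrt_div (by have := hw'.2 k; linarith)]
  push_cast
  field_simp

/-- Transport of `U(1,V)` by a linear isometry. -/
theorem UG_transport {V V' : Type*} [NormedAddCommGroup V] [InnerProductSpace ℂ V]
    [NormedAddCommGroup V'] [InnerProductSpace ℂ V'] (φ : V ≃ₗᵢ[ℂ] V')
    {L : (ℂ × V) ≃L[ℂ] (ℂ × V)} (hL : L ∈ UG V) :
    ∃ L' ∈ UG V', ∀ v : V, act L' (φ v) = φ (act L v) := by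
  let P : (ℂ × V) ≃L[ℂ] (ℂ × V') :=
    (ContinuousLinearEquiv.refl ℂ ℂ).prodCongr φ.toContinuousLinearEquiv
  have hP : ∀ x, qf (P x) = qf x := by
    intro x
    have h1 : P x = (x.1, φ x.2) := rfl
    rw [h1]; simp [qf]
  have hPs : ∀ x, qf (P.symm x) = qf x := by
    intro x
    rw [← hP (P.symm x), P.apply_symm_apply]
  refine ⟨P.symm.trans (L.trans P), ?_, ?_⟩
  · intro x
    change qf (P (L (P.symm x))) = qf x
    rw [hP, hL, hPs]
  · intro v
    have h1 : P.symm ((1 : ℂ), φ v) = (1, v) := by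
      rw [ContinuousLinearEquiv.symm_apply_eq]; rfl
    have h2 : (P.symm.trans (L.trans P)) ((1 : ℂ), φ v) = P (L (1, v)) := by
      change P (L (P.symm (1, φ v))) = _
      rw [h1]
    unfold act
    rw [h2]
    have h3 : P (L (1, v)) = ((L (1, v)).1, φ (L (1, v)).2) := rfl
    rw [h3]
    simp

/-- The isometry `ℂ^1 ≃ ℂ`. -/
noncomputable def iso1 : EuclideanSpace ℂ (Fin 1) ≃ₗᵢ[ℂ] ℂ where
  toLinearEquiv :=
    { toFun := fun v => v 0
      map_add' := fun _ _ => rfl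
      map_smul' := fun _ _ => rfl
      invFun := fun c => WithLp.toLp 2 (fun _ => c)
      left_inv := by
        intro v; ext i
        have : i = 0 := Subsingleton.elim _ _
        subst this; rfl
      right_inv := fun c => rfl }
  norm_map' := by
    intro v
    have h : ‖v‖ ^ 2 = ‖v 0‖ ^ 2 := by
      rw [EuclideanSpace.norm_sq_eq]; simp
    change ‖v 0‖ = ‖v‖
    exact ((pow_left_inj₀ (norm_nonneg _) (norm_nonneg _) two_ne_zero).mp h).symm

theorem iso1_apply (v : EuclideanSpace ℂ (Fin 1)) : iso1 v = v 0 := rfl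

end Pool.Agent.BallCurve
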