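import Pool.Agent.MP_071e05_an.Strip
import Pool.Agent.MP_071e05_an.Nrm

/-!
The charts at `t = 0` (and, by duality, at `t = ∞`).
-/

set_option autoImplicit false
set_option linter.unusedVariables false

open MeasureTheory Set Filter Topology ComplexConjugate

namespace Pool.Agent.BallCurve

variable {n : ℕ}

/-- Positivity package used by the charts. -/
structure HD.PosD (E : HD (n + 1)) : Prop where
  npos : 0 < n
  sgn : SgnW E.dual.om
  pos : ∀ τ : ℂ, 1 - Complex.exp τ ∈ Complex.slitPlane →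
    0 < qw E.dual.om (fun j => FK E.ν (E.e j) τ)

theorem FK_int (ν : Measure ℝ) (e : ℝ) (τ : ℂ) (k : ℤ) :
    FK ν e (τ + k * (2 * Real.pi * Complex.I)) =
      Complex.exp (e * (k * (2 * Real.pi * Complex.I))) * FK ν e τ := by
  unfold FK
  have h : Complex.exp (τ + k * (2 * Real.pi * Complex.I)) = Complex.exp τ := by
    rw [Complex.exp_add, Complex.exp_int_mul_two_pi_mul_I, mul_one]
  rw [h, mul_add, Complex.exp_add]
  ring

theorem norm_FK_int (ν : Measure ℝ) (e : ℝ) (τ : ℂ) (k : ℤ) :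
    ‖FK ν e (τ + k * (2 * Real.pi * Complex.I))‖ = ‖FK ν e τ‖ := by
  rw [FK_int, norm_mul]
  have h2 : ‖Complex.exp (e * (k * (2 * Real.pi * Complex.I)))‖ = 1 := by
    rw [show (e * (k * (2 * Real.pi * Complex.I)) : ℂ) =
      ((e * (k * (2 * Real.pi)) : ℝ) : ℂ) * Complex.I by push_cast; ring,
      Complex.norm_exp_ofReal_mul_I]
  rw [h2, one_mul]

theorem exists_shift (τ : ℂ) : ∃ k : ℤ, 0 ≤ (τ + k * (2 * Real.pi * Complex.I)).im ∧
    (τ + k * (2 * Real.pi * Complex.I)).im < 2 * Real.pi := by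
  have hpi : 0 < 2 * Real.pi := by positivity
  have hpi' : 2 * Real.pi ≠ 0 := hpi.ne'
  refine ⟨-⌊τ.im / (2 * Real.pi)⌋, ?_⟩
  have h1 : (τ + ((-⌊τ.im / (2 * Real.pi)⌋ : ℤ) : ℂ) * (2 * Real.pi * Complex.I)).im =
      τ.im - ⌊τ.im / (2 * Real.pi)⌋ * (2 * Real.pi) := by
    have : (((-⌊τ.im / (2 * Real.pi)⌋ : ℤ) : ℂ) * (2 * Real.pi * Complex.I)) =
        (((-⌊τ.im / (2 * Real.pi)⌋ : ℤ) : ℝ) * (2 * Real.pi) : ℝ) * Complex.I := by
      push_cast; ring
    rw [Complex.add_im, this, Complex.im_ofReal_mul, Complex.I_im]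
    push_cast; ring
  rw [h1]
  have h2 := Int.floor_le (τ.im / (2 * Real.pi))
  have h3 := Int.lt_floor_add_one (τ.im / (2 * Real.pi))
  have h4 : τ.im / (2 * Real.pi) * (2 * Real.pi) = τ.im := div_mul_cancel₀ _ hpi'
  constructor
  · nlinarith
  · nlinarith

theorem exp_shift (τ : ℂ) (k : ℤ) :
    Complex.exp (τ + k * (2 * Real.pi * Complex.I)) = Complex.exp τ := by
  rw [Complex.exp_add, Complex.exp_int_mul_two_pi_mul_I, mul_one]

/-- Dichotomy for a point whose exponential is off `[1,∞)`. -/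
theorem slit_cases {τ : ℂ} (h : 1 - Complex.exp τ ∈ Complex.slitPlane) :
    ∃ k : ℤ, (τ + k * (2 * Real.pi * Complex.I)) ∈ S0 ∨
      ((τ + k * (2 * Real.pi * Complex.I)).im = 0 ∧
        (τ + k * (2 * Real.pi * Complex.I)).re < 0) := by
  obtain ⟨k, h0, h1⟩ := exists_shift τ
  refine ⟨k, ?_⟩
  rcases lt_or_eq_of_le h0 with h2 | h2
  · exact Or.inl ⟨h2, h1⟩
  · right
    refine ⟨h2.symm, ?_⟩
    set σ := τ + k * (2 * Real.pi * Complex.I) with hσ
    have h3 : Complex.exp σ = Complex.exp τ := exp_shift τ k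
    rw [← h3] at h
    have h4 : σ = (σ.re : ℂ) := by apply Complex.ext <;> simp [← h2]
    rw [h4, ← Complex.ofReal_exp] at h
    rcases h with h5 | h5
    · rw [Complex.sub_re, Complex.one_re, Complex.ofReal_re] at h5
      have : Real.exp σ.re < 1 := by linarith
      simpa using this
    · exfalso; apply h5
      simp

theorem HD.Sgn.sgnW {D : HD (n + 1)} (h : D.Sgn) : SgnW D.dual.om :=
  ⟨D.dual.om_zero_pos, h.hom'⟩

theorem HD.Sgn.sgnW' {D : HD (n + 1)} (h : D.Sgn) : SgnW D.om := ⟨D.om_zero_pos, h.hom⟩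

theorem HD.Sgn.posD {D : HD (n + 1)} (h : D.Sgn) : D.PosD where
  npos := h.npos
  sgn := h.sgnW
  pos := by
    intro τ hτ
    obtain ⟨k, hk⟩ := slit_cases hτ
    have h1 : qw D.dual.om (fun j => FK D.ν (D.e j) τ) =
        qw D.dual.om (fun j => FK D.ν (D.e j) (τ + k * (2 * Real.pi * Complex.I))) := by
      unfold qw; simp_rw [norm_FK_int]
    rw [h1]
    rcases hk with hk | hk
    · have h2 := h.D0_pos (S0_subset_Sc hk)
      unfold HD.D0 at h2
      simp_rw [D.Fx_eq_F _ hk] at h2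
      exact h2
    · set σ := τ + k * (2 * Real.pi * Complex.I) with hσ
      have h4 : σ = (σ.re : ℂ) := by apply Complex.ext <;> simp [hk.1]
      have h5 := h.real_pos hk.2.le
      rw [h4]
      unfold qw
      simp_rw [FK_ofReal, Complex.norm_real, Real.norm_eq_abs, sq_abs]
      exact h5

theorem HD.dual_dual (D : HD n) : D.dual.dual = D := rfl

theorem HD.Sgn.posD' {D : HD (n + 1)} (h : D.Sgn) : D.dual.PosD where
  npos := h.npos
  sgn := h.sgnW'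
  pos := by
    intro τ hτ
    obtain ⟨k, hk⟩ := slit_cases hτ
    change 0 < qw D.om (fun j => FK D.ν' (D.al j) τ)
    rcases hk with hk | hk
    · set σ := -(τ + (k - 1 : ℤ) * (2 * Real.pi * Complex.I)) with hσ
      have hk1 : (τ + (k - 1 : ℤ) * (2 * Real.pi * Complex.I)) =
          (τ + k * (2 * Real.pi * Complex.I)) - 2 * Real.pi * Complex.I := by push_cast; ring
      have hσm : σ ∈ S0 := by
        have h5 : σ.im = 2 * Real.pi - (τ + k * (2 * Real.pi * Complex.I)).im := by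
          rw [hσ, hk1]; simp
        constructor
        · rw [h5]; linarith [hk.2]
        · rw [h5]; linarith [hk.1]
      have h1 : qw D.om (fun j => FK D.ν' (D.al j) τ) = qw D.om (fun j => D.G j σ) := by
        unfold qw HD.G
        rw [hσ]; simp_rw [neg_neg, norm_FK_int]
      rw [h1]
      have h2 := h.D0_pos (S0_subset_Sc hσm)
      unfold HD.D0 at h2
      simp_rw [D.Fx_eq_F _ hσm, D.F_eq _ hσm] at h2
      rw [D.isom] at h2
      exact h2
    · set σ := τ + k * (2 * Real.pi * Complex.I) with hσ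
      have h1 : qw D.om (fun j => FK D.ν' (D.al j) τ) = qw D.om (fun j => FK D.ν' (D.al j) σ) := by
        unfold qw; rw [hσ]; simp_rw [norm_FK_int]
      have h4 : σ = (σ.re : ℂ) := by apply Complex.ext <;> simp [hk.1]
      have h5 := D.real_pos' h.npos h.hom hk.2.le
      rw [h1, h4]
      unfold qw
      simp_rw [FK_ofReal, Complex.norm_real, Real.norm_eq_abs, sq_abs]
      exact h5

/-! ### The chart vector -/

/-- Multiplicity data: `m_j = p (e_j - e_0)`. -/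
structure Mult (E : HD (n + 1)) (p : ℕ) (m : Fin (n + 1) → ℕ) : Prop where
  ppos : 0 < p
  eq : ∀ j, (m j : ℝ) = p * (E.e j - E.e 0)

theorem Mult.m0 {E : HD (n + 1)} {p : ℕ} {m : Fin (n + 1) → ℕ} (h : Mult E p m) : m 0 = 0 := by
  have := h.eq 0
  rw [sub_self, mul_zero] at this
  exact_mod_cast this

theorem Mult.mpos {E : HD (n + 1)} {p : ℕ} {m : Fin (n + 1) → ℕ} (h : Mult E p m) (k : Fin n) :
    0 < m k.succ := by
  have h1 := h.eq k.succ
  have h2 : E.e 0 < E.e k.succ := E.e_mono (Fin.succ_pos k)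
  have h3 : (0 : ℝ) < p := by exact_mod_cast h.ppos
  have h4 : (0 : ℝ) < m k.succ := by rw [h1]; apply mul_pos h3; linarith
  exact_mod_cast h4

/-- The vector of solutions in the chart `t = ζ^p`. -/
noncomputable def x0 (E : HD (n + 1)) (p : ℕ) (m : Fin (n + 1) → ℕ) (ζ : ℂ) (j : Fin (n + 1)) : ℂ :=
  ζ ^ (m j) * hK E.ν (E.e j) (ζ ^ p)

/-- Local inverse parametrisation. -/
noncomputable def chi (p : ℕ) (m₀ τ₀ τ : ℂ) : ℂ := m₀ * Complex.exp ((τ - τ₀) / p)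

theorem chi_pow {p : ℕ} (hp : 0 < p) {m₀ τ₀ : ℂ} (h : m₀ ^ p = Complex.exp τ₀) (τ : ℂ) :
    chi p m₀ τ₀ τ ^ p = Complex.exp τ := by
  unfold chi
  have hp' : (p : ℂ) ≠ 0 := by exact_mod_cast hp.ne'
  rw [mul_pow, h, ← Complex.exp_nat_mul, ← Complex.exp_add]
  congr 1
  field_simp
  ring

/-- The constant phases. -/
noncomputable def lamc (E : HD (n + 1)) (m : Fin (n + 1) → ℕ) (m₀ τ₀ : ℂ) (j : Fin (n + 1)) : ℂ :=
  m₀ ^ (m j) * Complex.exp (-((E.e j - E.e 0 : ℝ) * τ₀))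

theorem norm_lamc {E : HD (n + 1)} {p : ℕ} {m : Fin (n + 1) → ℕ} (hm : Mult E p m) {m₀ τ₀ : ℂ}
    (h : m₀ ^ p = Complex.exp τ₀) (j : Fin (n + 1)) : ‖lamc E m m₀ τ₀ j‖ = 1 := by
  have hp : (0 : ℝ) < p := by exact_mod_cast hm.ppos
  have h1 : ‖m₀‖ ^ p = Real.exp τ₀.re := by rw [← norm_pow, h, Complex.norm_exp]
  have hpos : 0 < ‖m₀‖ := by
    rcases (norm_nonneg m₀).lt_or_eq with h2 | h2
    · exact h2
    · exfalso
      rw [← h2, zero_pow hm.ppos.ne'] at h1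
      exact (Real.exp_pos _).ne h1
  have h2 : p * Real.log ‖m₀‖ = τ₀.re := by
    rw [← Real.log_pow, h1, Real.log_exp]
  unfold lamc
  rw [norm_mul, norm_pow, Complex.norm_exp, Complex.neg_re, Complex.re_ofReal_mul]
  have h3 : ‖m₀‖ ^ (m j) = Real.exp (m j * Real.log ‖m₀‖) := by
    rw [Real.exp_nat_mul, Real.exp_log hpos]
  rw [h3, ← Real.exp_add, hm.eq j, ← h2]
  rw [Real.exp_eq_one_iff]; ring

theorem x0_chi {E : HD (n + 1)} {p : ℕ} {m : Fin (n + 1) → ℕ} (hm : Mult E p m) {m₀ τ₀ : ℂ}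
    (h : m₀ ^ p = Complex.exp τ₀) (τ : ℂ) (j : Fin (n + 1)) :
    x0 E p m (chi p m₀ τ₀ τ) j =
      Complex.exp (-(E.e 0 * τ)) * (lamc E m m₀ τ₀ j * FK E.ν (E.e j) τ) := by
  have hp' : (p : ℂ) ≠ 0 := by exact_mod_cast hm.ppos.ne'
  unfold x0
  rw [chi_pow hm.ppos h]
  unfold chi lamc FK
  rw [mul_pow, ← Complex.exp_nat_mul]
  have h1 : ((m j : ℕ) : ℂ) * ((τ - τ₀) / p) = ((E.e j - E.e 0 : ℝ) : ℂ) * (τ - τ₀) := by
    have h2 : ((m j : ℕ) : ℂ) = p * ((E.e j - E.e 0 : ℝ) : ℂ) := by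
      have := hm.eq j
      exact_mod_cast this
    rw [h2]; field_simp
  rw [h1]
  have h3 : Complex.exp (((E.e j - E.e 0 : ℝ) : ℂ) * (τ - τ₀)) =
      Complex.exp (-(E.e 0 * τ)) * Complex.exp (-((E.e j - E.e 0 : ℝ) * τ₀)) *
        Complex.exp (E.e j * τ) := by
    rw [← Complex.exp_add, ← Complex.exp_add]
    congr 1; push_cast; ring
  rw [h3]; ring

/-- The chart domain. -/
def M0 (p : ℕ) : Set ℂ := {ζ | 1 - ζ ^ p ∈ Complex.slitPlane}

theorem isOpen_M0 (p : ℕ) : IsOpen (M0 p) :=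
  Complex.isOpen_slitPlane.preimage (by fun_prop)

theorem zero_mem_M0 {p : ℕ} (hp : 0 < p) : (0 : ℂ) ∈ M0 p := by
  change 1 - (0 : ℂ) ^ p ∈ Complex.slitPlane
  rw [zero_pow hp.ne', sub_zero]
  exact Complex.one_mem_slitPlane

theorem preconn_M0 {p : ℕ} (hp : 0 < p) : IsPreconnected (M0 p) := by
  have h : StarConvex ℝ 0 (M0 p) := by
    rw [starConvex_zero_iff]
    intro x hx a ha ha1
    change 1 - (a • x) ^ p ∈ Complex.slitPlane
    have h1 : 1 - (a • x) ^ p = (1 - a ^ p) • (1 : ℂ) + (a ^ p) • (1 - x ^ p) := by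
      rw [Complex.real_smul, Complex.real_smul, Complex.real_smul, mul_pow]
      push_cast; ring
    rw [h1]
    have ha2 : a ^ p ≤ 1 := pow_le_one₀ ha ha1
    exact Complex.starConvex_one_slitPlane hx (by linarith) (by positivity) (by ring)
  exact (h.isPathConnected (zero_mem_M0 hp)).isConnected.isPreconnected

theorem exists_log {ζ : ℂ} (hζ : ζ ≠ 0) (p : ℕ) : ∃ τ₀ : ℂ, ζ ^ p = Complex.exp τ₀ := by
  refine ⟨Complex.log (ζ ^ p), ?_⟩
  rw [Complex.exp_log (pow_ne_zero _ hζ)]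

theorem qw_x0_pos {E : HD (n + 1)} (hE : E.PosD) {p : ℕ} {m : Fin (n + 1) → ℕ} (hm : Mult E p m)
    {ζ : ℂ} (hζ : ζ ∈ M0 p) : 0 < qw E.dual.om (x0 E p m ζ) := by
  by_cases h0 : ζ = 0
  · subst h0
    unfold qw
    rw [Fin.sum_univ_succ]
    have h1 : ∀ k : Fin n, x0 E p m 0 k.succ = 0 := by
      intro k; unfold x0; rw [zero_pow (hm.mpos k).ne', zero_mul]
    have h2 : x0 E p m 0 0 = (cK E.ν (E.e 0) : ℂ) := by
      unfold x0
      rw [hm.m0, pow_zero, one_mul, zero_pow hm.ppos.ne', hK_zero E.hν (E.e_nonneg 0)]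
    simp_rw [h1, h2]
    have h3 := E.hν.cK_pos (E.e_nonneg 0)
    have h4 := hE.sgn.1
    simp only [Complex.norm_real, Real.norm_eq_abs, sq_abs, norm_zero, ne_eq, OfNat.ofNat_ne_zero,
      not_false_eq_true, zero_pow, mul_zero, Finset.sum_const_zero, add_zero]
    positivity
  · obtain ⟨τ₀, hτ₀⟩ := exists_log h0 p
    have h1 : chi p ζ τ₀ τ₀ = ζ := by unfold chi; simp
    have h2 : x0 E p m ζ = fun j => Complex.exp (-(E.e 0 * τ₀)) *
        (lamc E m ζ τ₀ j * FK E.ν (E.e j) τ₀) := by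
      ext j
      rw [← x0_chi hm hτ₀ τ₀ j, h1]
    rw [h2]
    unfold qw
    simp_rw [norm_mul, norm_lamc hm hτ₀, one_mul, mul_pow]
    have h3 : ∑ j, E.dual.om j * (‖Complex.exp (-(E.e 0 * τ₀))‖ ^ 2 * ‖FK E.ν (E.e j) τ₀‖ ^ 2) =
        ‖Complex.exp (-(E.e 0 * τ₀))‖ ^ 2 * qw E.dual.om (fun j => FK E.ν (E.e j) τ₀) := by
      unfold qw; rw [Finset.mul_sum]; apply Finset.sum_congr rfl; intro j _; ring
    rw [h3]
    apply mul_pos
    · have := Complex.exp_ne_zero (-(E.e 0 * τ₀)); positivity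
    · apply hE.pos
      rw [← hτ₀]; exact hζ

/-- The chart map to the ball. -/
noncomputable def u0 (E : HD (n + 1)) (p : ℕ) (m : Fin (n + 1) → ℕ) (ζ : ℂ) :
    EuclideanSpace ℂ (Fin n) := nrm E.dual.om (x0 E p m ζ)

theorem u0_mem {E : HD (n + 1)} (hE : E.PosD) {p : ℕ} {m : Fin (n + 1) → ℕ} (hm : Mult E p m)
    {ζ : ℂ} (hζ : ζ ∈ M0 p) : u0 E p m ζ ∈ Metric.ball (0 : EuclideanSpace ℂ (Fin n)) 1 :=
  nrm_mem hE.sgn (qw_x0_pos hE hm hζ)

theorem nrm_differentiableAt {w : Fin (n + 1) → ℝ} {x : ℂ → Fin (n + 1) → ℂ} {ζ : ℂ}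
    (hx : ∀ j, DifferentiableAt ℂ (fun ζ => x ζ j) ζ) (h0 : x ζ 0 ≠ 0) :
    DifferentiableAt ℂ (fun ζ => nrm w (x ζ)) ζ := by
  unfold nrm
  have h1 : DifferentiableAt ℂ (fun ζ => (fun k : Fin n =>
      (Real.sqrt (-w k.succ / w 0) : ℂ) * (x ζ k.succ / x ζ 0))) ζ := by
    apply differentiableAt_pi.mpr
    intro k
    exact ((hx k.succ).div (hx 0) h0).const_mul _
  exact (PiLp.continuousLinearEquiv 2 ℂ (fun _ : Fin n => ℂ)).symm.differentiableAt.comp ζ h1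

theorem x0_differentiableAt (E : HD (n + 1)) (p : ℕ) (m : Fin (n + 1) → ℕ) {ζ : ℂ}
    (hζ : ζ ∈ M0 p) (j : Fin (n + 1)) : DifferentiableAt ℂ (fun ζ => x0 E p m ζ j) ζ := by
  unfold x0
  have h1 : DifferentiableAt ℂ (fun ζ : ℂ => hK E.ν (E.e j) (ζ ^ p)) ζ :=
    (E.hν.hK_hasDerivAt (E.e_nonneg j) hζ).comp ζ
      (by fun_prop : DifferentiableAt ℂ (fun ζ : ℂ => ζ ^ p) ζ)
  have h2 : DifferentiableAt ℂ (fun ζ : ℂ => ζ ^ (m j)) ζ := by fun_prop
  exact h2.mul h1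

theorem u0_differentiableAt {E : HD (n + 1)} (hE : E.PosD) {p : ℕ} {m : Fin (n + 1) → ℕ}
    (hm : Mult E p m) {ζ : ℂ} (hζ : ζ ∈ M0 p) : DifferentiableAt ℂ (u0 E p m) ζ :=
  nrm_differentiableAt (fun j => x0_differentiableAt E p m hζ j)
    (x0_ne_of_qw hE.sgn (qw_x0_pos hE hm hζ))

/-- The reference vector at `τ`. -/
noncomputable def RF (E : HD (n + 1)) (τ : ℂ) : EuclideanSpace ℂ (Fin n) :=
  nrm E.dual.om (fun j => FK E.ν (E.e j) τ)

theorem RF_mem {E : HD (n + 1)} (hE : E.PosD) {τ : ℂ}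
    (h : 1 - Complex.exp τ ∈ Complex.slitPlane) :
    RF E τ ∈ Metric.ball (0 : EuclideanSpace ℂ (Fin n)) 1 := nrm_mem hE.sgn (hE.pos τ h)

theorem RF_differentiableAt {E : HD (n + 1)} (hE : E.PosD) {τ : ℂ}
    (h : 1 - Complex.exp τ ∈ Complex.slitPlane) : DifferentiableAt ℂ (RF E) τ :=
  nrm_differentiableAt (fun j => E.hν.FK_differentiableAt (E.e_nonneg j) h)
    (x0_ne_of_qw hE.sgn (hE.pos τ h))

/-- Diagonal unitary. -/
theorem exists_UG_diag {w : Fin (n + 1) → ℝ} (hw : SgnW w) (lam : Fin (n + 1) → ℂ)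
    (hl : ∀ j, ‖lam j‖ = 1) :
    ∃ L ∈ UG (EuclideanSpace ℂ (Fin n)), ∀ x : Fin (n + 1) → ℂ, 0 < qw w x →
      nrm w (fun j => lam j * x j) = act L (nrm w x) := by
  classical
  have key := exists_UG_of_isom hw hw (fun j i => if j = i then lam j else 0) (by
    intro x
    unfold qw
    apply Finset.sum_congr rfl; intro j _
    simp [hl j])
  obtain ⟨L, hL, h⟩ := key
  refine ⟨L, hL, fun x hx => ?_⟩
  rw [← h x hx]
  congr 1
  ext j
  simp

theorem u0_chi {E : HD (n + 1)} (hE : E.PosD) {p : ℕ} {m : Fin (n + 1) → ℕ} (hm : Mult E p m)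
    {m₀ τ₀ : ℂ} (h : m₀ ^ p = Complex.exp τ₀) :
    ∃ L ∈ UG (EuclideanSpace ℂ (Fin n)), ∀ τ : ℂ, 1 - Complex.exp τ ∈ Complex.slitPlane →
      u0 E p m (chi p m₀ τ₀ τ) = act L (RF E τ) := by
  obtain ⟨L, hL, hLx⟩ := exists_UG_diag hE.sgn (lamc E m m₀ τ₀) (norm_lamc hm h)
  refine ⟨L, hL, fun τ hτ => ?_⟩
  unfold u0 RF
  rw [← hLx _ (hE.pos τ hτ)]
  have : x0 E p m (chi p m₀ τ₀ τ) = fun j => Complex.exp (-(E.e 0 * τ)) *
      ((fun j => lamc E m m₀ τ₀ j * FK E.ν (E.e j) τ) j) := by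
    ext j; exact x0_chi hm h τ j
  rw [this, nrm_smul _ _ (Complex.exp_ne_zero _)]

end Pool.Agent.BallCurve
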