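import Pool.Agent.MP_071e05_an.Wron

/-!
The chart at `t = 1`: `τ = -ζ²`.
-/

set_option autoImplicit false
set_option linter.unusedVariables false

open MeasureTheory Set Filter Topology ComplexConjugate

namespace Pool.Agent.BallCurve

variable {n : ℕ}

/-- The vector of solutions in the chart at `t = 1`. -/
noncomputable def HD.Fh (D : HD (n + 1)) (ζ : ℂ) (j : Fin (n + 1)) : ℂ := by
  classical exact
    if 0 < ζ.re then D.F j (-ζ ^ 2)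
    else if ζ.re < 0 then D.Tr (fun l => D.F l (-ζ ^ 2)) j
    else if ζ.im < 0 then ∑ i, D.W j i * D.G i (-ζ ^ 2)
    else ∑ i, conj (D.W j i) * D.G i (-ζ ^ 2)

theorem neg_sq_im (ζ : ℂ) : (-ζ ^ 2).im = -(2 * ζ.re * ζ.im) := by
  rw [Complex.neg_im, sq, Complex.mul_im]; ring

theorem neg_sq_re (ζ : ℂ) : (-ζ ^ 2).re = ζ.im ^ 2 - ζ.re ^ 2 := by
  rw [Complex.neg_re, sq, Complex.mul_re]; ring

theorem abs_im_lt {ζ : ℂ} (h : ‖ζ‖ < 1) : |2 * ζ.re * ζ.im| < 2 * Real.pi := by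
  have h1 : ζ.re ^ 2 + ζ.im ^ 2 = ‖ζ‖ ^ 2 := by
    rw [← Complex.normSq_eq_norm_sq, Complex.normSq_apply]; ring
  have h2 : ‖ζ‖ ^ 2 < 1 := by have := norm_nonneg ζ; nlinarith
  have h3 := Real.pi_gt_three
  rw [abs_lt]
  constructor
  · nlinarith [sq_nonneg (ζ.re + ζ.im)]
  · nlinarith [sq_nonneg (ζ.re - ζ.im)]

theorem neg_sq_mem_S0 {ζ : ℂ} (h : ‖ζ‖ < 1) (h1 : ζ.re * ζ.im < 0) : -ζ ^ 2 ∈ S0 := by
  have h2 := abs_lt.mp (abs_im_lt h)
  constructor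
  · rw [neg_sq_im]; nlinarith
  · rw [neg_sq_im]; linarith [h2.1]

theorem sq_mem_S0 {ζ : ℂ} (h : ‖ζ‖ < 1) (h1 : 0 < ζ.re * ζ.im) : -(-ζ ^ 2) ∈ S0 := by
  have h2 := abs_lt.mp (abs_im_lt h)
  constructor
  · rw [Complex.neg_im, neg_sq_im]; nlinarith
  · rw [Complex.neg_im, neg_sq_im]; linarith [h2.2]

/-- `-ζ²` is off the cut `[0,∞)` when `Re ζ ≠ 0`. -/
theorem slit_neg_sq {ζ : ℂ} (h : ‖ζ‖ < 1) (h1 : ζ.re ≠ 0) :
    1 - Complex.exp (-ζ ^ 2) ∈ Complex.slitPlane := by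
  rcases lt_trichotomy (ζ.re * ζ.im) 0 with h2 | h2 | h2
  · exact slit_of_strip (neg_sq_mem_S0 h h2).1 (neg_sq_mem_S0 h h2).2
  · have h3 : ζ.im = 0 := by
      rcases mul_eq_zero.mp h2 with h4 | h4
      · exact absurd h4 h1
      · exact h4
    apply slit_of_re_neg
    rw [neg_sq_re, h3]
    have : 0 < ζ.re ^ 2 := by positivity
    nlinarith
  · exact nS0_slit (sq_mem_S0 h h2)

/-- `ζ²` is off the cut when `Im ζ ≠ 0`. -/
theorem slit_sq {ζ : ℂ} (h : ‖ζ‖ < 1) (h1 : ζ.im ≠ 0) :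
    1 - Complex.exp (-(-ζ ^ 2)) ∈ Complex.slitPlane := by
  have h2 : -(-ζ ^ 2) = -(Complex.I * ζ) ^ 2 := by rw [mul_pow, Complex.I_sq]; ring
  rw [h2]
  apply slit_neg_sq
  · rw [norm_mul, Complex.norm_I, one_mul]; exact h
  · simpa using h1

theorem HD.Fh_right (D : HD (n + 1)) {ζ : ℂ} (h : 0 < ζ.re) :
    D.Fh ζ = fun j => D.F j (-ζ ^ 2) := by
  ext j; unfold HD.Fh; rw [if_pos h]

theorem HD.Fh_left (D : HD (n + 1)) {ζ : ℂ} (h : ζ.re < 0) :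
    D.Fh ζ = D.Tr (fun l => D.F l (-ζ ^ 2)) := by
  ext j; unfold HD.Fh; rw [if_neg (not_lt.mpr h.le), if_pos h]

theorem HD.Fh_lower (D : HD (n + 1)) {ζ : ℂ} (h1 : ‖ζ‖ < 1) (h : ζ.im < 0) :
    D.Fh ζ = fun j => ∑ i, D.W j i * D.G i (-ζ ^ 2) := by
  rcases lt_trichotomy ζ.re 0 with h2 | h2 | h2
  · rw [D.Fh_left h2]
    have h3 : -(-ζ ^ 2) ∈ S0 := sq_mem_S0 h1 (by nlinarith)
    ext j
    have h4 : (fun l => D.F l (-ζ ^ 2)) = fun l => ∑ k, conj (D.W l k) * D.G k (-ζ ^ 2) := by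
      ext l; exact D.F_eq_lower l h3
    rw [h4]; exact D.Tr_conjW _ j
  · ext j; unfold HD.Fh
    rw [if_neg (by rw [h2]; exact lt_irrefl _), if_neg (by rw [h2]; exact lt_irrefl _), if_pos h]
  · rw [D.Fh_right h2]
    ext j
    exact D.F_eq j (neg_sq_mem_S0 h1 (by nlinarith))

theorem HD.Fh_upper (D : HD (n + 1)) {ζ : ℂ} (h1 : ‖ζ‖ < 1) (h : 0 < ζ.im) :
    D.Fh ζ = fun j => ∑ i, conj (D.W j i) * D.G i (-ζ ^ 2) := by
  rcases lt_trichotomy ζ.re 0 with h2 | h2 | h2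
  · rw [D.Fh_left h2]
    have h3 : (-ζ ^ 2) ∈ S0 := neg_sq_mem_S0 h1 (by nlinarith)
    ext j
    have h4 : (fun l => D.F l (-ζ ^ 2)) = fun l => ∑ k, D.W l k * D.G k (-ζ ^ 2) := by
      ext l; exact D.F_eq l h3
    rw [h4]; exact D.Tr_W _ j
  · ext j; unfold HD.Fh
    rw [if_neg (by rw [h2]; exact lt_irrefl _), if_neg (by rw [h2]; exact lt_irrefl _),
      if_neg (not_lt.mpr h.le)]
  · rw [D.Fh_right h2]
    ext j
    exact D.F_eq_lower j (sq_mem_S0 h1 (by nlinarith))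

theorem HD.Tr_differentiableAt (D : HD (n + 1)) {g : ℂ → Fin (n + 1) → ℂ} {ζ : ℂ}
    (hg : ∀ j, DifferentiableAt ℂ (fun ζ => g ζ j) ζ) (j : Fin (n + 1)) :
    DifferentiableAt ℂ (fun ζ => D.Tr (g ζ) j) ζ := by
  unfold HD.Tr
  apply (hg j).add
  apply DifferentiableAt.fun_sum
  intro i _
  exact (hg i).const_mul _

theorem HD.F_sq_diff (D : HD (n + 1)) (j : Fin (n + 1)) {ζ : ℂ} (h : ‖ζ‖ < 1) (h1 : ζ.re ≠ 0) :
    DifferentiableAt ℂ (fun ζ : ℂ => D.F j (-ζ ^ 2)) ζ := by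
  have h2 := D.hν.FK_differentiableAt (D.e_nonneg j) (slit_neg_sq h h1)
  exact h2.comp ζ (by fun_prop : DifferentiableAt ℂ (fun ζ : ℂ => -ζ ^ 2) ζ)

theorem HD.G_sq_diff (D : HD (n + 1)) (j : Fin (n + 1)) {ζ : ℂ} (h : ‖ζ‖ < 1) (h1 : ζ.im ≠ 0) :
    DifferentiableAt ℂ (fun ζ : ℂ => D.G j (-ζ ^ 2)) ζ := by
  have h2 := D.hν'.FK_differentiableAt (D.al_nonneg j) (slit_sq h h1)
  exact h2.comp ζ (by fun_prop : DifferentiableAt ℂ (fun ζ : ℂ => -(-ζ ^ 2)) ζ)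

theorem HD.Fh_diff_punct (D : HD (n + 1)) (j : Fin (n + 1)) {ζ : ℂ} (h : ‖ζ‖ < 1) (h0 : ζ ≠ 0) :
    DifferentiableAt ℂ (fun ζ => D.Fh ζ j) ζ := by
  have hnorm : ∀ᶠ x : ℂ in 𝓝 ζ, ‖x‖ < 1 := continuous_norm.continuousAt.eventually_lt_const h
  rcases lt_trichotomy ζ.re 0 with h2 | h2 | h2
  · have h3 : ∀ᶠ x : ℂ in 𝓝 ζ, x.re < 0 := Complex.continuous_re.continuousAt.eventually_lt_const h2
    have h4 : (fun ζ => D.Fh ζ j) =ᶠ[𝓝 ζ] fun ζ => D.Tr (fun l => D.F l (-ζ ^ 2)) j := by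
      filter_upwards [h3] with x hx
      rw [D.Fh_left hx]
    exact (D.Tr_differentiableAt (fun l => D.F_sq_diff l h h2.ne) j).congr_of_eventuallyEq h4
  · have him : ζ.im ≠ 0 := fun h3 => h0 (Complex.ext h2 h3)
    rcases lt_or_gt_of_ne him with h3 | h3
    · have h5 : ∀ᶠ x : ℂ in 𝓝 ζ, x.im < 0 := Complex.continuous_im.continuousAt.eventually_lt_const h3
      have h4 : (fun ζ => D.Fh ζ j) =ᶠ[𝓝 ζ] fun ζ => ∑ i, D.W j i * D.G i (-ζ ^ 2) := by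
        filter_upwards [h5, hnorm] with x hx hn
        rw [D.Fh_lower hn hx]
      refine DifferentiableAt.congr_of_eventuallyEq ?_ h4
      apply DifferentiableAt.fun_sum
      intro i _
      exact (D.G_sq_diff i h him).const_mul _
    · have h5 : ∀ᶠ x : ℂ in 𝓝 ζ, 0 < x.im := Complex.continuous_im.continuousAt.eventually_const_lt h3
      have h4 : (fun ζ => D.Fh ζ j) =ᶠ[𝓝 ζ] fun ζ => ∑ i, conj (D.W j i) * D.G i (-ζ ^ 2) := by
        filter_upwards [h5, hnorm] with x hx hn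
        rw [D.Fh_upper hn hx]
      refine DifferentiableAt.congr_of_eventuallyEq ?_ h4
      apply DifferentiableAt.fun_sum
      intro i _
      exact (D.G_sq_diff i h him).const_mul _
  · have h3 : ∀ᶠ x : ℂ in 𝓝 ζ, 0 < x.re := Complex.continuous_re.continuousAt.eventually_const_lt h2
    have h4 : (fun ζ => D.Fh ζ j) =ᶠ[𝓝 ζ] fun ζ => D.F j (-ζ ^ 2) := by
      filter_upwards [h3] with x hx
      rw [D.Fh_right hx]
    exact (D.F_sq_diff j h h2.ne').congr_of_eventuallyEq h4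

/-! ### Continuity at `0` -/

theorem HD.value_one_conj (D : HD (n + 1)) (j : Fin (n + 1)) :
    (FR D.ν (D.e j) 0 : ℂ) = ∑ i, conj (D.W j i) * (FR D.ν' (D.al i) 0 : ℂ) := by
  have h := congrArg conj (D.value_one j)
  rw [Complex.conj_ofReal, map_sum] at h
  simp only [map_mul, Complex.conj_ofReal] at h
  exact h

theorem HD.F_zero (D : HD (n + 1)) (j : Fin (n + 1)) : D.F j 0 = (FR D.ν (D.e j) 0 : ℂ) := by
  unfold HD.F; rw [← FK_ofReal]; simp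

theorem HD.G_zero (D : HD (n + 1)) (j : Fin (n + 1)) : D.G j 0 = (FR D.ν' (D.al j) 0 : ℂ) := by
  unfold HD.G; rw [← FK_ofReal]; simp

theorem HD.Fh_zero (D : HD (n + 1)) (j : Fin (n + 1)) : D.Fh 0 j = (FR D.ν (D.e j) 0 : ℂ) := by
  unfold HD.Fh
  simp only [Complex.zero_re, lt_irrefl, if_false, Complex.zero_im]
  have h : -(0 : ℂ) ^ 2 = 0 := by ring
  rw [h, D.value_one_conj]
  simp_rw [D.G_zero]

theorem HD.Tr_value_one (D : HD (n + 1)) (j : Fin (n + 1)) :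
    D.Tr (fun l => (FR D.ν (D.e l) 0 : ℂ)) j = (FR D.ν (D.e j) 0 : ℂ) := by
  have h : (fun l => (FR D.ν (D.e l) 0 : ℂ)) =
      fun l => ∑ k, conj (D.W l k) * (FR D.ν' (D.al k) 0 : ℂ) := by
    ext l; exact D.value_one_conj l
  rw [h, D.Tr_conjW, ← D.value_one]

theorem HD.Fh_cont (D : HD (n + 1)) (j : Fin (n + 1)) : ContinuousAt (fun ζ => D.Fh ζ j) 0 := by
  have hsq : Tendsto (fun ζ : ℂ => -ζ ^ 2) (𝓝 0) (𝓝 0) := by
    have : Continuous (fun ζ : ℂ => -ζ ^ 2) := by fun_prop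
    have h := this.tendsto 0
    simpa using h
  have hF : ∀ l, Tendsto (fun ζ : ℂ => D.F l (-ζ ^ 2)) (𝓝[{ζ | (-ζ ^ 2).re ≤ 0}] 0)
      (𝓝 (FR D.ν (D.e l) 0 : ℂ)) := by
    intro l
    have hc := D.F_contOn l 0 (by simp)
    rw [← D.F_zero]
    apply Tendsto.comp hc
    rw [tendsto_nhdsWithin_iff]
    exact ⟨hsq.mono_left nhdsWithin_le_nhds, by
      filter_upwards [self_mem_nhdsWithin] with ζ hζ using hζ⟩
  have hG : ∀ l, Tendsto (fun ζ : ℂ => D.G l (-ζ ^ 2)) (𝓝[{ζ | 0 ≤ (-ζ ^ 2).re}] 0)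
      (𝓝 (FR D.ν' (D.al l) 0 : ℂ)) := by
    intro l
    have hc := D.G_contOn l 0 (by simp)
    rw [← D.G_zero]
    apply Tendsto.comp hc
    rw [tendsto_nhdsWithin_iff]
    exact ⟨hsq.mono_left nhdsWithin_le_nhds, by
      filter_upwards [self_mem_nhdsWithin] with ζ hζ using hζ⟩
  have hT : Tendsto (fun ζ : ℂ => D.Tr (fun l => D.F l (-ζ ^ 2)) j) (𝓝[{ζ | (-ζ ^ 2).re ≤ 0}] 0)
      (𝓝 (FR D.ν (D.e j) 0 : ℂ)) := by
    rw [← D.Tr_value_one j]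
    unfold HD.Tr
    apply (hF j).add
    apply tendsto_finsetSum
    intro i _
    exact (hF i).const_mul _
  have hW : Tendsto (fun ζ : ℂ => ∑ i, D.W j i * D.G i (-ζ ^ 2)) (𝓝[{ζ | 0 ≤ (-ζ ^ 2).re}] 0)
      (𝓝 (FR D.ν (D.e j) 0 : ℂ)) := by
    rw [D.value_one j]
    apply tendsto_finsetSum
    intro i _
    exact (hG i).const_mul _
  have hWc : Tendsto (fun ζ : ℂ => ∑ i, conj (D.W j i) * D.G i (-ζ ^ 2))
      (𝓝[{ζ | 0 ≤ (-ζ ^ 2).re}] 0) (𝓝 (FR D.ν (D.e j) 0 : ℂ)) := by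
    rw [D.value_one_conj j]
    apply tendsto_finsetSum
    intro i _
    exact (hG i).const_mul _
  rw [ContinuousAt, D.Fh_zero]
  have hnorm : ∀ᶠ x : ℂ in 𝓝 0, ‖x‖ < 1 :=
    continuous_norm.continuousAt.eventually_lt_const (by simp)
  have hA : Tendsto (fun ζ => D.Fh ζ j) (𝓝[{ζ | (-ζ ^ 2).re ≤ 0}] 0)
      (𝓝 (FR D.ν (D.e j) 0 : ℂ)) := by
    rw [tendsto_iff_norm_sub_tendsto_zero] at hT ⊢
    have hF' := hF j
    rw [tendsto_iff_norm_sub_tendsto_zero] at hF'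
    have hs := hF'.add hT
    rw [add_zero] at hs
    refine squeeze_zero' (Eventually.of_forall fun _ => norm_nonneg _) ?_ hs
    filter_upwards [self_mem_nhdsWithin] with ζ hζ
    have hζ' : (-ζ ^ 2).re ≤ 0 := hζ
    rcases lt_trichotomy ζ.re 0 with h2 | h2 | h2
    · rw [D.Fh_left h2]
      have := norm_nonneg (D.F j (-ζ ^ 2) - (FR D.ν (D.e j) 0 : ℂ))
      linarith
    · rw [neg_sq_re, h2] at hζ'
      have h3 : ζ.im = 0 := by nlinarith [sq_nonneg ζ.im]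
      have h4 : ζ = 0 := Complex.ext h2 h3
      rw [h4, D.Fh_zero, sub_self, norm_zero]
      positivity
    · rw [D.Fh_right h2]
      have := norm_nonneg (D.Tr (fun l => D.F l (-ζ ^ 2)) j - (FR D.ν (D.e j) 0 : ℂ))
      linarith
  have hB : Tendsto (fun ζ => D.Fh ζ j) (𝓝[{ζ | 0 ≤ (-ζ ^ 2).re}] 0)
      (𝓝 (FR D.ν (D.e j) 0 : ℂ)) := by
    rw [tendsto_iff_norm_sub_tendsto_zero] at hW hWc ⊢
    have hs := hW.add hWc
    rw [add_zero] at hs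
    refine squeeze_zero' (Eventually.of_forall fun _ => norm_nonneg _) ?_ hs
    filter_upwards [self_mem_nhdsWithin, hnorm.filter_mono nhdsWithin_le_nhds] with ζ hζ hn
    have hζ' : 0 ≤ (-ζ ^ 2).re := hζ
    rcases lt_trichotomy ζ.im 0 with h2 | h2 | h2
    · rw [D.Fh_lower hn h2]
      have := norm_nonneg (∑ i, conj (D.W j i) * D.G i (-ζ ^ 2) - (FR D.ν (D.e j) 0 : ℂ))
      linarith
    · rw [neg_sq_re, h2] at hζ'
      have h3 : ζ.re = 0 := by nlinarith [sq_nonneg ζ.re]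
      have h4 : ζ = 0 := Complex.ext h3 h2
      rw [h4, D.Fh_zero, sub_self, norm_zero]
      positivity
    · rw [D.Fh_upper hn h2]
      have := norm_nonneg (∑ i, D.W j i * D.G i (-ζ ^ 2) - (FR D.ν (D.e j) 0 : ℂ))
      linarith
  have hU : ({ζ : ℂ | (-ζ ^ 2).re ≤ 0} ∪ {ζ : ℂ | 0 ≤ (-ζ ^ 2).re}) = univ := by
    ext ζ; simp only [mem_union, mem_ofPred_eq, mem_univ, iff_true]
    exact le_total _ _
  have := hA.sup hB
  rw [← nhdsWithin_union, hU, nhdsWithin_univ] at this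
  exact this

theorem HD.Fh_diffOn (D : HD (n + 1)) (j : Fin (n + 1)) :
    DifferentiableOn ℂ (fun ζ => D.Fh ζ j) (Metric.ball 0 1) := by
  have h1 : Metric.ball (0 : ℂ) 1 ∈ 𝓝 (0 : ℂ) := Metric.ball_mem_nhds 0 one_pos
  rw [← Complex.differentiableOn_compl_singleton_and_continuousAt_iff h1]
  refine ⟨?_, D.Fh_cont j⟩
  intro ζ hζ
  have h2 : ‖ζ‖ < 1 := by simpa using hζ.1
  exact (D.Fh_diff_punct j h2 hζ.2).differentiableWithinAt

theorem HD.Sgn.qw_Fh_zero {D : HD (n + 1)} (h : D.Sgn) : 0 < qw D.dual.om (D.Fh 0) := by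
  unfold qw
  simp_rw [D.Fh_zero, Complex.norm_real, Real.norm_eq_abs, sq_abs]
  exact h.real_pos le_rfl

/-- The chart map. -/
noncomputable def HD.u1 (D : HD (n + 1)) (ζ : ℂ) : EuclideanSpace ℂ (Fin n) :=
  nrm D.dual.om (D.Fh ζ)

theorem HD.Sgn.exists_eps {D : HD (n + 1)} (h : D.Sgn) :
    ∃ ε > 0, ε ≤ 1 ∧ ∀ ζ ∈ Metric.ball (0 : ℂ) ε, 0 < qw D.dual.om (D.Fh ζ) := by
  have hc : ContinuousAt (fun ζ => qw D.dual.om (D.Fh ζ)) 0 := by
    unfold qw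
    apply tendsto_finsetSum
    intro j _
    exact ((D.Fh_cont j).norm.pow 2).const_mul _
  have h1 := hc.eventually_const_lt h.qw_Fh_zero
  obtain ⟨ε, hε, hball⟩ := Metric.eventually_nhds_iff_ball.mp h1
  refine ⟨min ε 1, lt_min hε one_pos, min_le_right _ _, fun ζ hζ => ?_⟩
  exact hball ζ (Metric.ball_subset_ball (min_le_left _ _) hζ)

theorem HD.Sgn.u1_differentiableAt {D : HD (n + 1)} (h : D.Sgn) {ζ : ℂ} (hζ : ‖ζ‖ < 1)
    (hq : 0 < qw D.dual.om (D.Fh ζ)) : DifferentiableAt ℂ D.u1 ζ := by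
  apply nrm_differentiableAt _ (x0_ne_of_qw h.sgnW hq)
  intro j
  exact (D.Fh_diffOn j).differentiableAt (Metric.isOpen_ball.mem_nhds (by simpa using hζ))

/-! ### Non-vanishing derivative for rank two -/

theorem KM.FR_drop {ν : Measure ℝ} (hν : KM ν) {e : ℝ} (he : 0 ≤ e) {t : ℝ} (ht : 1 / 2 ≤ t)
    (ht1 : t < 1) :
    (1 / 2) ^ e * ν.real (Icc t 1) / (4 * (1 - t)) ≤ hR ν e 1 - hR ν e t := by
  have := hν.fin
  have hi1 := hν.int_hR (e := e) (t := 1) he le_rfl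
  have hit := hν.int_hR (e := e) (t := t) he ht1.le
  unfold hR
  rw [← integral_sub hi1 hit]
  have hsub : 0 < 1 - t := by linarith
  have hhalf : (0 : ℝ) < (1 / 2) ^ e := by positivity
  have h1 : (1 / 2) ^ e * ν.real (Icc t 1) / (4 * (1 - t)) =
      ∫ y, (Icc t 1).indicator (fun _ => (1 / 2) ^ e / (4 * (1 - t))) y ∂ν := by
    rw [integral_indicator measurableSet_Icc, setIntegral_const]
    simp only [smul_eq_mul]
    ring
  rw [h1]
  apply integral_mono_ae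
  · exact (integrable_const _).indicator measurableSet_Icc
  · exact hi1.sub hit
  · filter_upwards [hν.supp] with y hy
    have h2 : 0 < 1 - y := by linarith [hy.2]
    have h3 : 0 < 1 - t * y := by nlinarith [hy.1, hy.2]
    have h4 : y ^ e / (1 - 1 * y) - y ^ e / (1 - t * y) =
        y ^ e * ((1 - t) * y) / ((1 - y) * (1 - t * y)) := by
      rw [one_mul, div_sub_div _ _ h2.ne' h3.ne']
      congr 1; ring
    rw [h4]
    by_cases hyt : y ∈ Icc t 1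
    · rw [indicator_of_mem hyt]
      rw [div_le_div_iff₀ (by positivity) (by positivity)]
      have h5 : 1 - y ≤ 1 - t := by linarith [hyt.1]
      have h6 : 1 - t * y ≤ 2 * (1 - t) := by nlinarith [hyt.1, hy.1, hy.2]
      have h7 : 1 / 2 ≤ y := le_trans ht hyt.1
      have h8 : (1 - y) * (1 - t * y) ≤ (1 - t) * (2 * (1 - t)) :=
        mul_le_mul h5 h6 h3.le hsub.le
      have h9 : (1 / 2 : ℝ) ^ e ≤ y ^ e := Real.rpow_le_rpow (by norm_num) h7 he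
      have h10 : (1 - y) * (1 - t * y) ≤ (1 - t) * y * (4 * (1 - t)) := by
        nlinarith [mul_pos hsub hsub]
      calc (1 / 2 : ℝ) ^ e * ((1 - y) * (1 - t * y)) ≤ y ^ e * ((1 - t) * y * (4 * (1 - t))) := by
            apply mul_le_mul h9 h10 (by positivity) (by positivity)
        _ = y ^ e * ((1 - t) * y) * (4 * (1 - t)) := by ring
    · rw [indicator_of_notMem hyt]
      have := hy.1
      positivity

theorem Tail.drop {ν : Measure ℝ} (hν : KM ν) (h : Tail ν) {e : ℝ} (he : 0 ≤ e) :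
    ∃ c > 0, ∀ x : ℝ, 0 < x → x ≤ 1 / 2 → c * x ≤ FR ν e 0 - FR ν e (-x ^ 2) := by
  obtain ⟨c, hc, hT⟩ := h
  have hhalf : (0 : ℝ) < (1 / 2) ^ e := by positivity
  refine ⟨(1 / 2) ^ e * c / 8, by positivity, ?_⟩
  intro x hx hx2
  set t := Real.exp (-x ^ 2) with ht
  have h1 : t < 1 := by
    rw [ht, Real.exp_lt_one_iff]
    have : 0 < x ^ 2 := by positivity
    linarith
  have h2 : 1 - x ^ 2 ≤ t := by
    have := Real.add_one_le_exp (-x ^ 2)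
    linarith
  have h3 : 1 / 2 ≤ t := by nlinarith
  have h4 : x ^ 2 / 4 ≤ 1 - t := by
    have h5 : t * (1 + x ^ 2) ≤ 1 := by
      have h6 := Real.add_one_le_exp (x ^ 2)
      have h7 : t * Real.exp (x ^ 2) = 1 := by
        rw [ht, ← Real.exp_add]; simp
      nlinarith [Real.exp_pos (-x ^ 2)]
    nlinarith [sq_nonneg x]
  have h5 := hν.FR_drop he h3 h1
  have h6 := hT t h3 h1
  have h7 : hR ν e 1 - hR ν e t ≤ FR ν e 0 - FR ν e (-x ^ 2) := by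
    unfold FR
    rw [mul_zero, Real.exp_zero, one_mul, ← ht]
    have h8 : Real.exp (e * -x ^ 2) ≤ 1 := by
      rw [Real.exp_le_one_iff]
      have : 0 ≤ e * x ^ 2 := by positivity
      linarith
    have h9 := hν.hR_pos (e := e) (t := t) he h1.le
    nlinarith
  refine le_trans ?_ (le_trans h5 h7)
  have hsub : 0 < 1 - t := by linarith
  rw [le_div_iff₀ (by positivity)]
  have h8 : x / 2 ≤ Real.sqrt (1 - t) := by
    apply Real.le_sqrt_of_sq_le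
    nlinarith
  have h9 : (1 / 2) ^ e * c / 8 * x * (4 * (1 - t)) = (1 / 2) ^ e * (c * (x / 2) * (1 - t)) := by
    ring
  rw [h9]
  apply mul_le_mul_of_nonneg_left _ hhalf.le
  refine le_trans ?_ h6
  gcongr

theorem HD.Fh_one_sub_even (D : HD (1 + 1)) {ζ : ℂ} (hζ : ‖ζ‖ < 1) :
    D.Fh (-ζ) 1 - D.Fh (-ζ) 0 = D.Fh ζ 1 - D.Fh ζ 0 := by
  have key : ∀ ζ : ℂ, ζ.re < 0 → D.Fh (-ζ) 1 - D.Fh (-ζ) 0 = D.Fh ζ 1 - D.Fh ζ 0 := by
    intro ζ h
    rw [D.Fh_left h, D.Fh_right (ζ := -ζ) (by simpa using h)]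
    unfold HD.Tr
    rw [neg_sq]; ring
  have hdiff : ∀ i, D.W 1 i - D.W 0 i = conj (D.W 1 i) - conj (D.W 0 i) := by
    intro i
    have h1 := D.W_eq_conj_add 1 i
    have h0 := D.W_eq_conj_add 0 i
    linear_combination h1 - h0
  have key2 : ∀ ζ : ℂ, ‖ζ‖ < 1 → ζ.im < 0 → D.Fh (-ζ) 1 - D.Fh (-ζ) 0 = D.Fh ζ 1 - D.Fh ζ 0 := by
    intro ζ h1 h
    rw [D.Fh_lower h1 h, D.Fh_upper (ζ := -ζ) (by simpa using h1) (by simpa using h)]
    simp only [neg_sq]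
    rw [← Finset.sum_sub_distrib, ← Finset.sum_sub_distrib]
    apply Finset.sum_congr rfl
    intro i _
    rw [← sub_mul, ← sub_mul, hdiff]
  rcases lt_trichotomy ζ.re 0 with h | h | h
  · exact key ζ h
  · rcases lt_trichotomy ζ.im 0 with h2 | h2 | h2
    · exact key2 ζ hζ h2
    · have : ζ = 0 := Complex.ext h h2
      rw [this]; simp
    · have := key2 (-ζ) (by simpa using hζ) (by simpa using h2)
      rw [neg_neg] at this; exact this.symm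
  · have := key (-ζ) (by simpa using h)
    rw [neg_neg] at this; exact this.symm

theorem HD.Fh_hasDerivAt (D : HD (n + 1)) (j : Fin (n + 1)) :
    HasDerivAt (fun ζ => D.Fh ζ j) (deriv (fun ζ => D.Fh ζ j) 0) 0 :=
  ((D.Fh_diffOn j).differentiableAt (Metric.ball_mem_nhds 0 one_pos)).hasDerivAt

theorem HD.Fh_deriv_eq (D : HD (1 + 1)) :
    deriv (fun ζ => D.Fh ζ 1) 0 = deriv (fun ζ => D.Fh ζ 0) 0 := by
  have h1 : HasDerivAt (fun ζ => D.Fh ζ 1 - D.Fh ζ 0)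
      (deriv (fun ζ => D.Fh ζ 1) 0 - deriv (fun ζ => D.Fh ζ 0) 0) 0 :=
    (D.Fh_hasDerivAt 1).sub (D.Fh_hasDerivAt 0)
  have h2 : HasDerivAt (fun ζ => D.Fh (-ζ) 1 - D.Fh (-ζ) 0)
      ((deriv (fun ζ => D.Fh ζ 1) 0 - deriv (fun ζ => D.Fh ζ 0) 0) * -1) 0 := by
    have h3 : HasDerivAt (fun ζ => D.Fh ζ 1 - D.Fh ζ 0)
      (deriv (fun ζ => D.Fh ζ 1) 0 - deriv (fun ζ => D.Fh ζ 0) 0) (-0) := by rw [neg_zero]; exact h1
    exact HasDerivAt.comp (h₂ := fun ζ => D.Fh ζ 1 - D.Fh ζ 0) 0 h3 (hasDerivAt_neg 0)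
  have h3 : HasDerivAt (fun ζ => D.Fh (-ζ) 1 - D.Fh (-ζ) 0)
      (deriv (fun ζ => D.Fh ζ 1) 0 - deriv (fun ζ => D.Fh ζ 0) 0) 0 := by
    apply h1.congr_of_eventuallyEq
    filter_upwards [Metric.ball_mem_nhds (0 : ℂ) one_pos] with ζ hζ
    exact D.Fh_one_sub_even (by simpa using hζ)
  have h4 := h2.unique h3
  linear_combination (-1 / 2 : ℂ) * h4

theorem HD.Fh_deriv_ne (D : HD (1 + 1)) (hT : Tail D.ν) :
    deriv (fun ζ => D.Fh ζ 0) 0 ≠ 0 := by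
  intro hd
  obtain ⟨c, hc, hdrop⟩ := hT.drop D.hν (D.e_nonneg 0)
  have h1 := D.Fh_hasDerivAt 0
  rw [hd] at h1
  -- along the positive reals
  have h2 : HasDerivAt (fun x : ℝ => D.Fh (x : ℂ) 0) 0 0 := by
    have := HasDerivAt.comp_ofReal (e := fun ζ => D.Fh ζ 0) (z := 0) (by simpa using h1)
    exact this
  rw [hasDerivAt_iff_tendsto_slope_zero] at h2
  have h3 : Tendsto (fun t : ℝ => t⁻¹ • (D.Fh ((0 + t : ℝ) : ℂ) 0 - D.Fh ((0 : ℝ) : ℂ) 0)) (𝓝[>] 0)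
      (𝓝 0) := h2.mono_left (nhdsWithin_mono _ (fun x hx => (ne_of_gt hx)))
  have h4 := h3.norm
  rw [norm_zero] at h4
  have h5 : ∀ᶠ t : ℝ in 𝓝[>] 0, c ≤ ‖t⁻¹ • (D.Fh ((0 + t : ℝ) : ℂ) 0 - D.Fh ((0 : ℝ) : ℂ) 0)‖ := by
    filter_upwards [Ioo_mem_nhdsGT (show (0 : ℝ) < 1 / 2 by norm_num)] with t ht
    have h6 : D.Fh ((0 + t : ℝ) : ℂ) 0 = (FR D.ν (D.e 0) (-t ^ 2) : ℂ) := by
      rw [zero_add, D.Fh_right (by simpa using ht.1)]
      change FK D.ν (D.e 0) (-(t : ℂ) ^ 2) = _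
      rw [← FK_ofReal]; push_cast; rfl
    have h7 : D.Fh ((0 : ℝ) : ℂ) 0 = (FR D.ν (D.e 0) 0 : ℂ) := by
      rw [Complex.ofReal_zero, D.Fh_zero]
    rw [h6, h7, norm_smul, ← Complex.ofReal_sub, Complex.norm_real, Real.norm_eq_abs,
      Real.norm_eq_abs, abs_inv, abs_of_pos ht.1, abs_sub_comm]
    have h8 := hdrop t ht.1 ht.2.le
    have h9 : FR D.ν (D.e 0) 0 - FR D.ν (D.e 0) (-t ^ 2) ≤
        |FR D.ν (D.e 0) 0 - FR D.ν (D.e 0) (-t ^ 2)| := le_abs_self _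
    rw [inv_mul_eq_div, le_div_iff₀ ht.1]
    linarith
  have h6 := ge_of_tendsto h4 h5
  linarith

/-- The scalar developing map of the chart at `t = 1`. -/
noncomputable def HD.z1 (D : HD (1 + 1)) (ζ : ℂ) : ℂ := iso1 (D.u1 ζ)

theorem HD.Sgn.z1_deriv_ne {D : HD (1 + 1)} (h : D.Sgn) (hT : Tail D.ν) :
    deriv D.z1 0 ≠ 0 := by
  have h1 : D.z1 = fun ζ => (Real.sqrt (-D.dual.om 1 / D.dual.om 0) : ℂ) *
      (D.Fh ζ 1 / D.Fh ζ 0) := by
    ext ζ; rfl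
  have h00 : D.Fh 0 0 ≠ 0 := x0_ne_of_qw h.sgnW h.qw_Fh_zero
  have h2 := (D.Fh_hasDerivAt 1).div (D.Fh_hasDerivAt 0) h00
  have h3 : deriv (fun ζ => D.Fh ζ 1 / D.Fh ζ 0) 0 =
      (deriv (fun ζ => D.Fh ζ 1) 0 * D.Fh 0 0 - D.Fh 0 1 * deriv (fun ζ => D.Fh ζ 0) 0) /
        D.Fh 0 0 ^ 2 := h2.deriv
  rw [h1, deriv_const_mul_field, h3, D.Fh_deriv_eq]
  apply mul_ne_zero
  · have h2 : 0 < -D.dual.om 1 / D.dual.om 0 := by
      apply div_pos _ h.sgnW.1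
      have := h.sgnW.2 0
      change D.dual.om 1 < 0 at this
      linarith
    exact Complex.ofReal_ne_zero.mpr (Real.sqrt_pos.mpr h2).ne'
  · apply div_ne_zero _ (pow_ne_zero 2 h00)
    have h4 : deriv (fun ζ => D.Fh ζ 0) 0 * D.Fh 0 0 - D.Fh 0 1 * deriv (fun ζ => D.Fh ζ 0) 0 =
        deriv (fun ζ => D.Fh ζ 0) 0 * ((FR D.ν (D.e 0) 0 - FR D.ν (D.e 1) 0 : ℝ) : ℂ) := by
      rw [D.Fh_zero, D.Fh_zero]; push_cast; ring
    rw [h4]
    apply mul_ne_zero (D.Fh_deriv_ne hT)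
    have h5 := D.hν.FR_lt (D.e_nonneg 0) (D.e_mono (show (0 : Fin (1 + 1)) < 1 by decide))
      (τ := 0) le_rfl
    exact Complex.ofReal_ne_zero.mpr (by linarith)

end Pool.Agent.BallCurve
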