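import Pool.Agent.MP_071e05_an.Ref

/-!
The three orbifold charts.
-/

set_option autoImplicit false
set_option linter.unusedSectionVars false

open MeasureTheory Metric Set Filter Topology ComplexConjugate

namespace Pool.Agent.BallCurve

abbrev V2 : Type := EuclideanSpace ℂ (Fin 2)

theorem pow_disc {p : ℕ} (hp : 0 < p) (m : ℂ) : ∀ᶠ x in 𝓝[≠] m, x ^ p ≠ m ^ p := by
  have hfin : {x : ℂ | x ^ p = m ^ p}.Finite := by
    apply Set.Finite.subset ((Polynomial.nthRoots p (m ^ p)).toFinset.finite_toSet)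
    intro x hx
    simp only [Multiset.mem_toFinset, SetLike.mem_coe]
    exact (Polynomial.mem_nthRoots hp).mpr hx
  have hcl : IsClosed ({x : ℂ | x ^ p = m ^ p} \ {m}) := (hfin.subset sdiff_subset).isClosed
  have hmem : ({x : ℂ | x ^ p = m ^ p} \ {m})ᶜ ∈ 𝓝 m := hcl.isOpen_compl.mem_nhds (by simp)
  filter_upwards [mem_nhdsWithin_of_mem_nhds hmem, self_mem_nhdsWithin] with x h1 h2 h3
  exact h1 ⟨h3, h2⟩

/-- data for a centre chart -/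
structure CD where
  E2 : HD (1 + 1)
  E3 : HD (2 + 1)
  p : ℕ
  m2 : Fin (1 + 1) → ℕ
  m3 : Fin (2 + 1) → ℕ
  h2 : E2.PosD
  h3 : E3.PosD
  k2 : Mult E2 p m2
  k3 : Mult E3 p m3
  m21 : m2 1 = 1

theorem CD.pt_disc (c : CD) (m : ℂ) : ∀ᶠ x in 𝓝[≠] m, pt (x ^ c.p) 1 ≠ pt (m ^ c.p) 1 := by
  filter_upwards [pow_disc c.k2.ppos m] with x hx h
  rw [pt_eq_iff (Or.inr one_ne_zero) (Or.inr one_ne_zero)] at h
  apply hx
  linear_combination h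

theorem CD.pt_disc' (c : CD) (m : ℂ) : ∀ᶠ x in 𝓝[≠] m, pt 1 (x ^ c.p) ≠ pt 1 (m ^ c.p) := by
  filter_upwards [pow_disc c.k2.ppos m] with x hx h
  rw [pt_eq_iff (Or.inl one_ne_zero) (Or.inl one_ne_zero)] at h
  apply hx
  linear_combination -h

noncomputable def CD.chart (c : CD) : OChart V2 where
  M := M0 c.p
  isOpen := isOpen_M0 c.p
  preconn := preconn_M0 c.k2.ppos
  z := z0 c.E2 c.p c.m2
  f := u0 c.E3 c.p c.m3
  a := fun ζ => ζ ^ c.p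
  b := fun _ => 1
  z_diff := fun _ h => (z0_differentiableAt c.h2 c.k2 h).differentiableWithinAt
  f_diff := fun _ h => (u0_differentiableAt c.h3 c.k3 h).differentiableWithinAt
  a_diff := (differentiable_id.pow c.p).differentiableOn
  b_diff := differentiableOn_const 1
  z_maps := fun _ h => z0_mem c.h2 c.k2 h
  f_maps := fun _ h => u0_mem c.h3 c.k3 h
  ab_ne := fun _ _ => Or.inr one_ne_zero
  z_deriv := fun _ h => z0_deriv_ne c.h2 c.k2 c.m21 h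
  T_disc := fun m _ => c.pt_disc m

noncomputable def CD.chart' (c : CD) : OChart V2 where
  M := M0 c.p
  isOpen := isOpen_M0 c.p
  preconn := preconn_M0 c.k2.ppos
  z := z0 c.E2 c.p c.m2
  f := u0 c.E3 c.p c.m3
  a := fun _ => 1
  b := fun ζ => ζ ^ c.p
  z_diff := fun _ h => (z0_differentiableAt c.h2 c.k2 h).differentiableWithinAt
  f_diff := fun _ h => (u0_differentiableAt c.h3 c.k3 h).differentiableWithinAt
  a_diff := differentiableOn_const 1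
  b_diff := (differentiable_id.pow c.p).differentiableOn
  z_maps := fun _ h => z0_mem c.h2 c.k2 h
  f_maps := fun _ h => u0_mem c.h3 c.k3 h
  ab_ne := fun _ _ => Or.inl one_ne_zero
  z_deriv := fun _ h => z0_deriv_ne c.h2 c.k2 c.m21 h
  T_disc := fun m _ => c.pt_disc' m

theorem CD.T_eq (c : CD) (ζ : ℂ) : c.chart.T ζ = some (ζ ^ c.p) := by
  change pt (ζ ^ c.p) 1 = _
  unfold pt
  rw [if_neg one_ne_zero, div_one]

theorem CD.T'_eq (c : CD) {ζ : ℂ} (h : ζ ≠ 0) : c.chart'.T ζ = some ((ζ ^ c.p)⁻¹) := by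
  change pt 1 (ζ ^ c.p) = _
  unfold pt
  rw [if_neg (pow_ne_zero _ h), one_div]

theorem CD.T'_zero (c : CD) : c.chart'.T 0 = none := by
  change pt 1 (0 ^ c.p) = _
  unfold pt
  rw [if_pos (zero_pow c.k2.ppos.ne')]

theorem chi_inv {p : ℕ} (hp : 0 < p) {m₀ : ℂ} (h0 : m₀ ≠ 0) (τ₀ : ℂ) :
    ContinuousAt (fun x : ℂ => τ₀ + p * Complex.log (x / m₀)) m₀ ∧
      (fun x : ℂ => τ₀ + p * Complex.log (x / m₀)) m₀ = τ₀ ∧
      ∀ᶠ x in 𝓝 m₀, chi p m₀ τ₀ (τ₀ + p * Complex.log (x / m₀)) = x := by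
  refine ⟨?_, ?_, ?_⟩
  · apply ContinuousAt.add continuousAt_const
    apply ContinuousAt.mul continuousAt_const
    apply ContinuousAt.clog (continuousAt_id.div_const _)
    simp [div_self h0]
  · simp [div_self h0]
  · have : ∀ᶠ x : ℂ in 𝓝 m₀, x ≠ 0 := isOpen_ne.mem_nhds h0
    filter_upwards [this] with x hx
    unfold chi
    have hp' : (p : ℂ) ≠ 0 := by exact_mod_cast hp.ne'
    have e1 : (τ₀ + p * Complex.log (x / m₀) - τ₀) / p = Complex.log (x / m₀) := by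
      field_simp
      ring
    rw [e1, Complex.exp_log (div_ne_zero hx h0)]
    field_simp

theorem chi_cont (p : ℕ) (m₀ τ₀ : ℂ) : Continuous (chi p m₀ τ₀) := by
  unfold chi
  fun_prop

theorem chi_self (p : ℕ) (m₀ τ₀ : ℂ) : chi p m₀ τ₀ τ₀ = m₀ := by
  unfold chi
  simp

theorem slit_nhds {τ₀ : ℂ} (h : 1 - Complex.exp τ₀ ∈ Complex.slitPlane) :
    ∀ᶠ τ in 𝓝 τ₀, 1 - Complex.exp τ ∈ Complex.slitPlane := by
  have hc : Continuous (fun τ : ℂ => 1 - Complex.exp τ) := by fun_prop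
  exact (Complex.isOpen_slitPlane.preimage hc).mem_nhds h

/-- reference functions -/
noncomputable def Rz (E : HD (1 + 1)) (τ : ℂ) : ℂ := iso1 (RF E τ)

theorem Rz_mem {E : HD (1 + 1)} (hE : E.PosD) {τ : ℂ}
    (h : 1 - Complex.exp τ ∈ Complex.slitPlane) : Rz E τ ∈ ball (0 : ℂ) 1 := RF_scalar_mem hE h

theorem CD.ref (c : CD) {m τ₀ : ℂ} (hm : m ∈ M0 c.p) (hτ : m ^ c.p = Complex.exp τ₀) :
    RefAt c.chart m τ₀ (Rz c.E2) (RF c.E3) := by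
  have hm0 : m ≠ 0 := by
    intro h
    rw [h, zero_pow c.k2.ppos.ne'] at hτ
    exact Complex.exp_ne_zero _ hτ.symm
  obtain ⟨i1, i2, i3⟩ := chi_inv c.k2.ppos hm0 τ₀
  obtain ⟨ψ, hψ, hψ1⟩ := z0_chi c.h2 c.k2 hτ
  obtain ⟨L, hL, hL1⟩ := u0_chi c.h3 c.k3 hτ
  refine ⟨chi c.p m τ₀, _, (chi_cont _ _ _).continuousAt, i1, chi_self _ _ _, i2, i3, ψ, hψ, L, hL,
    ?_⟩
  have hs : 1 - Complex.exp τ₀ ∈ Complex.slitPlane := by
    rw [← hτ]; exact hm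
  filter_upwards [slit_nhds hs] with τ h
  refine ⟨Rz_mem c.h2 h, RF_mem c.h3 h, hψ1 τ h, hL1 τ h, ?_⟩
  rw [c.T_eq, chi_pow c.k2.ppos hτ]

theorem CD.ref' (c : CD) {m τ₀ : ℂ} (hm : m ∈ M0 c.p) (hτ : m ^ c.p = Complex.exp (-τ₀)) :
    RefAt c.chart' m τ₀ (fun τ => Rz c.E2 (-τ)) (fun τ => RF c.E3 (-τ)) := by
  have hm0 : m ≠ 0 := by
    intro h
    rw [h, zero_pow c.k2.ppos.ne'] at hτ
    exact Complex.exp_ne_zero _ hτ.symm
  obtain ⟨i1, i2, i3⟩ := chi_inv c.k2.ppos hm0 (-τ₀)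
  obtain ⟨ψ, hψ, hψ1⟩ := z0_chi c.h2 c.k2 hτ
  obtain ⟨L, hL, hL1⟩ := u0_chi c.h3 c.k3 hτ
  refine ⟨fun τ => chi c.p m (-τ₀) (-τ), fun x => -(-τ₀ + c.p * Complex.log (x / m)),
    ((chi_cont _ _ _).comp continuous_neg).continuousAt, i1.neg, ?_, ?_, ?_, ψ, hψ, L, hL, ?_⟩
  · exact chi_self _ _ _
  · have := i2
    simp only at this
    change -(-τ₀ + c.p * Complex.log (m / m)) = τ₀
    rw [this, neg_neg]
  · filter_upwards [i3] with x hx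
    rw [neg_neg]; exact hx
  have hs : 1 - Complex.exp (-τ₀) ∈ Complex.slitPlane := by
    rw [← hτ]; exact hm
  have hs' := (continuous_neg.tendsto τ₀).eventually (slit_nhds hs)
  filter_upwards [hs'] with τ h
  refine ⟨Rz_mem c.h2 h, RF_mem c.h3 h, hψ1 (-τ) h, hL1 (-τ) h, ?_⟩
  have hne : chi c.p m (-τ₀) (-τ) ≠ 0 := by
    unfold chi
    exact mul_ne_zero hm0 (Complex.exp_ne_zero _)
  rw [c.T'_eq hne, chi_pow c.k2.ppos hτ, ← Complex.exp_neg, neg_neg]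

/-- data for the chart around `t = 1` -/
structure C1D where
  D2 : HD (1 + 1)
  D3 : HD (2 + 1)
  s2 : D2.Sgn
  s3 : D3.Sgn
  ε : ℝ
  εpos : 0 < ε
  εle : ε ≤ 1
  q2 : ∀ ζ ∈ ball (0 : ℂ) ε, 0 < qw D2.dual.om (D2.Fh ζ)
  q3 : ∀ ζ ∈ ball (0 : ℂ) ε, 0 < qw D3.dual.om (D3.Fh ζ)
  dz : ∀ ζ ∈ ball (0 : ℂ) ε, deriv D2.z1 ζ ≠ 0

theorem HD.Sgn.z1_differentiableAt {D : HD (1 + 1)} (h : D.Sgn) {ζ : ℂ} (hζ : ‖ζ‖ < 1)
    (hq : 0 < qw D.dual.om (D.Fh ζ)) : DifferentiableAt ℂ D.z1 ζ :=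
  iso1.toContinuousLinearEquiv.differentiableAt.comp ζ (h.u1_differentiableAt hζ hq)

theorem exists_C1D {D2 : HD (1 + 1)} {D3 : HD (2 + 1)} (s2 : D2.Sgn) (s3 : D3.Sgn)
    (hT : Tail D2.ν) : ∃ c : C1D, c.D2 = D2 ∧ c.D3 = D3 := by
  obtain ⟨ε2, h2, h2', h2q⟩ := s2.exists_eps
  obtain ⟨ε3, h3, h3', h3q⟩ := s3.exists_eps
  have hdiff : DifferentiableOn ℂ D2.z1 (ball 0 ε2) := fun ζ hζ =>
    (s2.z1_differentiableAt (lt_of_lt_of_le (by simpa using hζ) h2') (h2q ζ hζ)).differentiableWithinAt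
  have hcont : ContinuousAt (deriv D2.z1) 0 :=
    ((hdiff.deriv isOpen_ball).differentiableAt (isOpen_ball.mem_nhds (by simpa using h2))).continuousAt
  have hne : ∀ᶠ ζ in 𝓝 (0 : ℂ), deriv D2.z1 ζ ≠ 0 := hcont.eventually_ne (s2.z1_deriv_ne hT)
  obtain ⟨ε4, h4, h4d⟩ := Metric.eventually_nhds_iff_ball.mp hne
  refine ⟨⟨D2, D3, s2, s3, min ε2 (min ε3 ε4), by positivity, ?_, ?_, ?_, ?_⟩, rfl, rfl⟩
  · exact (min_le_left _ _).trans h2'
  · intro ζ hζ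
    exact h2q ζ (ball_subset_ball (min_le_left _ _) hζ)
  · intro ζ hζ
    exact h3q ζ (ball_subset_ball ((min_le_right _ _).trans (min_le_left _ _)) hζ)
  · intro ζ hζ
    exact h4d ζ (ball_subset_ball ((min_le_right _ _).trans (min_le_right _ _)) hζ)

theorem C1D.lt_one (c : C1D) {ζ : ℂ} (h : ζ ∈ ball (0 : ℂ) c.ε) : ‖ζ‖ < 1 :=
  lt_of_lt_of_le (by simpa using h) c.εle

theorem exp_neg_sq_eq {m m' : ℂ} (hm : ‖m‖ < 1) (hm' : ‖m'‖ < 1)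
    (h : Complex.exp (-m ^ 2) = Complex.exp (-m' ^ 2)) : m' = m ∨ m' = -m := by
  rw [Complex.exp_eq_exp_iff_exists_int] at h
  obtain ⟨k, hk⟩ := h
  have h1 : ‖m ^ 2‖ ≤ 1 := by rw [norm_pow]; nlinarith [norm_nonneg m]
  have h2 : ‖m' ^ 2‖ ≤ 1 := by rw [norm_pow]; nlinarith [norm_nonneg m']
  have h3 : ‖(k : ℂ) * (2 * Real.pi * Complex.I)‖ ≤ 2 := by
    have : (k : ℂ) * (2 * Real.pi * Complex.I) = m' ^ 2 - m ^ 2 := by linear_combination -hk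
    rw [this]
    calc ‖m' ^ 2 - m ^ 2‖ ≤ ‖m' ^ 2‖ + ‖m ^ 2‖ := norm_sub_le _ _
      _ ≤ 2 := by linarith
  have h4 : k = 0 := by
    by_contra hne
    have h5 : (1 : ℝ) ≤ |(k : ℝ)| := by exact_mod_cast Int.one_le_abs hne
    have h6 : ‖(k : ℂ) * (2 * Real.pi * Complex.I)‖ = |(k : ℝ)| * (2 * Real.pi) := by
      rw [norm_mul, norm_mul, norm_mul, Complex.norm_I, Complex.norm_real, Complex.norm_intCast,
        Real.norm_eq_abs, abs_of_pos Real.pi_pos]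
      simp
    rw [h6] at h3
    nlinarith [Real.pi_gt_three]
  rw [h4] at hk
  have h5 : (m' - m) * (m' + m) = 0 := by
    simp at hk
    linear_combination -hk
  rcases mul_eq_zero.mp h5 with h | h
  · left; linear_combination h
  · right; linear_combination h

noncomputable def C1D.chart (c : C1D) : OChart V2 where
  M := ball 0 c.ε
  isOpen := isOpen_ball
  preconn := (convex_ball _ _).isPreconnected
  z := c.D2.z1
  f := c.D3.u1
  a := fun ζ => Complex.exp (-ζ ^ 2)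
  b := fun _ => 1
  z_diff := fun ζ h => (c.s2.z1_differentiableAt (c.lt_one h) (c.q2 ζ h)).differentiableWithinAt
  f_diff := fun ζ h => (c.s3.u1_differentiableAt (c.lt_one h) (c.q3 ζ h)).differentiableWithinAt
  a_diff := by fun_prop
  b_diff := differentiableOn_const 1
  z_maps := by
    intro ζ h
    have h1 : c.D2.u1 ζ ∈ ball (0 : EuclideanSpace ℂ (Fin 1)) 1 := nrm_mem c.s2.sgnW (c.q2 ζ h)
    have h2 : ‖c.D2.z1 ζ‖ = ‖c.D2.u1 ζ‖ := iso1.norm_map _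
    simpa [h2] using h1
  f_maps := fun ζ h => nrm_mem c.s3.sgnW (c.q3 ζ h)
  ab_ne := fun _ _ => Or.inr one_ne_zero
  z_deriv := c.dz
  T_disc := by
    intro m hm
    have h1 : ∀ᶠ x in 𝓝[≠] m, x ∈ ball (0 : ℂ) c.ε :=
      mem_nhdsWithin_of_mem_nhds (isOpen_ball.mem_nhds hm)
    have h2 : ∀ᶠ x in 𝓝[≠] m, x ^ 2 ≠ m ^ 2 := pow_disc two_pos m
    filter_upwards [h1, h2] with x hx hx2 h
    rw [pt_eq_iff (Or.inr one_ne_zero) (Or.inr one_ne_zero)] at h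
    have h3 : Complex.exp (-x ^ 2) = Complex.exp (-m ^ 2) := by linear_combination h
    rcases exp_neg_sq_eq (c.lt_one hx) (c.lt_one hm) h3 with h | h
    · apply hx2; rw [h]
    · apply hx2; rw [h]; ring

theorem C1D.T_eq (c : C1D) (ζ : ℂ) : c.chart.T ζ = some (Complex.exp (-ζ ^ 2)) := by
  change pt (Complex.exp (-ζ ^ 2)) 1 = _
  unfold pt
  rw [if_neg one_ne_zero, div_one]

theorem sq_inv {m : ℂ} (hm : m ≠ 0) : ∃ χ : ℂ → ℂ, ContinuousAt χ (-m ^ 2) ∧ χ (-m ^ 2) = m ∧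
    (∀ᶠ y in 𝓝 (-m ^ 2), -(χ y) ^ 2 = y) ∧ (∀ᶠ x in 𝓝 m, χ (-x ^ 2) = x) := by
  have hg : AnalyticAt ℂ (fun x : ℂ => -x ^ 2) m := by fun_prop
  have hd : deriv (fun x : ℂ => -x ^ 2) m ≠ 0 := by
    have : deriv (fun x : ℂ => -x ^ 2) m = -(2 * m) := by
      have h1 := ((hasDerivAt_pow 2 m).neg).deriv
      simpa using h1
    rw [this]
    simpa using hm
  obtain ⟨τ, h1, h2, h3, h4⟩ := exists_local_inverse hg hd
  exact ⟨τ, h1.continuousAt, h2, h3, h4⟩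

theorem C1D.ref_a (c : C1D) {m : ℂ} (hm : m ∈ ball (0 : ℂ) c.ε) (hre : m.re ≠ 0) :
    RefAt c.chart m (-m ^ 2) (Rz c.D2) (RF c.D3) := by
  have hm0 : m ≠ 0 := by intro h; rw [h] at hre; simp at hre
  obtain ⟨χ, c1, c2, c3, c4⟩ := sq_inv hm0
  obtain ⟨L, hL, hL1⟩ := u1_ref_a c.s3 (c.lt_one hm) hre
  obtain ⟨L₂, hL₂, hL₂1⟩ := u1_ref_a c.s2 (c.lt_one hm) hre
  obtain ⟨ψ, hψ, hψ1⟩ := UG_transport iso1 hL₂
  have hs := slit_neg_sq (c.lt_one hm) hre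
  refine ⟨χ, fun x => -x ^ 2, c1, by fun_prop, c2, rfl, c4, ψ, hψ, L, hL, ?_⟩
  have ht : Tendsto χ (𝓝 (-m ^ 2)) (𝓝 m) := by
    have := c1.tendsto
    rwa [c2] at this
  filter_upwards [slit_nhds hs, c3, ht.eventually hL1, ht.eventually hL₂1] with τ h1 h2 h3 h4
  rw [h2] at h3 h4
  refine ⟨Rz_mem c.s2.posD h1, RF_mem c.s3.posD h1, ?_, h3, ?_⟩
  · change iso1 (c.D2.u1 (χ τ)) = _
    rw [h4]
    exact (hψ1 _).symm
  · rw [c.T_eq, h2]

theorem C1D.ref_b (c : C1D) {m : ℂ} (hm : m ∈ ball (0 : ℂ) c.ε) (him : m.im ≠ 0) :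
    RefAt c.chart m (-m ^ 2) (fun τ => Rz c.D2.dual (-τ)) (fun τ => RF c.D3.dual (-τ)) := by
  have hm0 : m ≠ 0 := by intro h; rw [h] at him; simp at him
  obtain ⟨χ, c1, c2, c3, c4⟩ := sq_inv hm0
  obtain ⟨L, hL, hL1⟩ := u1_ref_b c.s3 (c.lt_one hm) him
  obtain ⟨L₂, hL₂, hL₂1⟩ := u1_ref_b c.s2 (c.lt_one hm) him
  obtain ⟨ψ, hψ, hψ1⟩ := UG_transport iso1 hL₂
  have hs := slit_sq (c.lt_one hm) him
  refine ⟨χ, fun x => -x ^ 2, c1, by fun_prop, c2, rfl, c4, ψ, hψ, L, hL, ?_⟩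
  have ht : Tendsto χ (𝓝 (-m ^ 2)) (𝓝 m) := by
    have := c1.tendsto
    rwa [c2] at this
  have hs' := (continuous_neg.tendsto (-m ^ 2)).eventually (slit_nhds hs)
  filter_upwards [hs', c3, ht.eventually hL1, ht.eventually hL₂1] with τ h1 h2 h3 h4
  rw [h2] at h3 h4
  refine ⟨Rz_mem c.s2.posD' h1, RF_mem c.s3.posD' h1, ?_, h3, ?_⟩
  · change iso1 (c.D2.u1 (χ τ)) = _
    rw [h4]
    exact (hψ1 _).symm
  · rw [c.T_eq, h2]

end Pool.Agent.BallCurve
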