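import Pool.Agent.MP_071e05_an.ODE

/-!
The connection matrix `W` and its properties.
-/

set_option autoImplicit false
set_option linter.unusedVariables false

open MeasureTheory Set Filter Topology ComplexConjugate

namespace Pool.Agent.BallCurve

/-- Hypergeometric data. -/
structure HD (n : ℕ) where
  e : Fin n → ℝ
  al : Fin n → ℝ
  ν : Measure ℝ
  ν' : Measure ℝ
  hν : KM ν
  hν' : KM ν'
  e_mono : StrictMono e
  al_mono : StrictMono al
  e_nonneg : ∀ j, 0 ≤ e j
  al_nonneg : ∀ i, 0 ≤ al i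
  rcr : ∀ s : ℝ, 0 ≤ s → ((List.ofFn e).map (fun b => s + 1 - b)).prod * cK ν (s + 1) =
      ((List.ofFn al).map (fun a => s + a)).prod * cK ν s
  rcr' : ∀ s : ℝ, 0 ≤ s → ((List.ofFn al).map (fun b => s + 1 - b)).prod * cK ν' (s + 1) =
      ((List.ofFn e).map (fun a => s + a)).prod * cK ν' s
  sum_eq : ∑ j, e j + ∑ i, al i = n - 3 / 2
  nonint : ∀ j i, Real.sin (Real.pi * (e j + al i)) ≠ 0

variable {n : ℕ}

/-- The dual data. -/
def HD.dual (D : HD n) : HD n where
  e := D.al
  al := D.e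
  ν := D.ν'
  ν' := D.ν
  hν := D.hν'
  hν' := D.hν
  e_mono := D.al_mono
  al_mono := D.e_mono
  e_nonneg := D.al_nonneg
  al_nonneg := D.e_nonneg
  rcr := D.rcr'
  rcr' := D.rcr
  sum_eq := by rw [add_comm]; exact D.sum_eq
  nonint := by intro j i; rw [add_comm]; exact D.nonint i j

/-- Solutions near `t = 0`. -/
noncomputable def HD.F (D : HD n) (j : Fin n) (τ : ℂ) : ℂ := FK D.ν (D.e j) τ

/-- Solutions near `t = ∞`. -/
noncomputable def HD.G (D : HD n) (i : Fin n) (τ : ℂ) : ℂ := FK D.ν' (D.al i) (-τ)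

/-- The open strip. -/
def S0 : Set ℂ := {τ | 0 < τ.im ∧ τ.im < 2 * Real.pi}

theorem isOpen_S0 : IsOpen S0 :=
  (isOpen_lt continuous_const Complex.continuous_im).inter
    (isOpen_lt Complex.continuous_im continuous_const)

theorem convex_S0 : Convex ℝ S0 :=
  (convex_halfSpace_im_gt 0).inter (convex_halfSpace_im_lt (2 * Real.pi))

theorem piI_mem : ((Real.pi : ℂ) * Complex.I) ∈ S0 := by
  constructor <;> simp [Real.pi_pos]

theorem isOpen_nS0 : IsOpen ((fun τ : ℂ => -τ) ⁻¹' S0) := isOpen_S0.preimage continuous_neg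

theorem convex_nS0 : Convex ℝ ((fun τ : ℂ => -τ) ⁻¹' S0) := by
  have : ((fun τ : ℂ => -τ) ⁻¹' S0) = -S0 := rfl
  rw [this]; exact convex_S0.neg

theorem nS0_slit {τ : ℂ} (h : τ ∈ ((fun τ : ℂ => -τ) ⁻¹' S0)) :
    1 - Complex.exp τ ∈ Complex.slitPlane := by
  have h1 : 0 < (-τ).im ∧ (-τ).im < 2 * Real.pi := h
  rw [Complex.neg_im] at h1
  exact slit_of_strip_neg (by linarith [h1.1]) (by linarith [h1.2])

theorem HD.F_diff (D : HD n) (j : Fin n) : DifferentiableOn ℂ (D.F j) S0 := fun τ hτ =>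
  (D.hν.FK_differentiableAt (D.e_nonneg j) (slit_of_strip hτ.1 hτ.2)).differentiableWithinAt

theorem HD.G_diff (D : HD n) (i : Fin n) : DifferentiableOn ℂ (D.G i) S0 := by
  intro τ hτ
  have h1 : 1 - Complex.exp (-τ) ∈ Complex.slitPlane :=
    nS0_slit (by simpa using hτ)
  have h2 := D.hν'.FK_differentiableAt (D.al_nonneg i) h1
  exact (h2.comp τ differentiableAt_id.neg).differentiableWithinAt

theorem HD.F_ode (D : HD n) (j : Fin n) {τ : ℂ} (hτ : τ ∈ S0) :
    opL (List.ofFn D.e) (D.F j) τ =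
      Complex.exp τ * opL ((List.ofFn D.al).map (fun a => -a)) (D.F j) τ := by
  apply FK_ode D.hν (D.e_nonneg j) _ _ _ D.rcr isOpen_S0 convex_S0
    (fun τ hτ => slit_of_strip hτ.1 hτ.2) ⟨-1 + Real.pi * Complex.I, ?_, ?_⟩ hτ
  · rw [List.mem_ofFn]; exact ⟨j, rfl⟩
  · constructor <;> simp [Real.pi_pos]
  · simp

theorem HD.G_ode (D : HD n) (i : Fin n) {τ : ℂ} (hτ : τ ∈ S0) :
    opL (List.ofFn D.e) (D.G i) τ =
      Complex.exp τ * opL ((List.ofFn D.al).map (fun a => -a)) (D.G i) τ := by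
  have hd : DifferentiableOn ℂ (FK D.ν' (D.al i)) ((fun τ : ℂ => -τ) ⁻¹' S0) := fun τ hτ =>
    (D.hν'.FK_differentiableAt (D.al_nonneg i) (nS0_slit hτ)).differentiableWithinAt
  have h := FK_ode D.hν' (D.al_nonneg i) (List.ofFn D.al) (List.ofFn D.e) (by
    rw [List.mem_ofFn]; exact ⟨i, rfl⟩) D.rcr' isOpen_nS0 convex_nS0 (fun τ hτ => nS0_slit hτ)
    ⟨-1 - Real.pi * Complex.I, by
      change -(-1 - Real.pi * Complex.I) ∈ S0
      constructor <;> simp [Real.pi_pos], by simp⟩ (τ := -τ) (by simpa using hτ)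
  have h1 := opL_comp_neg isOpen_S0 hd (List.ofFn D.e) hτ
  have h2 := opL_comp_neg isOpen_S0 hd ((List.ofFn D.al).map (fun a => -a)) hτ
  simp only [List.map_map, List.length_map, List.length_ofFn] at h1 h2
  have h3 : ((fun b : ℝ => -b) ∘ fun a : ℝ => -a) = id := by ext x; simp
  rw [h3, List.map_id] at h2
  change opL (List.ofFn D.e) (fun τ => FK D.ν' (D.al i) (-τ)) τ =
    Complex.exp τ * opL ((List.ofFn D.al).map (fun a => -a)) (fun τ => FK D.ν' (D.al i) (-τ)) τ
  rw [h1, h2, h, Complex.exp_neg]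
  have := Complex.exp_ne_zero τ
  field_simp

/-! ### Linear independence -/

theorem FK_asymp {ν : Measure ℝ} (hν : KM ν) {e k : ℝ} (he : 0 ≤ e) (hk : k ≤ e) (θ : ℝ) :
    Tendsto (fun x : ℝ => Complex.exp (-(k * (x + θ * Complex.I))) * FK ν e (x + θ * Complex.I))
      atBot (𝓝 (if e = k then (cK ν e : ℂ) else 0)) := by
  have h0 : hK ν e 0 = (cK ν e : ℂ) := by
    have := hν.hK_hasSum he (t := 0) (by simp)
    have h1 : HasSum (fun n : ℕ => (cK ν (e + n) : ℂ) * (0 : ℂ) ^ n) ((cK ν (e + (0 : ℕ)) : ℂ) * (0 : ℂ) ^ 0) :=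
      hasSum_single 0 (fun b hb => by rw [zero_pow hb, mul_zero])
    have h2 := this.unique h1
    simpa using h2
  have h1 : Tendsto (fun x : ℝ => Complex.exp (x + θ * Complex.I)) atBot (𝓝 0) := by
    rw [tendsto_zero_iff_norm_tendsto_zero]
    have : (fun x : ℝ => ‖Complex.exp (x + θ * Complex.I)‖) = fun x : ℝ => Real.exp x := by
      ext x; rw [Complex.norm_exp]; simp
    rw [this]; exact Real.tendsto_exp_atBot
  have h2 : Tendsto (fun x : ℝ => hK ν e (Complex.exp (x + θ * Complex.I))) atBot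
      (𝓝 (cK ν e : ℂ)) := by
    rw [← h0]
    have hc : ContinuousAt (hK ν e) 0 :=
      (hν.hK_hasDerivAt he (by simp)).continuousAt
    exact hc.tendsto.comp h1
  have h3 : ∀ x : ℝ, Complex.exp (-(k * (x + θ * Complex.I))) * FK ν e (x + θ * Complex.I) =
      Complex.exp (((e - k : ℝ) : ℂ) * (x + θ * Complex.I)) *
        hK ν e (Complex.exp (x + θ * Complex.I)) := by
    intro x
    unfold FK
    rw [← mul_assoc, ← Complex.exp_add]
    congr 2
    push_cast; ring
  simp_rw [h3]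
  by_cases hek : e = k
  · simp only [hek, sub_self, Complex.ofReal_zero, zero_mul, Complex.exp_zero, one_mul, if_true]
    rw [← hek]; exact h2
  · simp only [hek, if_false]
    have hpos : 0 < e - k := by
      rcases lt_or_eq_of_le hk with h | h
      · linarith
      · exact absurd h.symm hek
    have h4 : Tendsto (fun x : ℝ => Complex.exp (((e - k : ℝ) : ℂ) * (x + θ * Complex.I)))
        atBot (𝓝 0) := by
      rw [tendsto_zero_iff_norm_tendsto_zero]
      have : (fun x : ℝ => ‖Complex.exp (((e - k : ℝ) : ℂ) * (x + θ * Complex.I))‖) =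
          fun x : ℝ => Real.exp ((e - k) * x) := by
        ext x
        rw [Complex.norm_exp, Complex.re_ofReal_mul]
        simp
      rw [this]
      exact Real.tendsto_exp_atBot.comp (tendsto_id.const_mul_atBot hpos)
    simpa using h4.mul h2

theorem FK_linindep {ν : Measure ℝ} (hν : KM ν) {e : Fin n → ℝ} (hm : StrictMono e)
    (he : ∀ j, 0 ≤ e j) (θ : ℝ) (c : Fin n → ℂ)
    (h : ∀ x : ℝ, x < 0 → ∑ j, c j * FK ν (e j) (x + θ * Complex.I) = 0) : ∀ j, c j = 0 := by
  intro j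
  induction j using WellFoundedLT.induction with
  | ind j ih =>
  have h1 : Tendsto (fun x : ℝ => ∑ i, c i * (Complex.exp (-(e j * (x + θ * Complex.I))) *
      FK ν (e i) (x + θ * Complex.I))) atBot (𝓝 (∑ i, if i = j then c j * (cK ν (e j) : ℂ) else 0)) := by
    apply tendsto_finsetSum
    intro i _
    rcases lt_trichotomy i j with hij | hij | hij
    · rw [ih i hij]
      simp [hij.ne]
    · subst hij
      have := (FK_asymp hν (he i) le_rfl θ).const_mul (c i)
      simpa using this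
    · have h2 := (FK_asymp hν (he i) (hm hij).le θ).const_mul (c i)
      have h3 : e i ≠ e j := (hm hij).ne'
      simpa [h3, hij.ne'] using h2
  have h2 : Tendsto (fun x : ℝ => ∑ i, c i * (Complex.exp (-(e j * (x + θ * Complex.I))) *
      FK ν (e i) (x + θ * Complex.I))) atBot (𝓝 0) := by
    apply tendsto_const_nhds.congr'
    filter_upwards [eventually_lt_atBot (0 : ℝ)] with x hx
    have h3 := h x hx
    have h4 : ∑ i, c i * (Complex.exp (-(e j * (x + θ * Complex.I))) *
      FK ν (e i) (x + θ * Complex.I)) = Complex.exp (-(e j * (x + θ * Complex.I))) *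
        ∑ i, c i * FK ν (e i) (x + θ * Complex.I) := by
      rw [Finset.mul_sum]; apply Finset.sum_congr rfl; intro i _; ring
    rw [h4, h3, mul_zero]
  have h3 := tendsto_nhds_unique h1 h2
  simp only [Finset.sum_ite_eq', Finset.mem_univ, if_true] at h3
  rcases mul_eq_zero.mp h3 with h4 | h4
  · exact h4
  · exfalso
    have := hν.cK_pos (he j)
    have h5 : cK ν (e j) = 0 := by exact_mod_cast h4
    linarith

theorem HD.F_linindep (D : HD n) (c : Fin n → ℂ)
    (h : ∀ τ ∈ S0, ∑ j, c j * D.F j τ = 0) : ∀ j, c j = 0 := by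
  apply FK_linindep D.hν D.e_mono D.e_nonneg Real.pi c
  intro x hx
  apply h
  constructor <;> simp [Real.pi_pos]

theorem HD.G_linindep (D : HD n) (c : Fin n → ℂ)
    (h : ∀ τ ∈ S0, ∑ j, c j * D.G j τ = 0) : ∀ j, c j = 0 := by
  apply FK_linindep D.hν' D.al_mono D.al_nonneg (-Real.pi) c
  intro x hx
  have := h (-(x + (-Real.pi : ℝ) * Complex.I)) (by
    constructor <;> simp [Real.pi_pos])
  unfold HD.G at this
  rw [neg_neg] at this
  exact this

/-! ### Existence of the connection matrix -/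

theorem opL_sum {U : Set ℂ} (hU : IsOpen U) {g : Fin n → ℂ → ℂ}
    (hg : ∀ i, DifferentiableOn ℂ (g i) U) (c : Fin n → ℂ) (l : List ℝ) :
    EqOn (opL l (fun τ => ∑ i, c i * g i τ)) (fun τ => ∑ i, c i * opL l (g i) τ) U := by
  classical
  have key : ∀ s : Finset (Fin n), DifferentiableOn ℂ (fun τ => ∑ i ∈ s, c i * g i τ) U ∧
      EqOn (opL l (fun τ => ∑ i ∈ s, c i * g i τ)) (fun τ => ∑ i ∈ s, c i * opL l (g i) τ) U := by
    intro s
    induction s using Finset.induction_on with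
    | empty =>
      refine ⟨by simp, ?_⟩
      have h0 := opL_smul hU (differentiableOn_const (c := (0 : ℂ))) 0 l
      intro τ hτ
      have := h0 hτ
      simpa using this
    | insert a s ha ih =>
      have hd : DifferentiableOn ℂ (fun τ => c a * g a τ) U := (hg a).const_mul _
      refine ⟨?_, ?_⟩
      · simp_rw [Finset.sum_insert ha]
        exact hd.add ih.1
      · simp_rw [Finset.sum_insert ha]
        intro τ hτ
        have h1 := opL_add hU hd ih.1 l hτ
        have h2 := opL_smul hU (hg a) (c a) l hτ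
        simp only at h1 h2
        rw [h1, h2, ih.2 hτ]
  exact (key Finset.univ).2

theorem HD.exists_coeff (D : HD n) (f : ℂ → ℂ) (hf : DifferentiableOn ℂ f S0)
    (hode : ∀ τ ∈ S0, opL (List.ofFn D.e) f τ =
      Complex.exp τ * opL ((List.ofFn D.al).map (fun a => -a)) f τ) :
    ∃ c : Fin n → ℂ, ∀ τ ∈ S0, f τ = ∑ i, c i * D.G i τ := by
  set τ₀ : ℂ := Real.pi * Complex.I with hτ₀
  have hτ₀m : τ₀ ∈ S0 := piI_mem
  have hexp : Complex.exp τ₀ ≠ 1 := by
    rw [hτ₀, Complex.exp_pi_mul_I]; norm_num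
  -- general uniqueness on the strip
  have huniq : ∀ g : ℂ → ℂ, DifferentiableOn ℂ g S0 →
      (∀ τ ∈ S0, opL (List.ofFn D.e) g τ =
        Complex.exp τ * opL ((List.ofFn D.al).map (fun a => -a)) g τ) →
      (∀ k < n, iteratedDeriv k g τ₀ = 0) → ∀ τ ∈ S0, g τ = 0 := by
    intro g hg hgo hk τ hτ
    have hga : AnalyticAt ℂ g τ₀ := hg.analyticAt (isOpen_S0.mem_nhds hτ₀m)
    have h1 : ((List.ofFn D.e).length : ℕ∞) ≤ analyticOrderAt g τ₀ := by
      rw [List.length_ofFn, natCast_le_analyticOrderAt_iff_iteratedDeriv_eq_zero hga]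
      exact hk
    have h2 := ode_unique (List.ofFn D.e) ((List.ofFn D.al).map (fun a => -a)) (by simp) hexp hga
      (by filter_upwards [isOpen_S0.mem_nhds hτ₀m] with y hy using hgo y hy) h1
    exact (hg.analyticOnNhd isOpen_S0).eqOn_zero_of_preconnected_of_eventuallyEq_zero
      convex_S0.isPreconnected hτ₀m h2 hτ
  -- jets
  let M : Matrix (Fin n) (Fin n) ℂ := fun k i => iteratedDeriv k (D.G i) τ₀
  have hGan : ∀ i, AnalyticAt ℂ (D.G i) τ₀ := fun i =>
    (D.G_diff i).analyticAt (isOpen_S0.mem_nhds hτ₀m)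
  have hjet : ∀ (c : Fin n → ℂ) (k : Fin n),
      iteratedDeriv k (fun τ => ∑ i, c i * D.G i τ) τ₀ = M.mulVec c k := by
    intro c k
    rw [iteratedDeriv_fun_sum]
    · simp only [Matrix.mulVec, dotProduct, M]
      apply Finset.sum_congr rfl
      intro i _
      rw [iteratedDeriv_const_mul_field]; ring
    · intro i _
      exact (analyticAt_const.mul (hGan i)).contDiffAt
  have hsol : ∀ c : Fin n → ℂ, DifferentiableOn ℂ (fun τ => ∑ i, c i * D.G i τ) S0 ∧
      ∀ τ ∈ S0, opL (List.ofFn D.e) (fun τ => ∑ i, c i * D.G i τ) τ =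
        Complex.exp τ * opL ((List.ofFn D.al).map (fun a => -a)) (fun τ => ∑ i, c i * D.G i τ) τ := by
    intro c
    refine ⟨DifferentiableOn.fun_sum fun i _ => (D.G_diff i).const_mul _, ?_⟩
    intro τ hτ
    rw [opL_sum isOpen_S0 D.G_diff c _ hτ, opL_sum isOpen_S0 D.G_diff c _ hτ]
    simp only
    rw [Finset.mul_sum]
    apply Finset.sum_congr rfl
    intro i _
    rw [D.G_ode i hτ]; ring
  have hinj : Function.Injective (Matrix.mulVecLin M) := by
    rw [← LinearMap.ker_eq_bot, LinearMap.ker_eq_bot']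
    intro c hc
    have h1 : ∀ τ ∈ S0, ∑ i, c i * D.G i τ = 0 := by
      apply huniq _ (hsol c).1 (hsol c).2
      intro k hk
      have := hjet c ⟨k, hk⟩
      simp only at this
      rw [this]
      have h2 : M.mulVec c = 0 := hc
      rw [h2]; rfl
    ext i
    exact D.G_linindep c h1 i
  have hsurj : Function.Surjective (Matrix.mulVecLin M) :=
    LinearMap.injective_iff_surjective.mp hinj
  obtain ⟨c, hc⟩ := hsurj (fun k => iteratedDeriv k f τ₀)
  refine ⟨c, fun τ hτ => ?_⟩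
  have h1 : ∀ τ ∈ S0, f τ + (-1) * ∑ i, c i * D.G i τ = 0 := by
    have hs := hsol c
    have hd2 : DifferentiableOn ℂ (fun τ => (-1 : ℂ) * ∑ i, c i * D.G i τ) S0 := hs.1.const_mul _
    apply huniq
    · exact hf.add hd2
    · intro τ hτ
      rw [opL_add isOpen_S0 hf hd2 _ hτ, opL_add isOpen_S0 hf hd2 _ hτ]
      simp only
      rw [opL_smul isOpen_S0 hs.1 (-1) _ hτ, opL_smul isOpen_S0 hs.1 (-1) _ hτ]
      simp only
      rw [hode τ hτ, hs.2 τ hτ]; ring
    · intro k hk
      have hfa : AnalyticAt ℂ f τ₀ := hf.analyticAt (isOpen_S0.mem_nhds hτ₀m)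
      have hsa : AnalyticAt ℂ (fun τ => ∑ i, c i * D.G i τ) τ₀ :=
        hs.1.analyticAt (isOpen_S0.mem_nhds hτ₀m)
      have h3 : iteratedDeriv k (fun τ => f τ + (-1) * ∑ i, c i * D.G i τ) τ₀ =
          iteratedDeriv k f τ₀ + iteratedDeriv k (fun τ => (-1) * ∑ i, c i * D.G i τ) τ₀ :=
        iteratedDeriv_add (f := f) (g := fun τ => (-1) * ∑ i, c i * D.G i τ)
          hfa.contDiffAt (analyticAt_const.mul hsa).contDiffAt
      rw [h3, iteratedDeriv_const_mul_field]
      have h4 := hjet c ⟨k, hk⟩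
      simp only at h4
      rw [h4]
      have h5 : M.mulVec c ⟨k, hk⟩ = iteratedDeriv k f τ₀ := congrFun hc ⟨k, hk⟩
      rw [h5]; ring
  have := h1 τ hτ
  linear_combination this

/-- The connection matrix. -/
theorem HD.exists_W (D : HD n) : ∃ W : Fin n → Fin n → ℂ, ∀ j, ∀ τ ∈ S0,
    D.F j τ = ∑ i, W j i * D.G i τ := by
  choose W hW using fun j => D.exists_coeff (D.F j) (D.F_diff j) (fun τ hτ => D.F_ode j hτ)
  exact ⟨W, hW⟩

end Pool.Agent.BallCurve
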