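import Pool.Agent.MP_071e05_an.Ball

/-!
Developing / continuation theorem.  A finite family of orbifold charts
`C i : M i → (𝔻 via z, ball V via f, ℙ¹ via T)` with `z` locally injective, such that two points
with the same `T`-value have germs of `(z, f, T)` which are equivalent under
`U(1,1) × U(1,V)`, glues to a global holomorphic `f : 𝔻 → ball V` and a cocompact group.
-/

set_option autoImplicit false
set_option linter.unusedSectionVars false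

open Metric Set Filter Topology ComplexConjugate

namespace Pool.Agent.BallCurve

variable {V : Type*} [NormedAddCommGroup V] [InnerProductSpace ℂ V] [CompleteSpace V]

/-- The point `[a : b]` of `ℙ¹` (as `Option ℂ`, `none = ∞`). -/
noncomputable def pt (a b : ℂ) : Option ℂ := by
  classical exact if b = 0 then none else some (a / b)

variable (V) in
/-- An orbifold chart. -/
structure OChart where
  /-- domain -/
  M : Set ℂ
  isOpen : IsOpen M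
  preconn : IsPreconnected M
  /-- developing map to the disc -/
  z : ℂ → ℂ
  /-- map to the ball of `V` -/
  f : ℂ → V
  /-- homogeneous coordinates of the map to `ℙ¹` -/
  a : ℂ → ℂ
  b : ℂ → ℂ
  z_diff : DifferentiableOn ℂ z M
  f_diff : DifferentiableOn ℂ f M
  a_diff : DifferentiableOn ℂ a M
  b_diff : DifferentiableOn ℂ b M
  z_maps : MapsTo z M (ball 0 1)
  f_maps : MapsTo f M (ball 0 1)
  ab_ne : ∀ m ∈ M, a m ≠ 0 ∨ b m ≠ 0
  z_deriv : ∀ m ∈ M, deriv z m ≠ 0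
  /-- discrete fibres of the map to `ℙ¹` -/
  T_disc : ∀ m ∈ M, ∀ᶠ x in 𝓝[≠] m, pt (a x) (b x) ≠ pt (a m) (b m)

/-- The map to `ℙ¹`. -/
noncomputable def OChart.T (C : OChart V) (m : ℂ) : Option ℂ := pt (C.a m) (C.b m)

/-- Equivalence of germs of charts at `m` and `m'`. -/
def LocIso (C C' : OChart V) (m m' : ℂ) : Prop :=
  ∃ κ : ℂ → ℂ, ContinuousAt κ m ∧ κ m = m' ∧ ∃ ψ ∈ UG ℂ, ∃ L ∈ UG V,
    ∀ᶠ x in 𝓝 m, C'.z (κ x) = act ψ (C.z x) ∧ C'.f (κ x) = act L (C.f x) ∧ C'.T (κ x) = C.T x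

theorem pt_eq_iff {a b a' b' : ℂ} (h : a ≠ 0 ∨ b ≠ 0) (h' : a' ≠ 0 ∨ b' ≠ 0) :
    pt a b = pt a' b' ↔ a * b' - a' * b = 0 := by
  unfold pt
  by_cases hb : b = 0
  · have ha : a ≠ 0 := by tauto
    by_cases hb' : b' = 0
    · simp [hb, hb']
    · simp [hb, hb', ha]
  · by_cases hb' : b' = 0
    · have ha' : a' ≠ 0 := by tauto
      simp [hb, hb', ha']
    · simp only [hb, hb', if_false, Option.some.injEq]
      rw [div_eq_div_iff hb hb', sub_eq_zero]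

/-- `T` is locally given by holomorphic homogeneous coordinates. -/
def LocMero (T : ℂ → Option ℂ) (x : ℂ) : Prop :=
  ∃ a b : ℂ → ℂ, AnalyticAt ℂ a x ∧ AnalyticAt ℂ b x ∧ (a x ≠ 0 ∨ b x ≠ 0) ∧
    ∀ᶠ y in 𝓝 x, T y = pt (a y) (b y)

theorem eventually_ne_or {a b : ℂ → ℂ} {x : ℂ} (ha : ContinuousAt a x) (hb : ContinuousAt b x)
    (h : a x ≠ 0 ∨ b x ≠ 0) : ∀ᶠ y in 𝓝 x, a y ≠ 0 ∨ b y ≠ 0 := by
  rcases h with h | h
  · filter_upwards [ha.eventually_ne h] with y hy using Or.inl hy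
  · filter_upwards [hb.eventually_ne h] with y hy using Or.inr hy

theorem LocMero.eventuallyEq {S T : ℂ → Option ℂ} {x : ℂ} (hS : LocMero S x) (hT : LocMero T x)
    (h : ∃ᶠ y in 𝓝 x, S =ᶠ[𝓝 y] T) : S =ᶠ[𝓝 x] T := by
  obtain ⟨a, b, ha, hb, hab, hS⟩ := hS
  obtain ⟨a', b', ha', hb', hab', hT⟩ := hT
  have e1 := eventually_ne_or ha.continuousAt hb.continuousAt hab
  have e2 := eventually_ne_or ha'.continuousAt hb'.continuousAt hab'
  have hc : AnalyticAt ℂ (fun y => a y * b' y - a' y * b y) x :=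
    (ha.mul hb').sub (ha'.mul hb)
  rcases hc.eventually_eq_zero_or_eventually_ne_zero with h0 | h0
  · filter_upwards [h0, e1, e2, hS, hT] with y hy h1 h2 h3 h4
    rw [h3, h4, pt_eq_iff h1 h2]
    exact hy
  · exfalso
    have h5 : ∀ᶠ y in 𝓝 x, y ≠ x → S y ≠ T y := by
      have := eventually_nhdsWithin_iff.mp h0
      filter_upwards [this, e1, e2, hS, hT] with y hy h1 h2 h3 h4 hyx
      rw [h3, h4, Ne, pt_eq_iff h1 h2]
      exact hy hyx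
    have h6 := h5.eventually_nhds
    obtain ⟨y, hy1, hy2⟩ := (h.and_eventually h6).exists
    have h7 : ∀ᶠ w in 𝓝 y, w = x := by
      filter_upwards [hy1, hy2] with w h8 h9
      by_contra h10
      exact h9 h10 h8
    have h8 : y = x := h7.self_of_nhds
    subst h8
    have h9 : ∀ᶠ w in 𝓝[≠] y, w = y := h7.filter_mono nhdsWithin_le_nhds
    have h10 : ∀ᶠ w in 𝓝[≠] y, w ≠ y := eventually_mem_nhdsWithin
    obtain ⟨w, hw, hw'⟩ := (h9.and h10).exists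
    exact hw' hw

theorem eqOn_of_eventuallyEq {U : Set ℂ} (hUc : IsPreconnected U)
    {F G : ℂ → V} {S T : ℂ → Option ℂ} (hF : ∀ x ∈ U, AnalyticAt ℂ F x)
    (hG : ∀ x ∈ U, AnalyticAt ℂ G x) (hS : ∀ x ∈ U, LocMero S x) (hT : ∀ x ∈ U, LocMero T x)
    {x₀ : ℂ} (hx₀ : x₀ ∈ U) (h : ∀ᶠ x in 𝓝 x₀, F x = G x ∧ S x = T x) :
    ∀ x ∈ U, F x = G x ∧ S x = T x := by
  have h1 : EqOn F G U := AnalyticOnNhd.eqOn_of_preconnected_of_eventuallyEq (fun x hx => hF x hx)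
    (fun x hx => hG x hx) hUc hx₀ (h.mono fun x hx => hx.1)
  have h2 : U ⊆ {x | S =ᶠ[𝓝 x] T} := by
    apply hUc.subset_of_closure_inter_subset isOpen_setOfPred_eventually_nhds
    · exact ⟨x₀, hx₀, h.mono fun x hx => hx.2⟩
    · rintro x ⟨hx, hxU⟩
      exact (hS x hxU).eventuallyEq (hT x hxU) (mem_closure_iff_frequently.mp hx)
  exact fun x hx => ⟨h1 hx, (h2 hx).self_of_nhds⟩

theorem exists_local_inverse {g : ℂ → ℂ} {m : ℂ} (hg : AnalyticAt ℂ g m) (hd : deriv g m ≠ 0) :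
    ∃ τ : ℂ → ℂ, AnalyticAt ℂ τ (g m) ∧ τ (g m) = m ∧ (∀ᶠ y in 𝓝 (g m), g (τ y) = y) ∧
      (∀ᶠ x in 𝓝 m, τ (g x) = x) := by
  refine ⟨hg.hasStrictDerivAt.localInverse _ _ _ hd, hg.analyticAt_localInverse hd,
    HasStrictFDerivAt.localInverse_apply_image .., HasStrictDerivAt.eventually_right_inverse ..,
    HasStrictDerivAt.eventually_left_inverse ..⟩

theorem act_deriv_ne_zero {ψ : (ℂ × ℂ) ≃L[ℂ] (ℂ × ℂ)} (hψ : ψ ∈ UG ℂ) {v : ℂ}
    (hv : v ∈ ball (0 : ℂ) 1) : deriv (act ψ) v ≠ 0 := by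
  have h1 : DifferentiableAt ℂ (act ψ) v := act_differentiableAt hψ hv
  have h2 : DifferentiableAt ℂ (act ψ⁻¹) (act ψ v) :=
    act_differentiableAt ((UG ℂ).inv_mem hψ) (act_mem hψ hv)
  have h3 := h2.hasDerivAt.comp v h1.hasDerivAt
  have h4 : (act ψ⁻¹ ∘ act ψ) =ᶠ[𝓝 v] id := by
    filter_upwards [isOpen_ball.mem_nhds hv] with x hx
    exact act_inv_act hψ hx
  have h5 := h3.congr_of_eventuallyEq h4.symm
  have h6 := h5.unique (hasDerivAt_id v)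
  intro h7
  rw [h7, mul_zero] at h6
  exact zero_ne_one h6

theorem analyticAt_of_differentiableOn {E : Type*} [NormedAddCommGroup E] [NormedSpace ℂ E]
    [CompleteSpace E] {g : ℂ → E} {U : Set ℂ} (hU : IsOpen U) (hg : DifferentiableOn ℂ g U) {x : ℂ}
    (hx : x ∈ U) : AnalyticAt ℂ g x := hg.analyticAt (hU.mem_nhds hx)

theorem analyticAt_act_comp {L : (ℂ × V) ≃L[ℂ] (ℂ × V)} (hL : L ∈ UG V) {g : ℂ → V} {x : ℂ}
    (hg : AnalyticAt ℂ g x) (hx : g x ∈ ball (0 : V) 1) : AnalyticAt ℂ (fun y => act L (g y)) x := by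
  rw [Complex.analyticAt_iff_eventually_differentiableAt]
  have h1 := Complex.analyticAt_iff_eventually_differentiableAt.mp hg
  filter_upwards [h1, hg.continuousAt.eventually_mem (isOpen_ball.mem_nhds hx)] with y hy hy'
  exact (act_differentiableAt hL hy').comp y hy

/-- The chart map of a chart twisted by `ψ`. -/
theorem OChart.analyticAt_g (C : OChart V) {ψ : (ℂ × ℂ) ≃L[ℂ] (ℂ × ℂ)} (hψ : ψ ∈ UG ℂ) {m : ℂ}
    (hm : m ∈ C.M) : AnalyticAt ℂ (fun x => act ψ (C.z x)) m :=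
  analyticAt_act_comp hψ (analyticAt_of_differentiableOn C.isOpen C.z_diff hm) (C.z_maps hm)

theorem OChart.deriv_g (C : OChart V) {ψ : (ℂ × ℂ) ≃L[ℂ] (ℂ × ℂ)} (hψ : ψ ∈ UG ℂ) {m : ℂ}
    (hm : m ∈ C.M) : deriv (fun x => act ψ (C.z x)) m ≠ 0 := by
  have h1 : HasDerivAt C.z (deriv C.z m) m :=
    (C.z_diff.differentiableAt (C.isOpen.mem_nhds hm)).hasDerivAt
  have h2 := (act_differentiableAt hψ (C.z_maps hm)).hasDerivAt.comp m h1
  have h3 : deriv (fun x => act ψ (C.z x)) m = deriv (act ψ) (C.z m) * deriv C.z m := h2.deriv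
  rw [h3]
  exact mul_ne_zero (act_deriv_ne_zero hψ (C.z_maps hm)) (C.z_deriv m hm)

theorem OChart.locMero (C : OChart V) {m : ℂ} (hm : m ∈ C.M) : LocMero C.T m :=
  ⟨C.a, C.b, analyticAt_of_differentiableOn C.isOpen C.a_diff hm,
    analyticAt_of_differentiableOn C.isOpen C.b_diff hm, C.ab_ne m hm, Eventually.of_forall
      fun _ => rfl⟩

/-- The germ of `(f, T)` at `w` is the one of the chart `C` at `m`, twisted by `ψ`, `L`. -/
def Germ (C : OChart V) (m : ℂ) (ψ : (ℂ × ℂ) ≃L[ℂ] (ℂ × ℂ)) (L : (ℂ × V) ≃L[ℂ] (ℂ × V))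
    (f : ℂ → V) (T : ℂ → Option ℂ) : Prop :=
  ∀ᶠ x in 𝓝 m, f (act ψ (C.z x)) = act L (C.f x) ∧ T (act ψ (C.z x)) = C.T x

/-- Local model at `w`. -/
def LM {ι : Type*} (C : ι → OChart V) (w : ℂ) (f : ℂ → V) (T : ℂ → Option ℂ) : Prop :=
  ∃ i, ∃ m ∈ (C i).M, ∃ ψ ∈ UG ℂ, ∃ L ∈ UG V, act ψ ((C i).z m) = w ∧ Germ (C i) m ψ L f T

/-- Two pairs with the same germ agree near the point. -/
theorem Germ.of_eventually (C : OChart V) {m : ℂ} (hm : m ∈ C.M) {ψ : (ℂ × ℂ) ≃L[ℂ] (ℂ × ℂ)}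
    (hψ : ψ ∈ UG ℂ) {P : ℂ → Prop} (h : ∀ᶠ x in 𝓝 m, P (act ψ (C.z x))) :
    ∀ᶠ y in 𝓝 (act ψ (C.z m)), P y := by
  obtain ⟨τ, h1, h2, h3, -⟩ := exists_local_inverse (C.analyticAt_g hψ hm) (C.deriv_g hψ hm)
  have h4 : Tendsto τ (𝓝 (act ψ (C.z m))) (𝓝 m) := by
    have := h1.continuousAt.tendsto
    rwa [h2] at this
  filter_upwards [h4.eventually h, h3] with y hy hy'
  rwa [hy'] at hy

theorem Germ.iff_eventually (C : OChart V) {m : ℂ} (hm : m ∈ C.M) {ψ : (ℂ × ℂ) ≃L[ℂ] (ℂ × ℂ)}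
    (hψ : ψ ∈ UG ℂ) {P : ℂ → Prop} : (∀ᶠ x in 𝓝 m, P (act ψ (C.z x))) ↔
    ∀ᶠ y in 𝓝 (act ψ (C.z m)), P y :=
  ⟨Germ.of_eventually C hm hψ, fun h => (C.analyticAt_g hψ hm).continuousAt.eventually h⟩

theorem LM.congr {ι : Type*} {C : ι → OChart V} {w : ℂ} {f g : ℂ → V} {S T : ℂ → Option ℂ}
    (h : LM C w f S) (hfg : ∀ᶠ x in 𝓝 w, f x = g x ∧ S x = T x) : LM C w g T := by
  obtain ⟨i, m, hm, ψ, hψ, L, hL, hw, hG⟩ := h
  refine ⟨i, m, hm, ψ, hψ, L, hL, hw, ?_⟩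
  have hc : ContinuousAt (fun x => act ψ ((C i).z x)) m := ((C i).analyticAt_g hψ hm).continuousAt
  rw [← hw] at hfg
  have := hc.eventually hfg
  unfold Germ at *
  filter_upwards [hG, this] with x hx hx'
  exact ⟨hx'.1 ▸ hx.1, hx'.2 ▸ hx.2⟩

theorem LM.analyticAt {ι : Type*} {C : ι → OChart V} {w : ℂ} {f : ℂ → V} {T : ℂ → Option ℂ}
    (h : LM C w f T) : AnalyticAt ℂ f w ∧ LocMero T w ∧ f w ∈ ball (0 : V) 1 ∧
      w ∈ ball (0 : ℂ) 1 := by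
  obtain ⟨i, m, hm, ψ, hψ, L, hL, hw, hG⟩ := h
  obtain ⟨τ, h1, h2, h3, -⟩ := exists_local_inverse ((C i).analyticAt_g hψ hm)
    ((C i).deriv_g hψ hm)
  have h4 : Tendsto τ (𝓝 (act ψ ((C i).z m))) (𝓝 m) := by
    have := h1.continuousAt.tendsto
    rwa [h2] at this
  have h5 := h4.eventually hG
  rw [hw] at h1 h2 h3 h4 h5
  have hm' : τ w ∈ (C i).M := h2 ▸ hm
  have hfa : AnalyticAt ℂ (fun y => act L ((C i).f (τ y))) w := by
    have e1 : AnalyticAt ℂ (fun y => (C i).f (τ y)) w :=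
      (analyticAt_of_differentiableOn (C i).isOpen (C i).f_diff hm').fun_comp h1
    exact analyticAt_act_comp hL e1 ((C i).f_maps hm')
  refine ⟨hfa.congr ?_, ?_, ?_, ?_⟩
  · filter_upwards [h5, h3] with y hy hy'
    rw [hy'] at hy
    exact hy.1.symm
  · refine ⟨fun y => (C i).a (τ y), fun y => (C i).b (τ y),
      (analyticAt_of_differentiableOn (C i).isOpen (C i).a_diff hm').fun_comp h1,
      (analyticAt_of_differentiableOn (C i).isOpen (C i).b_diff hm').fun_comp h1,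
      (C i).ab_ne _ hm', ?_⟩
    filter_upwards [h5, h3] with y hy hy'
    rw [hy'] at hy
    exact hy.2
  · have h6 := hG.self_of_nhds
    rw [← hw, h6.1]
    exact act_mem hL ((C i).f_maps hm)
  · rw [← hw]
    exact act_mem hψ ((C i).z_maps hm)

/-- `τ` is a local inverse of the chart map on a ball of radius `ρ`. -/
def HasInv (C : OChart V) (m : ℂ) (ρ : ℝ) : Prop :=
  ∃ τ : ℂ → ℂ, ContinuousOn τ (ball (C.z m) ρ) ∧ MapsTo τ (ball (C.z m) ρ) C.M ∧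
    τ (C.z m) = m ∧ ∀ y ∈ ball (C.z m) ρ, C.z (τ y) = y

theorem HasInv.mono {C : OChart V} {m : ℂ} {ρ ρ' : ℝ} (h : HasInv C m ρ) (hr : ρ' ≤ ρ) :
    HasInv C m ρ' := by
  obtain ⟨τ, h1, h2, h3, h4⟩ := h
  have hs := ball_subset_ball (x := C.z m) hr
  exact ⟨τ, h1.mono hs, fun x hx => h2 (hs hx), h3, fun y hy => h4 y (hs hy)⟩

theorem OChart.hasInv_nhds (C : OChart V) {m : ℂ} (hm : m ∈ C.M) :
    ∃ ρ > 0, ∀ᶠ m' in 𝓝 m, HasInv C m' ρ := by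
  have hz : AnalyticAt ℂ C.z m := analyticAt_of_differentiableOn C.isOpen C.z_diff hm
  obtain ⟨τ, h1, h2, h3, h4⟩ := exists_local_inverse hz (C.z_deriv m hm)
  have h5 : ∀ᶠ y in 𝓝 (C.z m), τ y ∈ C.M :=
    h1.continuousAt.eventually_mem (by rw [h2]; exact C.isOpen.mem_nhds hm)
  have h6 : ∀ᶠ y in 𝓝 (C.z m), AnalyticAt ℂ τ y := h1.eventually_analyticAt
  obtain ⟨ρ, hρ, hball⟩ := Metric.eventually_nhds_iff_ball.mp (h3.and (h5.and h6))
  refine ⟨ρ / 2, half_pos hρ, ?_⟩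
  have h7 : ∀ᶠ x in 𝓝 m, C.z x ∈ ball (C.z m) (ρ / 2) :=
    hz.continuousAt.eventually_mem (ball_mem_nhds _ (half_pos hρ))
  filter_upwards [h4, h7] with x hx hx'
  have hsub : ball (C.z x) (ρ / 2) ⊆ ball (C.z m) ρ := by
    intro y hy
    rw [mem_ball] at *
    calc dist y (C.z m) ≤ dist y (C.z x) + dist (C.z x) (C.z m) := dist_triangle _ _ _
      _ < ρ / 2 + ρ / 2 := add_lt_add hy hx'
      _ = ρ := by ring
  refine ⟨τ, fun y hy => (hball y (hsub hy)).2.2.continuousAt.continuousWithinAt,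
    fun y hy => (hball y (hsub hy)).2.1, hx, fun y hy => (hball y (hsub hy)).1⟩

theorem OChart.hasInv_compact (C : OChart V) {N : Set ℂ} (hN : IsCompact N) (hNM : N ⊆ C.M) :
    ∃ ρ > 0, ∀ m ∈ N, HasInv C m ρ := by
  refine hN.induction_on (p := fun s => ∃ ρ > 0, ∀ m ∈ s, HasInv C m ρ)
    ⟨1, one_pos, by simp⟩ ?_ ?_ ?_
  · rintro s t hst ⟨ρ, hρ, h⟩
    exact ⟨ρ, hρ, fun m hm => h m (hst hm)⟩
  · rintro s t ⟨ρ, hρ, h⟩ ⟨ρ', hρ', h'⟩
    refine ⟨min ρ ρ', lt_min hρ hρ', ?_⟩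
    rintro m (hm | hm)
    · exact (h m hm).mono (min_le_left _ _)
    · exact (h' m hm).mono (min_le_right _ _)
  · intro m hm
    obtain ⟨ρ, hρ, h⟩ := C.hasInv_nhds (hNM hm)
    exact ⟨{m' | HasInv C m' ρ}, mem_nhdsWithin_of_mem_nhds h, ρ, hρ, fun m' hm' => hm'⟩

/-- Extension of a germ to the image of a ball. -/
theorem extend_chart {ι : Type*} (C : ι → OChart V) (i : ι) {m : ℂ}
    {ψ : (ℂ × ℂ) ≃L[ℂ] (ℂ × ℂ)} (hψ : ψ ∈ UG ℂ) {L : (ℂ × V) ≃L[ℂ] (ℂ × V)} (hL : L ∈ UG V)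
    {ρ : ℝ} (hρ : 0 < ρ) (hinv : HasInv (C i) m ρ) :
    ∃ f T, Germ (C i) m ψ L f T ∧ ∀ y ∈ ball ((C i).z m) ρ, LM C (act ψ y) f T := by
  obtain ⟨τ, h1, h2, h3, h4⟩ := hinv
  have hzb : ∀ y ∈ ball ((C i).z m) ρ, y ∈ ball (0 : ℂ) 1 := fun y hy => by
    have := (C i).z_maps (h2 hy)
    rwa [h4 y hy] at this
  let f : ℂ → V := fun w => act L ((C i).f (τ (act ψ⁻¹ w)))
  let T : ℂ → Option ℂ := fun w => (C i).T (τ (act ψ⁻¹ w))
  have key : ∀ y ∈ ball ((C i).z m) ρ, Germ (C i) (τ y) ψ L f T := by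
    intro y hy
    have hm' : τ y ∈ (C i).M := h2 hy
    have hz : AnalyticAt ℂ (C i).z (τ y) :=
      analyticAt_of_differentiableOn (C i).isOpen (C i).z_diff hm'
    obtain ⟨σ, -, -, -, h5⟩ := exists_local_inverse hz ((C i).z_deriv _ hm')
    have h6 : Tendsto (fun x => τ ((C i).z x)) (𝓝 (τ y)) (𝓝 (τ y)) := by
      have e1 : ContinuousAt τ y := h1.continuousAt (isOpen_ball.mem_nhds hy)
      have e2 : ContinuousAt τ ((C i).z (τ y)) := by rw [h4 y hy]; exact e1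
      have e3 := e2.tendsto.comp hz.continuousAt.tendsto
      rw [h4 y hy] at e3
      exact e3
    have h7 : ∀ᶠ x in 𝓝 (τ y), (C i).z x ∈ ball ((C i).z m) ρ := by
      apply hz.continuousAt.eventually_mem
      rw [h4 y hy]
      exact isOpen_ball.mem_nhds hy
    have h8 : ∀ᶠ x in 𝓝 (τ y), x ∈ (C i).M := (C i).isOpen.mem_nhds hm'
    have h9 : ∀ᶠ x in 𝓝 (τ y), τ ((C i).z x) = x := by
      filter_upwards [h6.eventually h5, h5, h7] with x e1 e2 e3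
      rw [← e1, h4 _ e3, e2]
    filter_upwards [h9, h8] with x e1 e2
    have e3 : act ψ⁻¹ (act ψ ((C i).z x)) = (C i).z x := act_inv_act hψ ((C i).z_maps e2)
    constructor
    · change act L ((C i).f (τ (act ψ⁻¹ (act ψ ((C i).z x))))) = _
      rw [e3, e1]
    · change (C i).T (τ (act ψ⁻¹ (act ψ ((C i).z x)))) = _
      rw [e3, e1]
  refine ⟨f, T, ?_, ?_⟩
  · have := key ((C i).z m) (mem_ball_self hρ)
    rwa [h3] at this
  · intro y hy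
    exact ⟨i, τ y, h2 hy, ψ, hψ, L, hL, by rw [h4 y hy], key y hy⟩

/-- Moving the type of a germ along a local isomorphism. -/
theorem Germ.move {ι : Type*} {C : ι → OChart V} {i j : ι} {m m' : ℂ}
    {ψ : (ℂ × ℂ) ≃L[ℂ] (ℂ × ℂ)} (hψ : ψ ∈ UG ℂ) {L : (ℂ × V) ≃L[ℂ] (ℂ × V)} (hL : L ∈ UG V)
    (hm' : m' ∈ (C j).M)
    {f : ℂ → V} {T : ℂ → Option ℂ} (hG : Germ (C i) m ψ L f T) (hl : LocIso (C j) (C i) m' m) :
    ∃ ψ' ∈ UG ℂ, ∃ L' ∈ UG V, act ψ' ((C j).z m') = act ψ ((C i).z m) ∧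
      Germ (C j) m' ψ' L' f T := by
  obtain ⟨κ, h1, h2, ψ₁, hψ₁, L₁, hL₁, h3⟩ := hl
  have h4 : Tendsto κ (𝓝 m') (𝓝 m) := by
    have := h1.tendsto
    rwa [h2] at this
  have h5 : ∀ᶠ x in 𝓝 m', x ∈ (C j).M := (C j).isOpen.mem_nhds hm'
  refine ⟨ψ * ψ₁, (UG ℂ).mul_mem hψ hψ₁, L * L₁, (UG V).mul_mem hL hL₁, ?_, ?_⟩
  · rw [act_mul hψ hψ₁ ((C j).z_maps hm'), ← h3.self_of_nhds.1, h2]
  · filter_upwards [h4.eventually hG, h3, h5] with x e1 e2 e3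
    rw [act_mul hψ hψ₁ ((C j).z_maps e3), act_mul hL hL₁ ((C j).f_maps e3), ← e2.1, ← e2.2.1,
      ← e2.2.2]
    exact e1

theorem LM.eqOn {ι : Type*} {C : ι → OChart V} {U : Set ℂ} (hU : IsPreconnected U)
    {f g : ℂ → V} {S T : ℂ → Option ℂ} (h1 : ∀ x ∈ U, LM C x f S) (h2 : ∀ x ∈ U, LM C x g T)
    {x₀ : ℂ} (hx₀ : x₀ ∈ U) (h : ∀ᶠ x in 𝓝 x₀, f x = g x ∧ S x = T x) :
    ∀ x ∈ U, f x = g x ∧ S x = T x :=
  eqOn_of_eventuallyEq hU (fun x hx => (h1 x hx).analyticAt.1) (fun x hx => (h2 x hx).analyticAt.1)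
    (fun x hx => (h1 x hx).analyticAt.2.1) (fun x hx => (h2 x hx).analyticAt.2.1) hx₀ h

/-- Uniform extension of local models. -/
theorem uniform_extension {ι : Type*} [Finite ι] [Nonempty ι] (C : ι → OChart V)
    (compat : ∀ i j, ∀ m ∈ (C i).M, ∀ m' ∈ (C j).M, (C i).T m = (C j).T m' →
      LocIso (C i) (C j) m m')
    (N : ι → Set ℂ) (hN : ∀ i, IsCompact (N i)) (hNM : ∀ i, N i ⊆ (C i).M)
    (cover : ∀ i, ∀ m ∈ (C i).M, ∃ j, ∃ m' ∈ N j, (C j).T m' = (C i).T m) :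
    ∃ ρ : ℝ, 0 < ρ ∧ ρ ≤ 1 ∧ ∀ (w : ℂ) (f : ℂ → V) (T : ℂ → Option ℂ), LM C w f T →
      ∃ f' T', (∀ᶠ x in 𝓝 w, f x = f' x ∧ T x = T' x) ∧
        ∀ y ∈ ball w (ρ * (1 - ‖w‖) / 2), LM C y f' T' := by
  choose ρ' hρ' hinv' using fun i => (C i).hasInv_compact (hN i) (hNM i)
  obtain ⟨i₁, hi₁⟩ := Finite.exists_min ρ'
  refine ⟨min (ρ' i₁) 1, lt_min (hρ' i₁) one_pos, min_le_right _ _, ?_⟩
  intro w f T hLM
  have hw1 := hLM.analyticAt.2.2.2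
  obtain ⟨i, m, hm, ψ, hψ, L, hL, hw, hG⟩ := hLM
  obtain ⟨j, m', hm', hT⟩ := cover i m hm
  have hm'M := hNM j hm'
  obtain ⟨ψ', hψ', L', hL', hw', hG'⟩ := hG.move hψ hL hm'M (compat j i m' hm'M m hm hT)
  rw [hw] at hw'
  set ρ := min (ρ' i₁) 1 with hρdef
  have hρ0 : 0 < ρ := lt_min (hρ' i₁) one_pos
  have hinv : HasInv (C j) m' ρ := (hinv' j m' hm').mono ((min_le_left _ _).trans (hi₁ j))
  obtain ⟨f', T', hG'', hLM'⟩ := extend_chart C j hψ' hL' hρ0 hinv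
  refine ⟨f', T', ?_, ?_⟩
  · rw [← hw']
    apply Germ.of_eventually (C j) hm'M hψ'
    filter_upwards [hG', hG''] with x e1 e2
    exact ⟨e1.1.trans e2.1.symm, e1.2.trans e2.2.symm⟩
  · intro y hy
    have hwn : ‖w‖ < 1 := by simpa using hw1
    have hρ1 : ρ ≤ 1 := min_le_right _ _
    have hsub : ball w (1 - ‖w‖) ⊆ ball (0 : ℂ) 1 := by
      intro x hx
      rw [mem_ball] at hx
      rw [mem_ball_zero_iff]
      calc ‖x‖ = ‖(x - w) + w‖ := by ring_nf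
        _ ≤ ‖x - w‖ + ‖w‖ := norm_add_le _ _
        _ < 1 := by rw [← dist_eq_norm]; linarith
    have hyd : y ∈ ball w (1 - ‖w‖) := by
      rw [mem_ball] at *
      have : ρ * (1 - ‖w‖) / 2 ≤ 1 - ‖w‖ := by nlinarith
      linarith
    have hψi := (UG ℂ).inv_mem hψ'
    have hwz : act ψ'⁻¹ w = (C j).z m' := by
      rw [← hw', act_inv_act hψ' ((C j).z_maps hm'M)]
    have hmaps : MapsTo (act ψ'⁻¹) (ball w (1 - ‖w‖)) (closedBall (act ψ'⁻¹ w) 2) := by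
      intro x hx
      have e1 := act_mem hψi (hsub hx)
      have e2 := act_mem hψi hw1
      rw [mem_ball_zero_iff] at e1 e2
      rw [mem_closedBall, dist_eq_norm]
      calc _ ≤ ‖act ψ'⁻¹ x‖ + ‖act ψ'⁻¹ w‖ := norm_sub_le _ _
        _ ≤ 2 := by linarith
    have hd : DifferentiableOn ℂ (act ψ'⁻¹) (ball w (1 - ‖w‖)) :=
      (act_differentiableOn hψi).mono hsub
    have h1 := Complex.dist_le_div_mul_dist_of_mapsTo_ball hd hmaps hyd
    have hx : act ψ'⁻¹ y ∈ ball ((C j).z m') ρ := by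
      rw [mem_ball, ← hwz]
      refine h1.trans_lt ?_
      rw [mem_ball] at hy
      have h2 : 0 < 1 - ‖w‖ := by linarith
      calc 2 / (1 - ‖w‖) * dist y w < 2 / (1 - ‖w‖) * (ρ * (1 - ‖w‖) / 2) := by
            apply mul_lt_mul_of_pos_left hy; positivity
        _ = ρ := by field_simp
    have h3 := hLM' _ hx
    rwa [act_act_inv hψ' (hsub hyd)] at h3

/-- Existence of the germ on a ball of radius `r`. -/
def ExtTo {ι : Type*} (C : ι → OChart V) (i₀ : ι) (m₀ : ℂ) (r : ℝ) (f : ℂ → V)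
    (T : ℂ → Option ℂ) : Prop :=
  Germ (C i₀) m₀ 1 1 f T ∧ ∀ y ∈ ball (0 : ℂ) r, LM C y f T

theorem ExtTo.eq_near {ι : Type*} {C : ι → OChart V} {i₀ : ι} {m₀ : ℂ} (hm₀ : m₀ ∈ (C i₀).M)
    (hz₀ : (C i₀).z m₀ = 0) {f g : ℂ → V} {S T : ℂ → Option ℂ}
    (h1 : Germ (C i₀) m₀ 1 1 f S) (h2 : Germ (C i₀) m₀ 1 1 g T) :
    ∀ᶠ x in 𝓝 (0 : ℂ), f x = g x ∧ S x = T x := by
  have h3 : act (1 : (ℂ × ℂ) ≃L[ℂ] (ℂ × ℂ)) ((C i₀).z m₀) = 0 := by rw [act_one, hz₀]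
  rw [← h3]
  apply Germ.of_eventually (C i₀) hm₀ (UG ℂ).one_mem
  filter_upwards [h1, h2] with x e1 e2
  exact ⟨e1.1.trans e2.1.symm, e1.2.trans e2.2.symm⟩

theorem Germ.congr' {C : OChart V} {m : ℂ} (hm : m ∈ C.M) {ψ : (ℂ × ℂ) ≃L[ℂ] (ℂ × ℂ)}
    (hψ : ψ ∈ UG ℂ) {L : (ℂ × V) ≃L[ℂ] (ℂ × V)} {f g : ℂ → V} {S T : ℂ → Option ℂ}
    (h : Germ C m ψ L f S) (hfg : ∀ᶠ x in 𝓝 (act ψ (C.z m)), f x = g x ∧ S x = T x) :
    Germ C m ψ L g T := by
  have := (Germ.iff_eventually C hm hψ).mpr hfg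
  unfold Germ at *
  filter_upwards [h, this] with x e1 e2
  exact ⟨e2.1 ▸ e1.1, e2.2 ▸ e1.2⟩

theorem ExtTo.unique {ι : Type*} {C : ι → OChart V} {i₀ : ι} {m₀ : ℂ} (hm₀ : m₀ ∈ (C i₀).M)
    (hz₀ : (C i₀).z m₀ = 0) {f g : ℂ → V} {S T : ℂ → Option ℂ} {r s : ℝ}
    (h1 : ExtTo C i₀ m₀ r f S) (h2 : ExtTo C i₀ m₀ s g T) :
    ∀ x ∈ ball (0 : ℂ) (min r s), f x = g x ∧ S x = T x := by
  intro x hx
  have hpos : 0 < min r s := by
    rw [mem_ball] at hx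
    exact dist_nonneg.trans_lt hx
  exact LM.eqOn (convex_ball (0 : ℂ) (min r s)).isPreconnected
    (fun y hy => h1.2 y (ball_subset_ball (min_le_left _ _) hy))
    (fun y hy => h2.2 y (ball_subset_ball (min_le_right _ _) hy))
    (mem_ball_self hpos) (ExtTo.eq_near hm₀ hz₀ h1.1 h2.1) x hx

theorem extTo_limit {ι : Type*} {C : ι → OChart V} {i₀ : ι} {m₀ : ℂ} (hm₀ : m₀ ∈ (C i₀).M)
    (hz₀ : (C i₀).z m₀ = 0) {R : ℝ} (hR : 0 < R)
    (h : ∀ r, 0 < r → r < R → ∃ f T, ExtTo C i₀ m₀ r f T) : ∃ f T, ExtTo C i₀ m₀ R f T := by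
  choose! F S hFS using h
  let f : ℂ → V := fun x => F ((‖x‖ + R) / 2) x
  let T : ℂ → Option ℂ := fun x => S ((‖x‖ + R) / 2) x
  have hr : ∀ x : ℂ, x ∈ ball (0 : ℂ) R → 0 < (‖x‖ + R) / 2 ∧ (‖x‖ + R) / 2 < R ∧
      ‖x‖ < (‖x‖ + R) / 2 := by
    intro x hx
    rw [mem_ball_zero_iff] at hx
    have := norm_nonneg x
    refine ⟨by linarith, by linarith, by linarith⟩
  have key : ∀ r, 0 < r → r < R → ∀ y ∈ ball (0 : ℂ) r, F r y = f y ∧ S r y = T y := by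
    intro r hr0 hrR y hy
    have hyR : y ∈ ball (0 : ℂ) R := ball_subset_ball hrR.le hy
    obtain ⟨e1, e2, e3⟩ := hr y hyR
    apply ExtTo.unique hm₀ hz₀ (hFS r hr0 hrR) (hFS _ e1 e2) y
    rw [mem_ball_zero_iff] at hy ⊢
    exact lt_min hy e3
  have h0 : (0 : ℂ) ∈ ball (0 : ℂ) R := mem_ball_self hR
  obtain ⟨e1, e2, e3⟩ := hr 0 h0
  refine ⟨f, T, ?_, ?_⟩
  · refine (hFS _ e1 e2).1.congr' hm₀ (UG ℂ).one_mem ?_
    rw [act_one, hz₀]
    filter_upwards [ball_mem_nhds (0 : ℂ) e1] with x hx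
    exact key _ e1 e2 x hx
  · intro y hy
    obtain ⟨d1, d2, d3⟩ := hr y hy
    have hy' : y ∈ ball (0 : ℂ) ((‖y‖ + R) / 2) := by rwa [mem_ball_zero_iff]
    refine ((hFS _ d1 d2).2 y hy').congr ?_
    filter_upwards [isOpen_ball.mem_nhds hy'] with x hx
    exact key _ d1 d2 x hx

theorem extTo_step {ι : Type*} {C : ι → OChart V} {i₀ : ι} {m₀ : ℂ} (hm₀ : m₀ ∈ (C i₀).M)
    (hz₀ : (C i₀).z m₀ = 0) {ρ : ℝ} (hρ : 0 < ρ)
    (hext : ∀ (w : ℂ) (f : ℂ → V) (T : ℂ → Option ℂ), LM C w f T →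
      ∃ f' T', (∀ᶠ x in 𝓝 w, f x = f' x ∧ T x = T' x) ∧
        ∀ y ∈ ball w (ρ * (1 - ‖w‖) / 2), LM C y f' T')
    {r : ℝ} (hr : 0 < r) (hr1 : r < 1) {f : ℂ → V} {T : ℂ → Option ℂ}
    (h : ExtTo C i₀ m₀ r f T) : ∃ r' > r, ∃ f' T', ExtTo C i₀ m₀ r' f' T' := by
  set ε : ℝ := ρ * (1 - r) / 2 with hε
  have hεpos : 0 < ε := by have : 0 < 1 - r := by linarith
                           positivity
  have h1 : ∀ w ∈ ball (0 : ℂ) r, ∃ f' T', (∀ᶠ x in 𝓝 w, f x = f' x ∧ T x = T' x) ∧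
      ∀ y ∈ ball w ε, LM C y f' T' := by
    intro w hw
    obtain ⟨f', T', e1, e2⟩ := hext w f T (h.2 w hw)
    refine ⟨f', T', e1, fun y hy => e2 y (ball_subset_ball ?_ hy)⟩
    rw [mem_ball_zero_iff] at hw
    rw [hε]
    have : ρ * (1 - r) ≤ ρ * (1 - ‖w‖) := mul_le_mul_of_nonneg_left (by linarith) hρ.le
    linarith
  choose! F S hFS1 hFS2 using h1
  set r' : ℝ := r + ε / 2 with hr'
  have hr'pos : 0 < r' := by positivity
  set c : ℂ := ((r / r' : ℝ) : ℂ) with hc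
  have hc1 : r / r' < 1 := by rw [div_lt_one hr'pos]; linarith
  have hc0 : 0 < r / r' := div_pos hr hr'pos
  have hcn : ∀ w : ℂ, ‖c * w‖ = r / r' * ‖w‖ := by
    intro w
    rw [norm_mul, hc, Complex.norm_real, Real.norm_of_nonneg hc0.le]
  have hcw : ∀ w ∈ ball (0 : ℂ) r', c * w ∈ ball (0 : ℂ) r := by
    intro w hw
    rw [mem_ball_zero_iff] at hw ⊢
    rw [hcn]
    calc r / r' * ‖w‖ < r / r' * r' := mul_lt_mul_of_pos_left hw hc0
      _ = r := by field_simp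
  have hdist : ∀ w ∈ ball (0 : ℂ) r', dist w (c * w) < ε / 2 := by
    intro w hw
    rw [mem_ball_zero_iff] at hw
    have e1 : w - c * w = (((1 - r / r' : ℝ)) : ℂ) * w := by rw [hc]; push_cast; ring
    rw [dist_eq_norm, e1, norm_mul, Complex.norm_real, Real.norm_of_nonneg (by linarith)]
    calc (1 - r / r') * ‖w‖ < (1 - r / r') * r' := mul_lt_mul_of_pos_left hw (by linarith)
      _ = ε / 2 := by rw [sub_mul, div_mul_cancel₀ _ hr'pos.ne']; rw [hr']; ring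
  -- comparison
  have key : ∀ w ∈ ball (0 : ℂ) r', ∀ y ∈ ball (0 : ℂ) r', dist (c * y) (c * w) < ε / 2 →
      F (c * w) y = F (c * y) y ∧ S (c * w) y = S (c * y) y := by
    intro w hw y hy hd
    have hw' := hcw w hw
    have hy' := hcw y hy
    -- `F (c w) = f` on the intersection with the ball
    have a1 : ∀ x ∈ ball (c * w) ε ∩ ball (0 : ℂ) r, f x = F (c * w) x ∧ T x = S (c * w) x :=
      LM.eqOn ((convex_ball (c * w) ε).inter (convex_ball (0 : ℂ) r)).isPreconnected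
        (fun x hx => h.2 x hx.2) (fun x hx => hFS2 _ hw' x hx.1)
        ⟨mem_ball_self hεpos, hw'⟩ (hFS1 _ hw')
    have hyw : c * y ∈ ball (c * w) ε := by rw [mem_ball]; linarith
    have a2 : ∀ᶠ x in 𝓝 (c * y), F (c * w) x = F (c * y) x ∧ S (c * w) x = S (c * y) x := by
      filter_upwards [(isOpen_ball.inter isOpen_ball).mem_nhds ⟨hyw, hy'⟩, hFS1 _ hy'] with x e1 e2
      have e3 := a1 x e1
      exact ⟨e3.1.symm.trans e2.1, e3.2.symm.trans e2.2⟩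
    have hdy := hdist y hy
    refine LM.eqOn ((convex_ball (c * w) ε).inter (convex_ball (c * y) ε)).isPreconnected
      (fun x hx => hFS2 _ hw' x hx.1) (fun x hx => hFS2 _ hy' x hx.2)
      ⟨hyw, mem_ball_self hεpos⟩ a2 y ⟨?_, ?_⟩
    · rw [mem_ball]
      calc dist y (c * w) ≤ dist y (c * y) + dist (c * y) (c * w) := dist_triangle _ _ _
        _ < ε := by linarith
    · rw [mem_ball]; linarith
  have key2 : ∀ w ∈ ball (0 : ℂ) r', ∀ᶠ y in 𝓝 w, F (c * w) y = F (c * y) y ∧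
      S (c * w) y = S (c * y) y := by
    intro w hw
    have e1 : ∀ᶠ y in 𝓝 w, dist (c * y) (c * w) < ε / 2 := by
      have : ContinuousAt (fun y => c * y) w := by fun_prop
      exact this.eventually_mem (ball_mem_nhds _ (half_pos hεpos))
    filter_upwards [e1, isOpen_ball.mem_nhds hw] with y hy1 hy2
    exact key w hw y hy2 hy1
  have h0 : (0 : ℂ) ∈ ball (0 : ℂ) r' := mem_ball_self hr'pos
  refine ⟨r', by rw [hr']; linarith, fun w => F (c * w) w, fun w => S (c * w) w, ?_, ?_⟩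
  · refine h.1.congr' hm₀ (UG ℂ).one_mem ?_
    rw [act_one, hz₀]
    have e1 := hFS1 _ (hcw 0 h0)
    have e2 := key2 0 h0
    rw [mul_zero] at e1 e2
    filter_upwards [e1, e2] with x d1 d2
    exact ⟨d1.1.trans d2.1, d1.2.trans d2.2⟩
  · intro w hw
    refine LM.congr (hFS2 _ (hcw w hw) w ?_) (key2 w hw)
    rw [mem_ball]
    have := hdist w hw
    linarith

theorem exists_global {ι : Type*} [Finite ι] (C : ι → OChart V) (i₀ : ι) (m₀ : ℂ)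
    (hm₀ : m₀ ∈ (C i₀).M) (hz₀ : (C i₀).z m₀ = 0)
    (compat : ∀ i j, ∀ m ∈ (C i).M, ∀ m' ∈ (C j).M, (C i).T m = (C j).T m' →
      LocIso (C i) (C j) m m')
    (N : ι → Set ℂ) (hN : ∀ i, IsCompact (N i)) (hNM : ∀ i, N i ⊆ (C i).M)
    (cover : ∀ i, ∀ m ∈ (C i).M, ∃ j, ∃ m' ∈ N j, (C j).T m' = (C i).T m) :
    ∃ f T, ExtTo C i₀ m₀ 1 f T := by
  have : Nonempty ι := ⟨i₀⟩
  obtain ⟨ρ, hρ, hρ1, hext⟩ := uniform_extension C compat N hN hNM cover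
  -- start
  have hstart : ∃ r > 0, ∃ f T, ExtTo C i₀ m₀ r f T := by
    obtain ⟨ρ₀, hρ₀, hinv⟩ := (C i₀).hasInv_nhds hm₀
    obtain ⟨f, T, e1, e2⟩ := extend_chart C i₀ (UG ℂ).one_mem (UG V).one_mem hρ₀
      hinv.self_of_nhds
    refine ⟨ρ₀, hρ₀, f, T, e1, fun y hy => ?_⟩
    rw [hz₀] at e2
    have := e2 y hy
    rwa [act_one] at this
  obtain ⟨r₀, hr₀, f₀, T₀, h₀⟩ := hstart
  have hmono : ∀ {r s : ℝ} {f : ℂ → V} {T : ℂ → Option ℂ}, s ≤ r → ExtTo C i₀ m₀ r f T →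
      ExtTo C i₀ m₀ s f T := fun hsr h => ⟨h.1, fun y hy => h.2 y (ball_subset_ball hsr hy)⟩
  let S : Set ℝ := {r | 0 < r ∧ r ≤ 1 ∧ ∃ f T, ExtTo C i₀ m₀ r f T}
  have hS1 : min r₀ 1 ∈ S := ⟨lt_min hr₀ one_pos, min_le_right _ _, f₀, T₀,
    hmono (min_le_left _ _) h₀⟩
  have hbdd : BddAbove S := ⟨1, fun r hr => hr.2.1⟩
  set R := sSup S with hR
  have hR0 : 0 < R := (lt_min hr₀ one_pos).trans_le (le_csSup hbdd hS1)
  have hR1 : R ≤ 1 := csSup_le ⟨_, hS1⟩ fun r hr => hr.2.1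
  have hPR : ∃ f T, ExtTo C i₀ m₀ R f T := by
    apply extTo_limit hm₀ hz₀ hR0
    intro r hr0 hrR
    obtain ⟨s, hs, hrs⟩ := exists_lt_of_lt_csSup ⟨_, hS1⟩ hrR
    obtain ⟨-, -, f, T, h⟩ := hs
    exact ⟨f, T, hmono hrs.le h⟩
  obtain ⟨f, T, h⟩ := hPR
  rcases hR1.lt_or_eq with hlt | heq
  · exfalso
    obtain ⟨r', hr', f', T', h'⟩ := extTo_step hm₀ hz₀ hρ hext hR0 hlt h
    have h3 : min r' 1 ∈ S := ⟨lt_min (hR0.trans hr') one_pos, min_le_right _ _, f', T',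
      hmono (min_le_left _ _) h'⟩
    have h4 := le_csSup hbdd h3
    have h5 : R < min r' 1 := lt_min hr' hlt
    exact absurd h4 (not_le.mpr h5)
  · rw [heq] at h
    exact ⟨f, T, h⟩

theorem LocMero.comp {T : ℂ → Option ℂ} {g : ℂ → ℂ} {x : ℂ} (hT : LocMero T (g x))
    (hg : AnalyticAt ℂ g x) : LocMero (fun y => T (g y)) x := by
  obtain ⟨a, b, ha, hb, hab, h⟩ := hT
  exact ⟨fun y => a (g y), fun y => b (g y), ha.fun_comp hg, hb.fun_comp hg, hab,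
    hg.continuousAt.eventually h⟩

/-- A twisted germ identity extends to the whole chart. -/
theorem Germ.global {ι : Type*} {C : ι → OChart V} {f : ℂ → V} {T : ℂ → Option ℂ}
    (h : ∀ y ∈ ball (0 : ℂ) 1, LM C y f T) (i : ι) {m : ℂ} (hm : m ∈ (C i).M)
    {ψ : (ℂ × ℂ) ≃L[ℂ] (ℂ × ℂ)} (hψ : ψ ∈ UG ℂ) {L : (ℂ × V) ≃L[ℂ] (ℂ × V)} (hL : L ∈ UG V)
    (hG : Germ (C i) m ψ L f T) :
    ∀ x ∈ (C i).M, f (act ψ ((C i).z x)) = act L ((C i).f x) ∧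
      T (act ψ ((C i).z x)) = (C i).T x := by
  have hmem : ∀ x ∈ (C i).M, act ψ ((C i).z x) ∈ ball (0 : ℂ) 1 := fun x hx =>
    act_mem hψ ((C i).z_maps hx)
  exact eqOn_of_eventuallyEq (C i).preconn
    (F := fun x => f (act ψ ((C i).z x))) (G := fun x => act L ((C i).f x))
    (S := fun x => T (act ψ ((C i).z x))) (T := (C i).T)
    (fun x hx => AnalyticAt.fun_comp (g := f) (f := fun x => act ψ ((C i).z x))
      (h _ (hmem x hx)).analyticAt.1 ((C i).analyticAt_g hψ hx))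
    (fun x hx => analyticAt_act_comp hL
      (analyticAt_of_differentiableOn (C i).isOpen (C i).f_diff hx) ((C i).f_maps hx))
    (fun x hx => LocMero.comp (h _ (hmem x hx)).analyticAt.2.1 ((C i).analyticAt_g hψ hx))
    (fun x hx => (C i).locMero hx) hm hG

/-- **Continuation theorem.** -/
theorem continuation {ι : Type*} [Finite ι] (C : ι → OChart V) (i₀ : ι) (m₀ : ℂ)
    (hm₀ : m₀ ∈ (C i₀).M) (hz₀ : (C i₀).z m₀ = 0)
    (compat : ∀ i j, ∀ m ∈ (C i).M, ∀ m' ∈ (C j).M, (C i).T m = (C j).T m' →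
      LocIso (C i) (C j) m m')
    (N : ι → Set ℂ) (hN : ∀ i, IsCompact (N i)) (hNM : ∀ i, N i ⊆ (C i).M)
    (cover : ∀ i, ∀ m ∈ (C i).M, ∃ j, ∃ m' ∈ N j, (C j).T m' = (C i).T m)
    (conn : ∀ i, ∃ m ∈ (C i₀).M, ∃ m' ∈ (C i).M, (C i₀).T m = (C i).T m') :
    ∃ (f : ℂ → V) (T : ℂ → Option ℂ), DifferentiableOn ℂ f (ball 0 1) ∧
      MapsTo f (ball 0 1) (ball 0 1) ∧
      (∀ m ∈ (C i₀).M, f ((C i₀).z m) = (C i₀).f m ∧ T ((C i₀).z m) = (C i₀).T m) ∧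
      (∀ z ∈ ball (0 : ℂ) 1, ∀ᶠ x in 𝓝[≠] z, T x ≠ T z) ∧
      (∃ K : Set ℂ, IsCompact K ∧ K ⊆ ball 0 1 ∧ ∀ z ∈ ball (0 : ℂ) 1,
        ∃ γ ∈ UG ℂ, ∃ L ∈ UG V, act γ z ∈ K ∧
          ∀ x ∈ ball (0 : ℂ) 1, f (act γ x) = act L (f x) ∧ T (act γ x) = T x) ∧
      -- two points with the same `T`-value are equivalent
      (∀ z ∈ ball (0 : ℂ) 1, ∀ z' ∈ ball (0 : ℂ) 1, T z = T z' →
        ∃ γ ∈ UG ℂ, ∃ L ∈ UG V, act γ z = z' ∧
          ∀ x ∈ ball (0 : ℂ) 1, f (act γ x) = act L (f x) ∧ T (act γ x) = T x) ∧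
      (∀ z ∈ ball (0 : ℂ) 1, LocMero T z) := by
  obtain ⟨f, T, hG₀, hLM⟩ := exists_global C i₀ m₀ hm₀ hz₀ compat N hN hNM cover
  have hint : ∀ m ∈ (C i₀).M, f ((C i₀).z m) = (C i₀).f m ∧ T ((C i₀).z m) = (C i₀).T m := by
    intro m hm
    have := Germ.global hLM i₀ hm₀ (UG ℂ).one_mem (UG V).one_mem hG₀ m hm
    rwa [act_one, act_one] at this
  -- the global equivalence
  have hequiv : ∀ z ∈ ball (0 : ℂ) 1, ∀ z' ∈ ball (0 : ℂ) 1, T z = T z' →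
        ∃ γ ∈ UG ℂ, ∃ L ∈ UG V, act γ z = z' ∧
          ∀ x ∈ ball (0 : ℂ) 1, f (act γ x) = act L (f x) ∧ T (act γ x) = T x := by
    intro z hz z' hz' hT
    obtain ⟨i, m, hm, ψ, hψ, L, hL, hzm, hG⟩ := hLM z hz
    obtain ⟨j, m', hm', ψ', hψ', L', hL', hzm', hG'⟩ := hLM z' hz'
    have hTT : (C i).T m = (C j).T m' := by
      have e1 := hG.self_of_nhds.2
      have e2 := hG'.self_of_nhds.2
      rw [hzm] at e1
      rw [hzm'] at e2
      rw [← e1, ← e2, hT]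
    obtain ⟨κ, k1, k2, ψ₁, hψ₁, L₁, hL₁, k3⟩ := compat i j m hm m' hm' hTT
    have hψi := (UG ℂ).inv_mem hψ
    have hLi := (UG V).inv_mem hL
    have hγ : ψ' * (ψ₁ * ψ⁻¹) ∈ UG ℂ := (UG ℂ).mul_mem hψ' ((UG ℂ).mul_mem hψ₁ hψi)
    have hΛ : L' * (L₁ * L⁻¹) ∈ UG V := (UG V).mul_mem hL' ((UG V).mul_mem hL₁ hLi)
    -- formula for the action
    have hact : ∀ y ∈ ball (0 : ℂ) 1, act (ψ' * (ψ₁ * ψ⁻¹)) (act ψ y) = act ψ' (act ψ₁ y) := by
      intro y hy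
      have e1 := act_mem hψ hy
      rw [act_mul hψ' ((UG ℂ).mul_mem hψ₁ hψi) e1, act_mul hψ₁ hψi e1, act_inv_act hψ hy]
    have hactL : ∀ y ∈ ball (0 : V) 1, act (L' * (L₁ * L⁻¹)) (act L y) = act L' (act L₁ y) := by
      intro y hy
      have e1 := act_mem hL hy
      rw [act_mul hL' ((UG V).mul_mem hL₁ hLi) e1, act_mul hL₁ hLi e1, act_inv_act hL hy]
    have hκ : Tendsto κ (𝓝 m) (𝓝 m') := by
      have := k1.tendsto
      rwa [k2] at this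
    have hloc : ∀ᶠ y in 𝓝 z, f (act (ψ' * (ψ₁ * ψ⁻¹)) y) = act (L' * (L₁ * L⁻¹)) (f y) ∧
        T (act (ψ' * (ψ₁ * ψ⁻¹)) y) = T y := by
      rw [← hzm]
      apply Germ.of_eventually (C i) hm hψ
      filter_upwards [hG, k3, hκ.eventually hG', (C i).isOpen.mem_nhds hm] with x e1 e2 e3 e4
      rw [hact _ ((C i).z_maps e4), ← e2.1, e3.1, e3.2, e1.1, e1.2,
        hactL _ ((C i).f_maps e4), e2.2.1, e2.2.2]
      exact ⟨rfl, rfl⟩
    refine ⟨_, hγ, _, hΛ, ?_, ?_⟩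
    · rw [← hzm, hact _ ((C i).z_maps hm), ← k3.self_of_nhds.1, k2, hzm']
    · have hgan : ∀ x ∈ ball (0 : ℂ) 1, AnalyticAt ℂ (act (ψ' * (ψ₁ * ψ⁻¹))) x := fun x hx =>
        analyticAt_of_differentiableOn isOpen_ball (act_differentiableOn hγ) hx
      exact eqOn_of_eventuallyEq (convex_ball (0 : ℂ) 1).isPreconnected
        (F := fun y => f (act (ψ' * (ψ₁ * ψ⁻¹)) y))
        (G := fun y => act (L' * (L₁ * L⁻¹)) (f y))
        (S := fun y => T (act (ψ' * (ψ₁ * ψ⁻¹)) y)) (T := T)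
        (fun x hx => (hLM _ (act_mem hγ hx)).analyticAt.1.fun_comp (hgan x hx))
        (fun x hx => analyticAt_act_comp hΛ (hLM x hx).analyticAt.1 (hLM x hx).analyticAt.2.2.1)
        (fun x hx => LocMero.comp (hLM _ (act_mem hγ hx)).analyticAt.2.1 (hgan x hx))
        (fun x hx => (hLM x hx).analyticAt.2.1) hz hloc
  -- all charts occur
  have hall : ∀ j, ∃ ψ ∈ UG ℂ, ∀ x ∈ (C j).M, T (act ψ ((C j).z x)) = (C j).T x := by
    intro j
    obtain ⟨m, hm, m', hm', hT⟩ := conn j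
    have hG : Germ (C i₀) m 1 1 f T := by
      filter_upwards [(C i₀).isOpen.mem_nhds hm] with x hx
      rw [act_one, act_one]
      exact hint x hx
    obtain ⟨ψ, hψ, L, hL, -, hG'⟩ := hG.move (C := C) (UG ℂ).one_mem (UG V).one_mem hm'
      (compat j i₀ m' hm' m hm hT.symm)
    exact ⟨ψ, hψ, fun x hx => (Germ.global hLM j hm' hψ hL hG' x hx).2⟩
  choose Ψ hΨ hΨT using hall
  refine ⟨f, T, fun x hx => (hLM x hx).analyticAt.1.differentiableAt.differentiableWithinAt,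
    fun x hx => (hLM x hx).analyticAt.2.2.1, hint, ?_, ?_, hequiv,
    fun x hx => (hLM x hx).analyticAt.2.1⟩
  · intro z hz
    obtain ⟨i, m, hm, ψ, hψ, L, hL, hzm, hG⟩ := hLM z hz
    rw [eventually_nhdsWithin_iff, ← hzm]
    apply Germ.of_eventually (C i) hm hψ
    have hd := eventually_nhdsWithin_iff.mp ((C i).T_disc m hm)
    have h0 := hG.self_of_nhds.2
    filter_upwards [hd, hG] with x e1 e2 e3
    rw [e2.2, h0]
    apply e1
    intro h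
    apply e3
    rw [mem_singleton_iff] at h ⊢
    rw [h]
  · refine ⟨⋃ j, (fun x => act (Ψ j) ((C j).z x)) '' (N j), ?_, ?_, ?_⟩
    · apply isCompact_iUnion
      intro j
      refine (hN j).image_of_continuousOn ?_
      exact ((act_continuousOn (hΨ j)).comp (C j).z_diff.continuousOn (C j).z_maps).mono (hNM j)
    · apply iUnion_subset
      rintro j _ ⟨x, hx, rfl⟩
      exact act_mem (hΨ j) ((C j).z_maps (hNM j hx))
    · intro z hz
      obtain ⟨i, m, hm, ψ, hψ, L, hL, hzm, hG⟩ := hLM z hz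
      obtain ⟨j, m', hm', hT⟩ := cover i m hm
      have hz' : act (Ψ j) ((C j).z m') ∈ ball (0 : ℂ) 1 :=
        act_mem (hΨ j) ((C j).z_maps (hNM j hm'))
      have e1 := hG.self_of_nhds.2
      rw [hzm] at e1
      have e2 := hΨT j m' (hNM j hm')
      obtain ⟨γ, hγ, Λ, hΛ, h1, h2⟩ := hequiv z hz _ hz' (by rw [e1, e2, hT])
      exact ⟨γ, hγ, Λ, hΛ, h1 ▸ mem_iUnion.mpr ⟨j, m', hm', rfl⟩, h2⟩

end Pool.Agent.BallCurve
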