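import Pool.Agent.MP_071e05_an.Ball

/-!
Criterion: a holomorphic map `f : 𝔻 → ball V` which is, at every point, nearly isometric for the
Poincaré metrics (`‖(f normalised at w)'(0)‖² ≥ c > 2√2 - 2`) is a proper injective immersion.
-/

set_option autoImplicit false
set_option linter.unusedSectionVars false

open Metric Set Filter Topology ComplexConjugate

namespace Pool.Agent.BallCurve

variable {V : Type*} [NormedAddCommGroup V] [InnerProductSpace ℂ V] [CompleteSpace V]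

/-- `‖H(0)‖² + ‖H'(0)‖² ≤ 1` for `H : 𝔻 → closed ball`. -/
theorem norm_sq_add_norm_deriv_sq_le {H : ℂ → V} (hd : DifferentiableOn ℂ H (ball 0 1))
    (hb : ∀ z ∈ ball (0 : ℂ) 1, ‖H z‖ ≤ 1) : ‖H 0‖ ^ 2 + ‖deriv H 0‖ ^ 2 ≤ 1 := by
  set a := H 0 with ha
  set b := deriv H 0 with hbdef
  set ρ : ℝ := Real.sqrt (‖a‖ ^ 2 + ‖b‖ ^ 2) with hρ
  have hρ2 : ρ ^ 2 = ‖a‖ ^ 2 + ‖b‖ ^ 2 := Real.sq_sqrt (by positivity)
  have hρ0 : 0 ≤ ρ := Real.sqrt_nonneg _
  let Ge : ℂ → V := fun z => (1 / 2 : ℂ) • (H z + H (-z))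
  let Go : ℂ → V := fun z => (1 / 2 : ℂ) • (H z - H (-z))
  have hneg : ∀ z ∈ ball (0 : ℂ) 1, -z ∈ ball (0 : ℂ) 1 := by
    intro z hz; simpa using hz
  have hsum : ∀ z ∈ ball (0 : ℂ) 1, ‖Ge z‖ ^ 2 + ‖Go z‖ ^ 2 ≤ 1 := by
    intro z hz
    have h1 := hb z hz
    have h2 := hb (-z) (hneg z hz)
    have hp := parallelogram_law_with_norm ℂ (H z) (H (-z))
    simp only [Ge, Go, norm_smul]
    have h3 : ‖(1 / 2 : ℂ)‖ = 1 / 2 := by simp
    rw [h3]
    have h1' : ‖H z‖ * ‖H z‖ ≤ 1 := by nlinarith [norm_nonneg (H z)]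
    have h2' : ‖H (-z)‖ * ‖H (-z)‖ ≤ 1 := by nlinarith [norm_nonneg (H (-z))]
    nlinarith
  let h : ℂ → ℂ := fun z => inner ℂ a (Ge z) * z + inner ℂ b (Go z)
  have hbound : ∀ z ∈ ball (0 : ℂ) 1, ‖h z‖ ≤ ρ := by
    intro z hz
    have hz1 : ‖z‖ ≤ 1 := by
      have : ‖z‖ < 1 := by simpa using hz
      exact this.le
    have h1 : ‖h z‖ ≤ ‖a‖ * ‖Ge z‖ + ‖b‖ * ‖Go z‖ := by
      calc ‖h z‖ ≤ ‖inner ℂ a (Ge z) * z‖ + ‖inner ℂ b (Go z)‖ := norm_add_le _ _
        _ ≤ ‖a‖ * ‖Ge z‖ + ‖b‖ * ‖Go z‖ := by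
          gcongr
          · rw [norm_mul]
            calc ‖inner ℂ a (Ge z)‖ * ‖z‖ ≤ (‖a‖ * ‖Ge z‖) * 1 := by
                  gcongr
                  exact norm_inner_le_norm _ _
              _ = _ := mul_one _
          · exact norm_inner_le_norm _ _
    refine h1.trans ?_
    have h2 := hsum z hz
    apply Real.le_sqrt_of_sq_le
    have h3 : (‖a‖ * ‖Ge z‖ + ‖b‖ * ‖Go z‖) ^ 2 ≤
        (‖a‖ ^ 2 + ‖b‖ ^ 2) * (‖Ge z‖ ^ 2 + ‖Go z‖ ^ 2) := by
      nlinarith [sq_nonneg (‖a‖ * ‖Go z‖ - ‖b‖ * ‖Ge z‖)]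
    calc (‖a‖ * ‖Ge z‖ + ‖b‖ * ‖Go z‖) ^ 2
        ≤ (‖a‖ ^ 2 + ‖b‖ ^ 2) * (‖Ge z‖ ^ 2 + ‖Go z‖ ^ 2) := h3
      _ ≤ (‖a‖ ^ 2 + ‖b‖ ^ 2) * 1 := by gcongr
      _ = _ := mul_one _
  have hHneg : DifferentiableOn ℂ (fun z => H (-z)) (ball 0 1) :=
    hd.comp (differentiableOn_id.neg) (fun z hz => hneg z hz)
  have hGe : DifferentiableOn ℂ Ge (ball 0 1) := (hd.add hHneg).const_smul _
  have hGo : DifferentiableOn ℂ Go (ball 0 1) := (hd.sub hHneg).const_smul _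
  have hinner : ∀ (c : V) (F : ℂ → V), DifferentiableOn ℂ F (ball 0 1) →
      DifferentiableOn ℂ (fun z => inner ℂ c (F z)) (ball 0 1) := by
    intro c F hF
    exact (innerSL ℂ c).differentiable.comp_differentiableOn hF
  have hhd : DifferentiableOn ℂ h (ball 0 1) :=
    ((hinner a Ge hGe).mul differentiableOn_id).add (hinner b Go hGo)
  -- the derivative of `h` at `0`
  have h0mem : (0 : ℂ) ∈ ball (0 : ℂ) 1 := by simp
  have hnhds : ball (0 : ℂ) 1 ∈ 𝓝 (0 : ℂ) := isOpen_ball.mem_nhds h0mem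
  have hH0 : HasDerivAt H b 0 := (hd.differentiableAt hnhds).hasDerivAt
  have hHn0 : HasDerivAt (fun z => H (-z)) (-b) 0 := by
    have h1 : HasDerivAt H b (-(0 : ℂ)) := by simpa using hH0
    have h2 : HasDerivAt (H ∘ Neg.neg) (-b) 0 := by
      simpa using HasDerivAt.scomp (0 : ℂ) h1 (hasDerivAt_neg (0 : ℂ))
    exact h2
  have hGoder : HasDerivAt Go b 0 := by
    have h1 := (hH0.sub hHn0).const_smul (1 / 2 : ℂ)
    have h2 : (1 / 2 : ℂ) • (b - -b) = b := by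
      rw [sub_neg_eq_add, ← two_smul ℂ b, smul_smul]; norm_num
    rw [h2] at h1
    exact h1
  have hGe0 : Ge 0 = a := by
    simp only [Ge, neg_zero, ← ha]
    rw [← two_smul ℂ a, smul_smul]; norm_num
  have hGeder : DifferentiableAt ℂ Ge 0 := hGe.differentiableAt hnhds
  have hder : HasDerivAt h ((ρ ^ 2 : ℝ) : ℂ) 0 := by
    have h1 : HasDerivAt (fun z => inner ℂ b (Go z)) (inner ℂ b b) 0 :=
      ((innerSL ℂ b).hasFDerivAt.comp_hasDerivAt (0 : ℂ) hGoder)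
    have h2 : HasDerivAt (fun z => inner ℂ a (Ge z)) (inner ℂ a (deriv Ge 0)) 0 :=
      ((innerSL ℂ a).hasFDerivAt.comp_hasDerivAt (0 : ℂ) hGeder.hasDerivAt)
    have h3 := (h2.mul (hasDerivAt_id (0 : ℂ))).add h1
    have h4 : (inner ℂ a (deriv Ge 0) : ℂ) * id (0 : ℂ) + inner ℂ a (Ge 0) * 1 + inner ℂ b b
        = ((ρ ^ 2 : ℝ) : ℂ) := by
      rw [hGe0, hρ2]
      rw [inner_self_eq_norm_sq_to_K, inner_self_eq_norm_sq_to_K]
      simp
    rw [h4] at h3
    exact h3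
  have hle : ∀ r ∈ Ioo (0 : ℝ) 1, ρ ^ 2 ≤ ρ / r := by
    intro r hr
    have hsub : closedBall (0 : ℂ) r ⊆ ball 0 1 := closedBall_subset_ball hr.2
    have h1 : ‖deriv h 0‖ ≤ ρ / r := by
      apply Complex.norm_deriv_le_of_forall_mem_sphere_norm_le hr.1
      · exact (hhd.mono hsub).diffContOnCl_ball (le_refl _)
      · intro z hz
        exact hbound z (hsub (sphere_subset_closedBall hz))
    rw [hder.deriv, Complex.norm_real, Real.norm_of_nonneg (by positivity)] at h1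
    exact h1
  have hle1 : ρ ^ 2 ≤ ρ := by
    have ht : Tendsto (fun r : ℝ => ρ / r) (𝓝[<] 1) (𝓝 (ρ / 1)) := by
      apply Tendsto.mono_left _ nhdsWithin_le_nhds
      exact (tendsto_const_nhds.div tendsto_id one_ne_zero)
    rw [div_one] at ht
    apply ge_of_tendsto ht
    filter_upwards [Ioo_mem_nhdsLT (show (0 : ℝ) < 1 by norm_num)] with r hr
    exact hle r hr
  rw [← hρ2]
  nlinarith [sq_nonneg (ρ - 1)]

omit [CompleteSpace V] in
/-- Elementary comparison lemma. -/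
theorem quad_growth {u : ℝ → ℝ} {c c' : ℝ} (hc : c' < c) (hu : Continuous u)
    (h0 : ∀ᶠ h in 𝓝 (0 : ℝ), u 0 + c * h ^ 2 ≤ u h)
    (hs : ∀ s : ℝ, 0 < s → ∃ β : ℝ, ∀ᶠ h in 𝓝 (0 : ℝ), u s + β * h + c * h ^ 2 ≤ u (s + h)) :
    ∀ s : ℝ, 0 ≤ s → u 0 + c' * s ^ 2 ≤ u s := by
  intro s1 hs1
  by_contra hcon
  push Not at hcon
  set v : ℝ → ℝ := fun s => u s - u 0 - c' * s ^ 2 with hv
  have hvc : Continuous v := by fun_prop
  have hv0 : v 0 = 0 := by simp [hv]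
  have hv1 : v s1 < 0 := by simp only [hv]; linarith
  have hs1pos : 0 < s1 := by
    rcases hs1.eq_or_lt with h | h
    · rw [← h, hv0] at hv1; exact absurd hv1 (lt_irrefl _)
    · exact h
  obtain ⟨t, ht, hmax⟩ := isCompact_Icc.exists_isMaxOn (nonempty_Icc.mpr hs1)
    hvc.continuousOn (s := Icc 0 s1)
  -- a point with positive value
  obtain ⟨s2, hs2, hs2v⟩ : ∃ s2 ∈ Ioo 0 s1, 0 < v s2 := by
    rw [Metric.eventually_nhds_iff] at h0
    obtain ⟨ε, hε, h0⟩ := h0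
    refine ⟨min (ε / 2) (s1 / 2), ⟨by positivity, ?_⟩, ?_⟩
    · exact (min_le_right _ _).trans_lt (by linarith)
    · set m := min (ε / 2) (s1 / 2) with hm
      have hmpos : 0 < m := by positivity
      have h1 := h0 (y := m) (by
        rw [dist_zero_right, Real.norm_of_nonneg hmpos.le]
        exact (min_le_left _ _).trans_lt (by linarith))
      simp only [hv]
      have : 0 < (c - c') * m ^ 2 := by
        have : 0 < c - c' := by linarith
        positivity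
      nlinarith
  have hvt : 0 < v t := hs2v.trans_le (hmax (Ioo_subset_Icc_self hs2))
  have ht0 : 0 < t := by
    rcases ht.1.eq_or_lt with h | h
    · rw [← h, hv0] at hvt; exact absurd hvt (lt_irrefl _)
    · exact h
  have ht1 : t < s1 := by
    rcases ht.2.eq_or_lt with h | h
    · rw [h] at hvt; linarith
    · exact h
  obtain ⟨β, hβ⟩ := hs t ht0
  rw [Metric.eventually_nhds_iff] at hβ
  obtain ⟨ε, hε, hβ⟩ := hβ
  set m := min (ε / 2) (min (t / 2) ((s1 - t) / 2)) with hm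
  have hst : 0 < s1 - t := by linarith
  have hmpos : 0 < m := by positivity
  have hmε : m < ε := (min_le_left _ _).trans_lt (by linarith)
  have hmt : m < t := ((min_le_right _ _).trans (min_le_left _ _)).trans_lt (by linarith)
  have hms : m < s1 - t := ((min_le_right _ _).trans (min_le_right _ _)).trans_lt (by linarith)
  have key : ∀ h : ℝ, |h| = m → 0 ≤ (β - 2 * c' * t) * h → False := by
    intro h hh hsg
    have h1 := hβ (y := h) (by rw [dist_zero_right, Real.norm_eq_abs, hh]; exact hmε)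
    have hh2 : h ^ 2 = m ^ 2 := by rw [← hh, sq_abs]
    have habs := abs_le.mp hh.le
    have hmem : t + h ∈ Icc 0 s1 := ⟨by linarith, by linarith⟩
    have h2 := hmax hmem
    simp only [hv, mem_ofPred_eq] at h2
    have h3 : 0 < (c - c') * m ^ 2 := by
      have : 0 < c - c' := by linarith
      positivity
    nlinarith
  rcases le_total 0 (β - 2 * c' * t) with hsg | hsg
  · exact key m (abs_of_pos hmpos) (mul_nonneg hsg hmpos.le)
  · exact key (-m) (by rw [abs_neg, abs_of_pos hmpos])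
      (mul_nonneg_of_nonpos_of_nonpos hsg (by linarith))

/-! ### hyperbolic tangent -/

theorem tanh_add' (s h : ℝ) :
    Real.tanh (s + h) = (Real.tanh s + Real.tanh h) / (1 + Real.tanh s * Real.tanh h) := by
  rw [Real.tanh_eq_sinh_div_cosh, Real.tanh_eq_sinh_div_cosh, Real.tanh_eq_sinh_div_cosh,
    Real.sinh_add, Real.cosh_add]
  have h1 := (Real.cosh_pos s).ne'
  have h2 := (Real.cosh_pos h).ne'
  have h3 : Real.cosh s * Real.cosh h + Real.sinh s * Real.sinh h ≠ 0 := by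
    rw [← Real.cosh_add]; exact (Real.cosh_pos _).ne'
  have h4 : 1 + Real.sinh s / Real.cosh s * (Real.sinh h / Real.cosh h) ≠ 0 := by
    have : 1 + Real.sinh s / Real.cosh s * (Real.sinh h / Real.cosh h) =
      (Real.cosh s * Real.cosh h + Real.sinh s * Real.sinh h) / (Real.cosh s * Real.cosh h) := by
      field_simp
    rw [this]
    exact div_ne_zero h3 (mul_ne_zero h1 h2)
  rw [div_eq_div_iff h3 h4]
  field_simp

theorem hasDerivAt_tanh' (x : ℝ) : HasDerivAt Real.tanh (1 - Real.tanh x ^ 2) x := by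
  have h1 : HasDerivAt (fun y => Real.sinh y / Real.cosh y)
      ((Real.cosh x * Real.cosh x - Real.sinh x * Real.sinh x) / Real.cosh x ^ 2) x :=
    (Real.hasDerivAt_sinh x).div (Real.hasDerivAt_cosh x) (Real.cosh_pos x).ne'
  have h2 : (fun y => Real.sinh y / Real.cosh y) = Real.tanh := by
    funext y; rw [Real.tanh_eq_sinh_div_cosh]
  rw [h2] at h1
  convert h1 using 1
  rw [Real.tanh_eq_sinh_div_cosh]
  have h3 := (Real.cosh_pos x).ne'
  field_simp

theorem continuous_tanh' : Continuous Real.tanh :=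
  continuous_iff_continuousAt.mpr fun x => (hasDerivAt_tanh' x).continuousAt

theorem abs_tanh_le_abs (x : ℝ) : |Real.tanh x| ≤ |x| := by
  have h : ‖Real.tanh x - Real.tanh 0‖ ≤ 1 * ‖x - 0‖ := by
    apply Convex.norm_image_sub_le_of_norm_hasDerivWithin_le (s := univ)
      (f' := fun x => 1 - Real.tanh x ^ 2)
    · intro y _
      exact (hasDerivAt_tanh' y).hasDerivWithinAt
    · intro y _
      have := Real.tanh_sq_lt_one y
      rw [Real.norm_eq_abs, abs_le]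
      constructor <;> nlinarith [sq_nonneg (Real.tanh y)]
    · exact convex_univ
    · trivial
    · trivial
  simpa using h

theorem abs_tanh_sub_le (x : ℝ) : |Real.tanh x - x| ≤ |x| ^ 3 := by
  have h : ‖(Real.tanh x - x) - (Real.tanh 0 - 0)‖ ≤ |x| ^ 2 * ‖x - 0‖ := by
    apply Convex.norm_image_sub_le_of_norm_hasDerivWithin_le (s := Icc (-|x|) |x|)
      (f' := fun y => (1 - Real.tanh y ^ 2) - 1) (f := fun y => Real.tanh y - y)
    · intro y _
      exact ((hasDerivAt_tanh' y).sub (hasDerivAt_id y)).hasDerivWithinAt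
    · intro y hy
      have h1 := abs_tanh_le_abs y
      have h2 : |y| ≤ |x| := abs_le.mpr hy
      have h3 : (1 - Real.tanh y ^ 2) - 1 = -(Real.tanh y ^ 2) := by ring
      show ‖(1 - Real.tanh y ^ 2) - 1‖ ≤ |x| ^ 2
      rw [h3, norm_neg, Real.norm_eq_abs, abs_pow]
      exact pow_le_pow_left₀ (abs_nonneg _) (h1.trans h2) 2
    · exact convex_Icc _ _
    · exact ⟨by linarith [abs_nonneg x], abs_nonneg x⟩
    · exact ⟨neg_abs_le x, le_abs_self x⟩
  rw [Real.tanh_zero] at h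
  simp only [sub_zero, Real.norm_eq_abs] at h
  calc |Real.tanh x - x| ≤ |x| ^ 2 * |x| := h
    _ = |x| ^ 3 := by ring

theorem tendsto_tanh_div : Tendsto (fun h : ℝ => Real.tanh h / h) (𝓝[≠] 0) (𝓝 1) := by
  have h1 := (hasDerivAt_tanh' 0).tendsto_slope_zero
  simp only [zero_add, Real.tanh_zero, sub_zero, smul_eq_mul] at h1
  have h2 : (1 : ℝ) - 0 ^ 2 = 1 := by norm_num
  rw [h2] at h1
  refine h1.congr fun x => ?_
  rw [div_eq_inv_mul]

theorem tendsto_tanh_sub_div : Tendsto (fun h : ℝ => (Real.tanh h - h) / h ^ 2) (𝓝[≠] 0) (𝓝 0) := by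
  apply squeeze_zero_norm' (a := fun h : ℝ => |h|)
  · filter_upwards [self_mem_nhdsWithin] with h hh
    have hh0 : (h : ℝ) ≠ 0 := hh
    have hpos : 0 < |h| := abs_pos.mpr hh0
    rw [norm_div, Real.norm_eq_abs, Real.norm_eq_abs, abs_pow, div_le_iff₀ (by positivity)]
    calc |Real.tanh h - h| ≤ |h| ^ 3 := abs_tanh_sub_le h
      _ = |h| * |h| ^ 2 := by ring
  · have : Tendsto (fun h : ℝ => |h|) (𝓝 0) (𝓝 |0|) := continuous_abs.tendsto 0
    rw [abs_zero] at this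
    exact this.mono_left nhdsWithin_le_nhds

theorem tanh_mem_ball (s : ℝ) : ((Real.tanh s : ℝ) : ℂ) ∈ ball (0 : ℂ) 1 := by
  rw [mem_ball_zero_iff, Complex.norm_real]
  exact Real.abs_tanh_lt_one s

/-- the hyperbolic translation along the real axis -/
theorem exists_trans (s : ℝ) : ∃ ψ ∈ UG ℂ, act ψ 0 = ((Real.tanh s : ℝ) : ℂ) ∧
    ∀ h : ℝ, act ψ ((Real.tanh h : ℝ) : ℂ) = ((Real.tanh (s + h) : ℝ) : ℂ) := by
  set t : ℝ := Real.tanh s with ht
  have hmem : (-(t : ℂ)) ∈ ball (0 : ℂ) 1 := by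
    have := tanh_mem_ball s
    rw [mem_ball_zero_iff] at this ⊢
    rw [norm_neg]
    exact this
  have htn : |t| < 1 := Real.abs_tanh_lt_one s
  have key : ∀ v : ℝ, |v| < 1 → act (boost (-(t : ℂ)) hmem) (v : ℂ) =
      (((t + v) / (1 + t * v) : ℝ) : ℂ) := by
    intro v hv
    set σ : ℝ := Real.sqrt (1 - ‖(-(t : ℂ))‖ ^ 2) with hσ
    have hnt : ‖(-(t : ℂ))‖ ^ 2 = t ^ 2 := by
      rw [norm_neg, Complex.norm_real, Real.norm_eq_abs, sq_abs]
    have ht2 : t ^ 2 < 1 := by rw [← sq_abs]; nlinarith [abs_nonneg t]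
    have hσ2 : σ ^ 2 = 1 - t ^ 2 := by
      rw [hσ, hnt]; exact Real.sq_sqrt (by linarith)
    have hσpos : 0 < σ := by
      rw [hσ, hnt]; exact Real.sqrt_pos.mpr (by linarith)
    have hden : 0 < 1 + t * v := by
      have h1 : |t * v| < 1 := by
        rw [abs_mul]; nlinarith [abs_nonneg t, abs_nonneg v]
      have := (abs_lt.mp h1).1
      linarith
    have h1 : (boost (-(t : ℂ)) hmem) ((1 : ℂ), (v : ℂ)) = boostL (-(t : ℂ)) (1, (v : ℂ)) := rfl
    apply act_of_eq_smul (c := ((σ⁻¹ * (1 + t * v) : ℝ) : ℂ))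
    · have : σ⁻¹ * (1 + t * v) ≠ 0 := by positivity
      exact_mod_cast this
    · rw [h1]
      unfold boostL
      simp only [LinearMap.coe_mk, AddHom.coe_mk, ← hσ]
      have hin : (inner ℂ (-(t : ℂ)) (v : ℂ) : ℂ) = ((-(t * v) : ℝ) : ℂ) := by
        simp; ring
      rw [hin]
      ext
      · simp only [Prod.smul_fst, smul_eq_mul, mul_one]
        push_cast
        ring
      · simp only [Prod.smul_snd, smul_eq_mul]
        have hreal : v + (σ * (1 + σ))⁻¹ * (-(t * v)) * (-t) - (σ⁻¹ * 1) * (-t) =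
            σ⁻¹ * (1 + t * v) * ((t + v) / (1 + t * v)) := by
          have hs1 : (1 + σ) ≠ 0 := by positivity
          have ht2' : t ^ 2 = 1 - σ ^ 2 := by linarith
          have e1 : σ⁻¹ * (1 + t * v) * ((t + v) / (1 + t * v)) = σ⁻¹ * (t + v) := by
            field_simp
          have e2 : v + (σ * (1 + σ))⁻¹ * (-(t * v)) * (-t) - (σ⁻¹ * 1) * (-t) =
              v * (1 + (σ * (1 + σ))⁻¹ * t ^ 2) + σ⁻¹ * t := by ring
          have e3 : 1 + (σ * (1 + σ))⁻¹ * (1 - σ ^ 2) = σ⁻¹ := by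
            field_simp
            ring
          rw [e1, e2, ht2', e3]
          ring
        have hcast := congrArg (fun x : ℝ => (x : ℂ)) hreal
        push_cast at hcast ⊢
        linear_combination hcast
  refine ⟨boost (-(t : ℂ)) hmem, boost_mem hmem, ?_, ?_⟩
  · have := key 0 (by simp)
    simpa using this
  · intro h
    rw [key _ (Real.abs_tanh_lt_one h), tanh_add']

/-! ### the local expansion -/

omit [CompleteSpace V] in
theorem Yf_zero_left (P : V) : Yf 0 P = (1 - ‖P‖ ^ 2)⁻¹ := by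
  simp [Yf]

omit [CompleteSpace V] in
theorem Yf_self {a : V} (ha : a ∈ ball (0 : V) 1) : Yf a a = 1 := by
  have h1 : ‖a‖ < 1 := by simpa using ha
  have h2 : 0 < 1 - ‖a‖ ^ 2 := by nlinarith [norm_nonneg a]
  unfold Yf
  have h3 : (1 - inner ℂ a a : ℂ) = ((1 - ‖a‖ ^ 2 : ℝ) : ℂ) := by
    rw [inner_self_eq_norm_sq_to_K]
    simp
  rw [h3, Complex.norm_real, Real.norm_of_nonneg h2.le, sq, div_self (mul_pos h2 h2).ne']

/-- `|1 - ⟪G, P⟫|² ≥ 1 - 2 Re ⟪P, G⟫`. -/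
theorem one_sub_inner_sq_ge (G P : V) :
    1 - 2 * (inner ℂ P G).re ≤ ‖(1 : ℂ) - inner ℂ G P‖ ^ 2 := by
  rw [← Complex.normSq_eq_norm_sq, Complex.normSq_apply]
  have h1 : (inner ℂ G P : ℂ).re = (inner ℂ P G).re := by
    rw [← inner_conj_symm, Complex.conj_re]
  simp only [Complex.sub_re, Complex.one_re, Complex.sub_im, Complex.one_im, h1]
  nlinarith [sq_nonneg (inner ℂ P G).re, sq_nonneg (inner ℂ G P : ℂ).im]

theorem local_exp {G : ℂ → V} (hG : DifferentiableOn ℂ G (ball 0 1))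
    (hm : MapsTo G (ball 0 1) (ball 0 1)) (h0 : G 0 = 0) {c : ℝ} (hc : c ≤ ‖deriv G 0‖ ^ 2)
    {P : V} (hP : P ∈ ball (0 : V) 1) {c1 : ℝ} (hc1 : c1 < c - 2 * Real.sqrt (1 - c))
    (hc1' : 0 ≤ c1) :
    ∀ᶠ h in 𝓝 (0 : ℝ), Yf 0 P + (-2 * (inner ℂ P (deriv G 0)).re * Yf 0 P) * h + c1 * h ^ 2 ≤
      Yf (G ((Real.tanh h : ℝ) : ℂ)) P := by
  have h0mem : (0 : ℂ) ∈ ball (0 : ℂ) 1 := by simp
  have hnhds : ball (0 : ℂ) 1 ∈ 𝓝 (0 : ℂ) := isOpen_ball.mem_nhds h0mem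
  set a1 := deriv G 0 with ha1
  set b : ℝ := (inner ℂ P a1 : ℂ).re with hb
  set G1 : ℂ → V := dslope G 0 with hG1
  have hG1d : DifferentiableOn ℂ G1 (ball 0 1) := (Complex.differentiableOn_dslope hnhds).mpr hG
  have hG10 : G1 0 = a1 := dslope_same G 0
  have hG1b : ∀ z ∈ ball (0 : ℂ) 1, ‖G1 z‖ ≤ 1 := by
    intro z hz
    have h1 := Complex.norm_dslope_le_div_of_mapsTo_ball (R₁ := 1) (R₂ := 1) hG (by
      intro w hw
      rw [h0]
      exact ball_subset_closedBall (hm hw)) hz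
    simpa using h1
  have h1 := norm_sq_add_norm_deriv_sq_le hG1d hG1b
  rw [hG10] at h1
  set G2 : ℂ → V := dslope G1 0 with hG2
  have hG2d : DifferentiableOn ℂ G2 (ball 0 1) := (Complex.differentiableOn_dslope hnhds).mpr hG1d
  have hG20 : G2 0 = deriv G1 0 := dslope_same G1 0
  have hG20n : ‖G2 0‖ ≤ Real.sqrt (1 - c) := by
    apply Real.le_sqrt_of_sq_le
    rw [hG20]
    linarith
  -- expansions
  have e1 : ∀ z : ℂ, G z = z • G1 z := by
    intro z
    have := sub_smul_dslope G 0 z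
    rw [h0, sub_zero, sub_zero] at this
    exact this.symm
  have e2 : ∀ z : ℂ, G1 z = a1 + z • G2 z := by
    intro z
    have := sub_smul_dslope G1 0 z
    rw [sub_zero, hG10] at this
    rw [← hG2] at this
    rw [this]; abel
  let K : ℂ → ℝ := fun x => ‖G1 x‖ ^ 2 * ‖(1 : ℂ) - inner ℂ (G x) P‖ ^ 2 - 2 * ‖G2 x‖
  have hKc : ContinuousAt K 0 := by
    have c0 : ContinuousAt G 0 := (hG.differentiableAt hnhds).continuousAt
    have c1 : ContinuousAt G1 0 := (hG1d.differentiableAt hnhds).continuousAt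
    have c2 : ContinuousAt G2 0 := (hG2d.differentiableAt hnhds).continuousAt
    have c3 : ContinuousAt (fun x => (inner ℂ (G x) P : ℂ)) 0 := c0.inner continuousAt_const
    exact ((c1.norm.pow 2).mul ((continuousAt_const.sub c3).norm.pow 2)).sub
      (continuousAt_const.mul c2.norm)
  have hK0 : c1 < K 0 := by
    simp only [K, hG10, h0, inner_zero_left, sub_zero, norm_one, one_pow, mul_one]
    linarith
  have hPn : ‖P‖ < 1 := by simpa using hP
  have hY : 0 < 1 - ‖P‖ ^ 2 := by nlinarith [norm_nonneg P]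
  -- main inequality for real `x`
  have main : ∀ x : ℝ, |x| < 1 → 1 - 2 * x * b + x ^ 2 * K (x : ℂ) ≤
      (1 - ‖P‖ ^ 2) * Yf (G (x : ℂ)) P := by
    intro x hx
    have hxm : (x : ℂ) ∈ ball (0 : ℂ) 1 := by
      rw [mem_ball_zero_iff, Complex.norm_real]; exact hx
    have hGn : ‖G (x : ℂ)‖ < 1 := by simpa using hm hxm
    have hGp : 0 < 1 - ‖G (x : ℂ)‖ ^ 2 := by nlinarith [norm_nonneg (G (x : ℂ))]
    set N : ℝ := ‖(1 : ℂ) - inner ℂ (G (x : ℂ)) P‖ ^ 2 with hN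
    have hN0 : 0 ≤ N := by positivity
    have f1 : (1 - ‖P‖ ^ 2) * Yf (G (x : ℂ)) P = N / (1 - ‖G (x : ℂ)‖ ^ 2) := by
      unfold Yf
      rw [← hN]
      field_simp
    have f2 : N * (1 + ‖G (x : ℂ)‖ ^ 2) ≤ N / (1 - ‖G (x : ℂ)‖ ^ 2) := by
      rw [le_div_iff₀ hGp]
      have : (1 + ‖G (x : ℂ)‖ ^ 2) * (1 - ‖G (x : ℂ)‖ ^ 2) ≤ 1 := by
        nlinarith [sq_nonneg (‖G (x : ℂ)‖ ^ 2)]
      calc N * (1 + ‖G (x : ℂ)‖ ^ 2) * (1 - ‖G (x : ℂ)‖ ^ 2)
          = N * ((1 + ‖G (x : ℂ)‖ ^ 2) * (1 - ‖G (x : ℂ)‖ ^ 2)) := by ring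
        _ ≤ N * 1 := by gcongr
        _ = N := mul_one N
    have f3 : 1 - 2 * (inner ℂ P (G (x : ℂ))).re ≤ N := one_sub_inner_sq_ge _ _
    have f4 : (inner ℂ P (G (x : ℂ))).re ≤ x * b + x ^ 2 * ‖G2 (x : ℂ)‖ := by
      have g1 : (inner ℂ P (G (x : ℂ)) : ℂ) = (x : ℂ) * inner ℂ P a1 +
          (x : ℂ) ^ 2 * inner ℂ P (G2 (x : ℂ)) := by
        rw [e1, e2, smul_add, smul_smul, inner_add_right, inner_smul_right, inner_smul_right]
        ring
      rw [g1]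
      have g2 : ((x : ℂ) * inner ℂ P a1 + (x : ℂ) ^ 2 * inner ℂ P (G2 (x : ℂ))).re =
          x * b + x ^ 2 * (inner ℂ P (G2 (x : ℂ)) : ℂ).re := by
        have : ((x : ℂ) ^ 2) = ((x ^ 2 : ℝ) : ℂ) := by push_cast; ring
        rw [Complex.add_re, this, Complex.re_ofReal_mul, Complex.re_ofReal_mul]
      rw [g2]
      have g3 : (inner ℂ P (G2 (x : ℂ)) : ℂ).re ≤ ‖G2 (x : ℂ)‖ := by
        calc (inner ℂ P (G2 (x : ℂ)) : ℂ).re ≤ ‖(inner ℂ P (G2 (x : ℂ)) : ℂ)‖ :=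
              Complex.re_le_norm _
          _ ≤ ‖P‖ * ‖G2 (x : ℂ)‖ := norm_inner_le_norm _ _
          _ ≤ 1 * ‖G2 (x : ℂ)‖ := by gcongr
          _ = _ := one_mul _
      nlinarith [sq_nonneg x]
    have f5 : ‖G (x : ℂ)‖ ^ 2 = x ^ 2 * ‖G1 (x : ℂ)‖ ^ 2 := by
      rw [e1, norm_smul, mul_pow, Complex.norm_real, Real.norm_eq_abs, sq_abs]
    rw [f1]
    refine le_trans ?_ f2
    simp only [K, ← hN]
    rw [f5]
    nlinarith
  -- pass to `h`
  have hlim : Tendsto (fun h : ℝ => -2 * b * ((Real.tanh h - h) / h ^ 2) +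
      (Real.tanh h / h) ^ 2 * K ((Real.tanh h : ℝ) : ℂ)) (𝓝[≠] 0)
      (𝓝 (-2 * b * 0 + 1 ^ 2 * K 0)) := by
    apply Tendsto.add
    · exact tendsto_tanh_sub_div.const_mul _
    · apply (tendsto_tanh_div.pow 2).mul
      have h2 : Tendsto (fun h : ℝ => ((Real.tanh h : ℝ) : ℂ)) (𝓝[≠] 0) (𝓝 0) := by
        have h3 : Continuous (fun h : ℝ => ((Real.tanh h : ℝ) : ℂ)) :=
          Complex.continuous_ofReal.comp continuous_tanh'
        have h4 := h3.tendsto 0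
        simp only [Real.tanh_zero, Complex.ofReal_zero] at h4
        exact h4.mono_left nhdsWithin_le_nhds
      exact hKc.tendsto.comp h2
  have hlt : c1 < -2 * b * 0 + 1 ^ 2 * K 0 := by
    rw [mul_zero, zero_add, one_pow, one_mul]; exact hK0
  have hev := hlim.eventually (lt_mem_nhds hlt)
  rw [eventually_nhdsWithin_iff] at hev
  filter_upwards [hev] with h hh
  rw [Yf_zero_left]
  by_cases hh0 : h = 0
  · subst hh0
    simp [h0, Yf_zero_left]
  have hh1 := hh hh0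
  have hm1 := main (Real.tanh h) (Real.abs_tanh_lt_one h)
  have hsq : 0 < h ^ 2 := by positivity
  have hh2 : c1 * h ^ 2 ≤ -2 * b * (Real.tanh h - h) +
      Real.tanh h ^ 2 * K ((Real.tanh h : ℝ) : ℂ) := by
    have := mul_le_mul_of_nonneg_right hh1.le hsq.le
    calc c1 * h ^ 2 ≤ _ := this
      _ = _ := by field_simp
  have hh3 : 1 - 2 * b * h + c1 * h ^ 2 ≤
      (1 - ‖P‖ ^ 2) * Yf (G ((Real.tanh h : ℝ) : ℂ)) P := by linarith
  have hinv : (1 - ‖P‖ ^ 2)⁻¹ * (1 - ‖P‖ ^ 2) = 1 := inv_mul_cancel₀ hY.ne'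
  have hinv1 : 1 ≤ (1 - ‖P‖ ^ 2)⁻¹ := by
    rw [one_le_inv₀ hY]; nlinarith [norm_nonneg P]
  have hh4 := mul_le_mul_of_nonneg_left hh3 (inv_pos.mpr hY).le
  rw [← mul_assoc, hinv, one_mul] at hh4
  refine le_trans ?_ hh4
  have : c1 * h ^ 2 ≤ (1 - ‖P‖ ^ 2)⁻¹ * (c1 * h ^ 2) := by
    have : 0 ≤ c1 * h ^ 2 := by positivity
    nlinarith
  nlinarith

/-! ### The criterion -/

/-- growth along the geodesic from `act ψ 0` through `act ψ (tanh s)` -/
theorem growth {f : ℂ → V} (hf : DifferentiableOn ℂ f (ball 0 1))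
    (hm : MapsTo f (ball 0 1) (ball 0 1)) {c c1 c2 : ℝ}
    (hc1 : c1 < c - 2 * Real.sqrt (1 - c)) (hc1' : 0 ≤ c1) (hc2 : c2 < c1)
    (h : ∀ ψ ∈ UG ℂ, ∀ L ∈ UG V, act L (f (act ψ 0)) = 0 →
      c ≤ ‖deriv (fun z : ℂ => act L (f (act ψ z))) 0‖ ^ 2)
    {ψ : (ℂ × ℂ) ≃L[ℂ] (ℂ × ℂ)} (hψ : ψ ∈ UG ℂ) {s : ℝ} (hs : 0 ≤ s) :
    1 + c2 * s ^ 2 ≤ Yf (f (act ψ ((Real.tanh s : ℝ) : ℂ))) (f (act ψ 0)) := by
  have h0mem : (0 : ℂ) ∈ ball (0 : ℂ) 1 := by simp
  set u : ℝ → ℝ := fun s => Yf (f (act ψ ((Real.tanh s : ℝ) : ℂ))) (f (act ψ 0)) with hu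
  have hfψ : ∀ z ∈ ball (0 : ℂ) 1, f (act ψ z) ∈ ball (0 : V) 1 := fun z hz =>
    hm (act_mem hψ hz)
  have hu0 : u 0 = 1 := by
    simp only [hu, Real.tanh_zero, Complex.ofReal_zero]
    exact Yf_self (hfψ 0 h0mem)
  -- local expansion at any `s`
  have hloc : ∀ s : ℝ, ∃ β : ℝ, (s = 0 → β = 0) ∧
      ∀ᶠ h in 𝓝 (0 : ℝ), u s + β * h + c1 * h ^ 2 ≤ u (s + h) := by
    intro s
    obtain ⟨χ, hχ, hχ0, hχh⟩ := exists_trans s
    have hmemw : act ψ ((Real.tanh s : ℝ) : ℂ) ∈ ball (0 : ℂ) 1 := act_mem hψ (tanh_mem_ball s)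
    obtain ⟨L, hL, hL0⟩ := exists_act_eq_zero (hm hmemw)
    set G : ℂ → V := fun z => act L (f (act (ψ * χ) z)) with hGdef
    have hψχ : ψ * χ ∈ UG ℂ := (UG ℂ).mul_mem hψ hχ
    have hact : ∀ z ∈ ball (0 : ℂ) 1, act (ψ * χ) z = act ψ (act χ z) := fun z hz =>
      act_mul hψ hχ hz
    have hG0 : G 0 = 0 := by
      simp only [hGdef]
      rw [hact 0 h0mem, hχ0, hL0]
    have hGm : MapsTo G (ball 0 1) (ball 0 1) := fun z hz =>
      act_mem hL (hm (act_mem hψχ hz))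
    have hGd : DifferentiableOn ℂ G (ball 0 1) :=
      (act_differentiableOn hL).comp (hf.comp (act_differentiableOn hψχ)
        (fun z hz => act_mem hψχ hz)) (fun z hz => hm (act_mem hψχ hz))
    have hGc : c ≤ ‖deriv G 0‖ ^ 2 := h (ψ * χ) hψχ L hL hG0
    set P : V := act L (f (act ψ 0)) with hP
    have hPm : P ∈ ball (0 : V) 1 := act_mem hL (hfψ 0 h0mem)
    have hexp := local_exp hGd hGm hG0 hGc hPm hc1 hc1'
    have hus : u s = Yf 0 P := by
      simp only [hu]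
      rw [← hL0, hP, Yf_act hL (hm hmemw) (hfψ 0 h0mem)]
    have hush : ∀ h : ℝ, u (s + h) = Yf (G ((Real.tanh h : ℝ) : ℂ)) P := by
      intro h
      simp only [hu, hGdef]
      rw [hact _ (tanh_mem_ball h), hχh h, hP,
        Yf_act hL (hm (act_mem hψ (tanh_mem_ball (s + h)))) (hfψ 0 h0mem)]
    refine ⟨-2 * (inner ℂ P (deriv G 0)).re * Yf 0 P, ?_, ?_⟩
    · intro hs0
      have : P = 0 := by
        rw [hP]
        have h2 := hL0
        rw [hs0, Real.tanh_zero, Complex.ofReal_zero] at h2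
        exact h2
      rw [this]
      simp
    · filter_upwards [hexp] with h hh
      rw [hush, hus]
      exact hh
  -- continuity of `u`
  have hucont : Continuous u := by
    rw [continuous_iff_continuousAt]
    intro s
    have hmemw : act ψ ((Real.tanh s : ℝ) : ℂ) ∈ ball (0 : ℂ) 1 := act_mem hψ (tanh_mem_ball s)
    have k1 : ContinuousAt (fun s : ℝ => ((Real.tanh s : ℝ) : ℂ)) s :=
      (Complex.continuous_ofReal.comp continuous_tanh').continuousAt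
    have k2 : ContinuousAt (act ψ) ((Real.tanh s : ℝ) : ℂ) :=
      (act_differentiableAt hψ (tanh_mem_ball s)).continuousAt
    have k3 : ContinuousAt f (act ψ ((Real.tanh s : ℝ) : ℂ)) :=
      (hf.differentiableAt (isOpen_ball.mem_nhds hmemw)).continuousAt
    have k4 : ContinuousAt (fun s : ℝ => f (act ψ ((Real.tanh s : ℝ) : ℂ))) s :=
      ContinuousAt.comp (f := fun s : ℝ => act ψ ((Real.tanh s : ℝ) : ℂ)) k3
        (ContinuousAt.comp (f := fun s : ℝ => ((Real.tanh s : ℝ) : ℂ)) k2 k1)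
    simp only [hu]
    unfold Yf
    have hne : ∀ v ∈ ball (0 : V) 1, 1 - ‖v‖ ^ 2 ≠ 0 := by
      intro v hv
      have : ‖v‖ < 1 := by simpa using hv
      nlinarith [norm_nonneg v]
    apply ContinuousAt.div
    · exact (continuousAt_const.sub (k4.inner continuousAt_const)).norm.pow 2
    · exact (continuousAt_const.sub (k4.norm.pow 2)).mul continuousAt_const
    · exact mul_ne_zero (hne _ (hm hmemw)) (hne _ (hfψ 0 h0mem))
  have hq := quad_growth (u := u) hc2 hucont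
    (by
      obtain ⟨β, hβ0, hβ⟩ := hloc 0
      rw [hβ0 rfl] at hβ
      filter_upwards [hβ] with h hh
      simpa using hh)
    (by
      intro s _
      obtain ⟨β, _, hβ⟩ := hloc s
      exact ⟨β, hβ⟩) s hs
  rw [hu0] at hq
  exact hq

/-- **Criterion.** -/
theorem criterion {f : ℂ → V} (hf : DifferentiableOn ℂ f (ball 0 1))
    (hm : MapsTo f (ball 0 1) (ball 0 1)) {c : ℝ} (hc : 2 * Real.sqrt 2 - 2 < c)
    (h : ∀ ψ ∈ UG ℂ, ∀ L ∈ UG V, act L (f (act ψ 0)) = 0 →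
      c ≤ ‖deriv (fun z : ℂ => act L (f (act ψ z))) 0‖ ^ 2) :
    InjOn f (ball 0 1) ∧ (∀ z ∈ ball (0 : ℂ) 1, deriv f z ≠ 0) ∧
    (∀ R < 1, ∃ r < 1, ∀ z ∈ ball (0 : ℂ) 1, ‖f z‖ ≤ R → ‖z‖ ≤ r) := by
  have h0mem : (0 : ℂ) ∈ ball (0 : ℂ) 1 := by simp
  have hs2 : (Real.sqrt 2) ^ 2 = 2 := Real.sq_sqrt (by norm_num)
  have hs2' : 1 < Real.sqrt 2 := by
    rw [Real.lt_sqrt (by norm_num)]; norm_num
  have hcpos : 0 < c := by linarith
  -- `c ≤ 1`
  have hcle : c ≤ 1 := by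
    obtain ⟨L, hL, hL0⟩ := exists_act_eq_zero (hm h0mem)
    have h1 := h 1 (UG ℂ).one_mem L hL (by rw [act_one]; exact hL0)
    have hfun : (fun z : ℂ => act L (f (act (1 : (ℂ × ℂ) ≃L[ℂ] (ℂ × ℂ)) z))) =
        fun z => act L (f z) := by
      funext z; rw [act_one]
    rw [hfun] at h1
    have hd : DifferentiableOn ℂ (fun z => act L (f z)) (ball 0 1) :=
      (act_differentiableOn hL).comp hf hm
    have h2 := Complex.norm_deriv_le_one_of_mapsTo_ball hd (by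
      intro z hz
      rw [hL0]
      exact ball_subset_closedBall (act_mem hL (hm hz))) one_pos
    nlinarith [norm_nonneg (deriv (fun z => act L (f z)) 0)]
  have hgap : 0 < c - 2 * Real.sqrt (1 - c) := by
    have h1 : Real.sqrt (1 - c) < c / 2 := by
      rw [Real.sqrt_lt' (by linarith)]
      nlinarith
    linarith
  set κ : ℝ := (c - 2 * Real.sqrt (1 - c)) / 4 with hκ
  have hκpos : 0 < κ := by linarith
  have hgrow : ∀ ψ ∈ UG ℂ, ∀ s : ℝ, 0 ≤ s →
      1 + κ * s ^ 2 ≤ Yf (f (act ψ ((Real.tanh s : ℝ) : ℂ))) (f (act ψ 0)) := by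
    intro ψ hψ s hs
    exact growth hf hm (c1 := 2 * κ) (c2 := κ) (by linarith) (by linarith) (by linarith) h hψ hs
  -- growth between two arbitrary points
  have hgrow2 : ∀ w ∈ ball (0 : ℂ) 1, ∀ z ∈ ball (0 : ℂ) 1, ∃ ψ ∈ UG ℂ, act ψ 0 = w ∧
      ∃ z' ∈ ball (0 : ℂ) 1, act ψ z' = z ∧
      1 + κ * (Real.artanh ‖z'‖) ^ 2 ≤ Yf (f z) (f w) := by
    intro w hw z hz
    obtain ⟨ψ, hψ, hψ0⟩ := exists_act_zero_eq hw
    have hz' : act ψ⁻¹ z ∈ ball (0 : ℂ) 1 := act_mem ((UG ℂ).inv_mem hψ) hz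
    have hzz : act ψ (act ψ⁻¹ z) = z := act_act_inv hψ hz
    refine ⟨ψ, hψ, hψ0, act ψ⁻¹ z, hz', hzz, ?_⟩
    set z' := act ψ⁻¹ z with hz'def
    by_cases hz0 : z' = 0
    · rw [hz0] at hzz
      rw [hz0, ← hzz, hψ0]
      simp only [norm_zero, Real.artanh_zero]
      rw [Yf_self (hm hw)]
      simp
    · have hn : ‖z'‖ ≠ 0 := norm_ne_zero_iff.mpr hz0
      have hnpos : 0 < ‖z'‖ := norm_pos_iff.mpr hz0
      have hn1 : ‖z'‖ < 1 := by simpa using hz'
      have hω : ‖((‖z'‖ : ℝ) : ℂ)⁻¹ * z'‖ = 1 := by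
        rw [norm_mul, norm_inv, Complex.norm_real, norm_norm, inv_mul_cancel₀ hn]
      have hrot := rot_mem (V := ℂ) (((‖z'‖ : ℝ) : ℂ)⁻¹ * z') hω
      have hmul := (UG ℂ).mul_mem hψ hrot
      have h1 := hgrow _ hmul (Real.artanh ‖z'‖) (Real.artanh_nonneg (norm_nonneg _))
      have htanh : Real.tanh (Real.artanh ‖z'‖) = ‖z'‖ :=
        Real.tanh_artanh ⟨by linarith, hn1⟩
      rw [htanh] at h1
      have hmemn : ((‖z'‖ : ℝ) : ℂ) ∈ ball (0 : ℂ) 1 := by
        rw [mem_ball_zero_iff, Complex.norm_real, norm_norm]; exact hn1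
      rw [act_mul hψ hrot hmemn, act_mul hψ hrot h0mem, act_rot, act_rot, smul_zero, hψ0] at h1
      have h2 : (((‖z'‖ : ℝ) : ℂ)⁻¹ * z') • ((‖z'‖ : ℝ) : ℂ) = z' := by
        have : ((‖z'‖ : ℝ) : ℂ) ≠ 0 := by exact_mod_cast hn
        rw [smul_eq_mul]
        field_simp
      rw [h2, hzz] at h1
      exact h1
  refine ⟨?_, ?_, ?_⟩
  · -- injectivity
    intro z hz w hw hzw
    obtain ⟨ψ, hψ, hψ0, z', hz', hzz', hY⟩ := hgrow2 w hw z hz
    rw [hzw, Yf_self (hm hw)] at hY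
    have h1 : κ * (Real.artanh ‖z'‖) ^ 2 ≤ 0 := by linarith
    have h2 : (Real.artanh ‖z'‖) ^ 2 ≤ 0 := by
      by_contra hcon
      push Not at hcon
      have := mul_pos hκpos hcon
      linarith
    have h3 : Real.artanh ‖z'‖ = 0 := by
      have := sq_nonneg (Real.artanh ‖z'‖)
      exact pow_eq_zero_iff two_ne_zero |>.mp (le_antisymm h2 this)
    have hn1 : ‖z'‖ < 1 := by simpa using hz'
    have h4 : z' = 0 := by
      by_contra hne
      have hnpos : 0 < ‖z'‖ := norm_pos_iff.mpr hne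
      have := Real.artanh_pos ⟨hnpos, hn1⟩
      linarith
    rw [← hzz', h4, hψ0]
  · -- immersion
    intro z hz hder
    obtain ⟨ψ, hψ, hψ0⟩ := exists_act_zero_eq hz
    obtain ⟨L, hL, hL0⟩ := exists_act_eq_zero (hm hz)
    have h1 := h ψ hψ L hL (by rw [hψ0]; exact hL0)
    have d1 : HasDerivAt f 0 z := by
      rw [← hder]
      exact (hf.differentiableAt (isOpen_ball.mem_nhds hz)).hasDerivAt
    have d2 : HasDerivAt (act ψ) (deriv (act ψ) 0) (0 : ℂ) :=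
      (act_differentiableAt hψ h0mem).hasDerivAt
    have d3 : HasDerivAt (fun z => f (act ψ z)) (deriv (act ψ) 0 • (0 : V)) 0 := by
      have d1' : HasDerivAt f 0 (act ψ 0) := by rw [hψ0]; exact d1
      exact HasDerivAt.scomp (0 : ℂ) d1' d2
    rw [smul_zero] at d3
    have d4 : DifferentiableAt ℂ (act L) (f (act ψ 0)) := by
      rw [hψ0]; exact act_differentiableAt hL (hm hz)
    have d5 := d4.hasFDerivAt.comp_hasDerivAt (0 : ℂ) d3
    rw [map_zero] at d5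
    have d6 : deriv (fun z : ℂ => act L (f (act ψ z))) 0 = 0 := d5.deriv
    rw [d6] at h1
    simp at h1
    linarith
  · -- properness
    intro R hR
    set K : ℝ := 4 / ((1 - R ^ 2) * (1 - ‖f 0‖ ^ 2)) with hK
    refine ⟨Real.tanh (Real.sqrt (K / κ)), Real.tanh_lt_one _, ?_⟩
    intro z hz hzR
    have hR0 : 0 ≤ R := (norm_nonneg _).trans hzR
    have hn0 : ‖f 0‖ < 1 := by simpa using hm h0mem
    have hnz : ‖f z‖ < 1 := by simpa using hm hz
    have hp1 : 0 < 1 - R ^ 2 := by nlinarith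
    have hp2 : 0 < 1 - ‖f 0‖ ^ 2 := by nlinarith [norm_nonneg (f 0)]
    have hp3 : 1 - R ^ 2 ≤ 1 - ‖f z‖ ^ 2 := by nlinarith [norm_nonneg (f z)]
    obtain ⟨ψ, hψ, hψ0, z', hz', hzz', hY⟩ := hgrow2 0 h0mem z hz
    -- `‖z'‖ = ‖z‖`
    have hYz : Yf z 0 = Yf z' 0 := by
      have := Yf_act hψ hz' h0mem
      rw [hzz', hψ0] at this
      exact this
    have hn1 : ‖z'‖ < 1 := by simpa using hz'
    have hn2 : ‖z‖ < 1 := by simpa using hz
    have hnn : ‖z'‖ ^ 2 = ‖z‖ ^ 2 := by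
      unfold Yf at hYz
      simp only [inner_zero_right, sub_zero, norm_one, one_pow, norm_zero, ne_eq, OfNat.ofNat_ne_zero,
        not_false_eq_true, zero_pow, mul_one] at hYz
      have q1 : 0 < 1 - ‖z'‖ ^ 2 := by nlinarith [norm_nonneg z']
      have q2 : 0 < 1 - ‖z‖ ^ 2 := by nlinarith [norm_nonneg z]
      rw [div_eq_div_iff q2.ne' q1.ne'] at hYz
      linarith
    have hnn' : ‖z'‖ = ‖z‖ := (pow_left_inj₀ (norm_nonneg _) (norm_nonneg _) two_ne_zero).mp hnn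
    rw [hnn'] at hY
    have hYle : Yf (f z) (f 0) ≤ K := by
      unfold Yf
      rw [hK]
      apply div_le_div₀ (by norm_num) _ (mul_pos hp1 hp2) _
      · have h1 : ‖(1 : ℂ) - inner ℂ (f z) (f 0)‖ ≤ 2 := by
          calc ‖(1 : ℂ) - inner ℂ (f z) (f 0)‖ ≤ ‖(1 : ℂ)‖ + ‖(inner ℂ (f z) (f 0) : ℂ)‖ :=
                norm_sub_le _ _
            _ ≤ 1 + ‖f z‖ * ‖f 0‖ := by
                gcongr
                · simp
                · exact norm_inner_le_norm _ _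
            _ ≤ 1 + 1 * 1 := by gcongr
            _ = 2 := by norm_num
        nlinarith [norm_nonneg ((1 : ℂ) - inner ℂ (f z) (f 0))]
      · gcongr
    have h2 : (Real.artanh ‖z‖) ^ 2 ≤ K / κ := by
      rw [le_div_iff₀ hκpos]
      nlinarith
    have h3 : Real.artanh ‖z‖ ≤ Real.sqrt (K / κ) := Real.le_sqrt_of_sq_le h2
    have h4 : Real.tanh (Real.artanh ‖z‖) = ‖z‖ :=
      Real.tanh_artanh ⟨by linarith [norm_nonneg z], hn2⟩
    rw [← h4]
    by_contra hcon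
    push Not at hcon
    have h5 : Real.artanh (Real.tanh (Real.sqrt (K / κ))) <
        Real.artanh (Real.tanh (Real.artanh ‖z‖)) :=
      Real.artanh_lt_artanh (Real.neg_one_lt_tanh _) (Real.tanh_lt_one _) hcon
    rw [Real.artanh_tanh, Real.artanh_tanh] at h5
    linarith

end Pool.Agent.BallCurve
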