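import Mathlib

/-!
T4.  Numerical inequalities for sines.
-/

set_option autoImplicit false

namespace Pool.Agent.BallCurve

open Real

/-- Taylor polynomial of degree 13 of the sine. -/
noncomputable def sinPoly (x : ℝ) : ℝ :=
  x - x ^ 3 / 6 + x ^ 5 / 120 - x ^ 7 / 5040 + x ^ 9 / 362880 - x ^ 11 / 39916800
    + x ^ 13 / 6227020800

lemma sin_sub_sinPoly (x : ℝ) (h0 : 0 ≤ x) (h1 : x ≤ 8 / 5) :
    |sin x - sinPoly x| ≤ 1 / 1000000 := by
  have hb := Complex.exp_bound' (x := (x : ℂ) * Complex.I) (n := 14) (by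
    rw [norm_mul, Complex.norm_real, Complex.norm_I, mul_one, Real.norm_of_nonneg h0]
    norm_num
    linarith)
  rw [norm_mul, Complex.norm_real, Complex.norm_I, mul_one, Real.norm_of_nonneg h0] at hb
  have him := (Complex.abs_im_le_norm _).trans hb
  have hI2 : Complex.I ^ 2 = -1 := Complex.I_sq
  have e1 : (Complex.exp ((x : ℂ) * Complex.I) -
      ∑ m ∈ Finset.range 14, ((x : ℂ) * Complex.I) ^ m / (m.factorial : ℂ)).im
      = sin x - sinPoly x := by
    have hs : (∑ m ∈ Finset.range 14, ((x : ℂ) * Complex.I) ^ m / (m.factorial : ℂ))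
        = ((1 - x ^ 2 / 2 + x ^ 4 / 24 - x ^ 6 / 720 + x ^ 8 / 40320 - x ^ 10 / 3628800
            + x ^ 12 / 479001600 : ℝ) : ℂ) + ((sinPoly x : ℝ) : ℂ) * Complex.I := by
      have i2 : Complex.I ^ 2 = -1 := Complex.I_sq
      have i3 : Complex.I ^ 3 = -Complex.I := by
        rw [pow_succ, i2]; ring
      have i4 : Complex.I ^ 4 = 1 := by
        rw [pow_succ, i3, neg_mul, Complex.I_mul_I]; ring
      have i5 : Complex.I ^ 5 = Complex.I := by rw [pow_succ, i4]; ring
      have i6 : Complex.I ^ 6 = -1 := by rw [pow_succ, i5, Complex.I_mul_I]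
      have i7 : Complex.I ^ 7 = -Complex.I := by rw [pow_succ, i6]; ring
      have i8 : Complex.I ^ 8 = 1 := by rw [pow_succ, i7, neg_mul, Complex.I_mul_I]; ring
      have i9 : Complex.I ^ 9 = Complex.I := by rw [pow_succ, i8]; ring
      have i10 : Complex.I ^ 10 = -1 := by rw [pow_succ, i9, Complex.I_mul_I]
      have i11 : Complex.I ^ 11 = -Complex.I := by rw [pow_succ, i10]; ring
      have i12 : Complex.I ^ 12 = 1 := by rw [pow_succ, i11, neg_mul, Complex.I_mul_I]; ring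
      have i13 : Complex.I ^ 13 = Complex.I := by rw [pow_succ, i12]; ring
      simp only [Finset.sum_range_succ, Finset.sum_range_zero, mul_pow, i2, i3, i4, i5, i6, i7,
        i8, i9, i10, i11, i12, i13, sinPoly]
      simp only [Nat.factorial]
      push_cast
      ring
    rw [hs, Complex.sub_im, Complex.add_im, Complex.ofReal_im, Complex.mul_im, Complex.ofReal_im,
      Complex.ofReal_re, Complex.I_re, Complex.I_im, Complex.exp_ofReal_mul_I_im]
    ring
  rw [e1] at him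
  refine him.trans ?_
  have hx : x ^ 14 ≤ (8 / 5 : ℝ) ^ 14 := pow_le_pow_left₀ h0 h1 14
  have hf : ((Nat.factorial 14 : ℕ) : ℝ) = 87178291200 := by norm_num [Nat.factorial]
  rw [hf]
  calc x ^ 14 / 87178291200 * 2 ≤ (8 / 5 : ℝ) ^ 14 / 87178291200 * 2 := by gcongr
    _ ≤ 1 / 1000000 := by norm_num

/-- Enclosure of a sine from a nearby rational point. -/
lemma sin_encl (x x0 : ℝ) (h0 : 0 ≤ x0) (h1 : x0 ≤ 8 / 5) (hx : |x - x0| ≤ 1 / 1000000) :
    sinPoly x0 - 2 / 1000000 ≤ sin x ∧ sin x ≤ sinPoly x0 + 2 / 1000000 := by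
  have h2 := sin_sub_sinPoly x0 h0 h1
  have h3 : |sin x - sin x0| ≤ |x - x0| := by
    have := Real.lipschitzWith_sin.dist_le_mul x x0
    simpa [Real.dist_eq] using this
  have h4 := h3.trans hx
  rw [abs_le] at h2 h4
  constructor <;> linarith [h2.1, h2.2, h4.1, h4.2]

lemma sin_53_420 : (0.38613 : ℝ) ≤ sin (53 * π / 420) ∧ sin (53 * π / 420) ≤ 0.38615 := by
  have h := sin_encl (53 * π / 420) 0.39643907 (by norm_num) (by norm_num) (by
    rw [abs_le]
    constructor <;> linarith [Real.pi_gt_d20, Real.pi_lt_d20])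
  have h1 : (0.38613 : ℝ) ≤ sinPoly 0.39643907 - 2 / 1000000 := by norm_num [sinPoly]
  have h2 : sinPoly 0.39643907 + 2 / 1000000 ≤ (0.38615 : ℝ) := by norm_num [sinPoly]
  exact ⟨h1.trans h.1, h.2.trans h2⟩

lemma sin_137_420 : (0.85458 : ℝ) ≤ sin (137 * π / 420) ∧ sin (137 * π / 420) ≤ 0.85460 := by
  have h := sin_encl (137 * π / 420) 1.02475760 (by norm_num) (by norm_num) (by
    rw [abs_le]
    constructor <;> linarith [Real.pi_gt_d20, Real.pi_lt_d20])
  have h1 : (0.85458 : ℝ) ≤ sinPoly 1.02475760 - 2 / 1000000 := by norm_num [sinPoly]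
  have h2 : sinPoly 1.02475760 + 2 / 1000000 ≤ (0.85460 : ℝ) := by norm_num [sinPoly]
  exact ⟨h1.trans h.1, h.2.trans h2⟩

lemma sin_73_420 : (0.51930 : ℝ) ≤ sin (73 * π / 420) ∧ sin (73 * π / 420) ≤ 0.51932 := by
  have h := sin_encl (73 * π / 420) 0.54603872 (by norm_num) (by norm_num) (by
    rw [abs_le]
    constructor <;> linarith [Real.pi_gt_d20, Real.pi_lt_d20])
  have h1 : (0.51930 : ℝ) ≤ sinPoly 0.54603872 - 2 / 1000000 := by norm_num [sinPoly]
  have h2 : sinPoly 0.54603872 + 2 / 1000000 ≤ (0.51932 : ℝ) := by norm_num [sinPoly]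
  exact ⟨h1.trans h.1, h.2.trans h2⟩

lemma sin_157_420 : (0.92243 : ℝ) ≤ sin (157 * π / 420) ∧ sin (157 * π / 420) ≤ 0.92245 := by
  have h := sin_encl (157 * π / 420) 1.17435725 (by norm_num) (by norm_num) (by
    rw [abs_le]
    constructor <;> linarith [Real.pi_gt_d20, Real.pi_lt_d20])
  have h1 : (0.92243 : ℝ) ≤ sinPoly 1.17435725 - 2 / 1000000 := by norm_num [sinPoly]
  have h2 : sinPoly 1.17435725 + 2 / 1000000 ≤ (0.92245 : ℝ) := by norm_num [sinPoly]
  exact ⟨h1.trans h.1, h.2.trans h2⟩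

lemma sin_300_630 : (0.99719 : ℝ) ≤ sin (300 * π / 630) ∧ sin (300 * π / 630) ≤ 0.99721 := by
  have h := sin_encl (300 * π / 630) 1.49599650 (by norm_num) (by norm_num) (by
    rw [abs_le]
    constructor <;> linarith [Real.pi_gt_d20, Real.pi_lt_d20])
  have h1 : (0.99719 : ℝ) ≤ sinPoly 1.49599650 - 2 / 1000000 := by norm_num [sinPoly]
  have h2 : sinPoly 1.49599650 + 2 / 1000000 ≤ (0.99721 : ℝ) := by norm_num [sinPoly]
  exact ⟨h1.trans h.1, h.2.trans h2⟩

lemma sin_109_630 : (0.51716 : ℝ) ≤ sin (109 * π / 630) ∧ sin (109 * π / 630) ≤ 0.51718 := by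
  have h := sin_encl (109 * π / 630) 0.54354540 (by norm_num) (by norm_num) (by
    rw [abs_le]
    constructor <;> linarith [Real.pi_gt_d20, Real.pi_lt_d20])
  have h1 : (0.51716 : ℝ) ≤ sinPoly 0.54354540 - 2 / 1000000 := by norm_num [sinPoly]
  have h2 : sinPoly 0.54354540 + 2 / 1000000 ≤ (0.51718 : ℝ) := by norm_num [sinPoly]
  exact ⟨h1.trans h.1, h.2.trans h2⟩

lemma sin_235_630 : (0.92147 : ℝ) ≤ sin (235 * π / 630) ∧ sin (235 * π / 630) ≤ 0.92149 := by
  have h := sin_encl (235 * π / 630) 1.17186393 (by norm_num) (by norm_num) (by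
    rw [abs_le]
    constructor <;> linarith [Real.pi_gt_d20, Real.pi_lt_d20])
  have h1 : (0.92147 : ℝ) ≤ sinPoly 1.17186393 - 2 / 1000000 := by norm_num [sinPoly]
  have h2 : sinPoly 1.17186393 + 2 / 1000000 ≤ (0.92149 : ℝ) := by norm_num [sinPoly]
  exact ⟨h1.trans h.1, h.2.trans h2⟩

lemma sin_269_630 : (0.97380 : ℝ) ≤ sin (269 * π / 630) ∧ sin (269 * π / 630) ≤ 0.97382 := by
  have h := sin_encl (269 * π / 630) 1.34141020 (by norm_num) (by norm_num) (by
    rw [abs_le]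
    constructor <;> linarith [Real.pi_gt_d20, Real.pi_lt_d20])
  have h1 : (0.97380 : ℝ) ≤ sinPoly 1.34141020 - 2 / 1000000 := by norm_num [sinPoly]
  have h2 : sinPoly 1.34141020 + 2 / 1000000 ≤ (0.97382 : ℝ) := by norm_num [sinPoly]
  exact ⟨h1.trans h.1, h.2.trans h2⟩

lemma sin_30_630 : (0.14903 : ℝ) ≤ sin (30 * π / 630) ∧ sin (30 * π / 630) ≤ 0.14905 := by
  have h := sin_encl (30 * π / 630) 0.14959965 (by norm_num) (by norm_num) (by
    rw [abs_le]
    constructor <;> linarith [Real.pi_gt_d20, Real.pi_lt_d20])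
  have h1 : (0.14903 : ℝ) ≤ sinPoly 0.14959965 - 2 / 1000000 := by norm_num [sinPoly]
  have h2 : sinPoly 0.14959965 + 2 / 1000000 ≤ (0.14905 : ℝ) := by norm_num [sinPoly]
  exact ⟨h1.trans h.1, h.2.trans h2⟩

lemma sin_251_630 : (0.94949 : ℝ) ≤ sin (251 * π / 630) ∧ sin (251 * π / 630) ≤ 0.94951 := by
  have h := sin_encl (251 * π / 630) 1.25165041 (by norm_num) (by norm_num) (by
    rw [abs_le]
    constructor <;> linarith [Real.pi_gt_d20, Real.pi_lt_d20])
  have h1 : (0.94949 : ℝ) ≤ sinPoly 1.25165041 - 2 / 1000000 := by norm_num [sinPoly]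
  have h2 : sinPoly 1.25165041 + 2 / 1000000 ≤ (0.94951 : ℝ) := by norm_num [sinPoly]
  exact ⟨h1.trans h.1, h.2.trans h2⟩

lemma sin_125_630 : (0.58373 : ℝ) ≤ sin (125 * π / 630) ∧ sin (125 * π / 630) ≤ 0.58375 := by
  have h := sin_encl (125 * π / 630) 0.62333188 (by norm_num) (by norm_num) (by
    rw [abs_le]
    constructor <;> linarith [Real.pi_gt_d20, Real.pi_lt_d20])
  have h1 : (0.58373 : ℝ) ≤ sinPoly 0.62333188 - 2 / 1000000 := by norm_num [sinPoly]
  have h2 : sinPoly 0.62333188 + 2 / 1000000 ≤ (0.58375 : ℝ) := by norm_num [sinPoly]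
  exact ⟨h1.trans h.1, h.2.trans h2⟩

lemma sin_1_630 : (0.00498 : ℝ) ≤ sin (π / 630) ∧ sin (π / 630) ≤ 0.005 := by
  have h := sin_encl (π / 630) 0.00498666 (by norm_num) (by norm_num) (by
    rw [abs_le]
    constructor <;> linarith [Real.pi_gt_d20, Real.pi_lt_d20])
  have h1 : (0.00498 : ℝ) ≤ sinPoly 0.00498666 - 2 / 1000000 := by norm_num [sinPoly]
  have h2 : sinPoly 0.00498666 + 2 / 1000000 ≤ (0.005 : ℝ) := by norm_num [sinPoly]
  exact ⟨h1.trans h.1, h.2.trans h2⟩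

lemma sin_270_630 : (0.97492 : ℝ) ≤ sin (270 * π / 630) ∧ sin (270 * π / 630) ≤ 0.97494 := by
  have h := sin_encl (270 * π / 630) 1.34639685 (by norm_num) (by norm_num) (by
    rw [abs_le]
    constructor <;> linarith [Real.pi_gt_d20, Real.pi_lt_d20])
  have h1 : (0.97492 : ℝ) ≤ sinPoly 1.34639685 - 2 / 1000000 := by norm_num [sinPoly]
  have h2 : sinPoly 1.34639685 + 2 / 1000000 ≤ (0.97494 : ℝ) := by norm_num [sinPoly]
  exact ⟨h1.trans h.1, h.2.trans h2⟩

lemma sin_79_630 : (0.38383 : ℝ) ≤ sin (79 * π / 630) ∧ sin (79 * π / 630) ≤ 0.38384 := by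
  have h := sin_encl (79 * π / 630) 0.39394575 (by norm_num) (by norm_num) (by
    rw [abs_le]
    constructor <;> linarith [Real.pi_gt_d20, Real.pi_lt_d20])
  have h1 : (0.38383 : ℝ) ≤ sinPoly 0.39394575 - 2 / 1000000 := by norm_num [sinPoly]
  have h2 : sinPoly 0.39394575 + 2 / 1000000 ≤ (0.38384 : ℝ) := by norm_num [sinPoly]
  exact ⟨h1.trans h.1, h.2.trans h2⟩

lemma sin_205_630 : (0.85328 : ℝ) ≤ sin (205 * π / 630) ∧ sin (205 * π / 630) ≤ 0.85330 := by
  have h := sin_encl (205 * π / 630) 1.02226428 (by norm_num) (by norm_num) (by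
    rw [abs_le]
    constructor <;> linarith [Real.pi_gt_d20, Real.pi_lt_d20])
  have h1 : (0.85328 : ℝ) ≤ sinPoly 1.02226428 - 2 / 1000000 := by norm_num [sinPoly]
  have h2 : sinPoly 1.02226428 + 2 / 1000000 ≤ (0.85330 : ℝ) := by norm_num [sinPoly]
  exact ⟨h1.trans h.1, h.2.trans h2⟩

lemma sin_299_630 : (0.99681 : ℝ) ≤ sin (299 * π / 630) ∧ sin (299 * π / 630) ≤ 0.99683 := by
  have h := sin_encl (299 * π / 630) 1.49100985 (by norm_num) (by norm_num) (by
    rw [abs_le]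
    constructor <;> linarith [Real.pi_gt_d20, Real.pi_lt_d20])
  have h1 : (0.99681 : ℝ) ≤ sinPoly 1.49100985 - 2 / 1000000 := by norm_num [sinPoly]
  have h2 : sinPoly 1.49100985 + 2 / 1000000 ≤ (0.99683 : ℝ) := by norm_num [sinPoly]
  exact ⟨h1.trans h.1, h.2.trans h2⟩

lemma sin_refl_361 : sin (361 * π / 630) = sin (269 * π / 630) := by
  rw [← Real.sin_pi_sub (269 * π / 630)]
  congr 1
  ring

lemma sin_refl_379 : sin (379 * π / 630) = sin (251 * π / 630) := by
  rw [← Real.sin_pi_sub (251 * π / 630)]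
  congr 1
  ring

lemma sin_refl_505 : sin (505 * π / 630) = sin (125 * π / 630) := by
  rw [← Real.sin_pi_sub (125 * π / 630)]
  congr 1
  ring

lemma sin_refl_331 : sin (331 * π / 630) = sin (299 * π / 630) := by
  rw [← Real.sin_pi_sub (299 * π / 630)]
  congr 1
  ring


/-- main inequality (true value of the quotient RHS/LHS is about 1.00165) -/
theorem num_main :
    (0.9975 : ℝ) ^ 2 * (sin (53 * π / 420) * sin (137 * π / 420)) *
      (sin (300 * π / 630) * sin (109 * π / 630) * sin (235 * π / 630) * sin (361 * π / 630) +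
        sin (30 * π / 630) * sin (379 * π / 630) * sin (505 * π / 630) * sin (π / 630)) ^ 2 ≤
    (sin (270 * π / 630) * sin (79 * π / 630) * sin (205 * π / 630) * sin (331 * π / 630)) *
      (sin (300 * π / 630) * sin (109 * π / 630) * sin (235 * π / 630) * sin (361 * π / 630)) *
      (sin (73 * π / 420) * sin (157 * π / 420)) := by
  rw [sin_refl_361, sin_refl_379, sin_refl_505, sin_refl_331]
  obtain ⟨a1, a2⟩ := sin_53_420
  obtain ⟨b1, b2⟩ := sin_137_420
  obtain ⟨c1, c2⟩ := sin_73_420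
  obtain ⟨d1, d2⟩ := sin_157_420
  obtain ⟨e1, e2⟩ := sin_300_630
  obtain ⟨f1, f2⟩ := sin_109_630
  obtain ⟨g1, g2⟩ := sin_235_630
  obtain ⟨h1, h2⟩ := sin_269_630
  obtain ⟨i1, i2⟩ := sin_30_630
  obtain ⟨j1, j2⟩ := sin_251_630
  obtain ⟨k1, k2⟩ := sin_125_630
  obtain ⟨l1, l2⟩ := sin_1_630
  obtain ⟨m1, m2⟩ := sin_270_630
  obtain ⟨n1, n2⟩ := sin_79_630
  obtain ⟨o1, o2⟩ := sin_205_630
  obtain ⟨p1, p2⟩ := sin_299_630
  generalize sin (53 * π / 420) = a at *
  generalize sin (137 * π / 420) = b at *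
  generalize sin (73 * π / 420) = c at *
  generalize sin (157 * π / 420) = d at *
  generalize sin (300 * π / 630) = e at *
  generalize sin (109 * π / 630) = f at *
  generalize sin (235 * π / 630) = g at *
  generalize sin (269 * π / 630) = h at *
  generalize sin (30 * π / 630) = i at *
  generalize sin (251 * π / 630) = j at *
  generalize sin (125 * π / 630) = k at *
  generalize sin (π / 630) = l at *
  generalize sin (270 * π / 630) = m at *
  generalize sin (79 * π / 630) = n at *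
  generalize sin (205 * π / 630) = o at *
  generalize sin (299 * π / 630) = p at *
  have a0 : 0 ≤ a := le_trans (by norm_num) a1
  have b0 : 0 ≤ b := le_trans (by norm_num) b1
  have c0 : 0 ≤ c := le_trans (by norm_num) c1
  have d0 : 0 ≤ d := le_trans (by norm_num) d1
  have e0 : 0 ≤ e := le_trans (by norm_num) e1
  have f0 : 0 ≤ f := le_trans (by norm_num) f1
  have g0 : 0 ≤ g := le_trans (by norm_num) g1
  have h0 : 0 ≤ h := le_trans (by norm_num) h1
  have i0 : 0 ≤ i := le_trans (by norm_num) i1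
  have j0 : 0 ≤ j := le_trans (by norm_num) j1
  have k0 : 0 ≤ k := le_trans (by norm_num) k1
  have l0 : 0 ≤ l := le_trans (by norm_num) l1
  have m0 : 0 ≤ m := le_trans (by norm_num) m1
  have n0 : 0 ≤ n := le_trans (by norm_num) n1
  have o0 : 0 ≤ o := le_trans (by norm_num) o1
  have p0 : 0 ≤ p := le_trans (by norm_num) p1
  calc (0.9975 : ℝ) ^ 2 * (a * b) * (e * f * g * h + i * j * k * l) ^ 2
      ≤ (0.9975 : ℝ) ^ 2 * (0.38615 * 0.85460) * (0.99721 * 0.51718 * 0.92149 * 0.97382 + 0.14905 * 0.94951 * 0.58375 * 0.005) ^ 2 := by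
        gcongr
    _ ≤ (0.97492 * 0.38383 * 0.85328 * 0.99681) * (0.99719 * 0.51716 * 0.92147 * 0.97380) * (0.51930 * 0.92243) := by norm_num
    _ ≤ (m * n * o * p) * (e * f * g * h) * (c * d) := by gcongr

/-- (true values: LHS/RHS-product ratio 0.68887 ≤ 0.697225) -/
theorem num_zQ :
    sin (53 * π / 420) * sin (137 * π / 420) ≤
      (0.835 : ℝ) ^ 2 * (sin (73 * π / 420) * sin (157 * π / 420)) := by
  obtain ⟨a1, a2⟩ := sin_53_420
  obtain ⟨b1, b2⟩ := sin_137_420
  obtain ⟨c1, c2⟩ := sin_73_420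
  obtain ⟨d1, d2⟩ := sin_157_420
  have a0 : 0 ≤ sin (53 * π / 420) := le_trans (by norm_num) a1
  have b0 : 0 ≤ sin (137 * π / 420) := le_trans (by norm_num) b1
  calc sin (53 * π / 420) * sin (137 * π / 420) ≤ 0.38615 * 0.85460 := by gcongr
    _ ≤ (0.835 : ℝ) ^ 2 * (0.51930 * 0.92243) := by norm_num
    _ ≤ _ := by gcongr

/-- (true ratio 0.8026 ≤ 0.81) -/
theorem num_zR :
    sin (53 * π / 420) * sin (157 * π / 420) ≤
      (0.9 : ℝ) ^ 2 * (sin (137 * π / 420) * sin (73 * π / 420)) := by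
  obtain ⟨a1, a2⟩ := sin_53_420
  obtain ⟨b1, b2⟩ := sin_137_420
  obtain ⟨c1, c2⟩ := sin_73_420
  obtain ⟨d1, d2⟩ := sin_157_420
  have a0 : 0 ≤ sin (53 * π / 420) := le_trans (by norm_num) a1
  have d0 : 0 ≤ sin (157 * π / 420) := le_trans (by norm_num) d1
  calc sin (53 * π / 420) * sin (157 * π / 420) ≤ 0.38615 * 0.92245 := by gcongr
    _ ≤ (0.9 : ℝ) ^ 2 * (0.85458 * 0.51930) := by norm_num
    _ ≤ _ := by gcongr

end Pool.Agent.BallCurve
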