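import Pool.Agent.MP_071e05_an.Meas
import Pool.Agent.MP_071e05_an.Chart1
import Pool.Agent.MP_071e05_an.Numbers

/-!
The two hypergeometric data used in the example.
-/

set_option autoImplicit false
set_option linter.unusedSectionVars false

open MeasureTheory Set Filter Topology ComplexConjugate

namespace Pool.Agent.BallCurve

theorem sin_pos_of {r : ℝ} (h0 : 0 < r) (h1 : r < 1) : 0 < Real.sin (Real.pi * r) :=
  Real.sin_pos_of_pos_of_lt_pi (by positivity) (by nlinarith [Real.pi_pos])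

theorem sin_neg_of {r : ℝ} (h0 : 1 < r) (h1 : r < 2) : Real.sin (Real.pi * r) < 0 := by
  have h := sin_pos_of (r := r - 1) (by linarith) (by linarith)
  have h2 : Real.pi * r = Real.pi * (r - 1) + Real.pi := by ring
  rw [h2, Real.sin_add_pi]
  linarith

/-- exponents -/
noncomputable def e2 : Fin 2 → ℝ := ![53 / 840, 53 / 840 + 1 / 21]
noncomputable def a2 : Fin 2 → ℝ := ![53 / 840, 53 / 840 + 1 / 5]
noncomputable def e3 : Fin 3 → ℝ := ![79 / 1260, 79 / 1260 + 1 / 21, 79 / 1260 + 10 / 21]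
noncomputable def a3 : Fin 3 → ℝ := ![79 / 1260, 79 / 1260 + 1 / 5, 79 / 1260 + 2 / 5]

theorem exists_D2 : ∃ D : HD (1 + 1), D.e = e2 ∧ D.al = a2 ∧ Tail D.ν := by
  obtain ⟨ν, h1, h2, h3⟩ := exists_KM2 (a0 := 53 / 840) (a1 := 53 / 840 + 1 / 5)
    (b0 := 1 - 53 / 840 - 53 / 840) (b1 := 1 - (53 / 840 + 1 / 21) - (53 / 840 + 1 / 5))
    (by norm_num) (by norm_num) (by norm_num) (by norm_num) (by norm_num)
  obtain ⟨ν', h1', h2', h3'⟩ := exists_KM2 (a0 := 53 / 840) (a1 := 53 / 840 + 1 / 21)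
    (b0 := 1 - 53 / 840 - 53 / 840) (b1 := 1 - (53 / 840 + 1 / 21) - (53 / 840 + 1 / 5))
    (by norm_num) (by norm_num) (by norm_num) (by norm_num) (by norm_num)
  refine ⟨⟨e2, a2, ν, ν', h1, h1', ?_, ?_, ?_, ?_, ?_, ?_, ?_, ?_⟩, rfl, rfl, h2⟩
  · intro i j hij
    fin_cases i <;> fin_cases j <;> simp_all [e2] 
  · intro i j hij
    fin_cases i <;> fin_cases j <;> simp_all [a2] 
  · intro j; fin_cases j <;> simp [e2] <;> norm_num
  · intro j; fin_cases j <;> simp [a2] <;> norm_num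
  · intro s hs
    have := h3 s hs
    simp only [List.ofFn_succ, List.ofFn_zero, List.map_cons, List.map_nil, List.prod_cons,
      List.prod_nil, e2, a2, Fin.succ_zero_eq_one, Matrix.cons_val_zero, Matrix.cons_val_one]
    linear_combination this
  · intro s hs
    have := h3' s hs
    simp only [List.ofFn_succ, List.ofFn_zero, List.map_cons, List.map_nil, List.prod_cons,
      List.prod_nil, e2, a2, Fin.succ_zero_eq_one, Matrix.cons_val_zero, Matrix.cons_val_one]
    linear_combination this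
  · rw [Fin.sum_univ_two (f := e2), Fin.sum_univ_two (f := a2)]
    simp only [e2, a2, Matrix.cons_val_zero, Matrix.cons_val_one]
    norm_num
  · intro j i
    apply ne_of_gt
    fin_cases j <;> fin_cases i <;> simp [e2, a2] <;> apply sin_pos_of <;> norm_num

theorem exists_D3 : ∃ D : HD (2 + 1), D.e = e3 ∧ D.al = a3 := by
  obtain ⟨ν, h1, h3⟩ := exists_KM3 (a0 := 79 / 1260) (a1 := 79 / 1260 + 1 / 5)
    (a2 := 79 / 1260 + 2 / 5)
    (b0 := 1 - (79 / 1260 + 10 / 21) - 79 / 1260)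
    (b1 := 1 - (79 / 1260 + 1 / 21) - (79 / 1260 + 1 / 5))
    (b2 := 1 - 79 / 1260 - (79 / 1260 + 2 / 5))
    (by norm_num) (by norm_num) (by norm_num) (by norm_num) (by norm_num) (by norm_num)
    (by norm_num)
  obtain ⟨ν', h1', h3'⟩ := exists_KM3 (a0 := 79 / 1260) (a1 := 79 / 1260 + 1 / 21)
    (a2 := 79 / 1260 + 10 / 21)
    (b0 := 1 - (79 / 1260 + 2 / 5) - 79 / 1260)
    (b1 := 1 - (79 / 1260 + 1 / 21) - (79 / 1260 + 1 / 5))
    (b2 := 1 - 79 / 1260 - (79 / 1260 + 10 / 21))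
    (by norm_num) (by norm_num) (by norm_num) (by norm_num) (by norm_num) (by norm_num)
    (by norm_num)
  refine ⟨⟨e3, a3, ν, ν', h1, h1', ?_, ?_, ?_, ?_, ?_, ?_, ?_, ?_⟩, rfl, rfl⟩
  · intro i j hij
    fin_cases i <;> fin_cases j <;> simp_all [e3] 
    norm_num
  · intro i j hij
    fin_cases i <;> fin_cases j <;> simp_all [a3] 
    norm_num
  · intro j; fin_cases j <;> simp [e3] <;> norm_num
  · intro j; fin_cases j <;> simp [a3] <;> norm_num
  · intro s hs
    have := h3 s hs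
    simp only [List.ofFn_succ, List.ofFn_zero, List.map_cons, List.map_nil, List.prod_cons,
      List.prod_nil, e3, a3, Fin.succ_zero_eq_one, Fin.succ_one_eq_two, Matrix.cons_val_zero,
      Matrix.cons_val_one, Matrix.cons_val]
    linear_combination this
  · intro s hs
    have := h3' s hs
    simp only [List.ofFn_succ, List.ofFn_zero, List.map_cons, List.map_nil, List.prod_cons,
      List.prod_nil, e3, a3, Fin.succ_zero_eq_one, Fin.succ_one_eq_two, Matrix.cons_val_zero,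
      Matrix.cons_val_one, Matrix.cons_val]
    linear_combination this
  · rw [Fin.sum_univ_three (f := e3), Fin.sum_univ_three (f := a3)]
    simp only [e3, a3, Matrix.cons_val_zero, Matrix.cons_val_one, Matrix.cons_val]
    norm_num
  · intro j i
    by_cases hc : j = 2 ∧ i = 2
    · obtain ⟨rfl, rfl⟩ := hc
      apply ne_of_lt
      simp only [e3, a3, Matrix.cons_val]
      apply sin_neg_of <;> norm_num
    · apply ne_of_gt
      fin_cases j <;> fin_cases i <;> simp [e3, a3] at hc ⊢ <;> apply sin_pos_of <;> norm_num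

/-- product formula -/
theorem sin_det (a b x y : ℝ) :
    Real.sin (Real.pi * (a + x)) * Real.sin (Real.pi * (b + y)) -
      Real.sin (Real.pi * (b + x)) * Real.sin (Real.pi * (a + y)) =
      Real.sin (Real.pi * (x - y)) * Real.sin (Real.pi * (b - a)) := by
  have h1 : Real.pi * (x - y) = Real.pi * x - Real.pi * y := by ring
  have h2 : Real.pi * (b - a) = Real.pi * b - Real.pi * a := by ring
  have h3 : Real.pi * (a + x) = Real.pi * a + Real.pi * x := by ring
  have h4 : Real.pi * (b + y) = Real.pi * b + Real.pi * y := by ring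
  have h5 : Real.pi * (b + x) = Real.pi * b + Real.pi * x := by ring
  have h6 : Real.pi * (a + y) = Real.pi * a + Real.pi * y := by ring
  rw [h1, h2, h3, h4, h5, h6, Real.sin_sub, Real.sin_sub, Real.sin_add, Real.sin_add, Real.sin_add,
    Real.sin_add]
  ring

noncomputable def HD.ss {n : ℕ} (D : HD n) (j i : Fin n) : ℝ := Real.sin (Real.pi * (D.e j + D.al i))

theorem HD.ss_ne {n : ℕ} (D : HD n) (j i : Fin n) : D.ss j i ≠ 0 := D.nonint j i

theorem HD.ss_dual {n : ℕ} (D : HD n) (j i : Fin n) : D.dual.ss i j = D.ss j i := by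
  unfold HD.ss HD.dual
  rw [add_comm]

theorem HD.ratio3 (D : HD (2 + 1)) (h : Real.sin (Real.pi * (D.al 2 - D.al 1)) ≠ 0) :
    D.dual.om 1 * (Real.sin (Real.pi * (D.e 2 - D.e 1)) * (D.ss 0 0 * D.ss 0 1 * D.ss 0 2)) =
      - D.dual.om 0 * (Real.sin (Real.pi * (D.e 2 - D.e 0)) * (D.ss 1 0 * D.ss 1 1 * D.ss 1 2)) ∧
    D.dual.om 2 * (Real.sin (Real.pi * (D.e 2 - D.e 1)) * (D.ss 0 0 * D.ss 0 1 * D.ss 0 2)) =
      D.dual.om 0 * (Real.sin (Real.pi * (D.e 1 - D.e 0)) * (D.ss 2 0 * D.ss 2 1 * D.ss 2 2)) := by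
  have E1 := D.sum_div_sin (i := 0) (k := 2) (by decide)
  have E2 := D.sum_div_sin (i := 0) (k := 1) (by decide)
  rw [Fin.sum_univ_three (f := fun j => D.dual.om j / (Real.sin (Real.pi * (D.e j + D.al 0)) *
      Real.sin (Real.pi * (D.e j + D.al 2))))] at E1
  rw [Fin.sum_univ_three (f := fun j => D.dual.om j / (Real.sin (Real.pi * (D.e j + D.al 0)) *
      Real.sin (Real.pi * (D.e j + D.al 1))))] at E2
  change D.dual.om 0 / (D.ss 0 0 * D.ss 0 2) + D.dual.om 1 / (D.ss 1 0 * D.ss 1 2) +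
    D.dual.om 2 / (D.ss 2 0 * D.ss 2 2) = 0 at E1
  change D.dual.om 0 / (D.ss 0 0 * D.ss 0 1) + D.dual.om 1 / (D.ss 1 0 * D.ss 1 1) +
    D.dual.om 2 / (D.ss 2 0 * D.ss 2 1) = 0 at E2
  have d02 : D.ss 0 2 * D.ss 2 1 - D.ss 2 2 * D.ss 0 1 =
      Real.sin (Real.pi * (D.al 2 - D.al 1)) * Real.sin (Real.pi * (D.e 2 - D.e 0)) := sin_det _ _ _ _
  have d12 : D.ss 1 2 * D.ss 2 1 - D.ss 2 2 * D.ss 1 1 =
      Real.sin (Real.pi * (D.al 2 - D.al 1)) * Real.sin (Real.pi * (D.e 2 - D.e 1)) := sin_det _ _ _ _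
  have d01 : D.ss 0 2 * D.ss 1 1 - D.ss 1 2 * D.ss 0 1 =
      Real.sin (Real.pi * (D.al 2 - D.al 1)) * Real.sin (Real.pi * (D.e 1 - D.e 0)) := sin_det _ _ _ _
  have n00 := D.ss_ne 0 0
  have n01 := D.ss_ne 0 1
  have n02 := D.ss_ne 0 2
  have n10 := D.ss_ne 1 0
  have n11 := D.ss_ne 1 1
  have n12 := D.ss_ne 1 2
  have n20 := D.ss_ne 2 0
  have n21 := D.ss_ne 2 1
  have n22 := D.ss_ne 2 2
  set u0 := D.dual.om 0 / (D.ss 0 0 * D.ss 0 1 * D.ss 0 2) with hu0
  set u1 := D.dual.om 1 / (D.ss 1 0 * D.ss 1 1 * D.ss 1 2) with hu1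
  set u2 := D.dual.om 2 / (D.ss 2 0 * D.ss 2 1 * D.ss 2 2) with hu2
  have F1 : u0 * D.ss 0 1 + u1 * D.ss 1 1 + u2 * D.ss 2 1 = 0 := by
    rw [← E1, hu0, hu1, hu2]
    field_simp
  have F2 : u0 * D.ss 0 2 + u1 * D.ss 1 2 + u2 * D.ss 2 2 = 0 := by
    rw [← E2, hu0, hu1, hu2]
    field_simp
  have w0 : D.dual.om 0 = u0 * (D.ss 0 0 * D.ss 0 1 * D.ss 0 2) := by
    rw [hu0]; field_simp
  have w1 : D.dual.om 1 = u1 * (D.ss 1 0 * D.ss 1 1 * D.ss 1 2) := by
    rw [hu1]; field_simp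
  have w2 : D.dual.om 2 = u2 * (D.ss 2 0 * D.ss 2 1 * D.ss 2 2) := by
    rw [hu2]; field_simp
  have G1 : u0 * Real.sin (Real.pi * (D.e 2 - D.e 0)) + u1 * Real.sin (Real.pi * (D.e 2 - D.e 1)) = 0 := by
    have : Real.sin (Real.pi * (D.al 2 - D.al 1)) * (u0 * Real.sin (Real.pi * (D.e 2 - D.e 0)) +
        u1 * Real.sin (Real.pi * (D.e 2 - D.e 1))) = 0 := by
      linear_combination D.ss 2 1 * F2 - D.ss 2 2 * F1 - u0 * d02 - u1 * d12
    exact (mul_eq_zero.mp this).resolve_left h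
  have G2 : u0 * Real.sin (Real.pi * (D.e 1 - D.e 0)) - u2 * Real.sin (Real.pi * (D.e 2 - D.e 1)) = 0 := by
    have : Real.sin (Real.pi * (D.al 2 - D.al 1)) * (u0 * Real.sin (Real.pi * (D.e 1 - D.e 0)) -
        u2 * Real.sin (Real.pi * (D.e 2 - D.e 1))) = 0 := by
      linear_combination D.ss 1 1 * F2 - D.ss 1 2 * F1 - u0 * d01 + u2 * d12
    exact (mul_eq_zero.mp this).resolve_left h
  constructor
  · rw [w0, w1]
    linear_combination (D.ss 1 0 * D.ss 1 1 * D.ss 1 2) * (D.ss 0 0 * D.ss 0 1 * D.ss 0 2) * G1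
  · rw [w0, w2]
    linear_combination - (D.ss 2 0 * D.ss 2 1 * D.ss 2 2) * (D.ss 0 0 * D.ss 0 1 * D.ss 0 2) * G2

theorem HD.ratio2 (D : HD (1 + 1)) :
    D.dual.om 1 * (D.ss 0 0 * D.ss 0 1) = - D.dual.om 0 * (D.ss 1 0 * D.ss 1 1) := by
  have E1 := D.sum_div_sin (i := 0) (k := 1) (by decide)
  rw [Fin.sum_univ_two (f := fun j => D.dual.om j / (Real.sin (Real.pi * (D.e j + D.al 0)) *
      Real.sin (Real.pi * (D.e j + D.al 1))))] at E1
  change D.dual.om 0 / (D.ss 0 0 * D.ss 0 1) + D.dual.om 1 / (D.ss 1 0 * D.ss 1 1) = 0 at E1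
  have n00 := D.ss_ne 0 0
  have n01 := D.ss_ne 0 1
  have n10 := D.ss_ne 1 0
  have n11 := D.ss_ne 1 1
  field_simp at E1
  linear_combination E1

theorem HD.om_signs3 (D : HD (2 + 1)) (h : Real.sin (Real.pi * (D.al 2 - D.al 1)) ≠ 0)
    (h21 : 0 < Real.sin (Real.pi * (D.e 2 - D.e 1))) (h20 : 0 < Real.sin (Real.pi * (D.e 2 - D.e 0)))
    (h10 : 0 < Real.sin (Real.pi * (D.e 1 - D.e 0))) (h0 : 0 < D.ss 0 0 * D.ss 0 1 * D.ss 0 2)
    (h1 : 0 < D.ss 1 0 * D.ss 1 1 * D.ss 1 2) (h2 : D.ss 2 0 * D.ss 2 1 * D.ss 2 2 < 0) :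
    ∀ k : Fin 2, D.dual.om k.succ < 0 := by
  obtain ⟨A, B⟩ := D.ratio3 h
  have hp := D.dual.om_zero_pos
  have hP := mul_pos h21 h0
  intro k
  fin_cases k
  · change D.dual.om 1 < 0
    by_contra hc
    push Not at hc
    nlinarith [mul_nonneg hc hP.le, mul_pos hp (mul_pos h20 h1)]
  · change D.dual.om 2 < 0
    by_contra hc
    push Not at hc
    nlinarith [mul_nonneg hc hP.le, mul_pos hp (mul_pos h10 (neg_pos.mpr h2))]

theorem sgn_D2 {D : HD (1 + 1)} (he : D.e = e2) (ha : D.al = a2) : D.Sgn := by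
  have key : ∀ j i, 0 < D.ss j i := by
    intro j i
    unfold HD.ss
    rw [he, ha]
    fin_cases j <;> fin_cases i <;> simp [e2, a2] <;> apply sin_pos_of <;> norm_num
  have hp := D.dual.om_zero_pos
  have hp' := D.om_zero_pos
  have r1 := D.ratio2
  have r2 := D.dual.ratio2
  rw [HD.dual_dual, HD.ss_dual, HD.ss_dual, HD.ss_dual, HD.ss_dual] at r2
  have k00 := key 0 0
  have k01 := key 0 1
  have k10 := key 1 0
  have k11 := key 1 1
  refine ⟨one_pos, ?_, ?_⟩
  · intro k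
    have : k = 0 := Subsingleton.elim _ _
    subst this
    change D.om 1 < 0
    by_contra hc
    push Not at hc
    nlinarith [mul_nonneg hc (mul_pos k00 k10).le, mul_pos hp' (mul_pos k01 k11)]
  · intro k
    have : k = 0 := Subsingleton.elim _ _
    subst this
    change D.dual.om 1 < 0
    by_contra hc
    push Not at hc
    nlinarith [mul_nonneg hc (mul_pos k00 k01).le, mul_pos hp (mul_pos k10 k11)]

theorem sgn_D3 {D : HD (2 + 1)} (he : D.e = e3) (ha : D.al = a3) : D.Sgn := by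
  have key : ∀ j i, ¬ (j = 2 ∧ i = 2) → 0 < D.ss j i := by
    intro j i hc
    unfold HD.ss
    rw [he, ha]
    fin_cases j <;> fin_cases i <;> simp [e3, a3] at hc ⊢ <;> apply sin_pos_of <;> norm_num
  have key2 : D.ss 2 2 < 0 := by
    unfold HD.ss
    rw [he, ha]
    simp only [e3, a3, Matrix.cons_val]
    apply sin_neg_of <;> norm_num
  have k00 := key 0 0 (by decide)
  have k01 := key 0 1 (by decide)
  have k02 := key 0 2 (by decide)
  have k10 := key 1 0 (by decide)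
  have k11 := key 1 1 (by decide)
  have k12 := key 1 2 (by decide)
  have k20 := key 2 0 (by decide)
  have k21 := key 2 1 (by decide)
  have he21 : D.e 2 - D.e 1 = 3 / 7 := by rw [he]; simp only [e3, Matrix.cons_val]; norm_num
  have he20 : D.e 2 - D.e 0 = 10 / 21 := by rw [he]; simp only [e3, Matrix.cons_val]; norm_num
  have he10 : D.e 1 - D.e 0 = 1 / 21 := by rw [he]; simp only [e3, Matrix.cons_val]; norm_num
  have ha21 : D.al 2 - D.al 1 = 1 / 5 := by rw [ha]; simp only [a3, Matrix.cons_val]; norm_num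
  have ha20 : D.al 2 - D.al 0 = 2 / 5 := by rw [ha]; simp only [a3, Matrix.cons_val]; norm_num
  have ha10 : D.al 1 - D.al 0 = 1 / 5 := by rw [ha]; simp only [a3, Matrix.cons_val]; norm_num
  refine ⟨two_pos, ?_, ?_⟩
  · have := D.dual.om_signs3
    rw [HD.dual_dual, HD.ss_dual, HD.ss_dual, HD.ss_dual, HD.ss_dual, HD.ss_dual, HD.ss_dual,
      HD.ss_dual, HD.ss_dual, HD.ss_dual] at this
    refine this ?_ ?_ ?_ ?_ (by positivity) (by positivity) (mul_neg_of_pos_of_neg (by positivity) key2)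
    · change Real.sin (Real.pi * (D.e 2 - D.e 1)) ≠ 0
      rw [he21]; exact (sin_pos_of (by norm_num) (by norm_num)).ne'
    · change 0 < Real.sin (Real.pi * (D.al 2 - D.al 1))
      rw [ha21]; exact sin_pos_of (by norm_num) (by norm_num)
    · change 0 < Real.sin (Real.pi * (D.al 2 - D.al 0))
      rw [ha20]; exact sin_pos_of (by norm_num) (by norm_num)
    · change 0 < Real.sin (Real.pi * (D.al 1 - D.al 0))
      rw [ha10]; exact sin_pos_of (by norm_num) (by norm_num)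
  · refine D.om_signs3 ?_ ?_ ?_ ?_ (by positivity) (by positivity)
      (mul_neg_of_pos_of_neg (by positivity) key2)
    · rw [ha21]; exact (sin_pos_of (by norm_num) (by norm_num)).ne'
    · rw [he21]; exact sin_pos_of (by norm_num) (by norm_num)
    · rw [he20]; exact sin_pos_of (by norm_num) (by norm_num)
    · rw [he10]; exact sin_pos_of (by norm_num) (by norm_num)

end Pool.Agent.BallCurve
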