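import Pool.Agent.MP_071e05_an.Global

/-!
The final properties: injectivity, immersion, properness, the group.
-/

set_option autoImplicit false
set_option linter.unusedSectionVars false

open MeasureTheory Metric Set Filter Topology ComplexConjugate

namespace Pool.Agent.BallCurve

section

variable {S : Sys} {f : ℂ → V2} {T : ℂ → Option ℂ}

theorem uv_zero_ne : iso1 (S.c1.D2.uv 0) ≠ 0 := by
  intro h
  have h1 : S.c1.D2.uv 0 = 0 := by simpa using h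
  have h2 := HD.norm_uv_two S.c1.s2 0
  rw [h1, norm_zero] at h2
  have hw0 := S.c1.D2.dual.om_zero_pos
  have hw1 : S.c1.D2.dual.om 1 < 0 := S.c1.s2.hom' 0
  have e0 := S.c1.D2.Fx_eq_left 0 (τ := (0 : ℂ)) (by simp)
  have e1 := S.c1.D2.Fx_eq_left 1 (τ := (0 : ℂ)) (by simp)
  rw [S.c1.D2.F_zero] at e0 e1
  have p0 := S.c1.D2.hν.FR_pos (S.c1.D2.e_nonneg 0) (le_refl (0 : ℝ))
  have p1 := S.c1.D2.hν.FR_pos (S.c1.D2.e_nonneg 1) (le_refl (0 : ℝ))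
  rw [e0, e1, Complex.norm_real, Complex.norm_real, Real.norm_eq_abs, Real.norm_eq_abs, sq_abs,
    sq_abs] at h2
  have : 0 < -S.c1.D2.dual.om 1 / S.c1.D2.dual.om 0 *
      (FR S.c1.D2.ν (S.c1.D2.e 1) 0 ^ 2 / FR S.c1.D2.ν (S.c1.D2.e 0) 0 ^ 2) := by
    apply mul_pos
    · exact div_pos (by linarith) hw0
    · positivity
  rw [← h2] at this
  norm_num at this

/-- the lower bound for the normalised derivative -/
theorem GM.lower (h : GM S f T) (he : S.c1.D2.e = e2) (ha : S.c1.D2.al = a2)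
    (he' : S.c1.D3.e = e3) (ha' : S.c1.D3.al = a3) (hp : S.c0.p = 21) (hm3 : S.c0.m3 1 = 1)
    (ψ : (ℂ × ℂ) ≃L[ℂ] (ℂ × ℂ)) (hψ : ψ ∈ UG ℂ) (L : (ℂ × V2) ≃L[ℂ] (ℂ × V2)) (hL : L ∈ UG V2)
    (hL0 : act L (f (act ψ 0)) = 0) :
    (0.93 : ℝ) ^ 2 ≤ ‖deriv (fun z : ℂ => act L (f (act ψ z))) 0‖ ^ 2 := by
  have h0mem : (0 : ℂ) ∈ ball (0 : ℂ) 1 := by simp
  have hw := act_mem hψ h0mem
  obtain ⟨z, hz, hTz⟩ := h.onto he ha (T (act ψ 0))
  have hzb : z ∈ ball (0 : ℂ) 1 := by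
    rw [mem_ball_zero_iff]; exact lt_of_le_of_lt hz (by norm_num)
  obtain ⟨γ, hγ, Λ, hΛ, g1, g2⟩ := h.equiv z hzb _ hw hTz
  have hγi := (UG ℂ).inv_mem hγ
  have hψ' : γ⁻¹ * ψ ∈ UG ℂ := (UG ℂ).mul_mem hγi hψ
  have hL' : L * Λ ∈ UG V2 := (UG V2).mul_mem hL hΛ
  have hψ'0 : act (γ⁻¹ * ψ) 0 = z := by
    rw [act_mul hγi hψ h0mem, ← g1, act_inv_act hγ hzb]
  have hL'0 : act (L * Λ) (f z) = 0 := by
    rw [act_mul hL hΛ (h.maps hzb), ← (g2 z hzb).1, g1, hL0]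
  have hfun : (fun z : ℂ => act L (f (act ψ z))) =ᶠ[𝓝 0]
      fun z : ℂ => act (L * Λ) (f (act (γ⁻¹ * ψ) z)) := by
    filter_upwards [isOpen_ball.mem_nhds h0mem] with x hx
    have hx1 := act_mem hψ hx
    have hx2 := act_mem hγi hx1
    rw [act_mul hγi hψ hx, act_mul hL hΛ (h.maps hx2), ← (g2 _ hx2).1, act_act_inv hγ hx1]
  rw [hfun.deriv_eq]
  -- the reference point
  set q := iso1 (S.c1.D2.uv 0) with hq
  have h0Sc : (0 : ℂ) ∈ Sc := by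
    constructor <;> simp [Real.pi_pos.le]
  have hqb : q ∈ ball (0 : ℂ) 1 := iso1_uv_mem he ha h0Sc
  have hqn : ‖q‖ ≤ 0.835 := by
    rw [hq, iso1.norm_map]
    have := left2 he ha (le_refl (0 : ℝ))
    rwa [Complex.ofReal_zero] at this
  have hfq : f q = S.c1.D3.uv 0 := (h.strip' he ha h0Sc).1
  have hb : (0.9975 : ℝ) * ‖q‖ ≤ ‖f q 0‖ := by
    rw [hfq, hq, iso1.norm_map]
    exact main_ineq he ha he' ha'
  have hω : IsPrimitiveRoot (Complex.exp (2 * Real.pi * Complex.I / (21 : ℕ))) 21 :=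
    Complex.isPrimitiveRoot_exp 21 (by norm_num)
  have hX : ‖q‖ ^ 21 ≤ (0.0227 : ℝ) := by
    calc ‖q‖ ^ 21 ≤ (0.835 : ℝ) ^ 21 := pow_le_pow_left₀ (norm_nonneg _) hqn 21
      _ ≤ _ := by norm_num
  have hlow := deriv_lower h.diff h.maps h.zero (p := 21) (by norm_num) hω
    (fun z hz => h.rot hm3 (by rw [hp]; exact hω.pow_eq_one) hz) hqb uv_zero_ne
    (b := 0.9975) (X := 0.0227) (Y := 0.1095) (ρ := 0.9) (a := 0.9973) (g := 0.9966) (s := 0.93)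
    hb hX (by norm_num) (by norm_num) (by norm_num) (by norm_num) (by norm_num) (by norm_num)
    (by norm_num) (by norm_num) (by norm_num) (by norm_num) (by norm_num) (by norm_num)
    hz hψ' hψ'0 hL' hL'0
  exact pow_le_pow_left₀ (by norm_num) hlow 2

theorem GM.main (h : GM S f T) (he : S.c1.D2.e = e2) (ha : S.c1.D2.al = a2)
    (he' : S.c1.D3.e = e3) (ha' : S.c1.D3.al = a3) (hp : S.c0.p = 21) (hm3 : S.c0.m3 1 = 1) :
    InjOn f (ball 0 1) ∧ (∀ z ∈ ball (0 : ℂ) 1, deriv f z ≠ 0) ∧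
    (∀ R < 1, ∃ r < 1, ∀ z ∈ ball (0 : ℂ) 1, ‖f z‖ ≤ R → ‖z‖ ≤ r) := by
  apply criterion h.diff h.maps (c := (0.93 : ℝ) ^ 2)
  · have : Real.sqrt 2 < 1.415 := by
      rw [Real.sqrt_lt' (by norm_num)]; norm_num
    norm_num at this ⊢
    linarith
  · intro ψ hψ L hL hL0
    exact h.lower he ha he' ha' hp hm3 ψ hψ L hL hL0

end

end Pool.Agent.BallCurve
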