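import Pool.Agent.MP_071e05_an.Ball

/-!
T3.  Schwarz–Pick with multiplicity and the lower bound for the normalised derivative.
-/

set_option autoImplicit false
set_option linter.unusedSectionVars false

open Metric Set Filter Topology ComplexConjugate

namespace Pool.Agent.BallCurve

/-- a bounded function with zero at `0`, invariant under rotation of order `p`, is `O(z ^ p)`. -/
theorem norm_le_pow_of_rot {B : ℂ → ℂ} (hd : DifferentiableOn ℂ B (ball 0 1))
    (hb : ∀ z ∈ ball (0 : ℂ) 1, ‖B z‖ ≤ 1) (hB0 : B 0 = 0) {p : ℕ} {ω : ℂ}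
    (hω : IsPrimitiveRoot ω p) (hrot : ∀ z ∈ ball (0 : ℂ) 1, B (ω * z) = B z)
    (hp : 0 < p) {z : ℂ} (hz : z ∈ ball (0 : ℂ) 1) : ‖B z‖ ≤ ‖z‖ ^ p := by
  have h0mem : (0 : ℂ) ∈ ball (0 : ℂ) 1 := by simp
  have hnhds : ball (0 : ℂ) 1 ∈ 𝓝 (0 : ℂ) := isOpen_ball.mem_nhds h0mem
  have hωn : ‖ω‖ = 1 := hω.norm'_eq_one hp.ne'
  have hωne : ω ≠ 0 := by
    intro h; rw [h, norm_zero] at hωn; exact zero_ne_one hωn
  have hωmem : ∀ z ∈ ball (0 : ℂ) 1, ω * z ∈ ball (0 : ℂ) 1 := by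
    intro z hz
    rw [mem_ball_zero_iff] at hz ⊢
    rw [norm_mul, hωn, one_mul]; exact hz
  have key : ∀ k ≤ p, ∃ C : ℂ → ℂ, DifferentiableOn ℂ C (ball 0 1) ∧
      (∀ z ∈ ball (0 : ℂ) 1, ‖C z‖ ≤ 1) ∧ ∀ z ∈ ball (0 : ℂ) 1, z ^ k * C z = B z := by
    intro k
    induction k with
    | zero => intro _; exact ⟨B, hd, hb, fun z _ => by simp⟩
    | succ k ih =>
      intro hk
      obtain ⟨C, hCd, hCb, hCB⟩ := ih (by omega)
      have hC0 : C 0 = 0 := by
        rcases Nat.eq_zero_or_pos k with h | h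
        · subst h
          have := hCB 0 h0mem
          rw [pow_zero, one_mul, hB0] at this
          exact this
        · -- `ω ^ k * C 0 = C 0`
          have hCc : ContinuousAt C 0 := (hCd.differentiableAt hnhds).continuousAt
          have hlim1 : Tendsto (fun z : ℂ => ω ^ k * C (ω * z)) (𝓝[≠] 0) (𝓝 (ω ^ k * C 0)) := by
            have h1 : Tendsto (fun z : ℂ => ω * z) (𝓝 0) (𝓝 0) := by
              have : Continuous fun z : ℂ => ω * z := by fun_prop
              have h2 := this.tendsto 0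
              rwa [mul_zero] at h2
            exact ((hCc.tendsto.comp h1).const_mul _).mono_left nhdsWithin_le_nhds
          have hlim2 : Tendsto (fun z : ℂ => C z) (𝓝[≠] 0) (𝓝 (C 0)) :=
            hCc.tendsto.mono_left nhdsWithin_le_nhds
          have heq : (fun z : ℂ => ω ^ k * C (ω * z)) =ᶠ[𝓝[≠] 0] fun z : ℂ => C z := by
            have hm : ∀ᶠ z in 𝓝[≠] (0 : ℂ), z ∈ ball (0 : ℂ) 1 :=
              mem_nhdsWithin_of_mem_nhds hnhds
            filter_upwards [hm, self_mem_nhdsWithin] with z hz hz0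
            have hz0' : z ≠ 0 := hz0
            have h1 := hCB (ω * z) (hωmem z hz)
            rw [hrot z hz, ← hCB z hz, mul_pow] at h1
            have h2 : z ^ k * (ω ^ k * C (ω * z)) = z ^ k * C z := by rw [← h1]; ring
            exact mul_left_cancel₀ (pow_ne_zero k hz0') h2
          have h3 := tendsto_nhds_unique (hlim1.congr' heq) hlim2
          have h4 : (ω ^ k - 1) * C 0 = 0 := by rw [sub_mul, one_mul, h3, sub_self]
          rcases mul_eq_zero.mp h4 with h5 | h5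
          · exact absurd (sub_eq_zero.mp h5)
              (hω.pow_ne_one_of_pos_of_lt h.ne' (by omega))
          · exact h5
      refine ⟨dslope C 0, (Complex.differentiableOn_dslope hnhds).mpr hCd, ?_, ?_⟩
      · intro z hz
        have h1 := Complex.norm_dslope_le_div_of_mapsTo_ball (R₁ := 1) (R₂ := 1) hCd (by
          intro w hw
          rw [hC0, mem_closedBall_zero_iff]
          exact hCb w hw) hz
        simpa using h1
      · intro z hz
        have h1 := sub_smul_dslope C 0 z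
        rw [hC0, sub_zero, sub_zero, smul_eq_mul] at h1
        rw [pow_succ, mul_assoc, h1]
        exact hCB z hz
  obtain ⟨C, _, hCb, hCB⟩ := key p le_rfl
  rw [← hCB z hz, norm_mul, norm_pow]
  calc ‖z‖ ^ p * ‖C z‖ ≤ ‖z‖ ^ p * 1 := by gcongr; exact hCb z hz
    _ = ‖z‖ ^ p := mul_one _

/-- Schwarz–Pick for a function invariant under rotation of order `p`. -/
theorem schwarz_mult {u : ℂ → ℂ} (hd : DifferentiableOn ℂ u (ball 0 1))
    (hb : ∀ z ∈ ball (0 : ℂ) 1, ‖u z‖ ≤ 1) {p : ℕ} (hp : 0 < p) {ω : ℂ}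
    (hω : IsPrimitiveRoot ω p) (hrot : ∀ z ∈ ball (0 : ℂ) 1, u (ω * z) = u z) {z : ℂ}
    (hz : z ∈ ball (0 : ℂ) 1) :
    ‖u z‖ - ‖z‖ ^ p ≤ ‖u 0‖ * (1 - ‖z‖ ^ p * ‖u z‖) ∧
    ‖u 0‖ - ‖z‖ ^ p ≤ ‖u z‖ * (1 - ‖z‖ ^ p * ‖u 0‖) := by
  have h0mem : (0 : ℂ) ∈ ball (0 : ℂ) 1 := by simp
  set a := u 0 with ha
  have ha1 : ‖a‖ ≤ 1 := hb 0 h0mem
  have hz1 : ‖z‖ < 1 := by simpa using hz
  have ht0 : 0 ≤ ‖z‖ ^ p := by positivity
  have ht1 : ‖z‖ ^ p ≤ 1 := pow_le_one₀ (norm_nonneg z) hz1.le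
  have huz := hb z hz
  -- it suffices to bound the difference of the norms
  suffices hmain : |‖u z‖ - ‖a‖| ≤ ‖z‖ ^ p * (1 - ‖u z‖ * ‖a‖) by
    have h1 := abs_le.mp hmain
    constructor
    · nlinarith [h1.2]
    · nlinarith [h1.1]
  rcases ha1.eq_or_lt with h | h
  · -- `|u 0| = 1`
    have hmax : IsMaxOn (norm ∘ u) (ball (0 : ℂ) 1) 0 := by
      intro w hw
      show ‖u w‖ ≤ ‖u 0‖
      rw [← ha, h]; exact hb w hw
    have h1 := Complex.norm_eqOn_of_isPreconnected_of_isMaxOn (convex_ball (0 : ℂ) 1).isPreconnected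
      isOpen_ball hd h0mem hmax hz
    have h2 : ‖u z‖ = ‖a‖ := h1
    rw [h2, h, sub_self, abs_zero]
    simp
  · -- the Moebius transform
    have hden : ∀ w ∈ ball (0 : ℂ) 1, 1 - conj a * u w ≠ 0 := by
      intro w hw h0
      have h1 : conj a * u w = 1 := (sub_eq_zero.mp h0).symm
      have h2 : ‖conj a * u w‖ = 1 := by rw [h1, norm_one]
      rw [norm_mul, RCLike.norm_conj] at h2
      have := hb w hw
      nlinarith [norm_nonneg a, norm_nonneg (u w)]
    let B : ℂ → ℂ := fun w => (u w - a) / (1 - conj a * u w)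
    have hBd : DifferentiableOn ℂ B (ball 0 1) := by
      apply DifferentiableOn.div
      · exact hd.sub_const a
      · exact (differentiableOn_const _).sub ((differentiableOn_const _).mul hd)
      · exact hden
    have hident : ∀ v : ℂ, ‖1 - conj a * v‖ ^ 2 - ‖v - a‖ ^ 2 = (1 - ‖a‖ ^ 2) * (1 - ‖v‖ ^ 2) := by
      intro v
      rw [← Complex.normSq_eq_norm_sq, ← Complex.normSq_eq_norm_sq, ← Complex.normSq_eq_norm_sq,
        ← Complex.normSq_eq_norm_sq]
      simp only [Complex.normSq_apply, Complex.sub_re, Complex.sub_im, Complex.mul_re,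
        Complex.mul_im, Complex.conj_re, Complex.conj_im, Complex.one_re, Complex.one_im]
      ring
    have hBb : ∀ w ∈ ball (0 : ℂ) 1, ‖B w‖ ≤ 1 := by
      intro w hw
      simp only [B, norm_div]
      rw [div_le_one (norm_pos_iff.mpr (hden w hw))]
      have h1 := hident (u w)
      have h2 := hb w hw
      have h3 : 0 ≤ (1 - ‖a‖ ^ 2) * (1 - ‖u w‖ ^ 2) := by
        apply mul_nonneg
        · nlinarith [norm_nonneg a]
        · nlinarith [norm_nonneg (u w)]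
      have h4 : ‖u w - a‖ ^ 2 ≤ ‖1 - conj a * u w‖ ^ 2 := by linarith
      exact (pow_le_pow_iff_left₀ (norm_nonneg _) (norm_nonneg _) two_ne_zero).mp h4
    have hB0 : B 0 = 0 := by simp [B, ha]
    have hBrot : ∀ w ∈ ball (0 : ℂ) 1, B (ω * w) = B w := by
      intro w hw
      simp only [B, hrot w hw]
    have hBz := norm_le_pow_of_rot hBd hBb hB0 hω hBrot hp hz
    simp only [B, norm_div] at hBz
    rw [div_le_iff₀ (norm_pos_iff.mpr (hden z hz))] at hBz
    -- square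
    have hsq : ‖u z - a‖ ^ 2 ≤ (‖z‖ ^ p) ^ 2 * ‖1 - conj a * u z‖ ^ 2 := by
      rw [← mul_pow]
      exact pow_le_pow_left₀ (norm_nonneg _) hBz 2
    set A := ‖u z‖ with hA
    set C := ‖a‖ with hC
    set t := ‖z‖ ^ p with ht
    have hre : (conj a * u z).re ≤ C * A := by
      calc (conj a * u z).re ≤ ‖conj a * u z‖ := Complex.re_le_norm _
        _ = C * A := by rw [norm_mul, RCLike.norm_conj]
    have e1 : ‖u z - a‖ ^ 2 = A ^ 2 + C ^ 2 - 2 * (conj a * u z).re := by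
      rw [hA, hC, ← Complex.normSq_eq_norm_sq, ← Complex.normSq_eq_norm_sq,
        ← Complex.normSq_eq_norm_sq]
      simp only [Complex.normSq_apply, Complex.sub_re, Complex.sub_im, Complex.mul_re,
        Complex.conj_re, Complex.conj_im]
      ring
    have e2 : ‖1 - conj a * u z‖ ^ 2 = 1 + A ^ 2 * C ^ 2 - 2 * (conj a * u z).re := by
      rw [hA, hC, ← Complex.normSq_eq_norm_sq, ← Complex.normSq_eq_norm_sq,
        ← Complex.normSq_eq_norm_sq]
      simp only [Complex.normSq_apply, Complex.sub_re, Complex.sub_im, Complex.mul_re,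
        Complex.mul_im, Complex.conj_re, Complex.conj_im, Complex.one_re, Complex.one_im]
      ring
    rw [e1, e2] at hsq
    have hAC : 0 ≤ 1 - A * C := by
      have : 0 ≤ A := norm_nonneg _
      have : 0 ≤ C := norm_nonneg _
      nlinarith
    have hfin : (A - C) ^ 2 ≤ (t * (1 - A * C)) ^ 2 := by
      have ht2 : 0 ≤ 1 - t ^ 2 := by nlinarith
      have := mul_le_mul_of_nonneg_left hre ht2
      nlinarith
    exact abs_le_of_sq_le_sq hfin (mul_nonneg ht0 hAC)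

/-- numerical consequence of the Schwarz–Pick inequality -/
theorem pick_lower {A B t T a b : ℝ} (h : A - t ≤ B * (1 - t * A)) (ht0 : 0 ≤ t) (ht : t ≤ T)
    (hT : T < 1) (hbA : b ≤ A) (hA : A ≤ 1) (ha0 : 0 ≤ a) (hb1 : b ≤ 1)
    (hab : a * (1 - b * T) ≤ b - T) : a ≤ B := by
  have hT0 : 0 ≤ T := ht0.trans ht
  have hbT : 0 < 1 - b * T := by nlinarith
  have hb : T ≤ b := by nlinarith [mul_nonneg ha0 hbT.le]
  have ha1 : a ≤ 1 := by
    by_contra hcon
    push Not at hcon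
    nlinarith
  by_contra hcon
  push Not at hcon
  have h1 : 0 < 1 - t * A := by nlinarith
  have h2 : A - t < a * (1 - t * A) := by
    calc A - t ≤ B * (1 - t * A) := h
      _ < a * (1 - t * A) := by nlinarith
  have h3 : b * (1 + a * t) ≤ A * (1 + a * t) := by
    have : 0 ≤ 1 + a * t := by positivity
    nlinarith
  have h4 : b - a < t * (1 - a * b) := by nlinarith
  have h5 : t * (1 - a * b) ≤ T * (1 - a * b) := by
    have : 0 ≤ 1 - a * b := by nlinarith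
    nlinarith
  nlinarith

/-- Lower bound for the normalised derivative. -/
theorem deriv_lower {f : ℂ → EuclideanSpace ℂ (Fin 2)} (hf : DifferentiableOn ℂ f (ball 0 1))
    (hm : MapsTo f (ball 0 1) (ball 0 1)) (hf0 : f 0 = 0) {p : ℕ} (hp : 0 < p) {ω : ℂ}
    (hω : IsPrimitiveRoot ω p) (hrot : ∀ z ∈ ball (0 : ℂ) 1, f (ω * z) 0 = ω * f z 0)
    {q : ℂ} (hq : q ∈ ball (0 : ℂ) 1) (hq0 : q ≠ 0) {b X Y ρ a g s : ℝ}
    (hb : b * ‖q‖ ≤ ‖f q 0‖) (hX : ‖q‖ ^ p ≤ X) (hX1 : X < 1) (hρ0 : 0 < ρ) (hρ : ρ < 1)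
    (hY : ρ ^ p ≤ Y) (hY1 : Y < 1)
    (ha : a * (1 - b * X) ≤ b - X) (ha0 : 0 ≤ a) (hg : g * (1 - a * Y) ≤ a - Y) (hg0 : 0 ≤ g)
    (hs : s * (1 - g * ρ) ≤ g - ρ) (hs0 : 0 ≤ s) (hb1 : b ≤ 1)
    {w : ℂ} (hw : ‖w‖ ≤ ρ) {ψ : (ℂ × ℂ) ≃L[ℂ] (ℂ × ℂ)} (hψ : ψ ∈ UG ℂ)
    (hψw : act ψ 0 = w)
    {L : (ℂ × EuclideanSpace ℂ (Fin 2)) ≃L[ℂ] (ℂ × EuclideanSpace ℂ (Fin 2))}
    (hL : L ∈ UG (EuclideanSpace ℂ (Fin 2))) (hLw : act L (f w) = 0) :
    s ≤ ‖deriv (fun z : ℂ => act L (f (act ψ z))) 0‖ := by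
  have h0mem : (0 : ℂ) ∈ ball (0 : ℂ) 1 := by simp
  have hnhds : ball (0 : ℂ) 1 ∈ 𝓝 (0 : ℂ) := isOpen_ball.mem_nhds h0mem
  have hωn : ‖ω‖ = 1 := hω.norm'_eq_one hp.ne'
  have hωne : ω ≠ 0 := by
    intro h; rw [h, norm_zero] at hωn; exact zero_ne_one hωn
  have hωmem : ∀ z ∈ ball (0 : ℂ) 1, ω * z ∈ ball (0 : ℂ) 1 := by
    intro z hz
    rw [mem_ball_zero_iff] at hz ⊢
    rw [norm_mul, hωn, one_mul]; exact hz
  have hw1 : w ∈ ball (0 : ℂ) 1 := by
    rw [mem_ball_zero_iff]; exact hw.trans_lt hρ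
  -- first coordinate
  let F : ℂ → ℂ := fun z => f z 0
  have hFd : DifferentiableOn ℂ F (ball 0 1) := by
    have := (EuclideanSpace.proj (𝕜 := ℂ) (0 : Fin 2)).differentiable.comp_differentiableOn hf
    exact this
  have hcoord : ∀ x : EuclideanSpace ℂ (Fin 2), ‖x 0‖ ≤ ‖x‖ := fun x =>
    PiLp.norm_apply_le x 0
  have hF0 : F 0 = 0 := by simp [F, hf0]
  have hFb : ∀ z ∈ ball (0 : ℂ) 1, ‖F z‖ ≤ 1 := by
    intro z hz
    have h1 : ‖f z‖ < 1 := by simpa using hm hz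
    exact (hcoord (f z)).trans h1.le
  let u : ℂ → ℂ := dslope F 0
  have hud : DifferentiableOn ℂ u (ball 0 1) := (Complex.differentiableOn_dslope hnhds).mpr hFd
  have hub : ∀ z ∈ ball (0 : ℂ) 1, ‖u z‖ ≤ 1 := by
    intro z hz
    have h1 := Complex.norm_dslope_le_div_of_mapsTo_ball (R₁ := 1) (R₂ := 1) hFd (by
      intro w hw
      rw [hF0, mem_closedBall_zero_iff]
      exact hFb w hw) hz
    simpa using h1
  have huF : ∀ z : ℂ, z * u z = F z := by
    intro z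
    have h1 := sub_smul_dslope F 0 z
    rw [hF0, sub_zero, sub_zero, smul_eq_mul] at h1
    exact h1
  have hurot : ∀ z ∈ ball (0 : ℂ) 1, u (ω * z) = u z := by
    intro z hz
    by_cases hz0 : z = 0
    · rw [hz0, mul_zero]
    · have h1 := huF (ω * z)
      have h2 : F (ω * z) = ω * F z := hrot z hz
      rw [h2, ← huF z] at h1
      have h3 : (ω * z) * u (ω * z) = (ω * z) * u z := by rw [h1]; ring
      exact mul_left_cancel₀ (mul_ne_zero hωne hz0) h3
  -- lower bound at `0`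
  have hqn : 0 < ‖q‖ := norm_pos_iff.mpr hq0
  have huq : b ≤ ‖u q‖ := by
    have h1 : ‖q‖ * ‖u q‖ = ‖F q‖ := by rw [← norm_mul, huF]
    have h2 : b * ‖q‖ ≤ ‖q‖ * ‖u q‖ := by rw [h1]; exact hb
    nlinarith
  have hu0 : a ≤ ‖u 0‖ :=
    pick_lower (schwarz_mult hud hub hp hω hurot hq).1 (by positivity) hX hX1 huq (hub q hq) ha0
      hb1 ha
  have ha1 : a ≤ 1 := hu0.trans (hub 0 h0mem)
  have hY0 : 0 ≤ Y := (pow_nonneg hρ0.le p).trans hY
  -- lower bound at `w`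
  have huw : g ≤ ‖u w‖ := by
    have h1 : ‖w‖ ^ p ≤ Y := (pow_le_pow_left₀ (norm_nonneg w) hw p).trans hY
    exact pick_lower (schwarz_mult hud hub hp hω hurot hw1).2 (by positivity) h1 hY1 hu0
      (hub 0 h0mem) hg0 ha1 hg
  have hg1 : g ≤ 1 := huw.trans (hub w hw1)
  have hga : g ≤ a := by
    by_contra hcon
    push Not at hcon
    nlinarith [mul_nonneg ha0 hY0, mul_nonneg hg0 ha0]
  have hgρ : ρ ≤ g := by
    have : 0 ≤ s * (1 - g * ρ) := by
      apply mul_nonneg hs0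
      nlinarith
    linarith
  have hsg : s ≤ g := by
    by_contra hcon
    push Not at hcon
    have h1 : 0 < 1 - g * ρ := by nlinarith
    have h2 : g * (1 - g * ρ) < s * (1 - g * ρ) := by nlinarith
    have h3 : g * g ≤ 1 := by nlinarith
    have h4 : g * g * ρ ≤ ρ := by nlinarith
    nlinarith
  have hfw : g * ‖w‖ ≤ ‖f w‖ := by
    have h1 : ‖w‖ * ‖u w‖ = ‖F w‖ := by rw [← norm_mul, huF]
    have h2 : ‖F w‖ ≤ ‖f w‖ := hcoord (f w)
    nlinarith [norm_nonneg w]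
  -- the normalised map
  set G0 : ℂ → EuclideanSpace ℂ (Fin 2) := fun z => act L (f (act ψ z)) with hG0def
  have hψm : ∀ z ∈ ball (0 : ℂ) 1, act ψ z ∈ ball (0 : ℂ) 1 := fun z hz => act_mem hψ hz
  have hG0d : DifferentiableOn ℂ G0 (ball 0 1) :=
    (act_differentiableOn hL).comp (hf.comp (act_differentiableOn hψ) hψm)
      (fun z hz => hm (hψm z hz))
  have hG0m : MapsTo G0 (ball 0 1) (ball 0 1) := fun z hz => act_mem hL (hm (hψm z hz))
  have hG00 : G0 0 = 0 := by simp only [hG0def]; rw [hψw, hLw]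
  let G : ℂ → EuclideanSpace ℂ (Fin 2) := dslope G0 0
  have hGd : DifferentiableOn ℂ G (ball 0 1) := (Complex.differentiableOn_dslope hnhds).mpr hG0d
  have hGb : ∀ z ∈ ball (0 : ℂ) 1, ‖G z‖ ≤ 1 := by
    intro z hz
    have h1 := Complex.norm_dslope_le_div_of_mapsTo_ball (R₁ := 1) (R₂ := 1) hG0d (by
      intro w hw
      rw [hG00]
      exact ball_subset_closedBall (hG0m hw)) hz
    simpa using h1
  have hGG0 : ∀ z : ℂ, z • G z = G0 z := by
    intro z
    have h1 := sub_smul_dslope G0 0 z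
    rw [hG00, sub_zero, sub_zero] at h1
    exact h1
  have hG0' : G 0 = deriv G0 0 := dslope_same G0 0
  rw [← hG0']
  have hf0m : f 0 ∈ ball (0 : EuclideanSpace ℂ (Fin 2)) 1 := hm h0mem
  have h0V : (0 : EuclideanSpace ℂ (Fin 2)) ∈ ball (0 : EuclideanSpace ℂ (Fin 2)) 1 := by simp
  by_cases hw0 : w = 0
  · -- `w = 0`
    have hYf0 : ∀ {V : Type} [NormedAddCommGroup V] [InnerProductSpace ℂ V]
        (M : (ℂ × V) ≃L[ℂ] (ℂ × V)), M ∈ UG V → act M 0 = 0 → ∀ x ∈ ball (0 : V) 1,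
        ‖act M x‖ = ‖x‖ := by
      intro V _ _ M hM hM0 x hx
      have h1 := Yf_act hM hx (by simp : (0 : V) ∈ ball (0 : V) 1)
      rw [hM0] at h1
      have h2 : ‖act M x‖ < 1 := by simpa using act_mem hM hx
      have h3 : ‖x‖ < 1 := by simpa using hx
      unfold Yf at h1
      simp only [inner_zero_right, sub_zero, norm_one, one_pow, norm_zero, ne_eq,
        OfNat.ofNat_ne_zero, not_false_eq_true, zero_pow, mul_one] at h1
      have q1 : 0 < 1 - ‖act M x‖ ^ 2 := by nlinarith [norm_nonneg (act M x)]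
      have q2 : 0 < 1 - ‖x‖ ^ 2 := by nlinarith [norm_nonneg x]
      rw [div_eq_div_iff q1.ne' q2.ne'] at h1
      exact (pow_left_inj₀ (norm_nonneg _) (norm_nonneg _) two_ne_zero).mp (by linarith)
    have hψ0 : act ψ 0 = 0 := by rw [hψw, hw0]
    have hL0 : act L 0 = 0 := by
      rw [hw0, hf0] at hLw; exact hLw
    have hineq : ∀ z ∈ ball (0 : ℂ) 1, z ≠ 0 → ‖u (act ψ z)‖ ≤ ‖G z‖ := by
      intro z hz hz0
      have h1 : ‖act ψ z‖ = ‖z‖ := hYf0 ψ hψ hψ0 z hz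
      have h2 : ‖G0 z‖ = ‖f (act ψ z)‖ := hYf0 L hL hL0 _ (hm (hψm z hz))
      have h3 : ‖act ψ z‖ * ‖u (act ψ z)‖ = ‖F (act ψ z)‖ := by rw [← norm_mul, huF]
      have h4 : ‖F (act ψ z)‖ ≤ ‖f (act ψ z)‖ := hcoord _
      have h5 : ‖z‖ * ‖G z‖ = ‖G0 z‖ := by rw [← norm_smul, hGG0]
      have h6 : 0 < ‖z‖ := norm_pos_iff.mpr hz0
      rw [h1] at h3
      have h7 : ‖z‖ * ‖u (act ψ z)‖ ≤ ‖z‖ * ‖G z‖ := by rw [h3, h5, h2]; exact h4
      exact le_of_mul_le_mul_left h7 h6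
    have hGc : Tendsto (fun z => ‖G z‖) (𝓝[≠] 0) (𝓝 ‖G 0‖) :=
      ((hGd.differentiableAt hnhds).continuousAt.norm.tendsto).mono_left nhdsWithin_le_nhds
    have huc : Tendsto (fun z => ‖u (act ψ z)‖) (𝓝[≠] 0) (𝓝 ‖u 0‖) := by
      have h1 : ContinuousAt (fun z => u (act ψ z)) 0 := by
        have h2 : ContinuousAt u (act ψ 0) := by
          rw [hψ0]; exact (hud.differentiableAt hnhds).continuousAt
        exact ContinuousAt.comp (f := act ψ) h2 (act_differentiableAt hψ h0mem).continuousAt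
      have h3 := h1.norm.tendsto
      rw [hψ0] at h3
      exact h3.mono_left nhdsWithin_le_nhds
    have hle : ‖u 0‖ ≤ ‖G 0‖ := by
      apply le_of_tendsto_of_tendsto huc hGc
      have hmm : ∀ᶠ z in 𝓝[≠] (0 : ℂ), z ∈ ball (0 : ℂ) 1 := mem_nhdsWithin_of_mem_nhds hnhds
      filter_upwards [hmm, self_mem_nhdsWithin] with z hz hz0
      exact hineq z hz hz0
    linarith
  · -- `w ≠ 0`
    have hwn : 0 < ‖w‖ := norm_pos_iff.mpr hw0
    set zs : ℂ := act ψ⁻¹ 0 with hzs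
    have hzsm : zs ∈ ball (0 : ℂ) 1 := act_mem ((UG ℂ).inv_mem hψ) h0mem
    have hzsn : ‖zs‖ = ‖w‖ := by rw [hzs, ← norm_act_zero hψ, hψw]
    have hzs0 : zs ≠ 0 := by
      intro h; rw [h, norm_zero] at hzsn; linarith
    have hψzs : act ψ zs = 0 := act_act_inv hψ h0mem
    have hG0zs : G0 zs = act L 0 := by
      simp only [hG0def]; rw [hψzs, hf0]
    have hnorm : ‖G0 zs‖ = ‖f w‖ := by
      rw [hG0zs, norm_act_zero hL]
      rw [← hLw, act_inv_act hL (hm hw1)]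
    have hGzs : g ≤ ‖G zs‖ := by
      have h1 : ‖zs‖ * ‖G zs‖ = ‖G0 zs‖ := by rw [← norm_smul, hGG0]
      rw [hzsn, hnorm] at h1
      nlinarith
    have hGzsp : 0 < ‖G zs‖ := by linarith
    let v : ℂ → ℂ := fun z => ((‖G zs‖ : ℝ) : ℂ)⁻¹ * inner ℂ (G zs) (G z)
    have hvd : DifferentiableOn ℂ v (ball 0 1) :=
      ((innerSL ℂ (G zs)).differentiable.comp_differentiableOn hGd).const_mul _
    have hvle : ∀ z, ‖v z‖ ≤ ‖G z‖ := by
      intro z
      simp only [v]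
      rw [norm_mul, norm_inv, Complex.norm_real, norm_norm, inv_mul_le_iff₀ hGzsp]
      exact norm_inner_le_norm _ _
    have hvzs : ‖v zs‖ = ‖G zs‖ := by
      simp only [v]
      rw [norm_mul, norm_inv, Complex.norm_real, norm_norm, inner_self_eq_norm_sq_to_K]
      rw [norm_pow, RCLike.norm_ofReal, abs_norm]
      field_simp
    have hvb : ∀ z ∈ ball (0 : ℂ) 1, ‖v z‖ ≤ 1 := fun z hz => (hvle z).trans (hGb z hz)
    have h1 := (schwarz_mult hvd hvb one_pos IsPrimitiveRoot.one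
      (fun z _ => by rw [one_mul]) hzsm).1
    rw [pow_one] at h1
    have h2 : s ≤ ‖v 0‖ := by
      have h3 : g ≤ ‖v zs‖ := by rw [hvzs]; exact hGzs
      exact pick_lower h1 (norm_nonneg _) (by rw [hzsn]; exact hw) hρ h3 (hvb zs hzsm) hs0 hg1 hs
    exact h2.trans (hvle 0)

end Pool.Agent.BallCurve
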