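import Pool.Agent.MP_071e05_an.Assemble
import Pool.Agent.MP_071e05_an.Bounds
import Pool.Agent.MP_071e05_an.Criterion
import Pool.Agent.MP_071e05_an.Lower

/-!
The global holomorphic map of the disc to the ball of `ℂ²`, and its properties.
-/

set_option autoImplicit false
set_option linter.unusedSectionVars false

open MeasureTheory Metric Set Filter Topology ComplexConjugate

namespace Pool.Agent.BallCurve

theorem exists_sys : ∃ S : Sys, S.c1.D2.e = e2 ∧ S.c1.D2.al = a2 ∧ S.c1.D3.e = e3 ∧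
    S.c1.D3.al = a3 ∧ S.c0.p = 21 ∧ S.c0.m3 1 = 1 := by
  obtain ⟨D2, he, ha, hT⟩ := exists_D2
  obtain ⟨D3, he', ha'⟩ := exists_D3
  have s2 := sgn_D2 he ha
  have s3 := sgn_D3 he' ha'
  obtain ⟨c1, h1, h2⟩ := exists_C1D s2 s3 hT
  have k2 : Mult D2 21 ![0, 1] := by
    refine ⟨by norm_num, ?_⟩
    intro j
    rw [he]
    fin_cases j <;> simp [e2]
  have k3 : Mult D3 21 ![0, 1, 10] := by
    refine ⟨by norm_num, ?_⟩
    intro j
    rw [he']
    fin_cases j <;> simp [e3] <;> norm_num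
  have k2' : Mult D2.dual 5 ![0, 1] := by
    refine ⟨by norm_num, ?_⟩
    intro j
    change _ = _ * (D2.al j - D2.al 0)
    rw [ha]
    fin_cases j <;> simp [a2]
  have k3' : Mult D3.dual 5 ![0, 1, 2] := by
    refine ⟨by norm_num, ?_⟩
    intro j
    change _ = _ * (D3.al j - D3.al 0)
    rw [ha']
    fin_cases j <;> simp [a3] <;> norm_num
  refine ⟨⟨⟨D2, D3, 21, ![0, 1], ![0, 1, 10], s2.posD, s3.posD, k2, k3, rfl⟩,
    ⟨D2.dual, D3.dual, 5, ![0, 1], ![0, 1, 2], s2.posD', s3.posD', k2', k3', rfl⟩, c1,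
    h1.symm, h2.symm, by rw [h1], by rw [h2]⟩, ?_, ?_, ?_, ?_, rfl, rfl⟩
  · exact h1 ▸ he
  · exact h1 ▸ ha
  · exact h2 ▸ he'
  · exact h2 ▸ ha'

variable {n : ℕ}

theorem u0_zero {E : HD (n + 1)} {p : ℕ} {m : Fin (n + 1) → ℕ} (hm : Mult E p m) :
    u0 E p m 0 = 0 := by
  unfold u0 nrm
  ext k
  have : x0 E p m 0 k.succ = 0 := by
    unfold x0
    rw [zero_pow (hm.mpos k).ne', zero_mul]
  simp [this]

theorem x0_exp {E : HD (n + 1)} {p : ℕ} {m : Fin (n + 1) → ℕ} (hm : Mult E p m) (τ : ℂ)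
    (j : Fin (n + 1)) : x0 E p m (Complex.exp (τ / p)) j =
      Complex.exp (-(E.e 0 * τ)) * FK E.ν (E.e j) τ := by
  have hp : (p : ℂ) ≠ 0 := by exact_mod_cast hm.ppos.ne'
  have h1 : Complex.exp (τ / p) ^ p = Complex.exp τ := by
    rw [← Complex.exp_nat_mul]; congr 1; field_simp
  have h2 : Complex.exp (τ / p) ^ m j = Complex.exp ((E.e j - E.e 0 : ℝ) * τ) := by
    rw [← Complex.exp_nat_mul]; congr 1
    have h3 : (m j : ℂ) = ((p * (E.e j - E.e 0) : ℝ) : ℂ) := by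
      rw [← hm.eq j]; simp
    rw [h3]; push_cast; field_simp
  unfold x0 FK
  rw [h1, h2, ← mul_assoc, ← Complex.exp_add]
  congr 2
  push_cast
  ring

theorem u0_exp {E : HD (n + 1)} {p : ℕ} {m : Fin (n + 1) → ℕ} (hm : Mult E p m) (τ : ℂ) :
    u0 E p m (Complex.exp (τ / p)) = RF E τ := by
  unfold u0 RF
  have : x0 E p m (Complex.exp (τ / p)) =
      fun j => Complex.exp (-(E.e 0 * τ)) * FK E.ν (E.e j) τ := funext (x0_exp hm τ)
  rw [this, nrm_smul _ _ (Complex.exp_ne_zero _)]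

theorem RF_eq_uv (D : HD (n + 1)) {τ : ℂ} (hτ : τ ∈ S0) : RF D τ = D.uv τ := by
  unfold RF nrm HD.uv
  ext k
  simp only [D.Fx_eq_F _ hτ]
  rfl

theorem Sc_subset_closure : Sc ⊆ closure S0 := by
  intro τ hτ
  have h1 : Tendsto (fun s : ℝ => (τ.re : ℂ) + ((1 - s) * τ.im + s * Real.pi : ℝ) * Complex.I)
      (𝓝[>] 0) (𝓝 τ) := by
    have hc : Continuous (fun s : ℝ => (τ.re : ℂ) + ((1 - s) * τ.im + s * Real.pi : ℝ) * Complex.I) := by
      fun_prop
    have h2 := hc.tendsto 0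
    have h3 : (τ.re : ℂ) + ((1 - 0) * τ.im + 0 * Real.pi : ℝ) * Complex.I = τ := by
      apply Complex.ext <;> simp
    rw [h3] at h2
    exact h2.mono_left nhdsWithin_le_nhds
  apply mem_closure_of_tendsto h1
  have h4 : ∀ᶠ s : ℝ in 𝓝[>] 0, 0 < s ∧ s < 1 := by
    have : ∀ᶠ s : ℝ in 𝓝[>] 0, s ∈ Ioo (0 : ℝ) 1 := Ioo_mem_nhdsGT one_pos
    filter_upwards [this] with s hs using hs
  filter_upwards [h4] with s hs
  have h5 : ((τ.re : ℂ) + ((1 - s) * τ.im + s * Real.pi : ℝ) * Complex.I).im =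
      (1 - s) * τ.im + s * Real.pi := by simp
  have h6 := hτ.1
  have h7 := hτ.2
  constructor
  · rw [h5]
    have := mul_nonneg (sub_nonneg.mpr hs.2.le) h6
    nlinarith [mul_pos hs.1 Real.pi_pos]
  · rw [h5]
    have := mul_le_mul_of_nonneg_left h7 (sub_nonneg.mpr hs.2.le)
    nlinarith [mul_pos hs.1 Real.pi_pos]

/-- all properties of the global maps -/
structure GM (S : Sys) (f : ℂ → V2) (T : ℂ → Option ℂ) : Prop where
  diff : DifferentiableOn ℂ f (ball 0 1)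
  maps : MapsTo f (ball 0 1) (ball 0 1)
  chart : ∀ m ∈ M0 S.c0.p, f (z0 S.c0.E2 S.c0.p S.c0.m2 m) = u0 S.c0.E3 S.c0.p S.c0.m3 m ∧
    T (z0 S.c0.E2 S.c0.p S.c0.m2 m) = some (m ^ S.c0.p)
  disc : ∀ z ∈ ball (0 : ℂ) 1, ∀ᶠ x in 𝓝[≠] z, T x ≠ T z
  cocpt : ∃ K : Set ℂ, IsCompact K ∧ K ⊆ ball 0 1 ∧ ∀ z ∈ ball (0 : ℂ) 1,
        ∃ γ ∈ UG ℂ, ∃ L ∈ UG V2, act γ z ∈ K ∧
          ∀ x ∈ ball (0 : ℂ) 1, f (act γ x) = act L (f x) ∧ T (act γ x) = T x
  equiv : ∀ z ∈ ball (0 : ℂ) 1, ∀ z' ∈ ball (0 : ℂ) 1, T z = T z' →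
        ∃ γ ∈ UG ℂ, ∃ L ∈ UG V2, act γ z = z' ∧
          ∀ x ∈ ball (0 : ℂ) 1, f (act γ x) = act L (f x) ∧ T (act γ x) = T x
  mero : ∀ z ∈ ball (0 : ℂ) 1, LocMero T z

theorem z0_zero {E : HD (1 + 1)} {p : ℕ} {m : Fin (1 + 1) → ℕ} (hm : Mult E p m) :
    z0 E p m 0 = 0 := by
  unfold z0
  rw [u0_zero hm, map_zero]

theorem exists_GM (S : Sys) : ∃ f T, GM S f T := by
  obtain ⟨N, hN, hNM, hcov⟩ := S.cover
  obtain ⟨f, T, h1, h2, h3, h4, h5, h6, h7⟩ := continuation S.C 0 0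
    (zero_mem_M0 S.c0.k2.ppos) (z0_zero S.c0.k2) S.compat N hN hNM
    (fun i m _ => hcov ((S.C i).T m)) S.conn
  refine ⟨f, T, h1, h2, ?_, h4, h5, h6, h7⟩
  intro m hm
  obtain ⟨a, b⟩ := h3 m hm
  refine ⟨a, ?_⟩
  rw [← S.c0.T_eq]
  exact b

section

variable {S : Sys} {f : ℂ → V2} {T : ℂ → Option ℂ}

theorem GM.zero (h : GM S f T) : f 0 = 0 := by
  have := (h.chart 0 (zero_mem_M0 S.c0.k2.ppos)).1
  rwa [z0_zero S.c0.k2, u0_zero S.c0.k3] at this

theorem GM.T_zero (h : GM S f T) : T 0 = some 0 := by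
  have := (h.chart 0 (zero_mem_M0 S.c0.k2.ppos)).2
  rwa [z0_zero S.c0.k2, zero_pow S.c0.k2.ppos.ne'] at this

/-- strip points -/
theorem GM.strip (h : GM S f T) {τ : ℂ} (hτ : τ ∈ S0) :
    f (iso1 (S.c1.D2.uv τ)) = S.c1.D3.uv τ ∧ T (iso1 (S.c1.D2.uv τ)) = some (Complex.exp τ) := by
  have hp : (S.c0.p : ℂ) ≠ 0 := by exact_mod_cast S.c0.k2.ppos.ne'
  have h1 : Complex.exp (τ / S.c0.p) ^ S.c0.p = Complex.exp τ := by
    rw [← Complex.exp_nat_mul]; congr 1; field_simp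
  have hmem : Complex.exp (τ / S.c0.p) ∈ M0 S.c0.p := by
    change 1 - Complex.exp (τ / S.c0.p) ^ S.c0.p ∈ Complex.slitPlane
    rw [h1]
    exact slit_of_strip hτ.1 hτ.2
  obtain ⟨a, b⟩ := h.chart _ hmem
  have e1 : z0 S.c0.E2 S.c0.p S.c0.m2 (Complex.exp (τ / S.c0.p)) = iso1 (S.c1.D2.uv τ) := by
    unfold z0
    rw [u0_exp S.c0.k2, S.e02, RF_eq_uv _ hτ]
  rw [e1, h1] at b
  rw [e1, u0_exp S.c0.k3, S.e03, RF_eq_uv _ hτ] at a
  exact ⟨a, b⟩

theorem iso1_uv_mem (he : S.c1.D2.e = e2) (ha : S.c1.D2.al = a2) {τ : ℂ} (hτ : τ ∈ Sc) :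
    iso1 (S.c1.D2.uv τ) ∈ ball (0 : ℂ) 1 := by
  rw [mem_ball_zero_iff, iso1.norm_map]
  exact lt_of_le_of_lt (uv2_le he ha hτ) (by norm_num)

theorem iso1_uv_contOn : ContinuousOn (fun τ => iso1 (S.c1.D2.uv τ)) Sc :=
  iso1.continuous.comp_continuousOn S.c1.s2.uv_contOn

theorem GM.strip' (h : GM S f T) (he : S.c1.D2.e = e2) (ha : S.c1.D2.al = a2) {τ : ℂ}
    (hτ : τ ∈ Sc) :
    f (iso1 (S.c1.D2.uv τ)) = S.c1.D3.uv τ ∧ T (iso1 (S.c1.D2.uv τ)) = some (Complex.exp τ) := by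
  constructor
  · have h1 : EqOn (fun τ => f (iso1 (S.c1.D2.uv τ))) S.c1.D3.uv S0 := fun τ hτ => (h.strip hτ).1
    have h2 : ContinuousOn (fun τ => f (iso1 (S.c1.D2.uv τ))) Sc :=
      h.diff.continuousOn.comp iso1_uv_contOn (fun τ hτ => iso1_uv_mem he ha hτ)
    exact h1.of_subset_closure h2 S.c1.s3.uv_contOn S0_subset_Sc Sc_subset_closure hτ
  · set z := iso1 (S.c1.D2.uv τ) with hz
    obtain ⟨a, b, haa, hba, hab, hT⟩ := h.mero z (iso1_uv_mem he ha hτ)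
    have hzc : Tendsto (fun τ => iso1 (S.c1.D2.uv τ)) (𝓝[S0] τ) (𝓝 z) :=
      ((iso1_uv_contOn (S := S)) τ hτ).mono_left (nhdsWithin_mono _ S0_subset_Sc)
    have hne : (𝓝[S0] τ).NeBot := mem_closure_iff_nhdsWithin_neBot.mp (Sc_subset_closure hτ)
    have hev : ∀ᶠ τ' in 𝓝[S0] τ, a (iso1 (S.c1.D2.uv τ')) -
        Complex.exp τ' * b (iso1 (S.c1.D2.uv τ')) = 0 := by
      filter_upwards [hzc.eventually hT,
        hzc.eventually (eventually_ne_or haa.continuousAt hba.continuousAt hab),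
        self_mem_nhdsWithin] with τ' h1 h2 h3
      rw [(h.strip h3).2] at h1
      have h4 : pt (Complex.exp τ') 1 = some (Complex.exp τ') := by
        unfold pt; rw [if_neg one_ne_zero, div_one]
      rw [← h4] at h1
      have := (pt_eq_iff (Or.inr one_ne_zero) h2).mp h1
      linear_combination -this
    have hlim : Tendsto (fun τ' => a (iso1 (S.c1.D2.uv τ')) -
        Complex.exp τ' * b (iso1 (S.c1.D2.uv τ'))) (𝓝[S0] τ) (𝓝 (a z - Complex.exp τ * b z)) := by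
      apply Tendsto.sub (haa.continuousAt.tendsto.comp hzc)
      apply Tendsto.mul
      · exact Complex.continuous_exp.continuousAt.tendsto.mono_left nhdsWithin_le_nhds
      · exact hba.continuousAt.tendsto.comp hzc
    have h0 : a z - Complex.exp τ * b z = 0 :=
      tendsto_nhds_unique (hlim.congr' hev) tendsto_const_nhds
    have hTz := hT.self_of_nhds
    rw [hTz]
    have h4 : pt (Complex.exp τ) 1 = some (Complex.exp τ) := by
      unfold pt; rw [if_neg one_ne_zero, div_one]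
    rw [← h4]
    apply (pt_eq_iff hab (Or.inr one_ne_zero)).mpr
    linear_combination h0

theorem GM.onto (h : GM S f T) (he : S.c1.D2.e = e2) (ha : S.c1.D2.al = a2) (t : Option ℂ) :
    ∃ z : ℂ, ‖z‖ ≤ 0.9 ∧ T z = t := by
  cases t with
  | none =>
    -- the limit point at the right end
    have hx : Tendsto (fun x : ℝ => (x : ℂ) + Real.pi * Complex.I) atTop (comap Complex.re atTop) := by
      rw [tendsto_comap_iff]
      have : (Complex.re ∘ fun x : ℝ => (x : ℂ) + Real.pi * Complex.I) = fun x => x := by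
        funext x; simp
      rw [this]
      exact tendsto_id
    have hS : ∀ x : ℝ, (x : ℂ) + Real.pi * Complex.I ∈ S0 := by
      intro x
      constructor <;> simp [Real.pi_pos]
    have hl := S.c1.s2.uv_right.comp hx
    have hl2 := (iso1.continuous.tendsto _).comp hl
    set z := iso1 (WithLp.toLp 2 (fun k : Fin 1 => (S.c1.D2.cst k : ℂ) *
      (S.c1.D2.W k.succ 0 / S.c1.D2.W 0 0))) with hz
    have hn : ‖z‖ ≤ 0.9 := by
      apply le_of_tendsto hl2.norm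
      filter_upwards with x
      change ‖iso1 (S.c1.D2.uv ((x : ℂ) + Real.pi * Complex.I))‖ ≤ 0.9
      rw [iso1.norm_map]
      exact uv2_le he ha (S0_subset_Sc (hS x))
    refine ⟨z, hn, ?_⟩
    have hzb : z ∈ ball (0 : ℂ) 1 := by
      rw [mem_ball_zero_iff]; exact lt_of_le_of_lt hn (by norm_num)
    obtain ⟨a, b, haa, hba, hab, hT⟩ := h.mero z hzb
    have hev : ∀ᶠ x : ℝ in atTop, b (iso1 (S.c1.D2.uv ((x : ℂ) + Real.pi * Complex.I))) =
        Complex.exp (-((x : ℂ) + Real.pi * Complex.I)) *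
          a (iso1 (S.c1.D2.uv ((x : ℂ) + Real.pi * Complex.I))) := by
      filter_upwards [hl2.eventually hT,
        hl2.eventually (eventually_ne_or haa.continuousAt hba.continuousAt hab)] with x h1 h2
      change T (iso1 (S.c1.D2.uv ((x : ℂ) + Real.pi * Complex.I))) = _ at h1
      rw [(h.strip (hS x)).2] at h1
      have h4 : pt (Complex.exp ((x : ℂ) + Real.pi * Complex.I)) 1 =
          some (Complex.exp ((x : ℂ) + Real.pi * Complex.I)) := by
        unfold pt; rw [if_neg one_ne_zero, div_one]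
      rw [← h4] at h1
      have h5 := (pt_eq_iff (Or.inr one_ne_zero) h2).mp h1
      have h6 : Complex.exp (-((x : ℂ) + Real.pi * Complex.I)) *
        Complex.exp ((x : ℂ) + Real.pi * Complex.I) = 1 := by rw [← Complex.exp_add]; simp
      change Complex.exp ((x : ℂ) + Real.pi * Complex.I) *
        b (iso1 (S.c1.D2.uv ((x : ℂ) + Real.pi * Complex.I))) -
        a (iso1 (S.c1.D2.uv ((x : ℂ) + Real.pi * Complex.I))) * 1 = 0 at h5
      linear_combination Complex.exp (-((x : ℂ) + Real.pi * Complex.I)) * h5 -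
        b (iso1 (S.c1.D2.uv ((x : ℂ) + Real.pi * Complex.I))) * h6
    have hexp : Tendsto (fun x : ℝ => Complex.exp (-((x : ℂ) + Real.pi * Complex.I))) atTop (𝓝 0) :=
      tendsto_exp_left.comp (tendsto_neg_right.comp hx)
    have hlim : Tendsto (fun x : ℝ => Complex.exp (-((x : ℂ) + Real.pi * Complex.I)) *
          a (iso1 (S.c1.D2.uv ((x : ℂ) + Real.pi * Complex.I)))) atTop (𝓝 (0 * a z)) :=
      hexp.mul (haa.continuousAt.tendsto.comp hl2)
    have hlimb : Tendsto (fun x : ℝ => b (iso1 (S.c1.D2.uv ((x : ℂ) + Real.pi * Complex.I))))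
        atTop (𝓝 (b z)) := hba.continuousAt.tendsto.comp hl2
    have hb0 : b z = 0 := by
      have := tendsto_nhds_unique (hlimb.congr' hev) hlim
      rw [this, zero_mul]
    rw [hT.self_of_nhds]
    unfold pt
    rw [if_pos hb0]
  | some t =>
    by_cases h0 : t = 0
    · exact ⟨0, by norm_num, by rw [h.T_zero, h0]⟩
    · obtain ⟨k, hk1, hk2⟩ := exists_shift (Complex.log t)
      have hSc : Complex.log t + k * (2 * Real.pi * Complex.I) ∈ Sc := ⟨hk1, hk2.le⟩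
      refine ⟨iso1 (S.c1.D2.uv (Complex.log t + k * (2 * Real.pi * Complex.I))), ?_, ?_⟩
      · rw [iso1.norm_map]
        exact uv2_le he ha hSc
      · rw [(h.strip' he ha hSc).2, exp_shift, Complex.exp_log h0]

/-- rotation symmetry -/
theorem GM.rot (h : GM S f T) (hm3 : S.c0.m3 1 = 1) {ω : ℂ} (hω : ω ^ S.c0.p = 1)
    {z : ℂ} (hz : z ∈ ball (0 : ℂ) 1) : f (ω * z) 0 = ω * f z 0 := by
  have hωn : ‖ω‖ = 1 := by
    have h1 : ‖ω‖ ^ S.c0.p = 1 := by rw [← norm_pow, hω, norm_one]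
    exact (pow_eq_one_iff_of_nonneg (norm_nonneg _) S.c0.k2.ppos.ne').mp h1
  have hωmem : ∀ z ∈ ball (0 : ℂ) 1, ω * z ∈ ball (0 : ℂ) 1 := by
    intro z hz
    rw [mem_ball_zero_iff] at hz ⊢
    rw [norm_mul, hωn, one_mul]; exact hz
  have hx : ∀ (k : ℕ) (E : HD (k + 1)) (m : Fin (k + 1) → ℕ) (ζ : ℂ) (j : Fin (k + 1)),
      x0 E S.c0.p m (ω * ζ) j = ω ^ (m j) * x0 E S.c0.p m ζ j := by
    intro k E m ζ j
    unfold x0
    rw [mul_pow, mul_pow, hω, one_mul, mul_assoc]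
  have hmem : ∀ ζ ∈ M0 S.c0.p, ω * ζ ∈ M0 S.c0.p := by
    intro ζ hζ
    change 1 - (ω * ζ) ^ S.c0.p ∈ Complex.slitPlane
    rw [mul_pow, hω, one_mul]; exact hζ
  have hz0 : ∀ ζ, z0 S.c0.E2 S.c0.p S.c0.m2 (ω * ζ) = ω * z0 S.c0.E2 S.c0.p S.c0.m2 ζ := by
    intro ζ
    unfold z0 u0 nrm
    rw [iso1_apply, iso1_apply]
    simp only [hx]
    have e1 : S.c0.m2 (Fin.succ 0) = 1 := S.c0.m21
    rw [e1, S.c0.k2.m0]
    ring
  have hu0 : ∀ ζ, u0 S.c0.E3 S.c0.p S.c0.m3 (ω * ζ) 0 = ω * u0 S.c0.E3 S.c0.p S.c0.m3 ζ 0 := by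
    intro ζ
    unfold u0 nrm
    simp only [hx]
    have e1 : S.c0.m3 (Fin.succ 0) = 1 := hm3
    rw [e1, S.c0.k3.m0]
    ring
  -- the two sides agree on the image of the chart
  have hloc : ∀ ζ ∈ M0 S.c0.p, f (ω * z0 S.c0.E2 S.c0.p S.c0.m2 ζ) 0 =
      ω * f (z0 S.c0.E2 S.c0.p S.c0.m2 ζ) 0 := by
    intro ζ hζ
    rw [← hz0, (h.chart _ (hmem ζ hζ)).1, (h.chart _ hζ).1, hu0]
  have h0M := zero_mem_M0 S.c0.k2.ppos
  -- open mapping at 0
  have han : AnalyticAt ℂ (z0 S.c0.E2 S.c0.p S.c0.m2) 0 := by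
    have hd : DifferentiableOn ℂ (z0 S.c0.E2 S.c0.p S.c0.m2) (M0 S.c0.p) := fun ζ hζ =>
      (z0_differentiableAt S.c0.h2 S.c0.k2 hζ).differentiableWithinAt
    exact hd.analyticAt ((isOpen_M0 _).mem_nhds h0M)
  obtain ⟨g, g1, g2, g3, -⟩ := exists_local_inverse han
    (z0_deriv_ne S.c0.h2 S.c0.k2 S.c0.m21 h0M)
  rw [z0_zero S.c0.k2] at g1 g2 g3
  have hev : ∀ᶠ y in 𝓝 (0 : ℂ), f (ω * y) 0 = ω * f y 0 := by
    have hgc : Tendsto g (𝓝 0) (𝓝 0) := by
      have := g1.continuousAt.tendsto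
      rwa [g2] at this
    filter_upwards [g3, hgc.eventually ((isOpen_M0 S.c0.p).mem_nhds h0M)] with y h1 h2
    have := hloc (g y) h2
    rwa [h1] at this
  have hf0 : DifferentiableOn ℂ (fun z => f z 0) (ball 0 1) := by
    have hproj : Differentiable ℂ (fun v : V2 => v 0) :=
      (EuclideanSpace.proj (𝕜 := ℂ) (0 : Fin 2)).differentiable
    exact hproj.comp_differentiableOn h.diff
  have hA : AnalyticOnNhd ℂ (fun z => f (ω * z) 0) (ball 0 1) := by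
    apply DifferentiableOn.analyticOnNhd _ isOpen_ball
    exact hf0.comp (by fun_prop) (fun z hz => hωmem z hz)
  have hB : AnalyticOnNhd ℂ (fun z => ω * f z 0) (ball 0 1) := by
    apply DifferentiableOn.analyticOnNhd _ isOpen_ball
    exact hf0.const_mul ω
  exact hA.eqOn_of_preconnected_of_eventuallyEq hB (convex_ball _ _).isPreconnected
    (by simp) hev hz

/-- nondegeneracy: the points `(1, f z)` span -/
theorem GM.nondeg (h : GM S f T) (he : S.c1.D2.e = e2) (ha : S.c1.D2.al = a2)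
    (φ : (ℂ × V2) →ₗ[ℂ] ℂ) (hφ : ∀ z ∈ ball (0 : ℂ) 1, φ (1, f z) = 0) : φ = 0 := by
  set v0 : ℂ × V2 := (1, 0)
  set v1 : ℂ × V2 := (0, EuclideanSpace.single 0 1)
  set v2 : ℂ × V2 := (0, EuclideanSpace.single 1 1)
  have hdec : ∀ (s : ℂ) (v : V2), ((s, v) : ℂ × V2) = s • v0 + v 0 • v1 + v 1 • v2 := by
    intro s v
    apply Prod.ext
    · simp [v0, v1, v2]
    · ext k
      fin_cases k <;> simp [v0, v1, v2]
  have hφv : ∀ (s : ℂ) (v : V2), φ (s, v) = s * φ v0 + v 0 * φ v1 + v 1 * φ v2 := by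
    intro s v
    rw [hdec s v, map_add, map_add, map_smul, map_smul, map_smul]
    simp only [smul_eq_mul]
  have key := S.c1.D3.F_linindep ![φ v0, φ v1 * S.c1.D3.cst 0, φ v2 * S.c1.D3.cst 1] (by
    intro τ hτ
    have h1 := hφ _ (iso1_uv_mem he ha (S0_subset_Sc hτ))
    rw [(h.strip hτ).1, hφv] at h1
    have hF0 := S.c1.s3.Fx_zero_ne (S0_subset_Sc hτ)
    have e0 : S.c1.D3.uv τ 0 = (S.c1.D3.cst 0 : ℂ) * (S.c1.D3.Fx 1 τ / S.c1.D3.Fx 0 τ) := rfl
    have e1 : S.c1.D3.uv τ 1 = (S.c1.D3.cst 1 : ℂ) * (S.c1.D3.Fx 2 τ / S.c1.D3.Fx 0 τ) := rfl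
    rw [e0, e1] at h1
    rw [Fin.sum_univ_three (f := fun j => ![φ v0, φ v1 * S.c1.D3.cst 0, φ v2 * S.c1.D3.cst 1] j *
      S.c1.D3.F j τ)]
    rw [← S.c1.D3.Fx_eq_F 0 hτ, ← S.c1.D3.Fx_eq_F 1 hτ, ← S.c1.D3.Fx_eq_F 2 hτ]
    simp only [Matrix.cons_val_zero, Matrix.cons_val_one, Matrix.cons_val]
    field_simp at h1
    linear_combination h1)
  have c0 : ((S.c1.D3.cst 0 : ℝ) : ℂ) ≠ 0 := by
    apply Complex.ofReal_ne_zero.mpr
    intro hc
    have := S.c1.s3.cst_sq 0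
    rw [hc] at this
    have h1 := S.c1.D3.dual.om_zero_pos
    have h2 := S.c1.s3.hom' 0
    have : 0 < -S.c1.D3.dual.om (Fin.succ 0) / S.c1.D3.dual.om 0 := div_pos (by linarith) h1
    nlinarith
  have c1 : ((S.c1.D3.cst 1 : ℝ) : ℂ) ≠ 0 := by
    apply Complex.ofReal_ne_zero.mpr
    intro hc
    have := S.c1.s3.cst_sq 1
    rw [hc] at this
    have h1 := S.c1.D3.dual.om_zero_pos
    have h2 := S.c1.s3.hom' 1
    have : 0 < -S.c1.D3.dual.om (Fin.succ 1) / S.c1.D3.dual.om 0 := div_pos (by linarith) h1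
    nlinarith
  have k0 : φ v0 = 0 := key 0
  have k1 : φ v1 = 0 := by
    have : φ v1 * S.c1.D3.cst 0 = 0 := key 1
    exact (mul_eq_zero.mp this).resolve_right c0
  have k2 : φ v2 = 0 := by
    have : φ v2 * S.c1.D3.cst 1 = 0 := key 2
    exact (mul_eq_zero.mp this).resolve_right c1
  apply LinearMap.ext
  rintro ⟨s, v⟩
  rw [hφv, k0, k1, k2]
  simp

end

end Pool.Agent.BallCurve
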