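import Pool.Agent.MP_071e05_an.Final

/-!
The discrete group acting on the ball of `ℂ²`.
-/

set_option autoImplicit false
set_option linter.unusedSectionVars false

open MeasureTheory Metric Set Filter Topology ComplexConjugate

namespace Pool.Agent.BallCurve

/-- the permutation of the ball defined by an element of `U(1,V)` -/
noncomputable def permOf {V : Type*} [NormedAddCommGroup V] [InnerProductSpace ℂ V]
    (L : (ℂ × V) ≃L[ℂ] (ℂ × V)) (hL : L ∈ UG V) : Equiv.Perm (ball (0 : V) 1) where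
  toFun v := ⟨act L v.1, act_mem hL v.2⟩
  invFun v := ⟨act L⁻¹ v.1, act_mem ((UG V).inv_mem hL) v.2⟩
  left_inv v := Subtype.ext (act_inv_act hL v.2)
  right_inv v := Subtype.ext (act_act_inv hL v.2)

/-- compatibility of a pair with the maps -/
def Cmp (f : ℂ → V2) (T : ℂ → Option ℂ) (γ : (ℂ × ℂ) ≃L[ℂ] (ℂ × ℂ))
    (L : (ℂ × V2) ≃L[ℂ] (ℂ × V2)) : Prop :=
  ∀ x ∈ ball (0 : ℂ) 1, f (act γ x) = act L (f x) ∧ T (act γ x) = T x

/-- the group -/
noncomputable def Grp (f : ℂ → V2) (T : ℂ → Option ℂ) (hf : MapsTo f (ball 0 1) (ball 0 1)) :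
    Subgroup (Equiv.Perm (ball (0 : V2) 1)) where
  carrier := {σ | ∃ γ ∈ UG ℂ, ∃ L ∈ UG V2, (∀ v : ball (0 : V2) 1, (σ v).1 = act L v.1) ∧
    Cmp f T γ L}
  mul_mem' := by
    rintro σ σ' ⟨γ, hγ, L, hL, h1, h2⟩ ⟨γ', hγ', L', hL', h1', h2'⟩
    refine ⟨γ * γ', (UG ℂ).mul_mem hγ hγ', L * L', (UG V2).mul_mem hL hL', ?_, ?_⟩
    · intro v
      rw [Equiv.Perm.mul_apply, h1, h1', act_mul hL hL' v.2]
    · intro x hx
      rw [act_mul hγ hγ' hx, act_mul hL hL' (hf hx), (h2 _ (act_mem hγ' hx)).1,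
        (h2 _ (act_mem hγ' hx)).2, (h2' x hx).1, (h2' x hx).2]
      exact ⟨rfl, rfl⟩
  one_mem' := by
    refine ⟨1, (UG ℂ).one_mem, 1, (UG V2).one_mem, ?_, ?_⟩
    · intro v; rw [act_one]; rfl
    · intro x _; rw [act_one, act_one]; exact ⟨rfl, rfl⟩
  inv_mem' := by
    rintro σ ⟨γ, hγ, L, hL, h1, h2⟩
    refine ⟨γ⁻¹, (UG ℂ).inv_mem hγ, L⁻¹, (UG V2).inv_mem hL, ?_, ?_⟩
    · intro v
      have h3 := h1 (σ⁻¹ v)
      have h4 : σ (σ⁻¹ v) = v := σ.apply_symm_apply v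
      rw [h4] at h3
      rw [h3, act_inv_act hL (σ⁻¹ v).2]
    · intro x hx
      have hy := act_mem ((UG ℂ).inv_mem hγ) hx
      have h3 := h2 _ hy
      rw [act_act_inv hγ hx] at h3
      rw [h3.1, h3.2, act_inv_act hL (hf hy)]
      exact ⟨rfl, rfl⟩

/-- the inverse of an injective proper holomorphic map is continuous -/
theorem inv_cont {f : ℂ → V2} (hd : ContinuousOn f (ball 0 1)) (hm : MapsTo f (ball 0 1) (ball 0 1))
    (hinj : InjOn f (ball 0 1))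
    (hprop : ∀ R < 1, ∃ r < 1, ∀ z ∈ ball (0 : ℂ) 1, ‖f z‖ ≤ R → ‖z‖ ≤ r) {a : ℂ}
    (ha : a ∈ ball (0 : ℂ) 1) {U : Set ℂ} (hU : U ∈ 𝓝 a) :
    ∃ ε > 0, ∀ y ∈ ball (0 : ℂ) 1, ‖f y - f a‖ < ε → y ∈ U := by
  have hfa : ‖f a‖ < 1 := by simpa using hm ha
  obtain ⟨R, hR1, hR2⟩ := exists_between hfa
  obtain ⟨r, hr, hr1⟩ := hprop R hR2
  -- compact set
  set Kc' : Set ℂ := closedBall 0 r \ interior U with hK
  have hKc : IsCompact Kc' := (isCompact_closedBall 0 r).diff isOpen_interior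
  have hKb : Kc' ⊆ ball 0 1 := fun x hx => closedBall_subset_ball hr hx.1
  have haK : a ∉ Kc' := fun h => h.2 (mem_interior_iff_mem_nhds.mpr hU)
  have himg : IsCompact (f '' Kc') := hKc.image_of_continuousOn (hd.mono hKb)
  have hfaK : f a ∉ f '' Kc' := by
    rintro ⟨x, hx, hxa⟩
    have := hinj (hKb hx) ha hxa
    exact haK (this ▸ hx)
  have hopen : (f '' Kc')ᶜ ∈ 𝓝 (f a) := himg.isClosed.isOpen_compl.mem_nhds hfaK
  obtain ⟨ε, hε, hball⟩ := Metric.mem_nhds_iff.mp hopen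
  refine ⟨min ε (R - ‖f a‖), lt_min hε (by linarith), ?_⟩
  intro y hy hya
  have h1 : ‖f y - f a‖ < ε := lt_of_lt_of_le hya (min_le_left _ _)
  have h2 : ‖f y - f a‖ < R - ‖f a‖ := lt_of_lt_of_le hya (min_le_right _ _)
  have h3 : ‖f y‖ ≤ R := by
    have : ‖f y‖ ≤ ‖f y - f a‖ + ‖f a‖ := by
      have := norm_add_le (f y - f a) (f a)
      simpa using this
    linarith
  have h4 := hr1 y hy h3
  by_contra hyU
  have h5 : y ∈ Kc' := ⟨by simpa using h4, fun hi => hyU (interior_subset hi)⟩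
  have h6 : f y ∈ (f '' Kc')ᶜ := hball (by rw [mem_ball, dist_eq_norm]; exact h1)
  exact h6 ⟨y, h5, rfl⟩

/-- an automorphism of the disc fixing the centre and another point is the identity -/
theorem fix_zero {γ : (ℂ × ℂ) ≃L[ℂ] (ℂ × ℂ)} (hγ : γ ∈ UG ℂ) (h1 : act γ 0 = 0) {b : ℂ}
    (hb0 : b ≠ 0) (h2 : act γ b = b) :
    ∀ x ∈ ball (0 : ℂ) 1, act γ x = x := by
  set p := (γ (1, 0)).1 with hp
  set q := (γ (1, 0)).2 with hq
  set r := (γ (0, 1)).1 with hr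
  set s := (γ (0, 1)).2 with hs
  have hlin : ∀ v : ℂ, γ (1, v) = (p + v * r, q + v * s) := by
    intro v
    have : ((1 : ℂ), v) = (1, 0) + v • ((0 : ℂ), (1 : ℂ)) := by
      apply Prod.ext <;> simp
    rw [this, map_add, map_smul]
    apply Prod.ext <;> simp [hp, hq, hr, hs]
  have h0mem : (0 : ℂ) ∈ ball (0 : ℂ) 1 := by simp
  have hp0 : p ≠ 0 := fst_ne_zero hγ h0mem
  have hq0 : q = 0 := by
    unfold act at h1
    rw [hlin] at h1
    simp only [zero_mul, add_zero, smul_eq_mul] at h1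
    exact (mul_eq_zero.mp h1).resolve_left (inv_ne_zero hp0)
  have hr0 : r = 0 := by
    have h3 := hf_map γ hγ (1, 0) (0, 1)
    unfold hf at h3
    change conj p * r - inner ℂ q s = _ at h3
    rw [hq0] at h3
    simp at h3
    exact h3.resolve_left hp0
  have hact : ∀ x, act γ x = p⁻¹ * (x * s) := by
    intro x
    unfold act
    rw [hlin, hq0, hr0]
    simp
  have hps : p⁻¹ * s = 1 := by
    rw [hact] at h2
    have : b * (p⁻¹ * s - 1) = 0 := by linear_combination h2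
    have := (mul_eq_zero.mp this).resolve_left hb0
    linear_combination this
  intro x _
  rw [hact]
  linear_combination x * hps

/-- an automorphism of the disc fixing two points is the identity -/
theorem fix_two {γ : (ℂ × ℂ) ≃L[ℂ] (ℂ × ℂ)} (hγ : γ ∈ UG ℂ) {a b : ℂ}
    (ha : a ∈ ball (0 : ℂ) 1) (hb : b ∈ ball (0 : ℂ) 1) (hab : a ≠ b) (h1 : act γ a = a)
    (h2 : act γ b = b) : ∀ x ∈ ball (0 : ℂ) 1, act γ x = x := by
  obtain ⟨B, hB, hBa⟩ := exists_act_eq_zero ha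
  have hBi := (UG ℂ).inv_mem hB
  have hδ : B * (γ * B⁻¹) ∈ UG ℂ := (UG ℂ).mul_mem hB ((UG ℂ).mul_mem hγ hBi)
  have hcomp : ∀ x ∈ ball (0 : ℂ) 1, act (B * (γ * B⁻¹)) (act B x) = act B (act γ x) := by
    intro x hx
    have e1 := act_mem hB hx
    rw [act_mul hB ((UG ℂ).mul_mem hγ hBi) e1, act_mul hγ hBi e1, act_inv_act hB hx]
  have k1 : act (B * (γ * B⁻¹)) 0 = 0 := by
    rw [← hBa, hcomp a ha, h1]
  have k2 : act (B * (γ * B⁻¹)) (act B b) = act B b := by rw [hcomp b hb, h2]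
  have k3 : act B b ≠ 0 := by
    rw [← hBa]
    intro h
    exact hab (act_injOn hB ha hb h.symm)
  intro x hx
  have := fix_zero hδ k1 k3 k2 _ (act_mem hB hx)
  rw [hcomp x hx] at this
  exact act_injOn hB (act_mem hγ hx) hx this

/-- if `act L` fixes `f` pointwise and the points `(1, f x)` span, then `act L` is the identity. -/
theorem act_eq_id {f : ℂ → V2} (hd : ContinuousOn f (ball 0 1))
    (hm : MapsTo f (ball 0 1) (ball 0 1))
    (hnd : ∀ φ : (ℂ × V2) →ₗ[ℂ] ℂ, (∀ z ∈ ball (0 : ℂ) 1, φ (1, f z) = 0) → φ = 0)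
    {L : (ℂ × V2) ≃L[ℂ] (ℂ × V2)} (hL : L ∈ UG V2)
    (hfix : ∀ x ∈ ball (0 : ℂ) 1, act L (f x) = f x) : ∀ v ∈ ball (0 : V2) 1, act L v = v := by
  set A : (ℂ × V2) →ₗ[ℂ] (ℂ × V2) := L.toLinearEquiv.toLinearMap with hA
  have hAL : ∀ x, A x = L x := fun _ => rfl
  -- eigenvalues
  set c : ℂ → ℂ := fun x => (L (1, f x)).1 with hc
  have heig : ∀ x ∈ ball (0 : ℂ) 1, L (1, f x) = c x • ((1 : ℂ), f x) := by
    intro x hx
    have := map_one_eq hL (hm hx)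
    rwa [hfix x hx] at this
  have hcont : ContinuousOn c (ball 0 1) := by
    have h1 : ContinuousOn (fun x => ((1 : ℂ), f x)) (ball 0 1) := continuousOn_const.prodMk hd
    exact (continuous_fst.comp L.continuous).comp_continuousOn h1
  set E : Set ℂ := {μ | Module.End.HasEigenvalue A μ} with hE
  have hfin : E.Finite := Module.End.finite_hasEigenvalue A
  have hmaps : MapsTo c (ball 0 1) E := by
    intro x hx
    apply Module.End.hasEigenvalue_of_hasEigenvector (x := ((1 : ℂ), f x))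
    refine ⟨?_, ?_⟩
    · rw [Module.End.mem_eigenspace_iff]
      exact heig x hx
    · intro h
      have := congrArg Prod.fst h
      simp at this
  have hconst : ∀ x ∈ ball (0 : ℂ) 1, c x = c 0 := by
    intro x hx
    exact (convex_ball (0 : ℂ) 1).isPreconnected.constant_of_mapsTo hfin.isDiscrete hcont hmaps hx
      (by simp)
  -- the eigenspace is everything
  have htop : Module.End.eigenspace A (c 0) = ⊤ := by
    by_contra hne
    obtain ⟨φ, hφ, hle⟩ := Submodule.exists_le_ker_of_lt_top _ (lt_top_iff_ne_top.mpr hne)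
    apply hφ
    apply hnd
    intro z hz
    apply hle
    rw [Module.End.mem_eigenspace_iff, ← hconst z hz]
    exact heig z hz
  have hc0 : c 0 ≠ 0 := fst_ne_zero hL (hm (by simp))
  intro v hv
  apply act_of_eq_smul hc0
  have : ((1 : ℂ), v) ∈ Module.End.eigenspace A (c 0) := by rw [htop]; trivial
  rw [Module.End.mem_eigenspace_iff] at this
  exact this

/-- discreteness of the group -/
theorem Grp_discrete {f : ℂ → V2} {T : ℂ → Option ℂ} (hd : ContinuousOn f (ball 0 1))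
    (hm : MapsTo f (ball 0 1) (ball 0 1)) (hinj : InjOn f (ball 0 1))
    (hprop : ∀ R < 1, ∃ r < 1, ∀ z ∈ ball (0 : ℂ) 1, ‖f z‖ ≤ R → ‖z‖ ≤ r)
    (hnd : ∀ φ : (ℂ × V2) →ₗ[ℂ] ℂ, (∀ z ∈ ball (0 : ℂ) 1, φ (1, f z) = 0) → φ = 0)
    (hT : ∀ z ∈ ball (0 : ℂ) 1, ∀ᶠ x in 𝓝[≠] z, T x ≠ T z) :
    ∃ K : Set V2, IsCompact K ∧ K ⊆ ball (0 : V2) 1 ∧ ∃ ε : ℝ, 0 < ε ∧
      ∀ σ ∈ Grp f T hm, (∀ z : ball (0 : V2) 1, z.1 ∈ K → ‖(σ z).1 - z.1‖ < ε) → σ = 1 := by
  have ha : (0 : ℂ) ∈ ball (0 : ℂ) 1 := by simp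
  have hb : (1 / 2 : ℂ) ∈ ball (0 : ℂ) 1 := by
    rw [mem_ball_zero_iff]; norm_num
  have hab : (0 : ℂ) ≠ 1 / 2 := by norm_num
  have key : ∀ a ∈ ball (0 : ℂ) 1, ∃ ε > 0, ∀ y ∈ ball (0 : ℂ) 1, T y = T a → ‖f y - f a‖ < ε →
      y = a := by
    intro a ha
    have h1 := hT a ha
    rw [eventually_nhdsWithin_iff] at h1
    obtain ⟨ε, hε, h2⟩ := inv_cont hd hm hinj hprop ha h1
    refine ⟨ε, hε, ?_⟩
    intro y hy hTy hfy
    by_contra hne
    exact h2 y hy hfy hne hTy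
  obtain ⟨ε₁, hε₁, k1⟩ := key 0 ha
  obtain ⟨ε₂, hε₂, k2⟩ := key _ hb
  refine ⟨{f 0, f (1 / 2)}, ?_, ?_, min ε₁ ε₂, lt_min hε₁ hε₂, ?_⟩
  · exact (Set.toFinite _).isCompact
  · intro v hv
    rcases hv with rfl | rfl
    · exact hm ha
    · exact hm hb
  · rintro σ ⟨γ, hγ, L, hL, h1, h2⟩ hσ
    have e1 := hσ ⟨f 0, hm ha⟩ (by simp)
    have e2 := hσ ⟨f (1 / 2), hm hb⟩ (by simp)
    rw [h1] at e1 e2
    simp only at e1 e2
    rw [← (h2 _ ha).1] at e1
    rw [← (h2 _ hb).1] at e2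
    have g1 := k1 _ (act_mem hγ ha) (h2 _ ha).2 (lt_of_lt_of_le e1 (min_le_left _ _))
    have g2 := k2 _ (act_mem hγ hb) (h2 _ hb).2 (lt_of_lt_of_le e2 (min_le_right _ _))
    have g3 := fix_two hγ ha hb hab g1 g2
    have g4 := act_eq_id hd hm hnd hL (by
      intro x hx
      rw [← (h2 x hx).1, g3 x hx])
    apply Equiv.ext
    intro v
    apply Subtype.ext
    rw [h1, g4 _ v.2]
    rfl

end Pool.Agent.BallCurve
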