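import Mathlib

/-!
Stieltjes-type functions `h ν e t = ∫ y^e / (1 - t y) dν(y)` for a finite measure `ν` on `(0,1)`,
and `F ν e τ = e^{eτ} h ν e (e^τ)`.
-/

set_option autoImplicit false
set_option linter.unusedVariables false

open MeasureTheory Set Filter Topology ComplexConjugate

namespace Pool.Agent.BallCurve

/-- Admissible measures. -/
structure KM (ν : Measure ℝ) : Prop where
  fin : IsFiniteMeasure ν
  supp : ∀ᵐ y ∂ν, y ∈ Ioo (0 : ℝ) 1
  int1 : Integrable (fun y : ℝ => (1 - y)⁻¹) ν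
  ne : ν ≠ 0

/-- The kernel integral. -/
noncomputable def hK (ν : Measure ℝ) (e : ℝ) (t : ℂ) : ℂ :=
  ∫ y, ((y ^ e : ℝ) : ℂ) / (1 - t * y) ∂ν

/-- The kernel integral in the logarithmic variable. -/
noncomputable def FK (ν : Measure ℝ) (e : ℝ) (τ : ℂ) : ℂ :=
  Complex.exp (e * τ) * hK ν e (Complex.exp τ)

/-- Moments. -/
noncomputable def cK (ν : Measure ℝ) (s : ℝ) : ℝ := ∫ y, y ^ s ∂ν

variable {ν : Measure ℝ}

theorem one_sub_ne_zero {t : ℂ} (ht : 1 - t ∈ Complex.slitPlane) {y : ℝ} (hy : y ∈ Icc (0 : ℝ) 1) :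
    1 - t * y ≠ 0 := by
  intro h
  have h1 : t * y = 1 := (sub_eq_zero.mp h).symm
  have hy0 : (y : ℂ) ≠ 0 := by
    intro h0; rw [h0, mul_zero] at h1; exact zero_ne_one h1
  have hyr : 0 < y := lt_of_le_of_ne hy.1 (fun h0 => hy0 (by rw [← h0]; simp))
  have h2 : t = ((1 / y : ℝ) : ℂ) := by
    push_cast; field_simp; exact h1
  rw [h2] at ht
  rcases ht with h3 | h3
  · have : (1 : ℝ) - 1 / y > 0 := by
      simpa [Complex.sub_re] using h3
    have h4 : 1 / y ≥ 1 := by rw [ge_iff_le, le_div_iff₀ hyr]; linarith [hy.2]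
    linarith
  · apply h3
    rw [Complex.sub_im, Complex.ofReal_im]; simp

theorem exists_lower {t : ℂ} (ht : 1 - t ∈ Complex.slitPlane) :
    ∃ δ > 0, ∀ t' ∈ Metric.ball t δ, ∀ y ∈ Icc (0 : ℝ) 1, δ ≤ ‖1 - t' * (y : ℂ)‖ := by
  have hc : ContinuousOn (fun y : ℝ => ‖1 - t * (y : ℂ)‖) (Icc 0 1) := by fun_prop
  obtain ⟨y₀, hy₀, hmin⟩ := (isCompact_Icc : IsCompact (Icc (0 : ℝ) 1)).exists_isMinOn
    ⟨0, by simp⟩ hc
  have hpos : 0 < ‖1 - t * (y₀ : ℂ)‖ := norm_pos_iff.mpr (one_sub_ne_zero ht hy₀)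
  refine ⟨‖1 - t * (y₀ : ℂ)‖ / 2, by positivity, ?_⟩
  intro t' ht' y hy
  have h1 : ‖1 - t * (y₀ : ℂ)‖ ≤ ‖1 - t * (y : ℂ)‖ := hmin hy
  have h2 : ‖1 - t * (y : ℂ)‖ ≤ ‖1 - t' * (y : ℂ)‖ + ‖(t' - t) * (y : ℂ)‖ := by
    have : (1 - t * (y : ℂ)) = (1 - t' * (y : ℂ)) + (t' - t) * (y : ℂ) := by ring
    rw [this]; exact norm_add_le _ _
  have h3 : ‖(t' - t) * (y : ℂ)‖ ≤ ‖1 - t * (y₀ : ℂ)‖ / 2 := by
    rw [norm_mul]
    have h4 : ‖t' - t‖ < ‖1 - t * (y₀ : ℂ)‖ / 2 := by rwa [← dist_eq_norm]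
    have h5 : ‖(y : ℂ)‖ ≤ 1 := by
      rw [Complex.norm_real, Real.norm_eq_abs, abs_of_nonneg hy.1]; exact hy.2
    have h6 := norm_nonneg (t' - t)
    have h7 := norm_nonneg (y : ℂ)
    nlinarith
  linarith

theorem rpow_le_one' {y e : ℝ} (hy : y ∈ Ioo (0 : ℝ) 1) (he : 0 ≤ e) : |y ^ e| ≤ 1 := by
  rw [abs_of_nonneg (Real.rpow_nonneg hy.1.le _)]
  exact Real.rpow_le_one hy.1.le hy.2.le he

theorem meas_kernel (e : ℝ) (t : ℂ) :
    AEStronglyMeasurable (fun y : ℝ => ((y ^ e : ℝ) : ℂ) / (1 - t * y)) ν := by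
  apply Measurable.aestronglyMeasurable
  fun_prop

theorem KM.hK_hasDerivAt (hν : KM ν) {e : ℝ} (he : 0 ≤ e) {t : ℂ}
    (ht : 1 - t ∈ Complex.slitPlane) : DifferentiableAt ℂ (hK ν e) t := by
  have := hν.fin
  obtain ⟨δ, hδ, hlow⟩ := exists_lower ht
  have key := hasDerivAt_integral_of_dominated_loc_of_deriv_le (μ := ν) (𝕜 := ℂ)
    (F := fun (t : ℂ) (y : ℝ) => ((y ^ e : ℝ) : ℂ) / (1 - t * y))
    (F' := fun (t : ℂ) (y : ℝ) => ((y ^ e : ℝ) : ℂ) * y / (1 - t * y) ^ 2)
    (x₀ := t) (s := Metric.ball t δ) (bound := fun _ => 1 / δ ^ 2)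
    (Metric.ball_mem_nhds t hδ) (Eventually.of_forall fun t => meas_kernel e t) ?_ ?_ ?_ ?_ ?_
  · exact key.2.differentiableAt
  · -- integrability
    refine Integrable.mono' (integrable_const (1 / δ)) (meas_kernel e t) ?_
    filter_upwards [hν.supp] with y hy
    rw [norm_div, Complex.norm_real, Real.norm_eq_abs]
    have h1 := rpow_le_one' hy he
    have h2 := hlow t (Metric.mem_ball_self hδ) y ⟨hy.1.le, hy.2.le⟩
    exact div_le_div₀ zero_le_one h1 hδ h2
  · apply Measurable.aestronglyMeasurable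
    fun_prop
  · filter_upwards [hν.supp] with y hy t' ht'
    have h1 := rpow_le_one' hy he
    have h2 := hlow t' ht' y ⟨hy.1.le, hy.2.le⟩
    rw [norm_div, norm_mul, norm_pow, Complex.norm_real, Real.norm_eq_abs, Complex.norm_real,
      Real.norm_eq_abs, abs_of_pos hy.1]
    apply div_le_div₀ zero_le_one _ (by positivity)
    · exact pow_le_pow_left₀ hδ.le h2 2
    · have := abs_nonneg (y ^ e)
      nlinarith [hy.1, hy.2]
  · exact integrable_const _
  · filter_upwards [hν.supp] with y hy t' ht'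
    have h2 := hlow t' ht' y ⟨hy.1.le, hy.2.le⟩
    have h3 : (1 - t' * (y : ℂ)) ≠ 0 := by
      intro h; rw [h, norm_zero] at h2; linarith
    have h4 : HasDerivAt (fun t : ℂ => 1 - t * (y : ℂ)) (-(y : ℂ)) t' := by
      simpa using ((hasDerivAt_id t').mul_const (y : ℂ)).const_sub 1
    have h5 := ((hasDerivAt_const t' (((y ^ e : ℝ) : ℂ))).div h4 h3)
    have h6 : ((y ^ e : ℝ) : ℂ) * y / (1 - t' * y) ^ 2 =
      (0 * (1 - t' * (y : ℂ)) - ((y ^ e : ℝ) : ℂ) * -(y : ℂ)) / (1 - t' * (y : ℂ)) ^ 2 := by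
      ring
    simp only [h6]
    exact h5

theorem KM.int_rpow (hν : KM ν) {s : ℝ} (hs : 0 ≤ s) : Integrable (fun y : ℝ => y ^ s) ν := by
  have := hν.fin
  refine Integrable.mono' (integrable_const (1 : ℝ)) ?_ ?_
  · exact Measurable.aestronglyMeasurable (by fun_prop)
  · filter_upwards [hν.supp] with y hy
    rw [Real.norm_eq_abs]; exact rpow_le_one' hy hs

theorem KM.cK_pos (hν : KM ν) {s : ℝ} (hs : 0 ≤ s) : 0 < cK ν s := by
  have := hν.fin
  unfold cK
  rw [integral_pos_iff_support_of_nonneg_ae _ (hν.int_rpow hs)]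
  · rw [pos_iff_ne_zero]
    intro h0
    apply hν.ne
    have h1 : ∀ᵐ y ∂ν, y ∉ Function.support (fun y : ℝ => y ^ s) := measure_eq_zero_iff_ae_notMem.mp h0
    have h2 : ∀ᵐ y ∂ν, False := by
      filter_upwards [h1, hν.supp] with y hy hy'
      apply hy
      rw [Function.mem_support]
      exact (Real.rpow_pos_of_pos hy'.1 s).ne'
    rw [Filter.eventually_false_iff_eq_bot] at h2
    exact ae_eq_bot.mp h2
  · filter_upwards [hν.supp] with y hy
    exact Real.rpow_nonneg hy.1.le _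

theorem KM.cK_le (hν : KM ν) {s : ℝ} (hs : 0 ≤ s) : cK ν s ≤ ν.real univ := by
  have := hν.fin
  unfold cK
  have : ∫ y, y ^ s ∂ν ≤ ∫ y, (1 : ℝ) ∂ν := by
    apply integral_mono_ae (hν.int_rpow hs) (integrable_const _)
    filter_upwards [hν.supp] with y hy
    exact Real.rpow_le_one hy.1.le hy.2.le hs
  simpa using this

/-- Power series of `hK` in the unit disc. -/
theorem KM.hK_hasSum (hν : KM ν) {e : ℝ} (he : 0 ≤ e) {t : ℂ} (ht : ‖t‖ < 1) :
    HasSum (fun n : ℕ => (cK ν (e + n) : ℂ) * t ^ n) (hK ν e t) := by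
  have := hν.fin
  have h1 : ∀ n : ℕ, (cK ν (e + n) : ℂ) * t ^ n =
      ∫ y, (((y ^ e : ℝ) : ℂ) * (t * (y : ℂ)) ^ n) ∂ν := by
    intro n
    unfold cK
    rw [← integral_complex_ofReal, ← integral_mul_const]
    apply integral_congr_ae
    filter_upwards [hν.supp] with y hy
    rw [mul_pow, Real.rpow_add hy.1, Real.rpow_natCast]
    push_cast
    ring
  have h2 : hK ν e t = ∫ y, (∑' n : ℕ, (((y ^ e : ℝ) : ℂ) * (t * (y : ℂ)) ^ n)) ∂ν := by
    unfold hK
    apply integral_congr_ae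
    filter_upwards [hν.supp] with y hy
    rw [tsum_mul_left, tsum_geometric_of_norm_lt_one, div_eq_mul_inv]
    rw [norm_mul, Complex.norm_real, Real.norm_eq_abs, abs_of_pos hy.1]
    have := norm_nonneg t
    nlinarith [hy.1, hy.2]
  rw [h2]
  simp_rw [h1]
  apply hasSum_integral_of_summable_integral_norm
  · intro n
    refine Integrable.mono' (integrable_const (1 : ℝ)) ?_ ?_
    · exact Measurable.aestronglyMeasurable (by fun_prop)
    · filter_upwards [hν.supp] with y hy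
      rw [norm_mul, norm_pow, norm_mul, Complex.norm_real, Real.norm_eq_abs, Complex.norm_real,
        Real.norm_eq_abs, abs_of_pos hy.1]
      have h3 : (‖t‖ * y) ^ n ≤ 1 := by
        apply pow_le_one₀ (by have := norm_nonneg t; nlinarith [hy.1])
        have := norm_nonneg t
        nlinarith [hy.1, hy.2]
      have h4 := rpow_le_one' hy he
      have h5 : 0 ≤ (‖t‖ * y) ^ n := by
        have := norm_nonneg t
        have := hy.1
        positivity
      nlinarith [abs_nonneg (y ^ e)]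
  · have h3 : ∀ n : ℕ, ∫ y, ‖((y ^ e : ℝ) : ℂ) * (t * (y : ℂ)) ^ n‖ ∂ν ≤
        ν.real univ * ‖t‖ ^ n := by
      intro n
      have : ∫ y, ‖((y ^ e : ℝ) : ℂ) * (t * (y : ℂ)) ^ n‖ ∂ν ≤ ∫ y, ‖t‖ ^ n ∂ν := by
        apply integral_mono_of_nonneg
        · exact Eventually.of_forall fun y => norm_nonneg _
        · exact integrable_const _
        · filter_upwards [hν.supp] with y hy
          rw [norm_mul, norm_pow, norm_mul, Complex.norm_real, Real.norm_eq_abs,
            Complex.norm_real, Real.norm_eq_abs, abs_of_pos hy.1]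
          have h3 : (‖t‖ * y) ^ n ≤ ‖t‖ ^ n := by
            apply pow_le_pow_left₀ (by have := norm_nonneg t; nlinarith [hy.1])
            have := norm_nonneg t
            nlinarith [hy.1, hy.2]
          have h4 := rpow_le_one' hy he
          have h5 : 0 ≤ (‖t‖ * y) ^ n := by
            have := norm_nonneg t
            have := hy.1
            positivity
          nlinarith [abs_nonneg (y ^ e)]
      simpa [mul_comm] using this
    refine Summable.of_nonneg_of_le (fun n => integral_nonneg fun y => norm_nonneg _) h3 ?_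
    exact (summable_geometric_of_lt_one (norm_nonneg _) ht).mul_left _

/-- Continuity on the closed unit disc. -/
theorem KM.hK_continuousOn (hν : KM ν) {e : ℝ} (he : 0 ≤ e) :
    ContinuousOn (hK ν e) (Metric.closedBall 0 1) := by
  have := hν.fin
  intro t₀ ht₀
  unfold hK
  apply tendsto_integral_filter_of_dominated_convergence (bound := fun y : ℝ => (1 - y)⁻¹)
  · exact Eventually.of_forall fun t => meas_kernel e t
  · filter_upwards [self_mem_nhdsWithin] with t ht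
    filter_upwards [hν.supp] with y hy
    have htn : ‖t‖ ≤ 1 := by simpa using ht
    rw [norm_div, Complex.norm_real, Real.norm_eq_abs]
    have h1 := rpow_le_one' hy he
    have h2 : 1 - y ≤ ‖1 - t * (y : ℂ)‖ := by
      have h3 : ‖(1 : ℂ)‖ - ‖t * (y : ℂ)‖ ≤ ‖1 - t * (y : ℂ)‖ := norm_sub_norm_le _ _
      rw [norm_mul, Complex.norm_real, Real.norm_eq_abs, abs_of_pos hy.1, norm_one] at h3
      nlinarith [hy.1]
    have h4 : 0 < 1 - y := by linarith [hy.2]
    rw [← one_div]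
    exact div_le_div₀ zero_le_one h1 h4 h2
  · exact hν.int1
  · filter_upwards [hν.supp] with y hy
    have htn : ‖t₀‖ ≤ 1 := by simpa using ht₀
    have h3 : (1 - t₀ * (y : ℂ)) ≠ 0 := by
      intro h
      have h1 : t₀ * (y : ℂ) = 1 := (sub_eq_zero.mp h).symm
      have h2 : ‖t₀ * (y : ℂ)‖ = 1 := by rw [h1]; simp
      rw [norm_mul, Complex.norm_real, Real.norm_eq_abs, abs_of_pos hy.1] at h2
      nlinarith [hy.1, hy.2]
    have : ContinuousAt (fun t : ℂ => ((y ^ e : ℝ) : ℂ) / (1 - t * y)) t₀ := by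
      have hc : ContinuousAt (fun t : ℂ => 1 - t * (y : ℂ)) t₀ := by fun_prop
      exact continuousAt_const.div hc h3
    exact this.continuousWithinAt

theorem hK_conj (e : ℝ) (t : ℂ) : hK ν e (conj t) = conj (hK ν e t) := by
  unfold hK
  rw [← integral_conj]
  apply integral_congr_ae
  refine Eventually.of_forall fun y => ?_
  simp

/-- Real kernel integral. -/
noncomputable def hR (ν : Measure ℝ) (e t : ℝ) : ℝ := ∫ y, y ^ e / (1 - t * y) ∂ν

theorem hK_ofReal (e t : ℝ) : hK ν e (t : ℂ) = (hR ν e t : ℂ) := by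
  unfold hK hR
  rw [← integral_complex_ofReal]
  congr 1; ext y; push_cast; rfl

theorem KM.int_hR (hν : KM ν) {e t : ℝ} (he : 0 ≤ e) (ht : t ≤ 1) :
    Integrable (fun y : ℝ => y ^ e / (1 - t * y)) ν := by
  have := hν.fin
  refine Integrable.mono' (g := fun y => (1 - y)⁻¹ + 1) (hν.int1.add (integrable_const 1)) ?_ ?_
  · exact Measurable.aestronglyMeasurable (by fun_prop)
  · filter_upwards [hν.supp] with y hy
    have h1 := rpow_le_one' hy he
    have h4 : 0 < 1 - y := by linarith [hy.2]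
    rw [norm_div, Real.norm_eq_abs, Real.norm_eq_abs]
    have h5 : 1 - y ≤ 1 - t * y := by nlinarith [hy.1]
    rw [abs_of_pos (by linarith : 0 < 1 - t * y)]
    have : |y ^ e| / (1 - t * y) ≤ 1 / (1 - y) := div_le_div₀ zero_le_one h1 h4 h5
    rw [one_div] at this
    linarith

theorem ae_false_of {ν : Measure ℝ} (hν : KM ν) (h : ∀ᵐ y ∂ν, False) : False := by
  rw [Filter.eventually_false_iff_eq_bot] at h
  exact hν.ne (ae_eq_bot.mp h)

theorem KM.integral_pos' (hν : KM ν) {g : ℝ → ℝ} (hg : Integrable g ν)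
    (hpos : ∀ y ∈ Ioo (0 : ℝ) 1, 0 < g y) : 0 < ∫ y, g y ∂ν := by
  have := hν.fin
  rw [integral_pos_iff_support_of_nonneg_ae _ hg]
  · rw [pos_iff_ne_zero]
    intro h0
    have h1 : ∀ᵐ y ∂ν, y ∉ Function.support g := measure_eq_zero_iff_ae_notMem.mp h0
    apply ae_false_of hν
    filter_upwards [h1, hν.supp] with y hy hy'
    apply hy
    rw [Function.mem_support]
    exact (hpos y hy').ne'
  · filter_upwards [hν.supp] with y hy
    exact (hpos y hy).le

theorem KM.hR_pos (hν : KM ν) {e t : ℝ} (he : 0 ≤ e) (ht : t ≤ 1) : 0 < hR ν e t := by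
  apply hν.integral_pos' (hν.int_hR he ht)
  intro y hy
  have h5 : 0 < 1 - t * y := by nlinarith [hy.1, hy.2]
  exact div_pos (Real.rpow_pos_of_pos hy.1 _) h5

/-- Real version of `FK`. -/
noncomputable def FR (ν : Measure ℝ) (e τ : ℝ) : ℝ := Real.exp (e * τ) * hR ν e (Real.exp τ)

theorem FK_ofReal (e τ : ℝ) : FK ν e (τ : ℂ) = (FR ν e τ : ℂ) := by
  unfold FK FR
  rw [← Complex.ofReal_exp, hK_ofReal]
  push_cast; rfl

theorem KM.FR_pos (hν : KM ν) {e τ : ℝ} (he : 0 ≤ e) (hτ : τ ≤ 0) : 0 < FR ν e τ :=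
  mul_pos (Real.exp_pos _) (hν.hR_pos he (by simpa using hτ))

theorem KM.FR_lt (hν : KM ν) {e e' τ : ℝ} (he : 0 ≤ e) (hee : e < e') (hτ : τ ≤ 0) :
    FR ν e' τ < FR ν e τ := by
  have ht : Real.exp τ ≤ 1 := by simpa using hτ
  unfold FR hR
  rw [← integral_const_mul, ← integral_const_mul, ← sub_pos, ← integral_sub]
  · apply hν.integral_pos'
    · exact ((hν.int_hR he ht).const_mul _).sub ((hν.int_hR (he.trans hee.le) ht).const_mul _)
    · intro y hy
      have h5 : 0 < 1 - Real.exp τ * y := by nlinarith [hy.1, hy.2, Real.exp_pos τ]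
      have h6 : Real.exp (e' * τ) * (y ^ e' / (1 - Real.exp τ * y)) =
        (Real.exp τ * y) ^ e' / (1 - Real.exp τ * y) := by
        rw [Real.mul_rpow (Real.exp_pos _).le hy.1.le, ← Real.exp_mul, mul_comm τ e']; ring
      have h7 : Real.exp (e * τ) * (y ^ e / (1 - Real.exp τ * y)) =
        (Real.exp τ * y) ^ e / (1 - Real.exp τ * y) := by
        rw [Real.mul_rpow (Real.exp_pos _).le hy.1.le, ← Real.exp_mul, mul_comm τ e]; ring
      rw [h6, h7, sub_pos]
      apply div_lt_div_of_pos_right _ h5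
      apply Real.rpow_lt_rpow_of_exponent_gt (mul_pos (Real.exp_pos _) hy.1) (by nlinarith [hy.1, hy.2, Real.exp_pos τ]) hee
  · exact (hν.int_hR he ht).const_mul _
  · exact (hν.int_hR (he.trans hee.le) ht).const_mul _

theorem KM.int_hK (hν : KM ν) {e : ℝ} (he : 0 ≤ e) {t : ℂ} (ht : 1 - t ∈ Complex.slitPlane) :
    Integrable (fun y : ℝ => ((y ^ e : ℝ) : ℂ) / (1 - t * y)) ν := by
  have := hν.fin
  obtain ⟨δ, hδ, hlow⟩ := exists_lower ht
  refine Integrable.mono' (integrable_const (1 / δ)) (meas_kernel e t) ?_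
  filter_upwards [hν.supp] with y hy
  rw [norm_div, Complex.norm_real, Real.norm_eq_abs]
  have h1 := rpow_le_one' hy he
  have h2 := hlow t (Metric.mem_ball_self hδ) y ⟨hy.1.le, hy.2.le⟩
  exact div_le_div₀ zero_le_one h1 hδ h2

theorem slit_of_im_ne {t : ℂ} (ht : t.im ≠ 0) : 1 - t ∈ Complex.slitPlane := by
  right; simpa using ht

theorem KM.hK_im_pos (hν : KM ν) {e : ℝ} (he : 0 ≤ e) {t : ℂ} (ht : 0 < t.im) :
    0 < (hK ν e t).im := by
  have hint := hν.int_hK he (slit_of_im_ne ht.ne')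
  unfold hK
  have h0 : (∫ y, ((y ^ e : ℝ) : ℂ) / (1 - t * y) ∂ν).im =
      ∫ y, (((y ^ e : ℝ) : ℂ) / (1 - t * y)).im ∂ν := by
    have := integral_im hint
    simpa using this.symm
  rw [h0]
  apply hν.integral_pos' hint.im
  intro y hy
  have h3 : (1 - t * (y : ℂ)) ≠ 0 := one_sub_ne_zero (slit_of_im_ne ht.ne') ⟨hy.1.le, hy.2.le⟩
  have h4 : 0 < Complex.normSq (1 - t * (y : ℂ)) := Complex.normSq_pos.mpr h3
  have h5 : 0 < y ^ e := Real.rpow_pos_of_pos hy.1 e
  simp only [RCLike.im_to_complex]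
  rw [div_eq_mul_inv, Complex.im_ofReal_mul, Complex.inv_im]
  simp only [Complex.sub_im, Complex.one_im, Complex.mul_im, Complex.ofReal_im, mul_zero,
    Complex.ofReal_re, zero_add, zero_sub, neg_neg]
  exact mul_pos h5 (div_pos (mul_pos ht hy.1) h4)

/-- Lower bound for the mass near `1`. -/
def Tail (ν : Measure ℝ) : Prop :=
  ∃ c > 0, ∀ t : ℝ, 1 / 2 ≤ t → t < 1 → c * Real.sqrt (1 - t) * (1 - t) ≤ ν.real (Icc t 1)

end Pool.Agent.BallCurve
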