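import Pool.Agent.MP_071e05_an.Kernel

/-!
T5.  Existence of the measures: laws of products of independent Beta variables.
-/

set_option autoImplicit false

open MeasureTheory Set Filter Topology ProbabilityTheory
open scoped ENNReal

namespace Pool.Agent.BallCurve

namespace BetaProd

theorem measurable_betaPDF (a b : ℝ) : Measurable (betaPDF a b) :=
  (measurable_betaPDFReal a b).ennreal_ofReal

theorem lint_bm (a b : ℝ) {g : ℝ → ℝ≥0∞} (hg : Measurable g) :
    ∫⁻ x, g x ∂(betaMeasure a b) = ∫⁻ x, betaPDF a b x * g x := by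
  unfold betaMeasure
  rw [lintegral_withDensity_eq_lintegral_mul _ (measurable_betaPDF a b) hg]
  rfl

theorem bm_supp (a b : ℝ) : ∀ᵐ y ∂(betaMeasure a b), y ∈ Ioo (0:ℝ) 1 := by
  unfold betaMeasure
  rw [ae_withDensity_iff (measurable_betaPDF a b)]
  filter_upwards with y hy
  constructor
  · by_contra hc
    exact hy (betaPDF_eq_zero_of_nonpos (not_lt.mp hc))
  · by_contra hc
    exact hy (betaPDF_eq_zero_of_one_le (not_lt.mp hc))

theorem lint_pow {a b : ℝ} (ha : 0 < a) (hb : 0 < b) {s : ℝ} (hs : 0 ≤ s) :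
    ∫⁻ x, ENNReal.ofReal (x ^ s) ∂(betaMeasure a b)
      = ENNReal.ofReal (beta (a + s) b / beta a b) := by
  have has : 0 < a + s := by linarith
  rw [lint_bm a b (by fun_prop)]
  have h1 : ∀ x : ℝ, betaPDF a b x * ENNReal.ofReal (x ^ s)
      = ENNReal.ofReal (beta (a + s) b / beta a b) * betaPDF (a + s) b x := by
    intro x
    have hB := beta_pos ha hb
    have hB' := beta_pos has hb
    by_cases h0 : 0 < x
    · by_cases h2 : x < 1
      · rw [betaPDF_of_pos_lt_one h0 h2, betaPDF_of_pos_lt_one h0 h2]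
        have h3 : 0 < 1 - x := by linarith
        rw [← ENNReal.ofReal_mul (by positivity), ← ENNReal.ofReal_mul (by positivity)]
        congr 1
        rw [show a + s - 1 = (a - 1) + s by ring, Real.rpow_add h0]
        field_simp
      · rw [betaPDF_eq_zero_of_one_le (not_lt.mp h2), betaPDF_eq_zero_of_one_le (not_lt.mp h2)]
        simp
    · rw [betaPDF_eq_zero_of_nonpos (not_lt.mp h0), betaPDF_eq_zero_of_nonpos (not_lt.mp h0)]
      simp
  simp_rw [h1]
  rw [lintegral_const_mul _ (measurable_betaPDF _ _), lintegral_betaPDF_eq_one has hb, mul_one]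

theorem lint_one_sub {a b θ : ℝ} (ha : 0 < a) (hb : 0 < b) (hθ : θ < b) :
    ∫⁻ x, ENNReal.ofReal ((1 - x) ^ (-θ)) ∂(betaMeasure a b) ≠ ∞ := by
  have hbθ : 0 < b - θ := by linarith
  rw [lint_bm a b (by fun_prop)]
  have h1 : ∀ x : ℝ, betaPDF a b x * ENNReal.ofReal ((1 - x) ^ (-θ))
      = ENNReal.ofReal (beta a (b - θ) / beta a b) * betaPDF a (b - θ) x := by
    intro x
    have hB := beta_pos ha hb
    have hB' := beta_pos ha hbθ
    by_cases h0 : 0 < x
    · by_cases h2 : x < 1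
      · rw [betaPDF_of_pos_lt_one h0 h2, betaPDF_of_pos_lt_one h0 h2]
        have h3 : 0 < 1 - x := by linarith
        rw [← ENNReal.ofReal_mul (by positivity), ← ENNReal.ofReal_mul (by positivity)]
        congr 1
        rw [show b - θ - 1 = (b - 1) + (-θ) by ring, Real.rpow_add h3]
        field_simp
      · rw [betaPDF_eq_zero_of_one_le (not_lt.mp h2), betaPDF_eq_zero_of_one_le (not_lt.mp h2)]
        simp
    · rw [betaPDF_eq_zero_of_nonpos (not_lt.mp h0), betaPDF_eq_zero_of_nonpos (not_lt.mp h0)]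
      simp
  simp_rw [h1]
  rw [lintegral_const_mul _ (measurable_betaPDF _ _), lintegral_betaPDF_eq_one ha hbθ, mul_one]
  exact ENNReal.ofReal_ne_top

theorem cK_bm {a b : ℝ} (ha : 0 < a) (hb : 0 < b) {s : ℝ} (hs : 0 ≤ s) :
    cK (betaMeasure a b) s = beta (a + s) b / beta a b := by
  unfold cK
  rw [integral_eq_lintegral_of_nonneg_ae]
  · rw [lint_pow ha hb hs, ENNReal.toReal_ofReal]
    exact (div_pos (beta_pos (by linarith) hb) (beta_pos ha hb)).le
  · filter_upwards [bm_supp a b] with x hx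
    exact Real.rpow_nonneg hx.1.le _
  · exact Measurable.aestronglyMeasurable (by fun_prop)

theorem rec_bm {a b : ℝ} (ha : 0 < a) (hb : 0 < b) {s : ℝ} (hs : 0 ≤ s) :
    (a + b + s) * cK (betaMeasure a b) (s + 1) = (a + s) * cK (betaMeasure a b) s := by
  rw [cK_bm ha hb hs, cK_bm ha hb (by linarith : 0 ≤ s + 1)]
  have h1 : 0 < a + s := by linarith
  have h2 : 0 < a + s + b := by linarith
  unfold beta
  rw [show a + (s + 1) = (a + s) + 1 by ring, Real.Gamma_add_one h1.ne',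
    show a + s + 1 + b = (a + s + b) + 1 by ring, Real.Gamma_add_one h2.ne']
  have g1 := (Real.Gamma_pos_of_pos ha).ne'
  have g2 := (Real.Gamma_pos_of_pos hb).ne'
  have g3 := (Real.Gamma_pos_of_pos h2).ne'
  have g4 := (Real.Gamma_pos_of_pos (by linarith : 0 < a + b)).ne'
  have h2' := h2.ne'
  field_simp
  ring

/-- probability measures on the open unit interval -/
structure PM (μ : Measure ℝ) : Prop where
  prob : IsProbabilityMeasure μ
  supp : ∀ᵐ y ∂μ, y ∈ Ioo (0:ℝ) 1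

theorem pm_bm {a b : ℝ} (ha : 0 < a) (hb : 0 < b) : PM (betaMeasure a b) :=
  ⟨isProbabilityMeasureBeta ha hb, bm_supp a b⟩

/-- law of the product of independent variables -/
noncomputable def mc (μ ν : Measure ℝ) : Measure ℝ := (μ.prod ν).map (fun p => p.1 * p.2)

section

variable {μ ν : Measure ℝ}

theorem PM.ae_prod (hμ : PM μ) (hν : PM ν) :
    ∀ᵐ p ∂(μ.prod ν), p.1 ∈ Ioo (0:ℝ) 1 ∧ p.2 ∈ Ioo (0:ℝ) 1 := by
  have := hμ.prob
  have := hν.prob
  exact (Measure.quasiMeasurePreserving_fst.ae hμ.supp).and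
    (Measure.quasiMeasurePreserving_snd.ae hν.supp)

theorem PM.mc (hμ : PM μ) (hν : PM ν) : PM (mc μ ν) := by
  have := hμ.prob
  have := hν.prob
  refine ⟨?_, ?_⟩
  · unfold BetaProd.mc
    exact Measure.isProbabilityMeasure_map (by fun_prop)
  · unfold BetaProd.mc
    refine (ae_map_iff (p := fun y => y ∈ Ioo (0:ℝ) 1) (Measurable.aemeasurable (by fun_prop))
      measurableSet_Ioo).mpr ?_
    filter_upwards [hμ.ae_prod hν] with p hp
    obtain ⟨⟨a1, a2⟩, ⟨b1, b2⟩⟩ := hp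
    exact ⟨mul_pos a1 b1, by nlinarith⟩

theorem PM.cK_mc (hμ : PM μ) (hν : PM ν) (s : ℝ) :
    cK (BetaProd.mc μ ν) s = cK μ s * cK ν s := by
  have := hμ.prob
  have := hν.prob
  unfold cK BetaProd.mc
  rw [integral_map (by fun_prop) (Measurable.aestronglyMeasurable (by fun_prop)),
    ← integral_prod_mul]
  refine integral_congr_ae ?_
  filter_upwards [hμ.ae_prod hν] with p hp
  exact Real.mul_rpow hp.1.1.le hp.2.1.le

/-- finite negative moment at `1` -/
def J (μ : Measure ℝ) (θ : ℝ) : Prop := ∫⁻ x, ENNReal.ofReal ((1 - x) ^ (-θ)) ∂μ ≠ ∞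

theorem PM.J_mc (hμ : PM μ) (hν : PM ν) {θ₁ θ₂ : ℝ} (h1 : 0 ≤ θ₁) (h2 : 0 ≤ θ₂)
    (hJ1 : J μ θ₁) (hJ2 : J ν θ₂) : J (BetaProd.mc μ ν) (θ₁ + θ₂) := by
  have := hμ.prob
  have := hν.prob
  unfold J BetaProd.mc
  rw [lintegral_map (by fun_prop) (by fun_prop)]
  have hle : ∫⁻ p, ENNReal.ofReal ((1 - p.1 * p.2) ^ (-(θ₁ + θ₂))) ∂(μ.prod ν)
      ≤ ∫⁻ p, ENNReal.ofReal ((1 - p.1) ^ (-θ₁)) * ENNReal.ofReal ((1 - p.2) ^ (-θ₂))
        ∂(μ.prod ν) := by
    refine lintegral_mono_ae ?_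
    filter_upwards [hμ.ae_prod hν] with p hp
    obtain ⟨⟨a1, a2⟩, ⟨b1, b2⟩⟩ := hp
    have h3 : 0 < 1 - p.1 := by linarith
    have h4 : 0 < 1 - p.2 := by linarith
    have h5 : 1 - p.1 ≤ 1 - p.1 * p.2 := by nlinarith
    have h6 : 1 - p.2 ≤ 1 - p.1 * p.2 := by nlinarith
    have h7 : 0 < 1 - p.1 * p.2 := by linarith
    rw [← ENNReal.ofReal_mul (by positivity)]
    refine ENNReal.ofReal_le_ofReal ?_
    rw [neg_add, Real.rpow_add h7]
    refine mul_le_mul ?_ ?_ (by positivity) (by positivity)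
    · exact Real.rpow_le_rpow_of_nonpos h3 h5 (by linarith)
    · exact Real.rpow_le_rpow_of_nonpos h4 h6 (by linarith)
  refine ne_top_of_le_ne_top ?_ hle
  rw [lintegral_prod_mul (f := fun x : ℝ => ENNReal.ofReal ((1 - x) ^ (-θ₁)))
    (g := fun x : ℝ => ENNReal.ofReal ((1 - x) ^ (-θ₂))) (Measurable.aemeasurable (by fun_prop))
    (Measurable.aemeasurable (by fun_prop))]
  exact ENNReal.mul_ne_top hJ1 hJ2

theorem PM.km (hμ : PM μ) (hJ : J μ 1) : KM μ := by
  have := hμ.prob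
  refine ⟨inferInstance, hμ.supp, ?_, IsProbabilityMeasure.ne_zero μ⟩
  refine ⟨Measurable.aestronglyMeasurable (by fun_prop), ?_⟩
  rw [hasFiniteIntegral_iff_enorm]
  refine lt_of_le_of_lt (lintegral_mono_ae ?_) (lt_top_iff_ne_top.mpr hJ)
  filter_upwards [hμ.supp] with x hx
  have h3 : 0 < 1 - x := by linarith [hx.2]
  rw [Real.rpow_neg_one, Real.enorm_of_nonneg (by positivity)]

end

/-- mass near `1` -/
theorem bm_tail {a b : ℝ} (ha : 0 < a) (hb : 0 < b) :
    ∃ c > 0, ∀ ε : ℝ, 0 < ε → ε ≤ 1 / 2 → c * ε ^ b ≤ (betaMeasure a b).real (Icc (1 - ε) 1) := by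
  have hB := beta_pos ha hb
  refine ⟨1 / beta a b * min 1 ((1 / 2) ^ (a - 1)) / b, by positivity, fun ε h0 h1 => ?_⟩
  have := isProbabilityMeasureBeta ha hb
  set m : ℝ := min 1 ((1 / 2) ^ (a - 1)) with hm
  have hm0 : 0 < m := by positivity
  have hint : ∫⁻ x in Ioo (1 - ε) 1, ENNReal.ofReal ((1 - x) ^ (b - 1))
      = ENNReal.ofReal (ε ^ b / b) := by
    rw [← ofReal_integral_eq_lintegral_ofReal]
    · congr 1
      rw [← integral_Ioc_eq_integral_Ioo, ← intervalIntegral.integral_of_le (by linarith)]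
      rw [intervalIntegral.integral_comp_sub_left (fun x => x ^ (b - 1)) 1]
      rw [integral_rpow (Or.inl (by linarith))]
      simp only [sub_self, sub_sub_cancel, sub_add_cancel]
      rw [Real.zero_rpow hb.ne', sub_zero]
    · have h2 : IntervalIntegrable (fun x : ℝ => x ^ (b - 1)) volume 0 ε :=
        intervalIntegral.intervalIntegrable_rpow' (by linarith)
      have h3 := h2.comp_sub_left 1
      rw [sub_zero] at h3
      have h4 := h3.symm
      rw [intervalIntegrable_iff_integrableOn_Ioo_of_le (by linarith)] at h4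
      exact h4
    · filter_upwards [ae_restrict_mem measurableSet_Ioo] with x hx
      exact Real.rpow_nonneg (by linarith [hx.2]) _
  have hmass : ENNReal.ofReal (1 / beta a b * m / b * ε ^ b) ≤ betaMeasure a b (Icc (1 - ε) 1) := by
    calc ENNReal.ofReal (1 / beta a b * m / b * ε ^ b)
        = ENNReal.ofReal (1 / beta a b * m) * ENNReal.ofReal (ε ^ b / b) := by
          rw [← ENNReal.ofReal_mul (by positivity)]
          congr 1
          ring
      _ = ∫⁻ x in Ioo (1 - ε) 1, ENNReal.ofReal (1 / beta a b * m) *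
            ENNReal.ofReal ((1 - x) ^ (b - 1)) := by
          rw [← hint, lintegral_const_mul _ (by fun_prop)]
      _ ≤ ∫⁻ x in Ioo (1 - ε) 1, betaPDF a b x := by
          refine setLIntegral_mono' measurableSet_Ioo fun x hx => ?_
          have hx0 : 0 < x := by linarith [hx.1]
          have hx1 : 0 < 1 - x := by linarith [hx.2]
          have hxh : 1 / 2 ≤ x := by linarith [hx.1]
          rw [betaPDF_of_pos_lt_one hx0 hx.2, ← ENNReal.ofReal_mul (by positivity)]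
          refine ENNReal.ofReal_le_ofReal ?_
          refine mul_le_mul_of_nonneg_right ?_ (by positivity)
          refine mul_le_mul_of_nonneg_left ?_ (by positivity)
          by_cases hc : 0 ≤ a - 1
          · exact (min_le_right _ _).trans (Real.rpow_le_rpow (by norm_num) hxh hc)
          · refine (min_le_left _ _).trans ?_
            exact Real.one_le_rpow_of_pos_of_le_one_of_nonpos hx0 hx.2.le (by linarith)
      _ ≤ ∫⁻ x in Icc (1 - ε) 1, betaPDF a b x :=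
          lintegral_mono_set Ioo_subset_Icc_self
      _ = _ := by
          unfold betaMeasure
          rw [withDensity_apply _ measurableSet_Icc]
  exact (ENNReal.ofReal_le_iff_le_toReal (measure_ne_top _ _)).mp hmass

theorem tail_mc {a₀ a₁ b₀ b₁ : ℝ} (ha₀ : 0 < a₀) (ha₁ : 0 < a₁) (hb₀ : 0 < b₀) (hb₁ : 0 < b₁)
    (hsum : b₀ + b₁ = 3 / 2) : Tail (mc (betaMeasure a₀ b₀) (betaMeasure a₁ b₁)) := by
  obtain ⟨c₀, hc₀, h0⟩ := bm_tail ha₀ hb₀
  obtain ⟨c₁, hc₁, h1⟩ := bm_tail ha₁ hb₁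
  have := isProbabilityMeasureBeta ha₀ hb₀
  have := isProbabilityMeasureBeta ha₁ hb₁
  have := ((pm_bm ha₀ hb₀).mc (pm_bm ha₁ hb₁)).prob
  refine ⟨c₀ * c₁ * (1 / 2) ^ (3 / 2 : ℝ), by positivity, fun t ht ht1 => ?_⟩
  set ε := (1 - t) / 2 with hε
  have hε0 : 0 < ε := by rw [hε]; linarith
  have hε1 : ε ≤ 1 / 2 := by rw [hε]; linarith
  have k0 := h0 ε hε0 hε1
  have k1 := h1 ε hε0 hε1
  have hsub : (betaMeasure a₀ b₀).real (Icc (1 - ε) 1) * (betaMeasure a₁ b₁).real (Icc (1 - ε) 1)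
      ≤ (mc (betaMeasure a₀ b₀) (betaMeasure a₁ b₁)).real (Icc t 1) := by
    rw [← measureReal_prod_prod]
    unfold mc
    rw [map_measureReal_apply (by fun_prop) measurableSet_Icc]
    refine measureReal_mono ?_
    rintro ⟨x, y⟩ ⟨⟨hx1, hx2⟩, ⟨hy1, hy2⟩⟩
    simp only [mem_preimage, mem_Icc] at *
    have e1 : t = 1 - 2 * ε := by rw [hε]; ring
    constructor
    · rw [e1]
      nlinarith
    · nlinarith
  refine le_trans ?_ hsub
  refine le_trans (le_of_eq ?_) (mul_le_mul k0 k1 (by positivity) measureReal_nonneg)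
  have h1t : 0 < 1 - t := by linarith
  have e2 : c₀ * ε ^ b₀ * (c₁ * ε ^ b₁) = c₀ * c₁ * ε ^ (b₀ + b₁) := by
    rw [Real.rpow_add hε0]
    ring
  rw [e2, hsum, hε, show (1 - t) / 2 = (1 / 2) * (1 - t) by ring,
    Real.mul_rpow (by norm_num) h1t.le, Real.sqrt_eq_rpow]
  have e3 : (1 - t) ^ (3 / 2 : ℝ) = (1 - t) ^ (1 / 2 : ℝ) * (1 - t) := by
    rw [show (3 / 2 : ℝ) = 1 / 2 + 1 by norm_num, Real.rpow_add h1t, Real.rpow_one]
  rw [e3]
  ring

end BetaProd

open BetaProd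

theorem exists_KM2 {a0 a1 b0 b1 : ℝ} (ha0 : 0 < a0) (ha1 : 0 < a1) (hb0 : 0 < b0) (hb1 : 0 < b1)
    (hsum : b0 + b1 = 3 / 2) : ∃ ν : Measure ℝ, KM ν ∧ Tail ν ∧ ∀ s : ℝ, 0 ≤ s →
      (a0 + b0 + s) * (a1 + b1 + s) * cK ν (s + 1) = (a0 + s) * (a1 + s) * cK ν s := by
  refine ⟨mc (betaMeasure a0 b0) (betaMeasure a1 b1), ?_, tail_mc ha0 ha1 hb0 hb1 hsum, ?_⟩
  · refine ((pm_bm ha0 hb0).mc (pm_bm ha1 hb1)).km ?_
    have h := (pm_bm ha0 hb0).J_mc (pm_bm ha1 hb1) (θ₁ := 2 * b0 / 3) (θ₂ := 2 * b1 / 3)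
      (by positivity) (by positivity) (lint_one_sub ha0 hb0 (by linarith))
      (lint_one_sub ha1 hb1 (by linarith))
    rw [show 2 * b0 / 3 + 2 * b1 / 3 = 1 by linarith] at h
    exact h
  · intro s hs
    rw [(pm_bm ha0 hb0).cK_mc (pm_bm ha1 hb1), (pm_bm ha0 hb0).cK_mc (pm_bm ha1 hb1)]
    have r0 := rec_bm ha0 hb0 hs
    have r1 := rec_bm ha1 hb1 hs
    calc _ = ((a0 + b0 + s) * cK (betaMeasure a0 b0) (s + 1)) *
          ((a1 + b1 + s) * cK (betaMeasure a1 b1) (s + 1)) := by ring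
      _ = _ := by rw [r0, r1]; ring

theorem exists_KM3 {a0 a1 a2 b0 b1 b2 : ℝ} (ha0 : 0 < a0) (ha1 : 0 < a1) (ha2 : 0 < a2)
    (hb0 : 0 < b0) (hb1 : 0 < b1) (hb2 : 0 < b2)
    (hsum : b0 + b1 + b2 = 3 / 2) : ∃ ν : Measure ℝ, KM ν ∧ ∀ s : ℝ, 0 ≤ s →
      (a0 + b0 + s) * (a1 + b1 + s) * (a2 + b2 + s) * cK ν (s + 1) =
        (a0 + s) * (a1 + s) * (a2 + s) * cK ν s := by
  have p01 := (pm_bm ha0 hb0).mc (pm_bm ha1 hb1)
  refine ⟨mc (mc (betaMeasure a0 b0) (betaMeasure a1 b1)) (betaMeasure a2 b2), ?_, ?_⟩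
  · refine (p01.mc (pm_bm ha2 hb2)).km ?_
    have h := (pm_bm ha0 hb0).J_mc (pm_bm ha1 hb1) (θ₁ := 2 * b0 / 3) (θ₂ := 2 * b1 / 3)
      (by positivity) (by positivity) (lint_one_sub ha0 hb0 (by linarith))
      (lint_one_sub ha1 hb1 (by linarith))
    have h' := p01.J_mc (pm_bm ha2 hb2) (θ₁ := 2 * b0 / 3 + 2 * b1 / 3) (θ₂ := 2 * b2 / 3)
      (by positivity) (by positivity) h (lint_one_sub ha2 hb2 (by linarith))
    rw [show 2 * b0 / 3 + 2 * b1 / 3 + 2 * b2 / 3 = 1 by linarith] at h'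
    exact h'
  · intro s hs
    rw [p01.cK_mc (pm_bm ha2 hb2), p01.cK_mc (pm_bm ha2 hb2),
      (pm_bm ha0 hb0).cK_mc (pm_bm ha1 hb1), (pm_bm ha0 hb0).cK_mc (pm_bm ha1 hb1)]
    have r0 := rec_bm ha0 hb0 hs
    have r1 := rec_bm ha1 hb1 hs
    have r2 := rec_bm ha2 hb2 hs
    calc _ = ((a0 + b0 + s) * cK (betaMeasure a0 b0) (s + 1)) *
          ((a1 + b1 + s) * cK (betaMeasure a1 b1) (s + 1)) *
          ((a2 + b2 + s) * cK (betaMeasure a2 b2) (s + 1)) := by ring
      _ = _ := by rw [r0, r1, r2]; ring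

end Pool.Agent.BallCurve
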