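import Pool.Agent.MP_071e05_an.Bdry

/-!
The hypergeometric differential equation in the logarithmic variable, its uniqueness theorem,
and the connection matrix between the expansions at `0` and at `∞`.
-/

set_option autoImplicit false
set_option linter.unusedVariables false

open MeasureTheory Set Filter Topology ComplexConjugate

namespace Pool.Agent.BallCurve

/-- `∏ (∂ - b)` applied to `f`. -/
noncomputable def opL : List ℝ → (ℂ → ℂ) → ℂ → ℂ
  | [], f => f
  | b :: l, f => fun τ => deriv (opL l f) τ - b * opL l f τ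

/-- Exponential series. -/
noncomputable def Es (a : ℕ → ℂ) (e : ℝ) (τ : ℂ) : ℂ := ∑' n : ℕ, a n * Complex.exp ((e + n) * τ)

/-- Subexponential growth. -/
def Gr (a : ℕ → ℂ) : Prop := ∀ r : ℝ, 0 ≤ r → r < 1 → Summable (fun n : ℕ => ‖a n‖ * r ^ n)

theorem Gr.mul_lin {a : ℕ → ℂ} (ha : Gr a) (c : ℂ) : Gr (fun n => (n + c) * a n) := by
  intro r hr hr1
  set s := Real.sqrt r with hs
  have hs0 : 0 ≤ s := Real.sqrt_nonneg _
  have hs2 : s * s = r := Real.mul_self_sqrt hr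
  have hs1 : s < 1 := by
    rw [hs, Real.sqrt_lt' one_pos]; simpa using hr1
  have h1 : Tendsto (fun n : ℕ => (n : ℝ) * s ^ n) atTop (𝓝 0) :=
    tendsto_self_mul_const_pow_of_lt_one hs0 hs1
  obtain ⟨M, hM⟩ := h1.bddAbove_range
  have h2 : ∀ n : ℕ, (n : ℝ) * s ^ n ≤ M := fun n => hM ⟨n, rfl⟩
  refine Summable.of_nonneg_of_le (fun n => by positivity) (fun n => ?_)
    ((ha s hs0 hs1).mul_left (M + ‖c‖))
  have h3 : ‖(n + c) * a n‖ ≤ (n + ‖c‖) * ‖a n‖ := by
    rw [norm_mul]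
    apply mul_le_mul_of_nonneg_right _ (norm_nonneg _)
    calc ‖(n : ℂ) + c‖ ≤ ‖(n : ℂ)‖ + ‖c‖ := norm_add_le _ _
      _ = n + ‖c‖ := by simp
  have h4 : r ^ n = s ^ n * s ^ n := by rw [← mul_pow, hs2]
  have h5 : (n + ‖c‖) * s ^ n ≤ M + ‖c‖ := by
    have h6 : s ^ n ≤ 1 := pow_le_one₀ hs0 hs1.le
    have := h2 n
    have h7 := norm_nonneg c
    nlinarith
  calc ‖(n + c) * a n‖ * r ^ n ≤ (n + ‖c‖) * ‖a n‖ * (s ^ n * s ^ n) := by
        rw [h4]; gcongr
    _ = ((n + ‖c‖) * s ^ n) * (‖a n‖ * s ^ n) := by ring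
    _ ≤ (M + ‖c‖) * (‖a n‖ * s ^ n) := by gcongr

theorem norm_exp_le {e : ℝ} (he : 0 ≤ e) {τ : ℂ} {η : ℝ} (hη : 0 ≤ η) (h : τ.re ≤ -η) (n : ℕ) :
    ‖Complex.exp ((e + n) * τ)‖ ≤ Real.exp (-η) ^ n := by
  rw [Complex.norm_exp, ← Real.exp_nat_mul]
  apply Real.exp_le_exp.mpr
  have : ((e + n : ℂ) * τ).re = (e + n) * τ.re := by
    have : (e + n : ℂ) = ((e + n : ℝ) : ℂ) := by push_cast; rfl
    rw [this, Complex.re_ofReal_mul]
  rw [this]
  have hn : (0 : ℝ) ≤ n := Nat.cast_nonneg n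
  nlinarith

theorem Gr.summable {a : ℕ → ℂ} (ha : Gr a) {e : ℝ} (he : 0 ≤ e) {τ : ℂ} (hτ : τ.re < 0) :
    Summable (fun n : ℕ => a n * Complex.exp ((e + n) * τ)) := by
  have h1 : Real.exp τ.re < 1 := by simpa using hτ
  refine Summable.of_norm_bounded (ha (Real.exp τ.re) (Real.exp_pos _).le h1) (fun n => ?_)
  rw [norm_mul]
  apply mul_le_mul_of_nonneg_left _ (norm_nonneg _)
  have := norm_exp_le he (τ := τ) (η := -τ.re) (by linarith) (by linarith) n
  simpa using this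

theorem Gr.hasDerivAt {a : ℕ → ℂ} (ha : Gr a) {e : ℝ} (he : 0 ≤ e) {τ : ℂ} (hτ : τ.re < 0) :
    HasDerivAt (Es a e) (Es (fun n => (n + e) * a n) e τ) τ := by
  set η := -τ.re / 2 with hη
  have hη0 : 0 < η := by rw [hη]; linarith
  have ha' := ha.mul_lin (e : ℂ)
  have h1 : Real.exp (-η) < 1 := by simpa using hη0
  unfold Es
  apply hasDerivAt_tsum_of_isPreconnected
    (g := fun (n : ℕ) (τ : ℂ) => a n * Complex.exp ((e + n) * τ))
    (g' := fun (n : ℕ) (τ : ℂ) => ((n + e) * a n) * Complex.exp ((e + n) * τ))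
    (t := {τ | τ.re < -η}) (y₀ := τ)
    (ha' (Real.exp (-η)) (Real.exp_pos _).le h1)
  · exact isOpen_lt Complex.continuous_re continuous_const
  · exact (convex_halfSpace_re_lt (-η)).isPreconnected
  · intro n y hy
    have := (((hasDerivAt_id y).const_mul ((e : ℂ) + n)).cexp).const_mul (a n)
    simp only [id, mul_one] at this
    have h6 : ((n + e) * a n) * Complex.exp ((e + n) * y) =
      a n * (Complex.exp ((e + n) * y) * (e + n)) := by ring
    rw [h6]
    exact this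
  · intro n y hy
    rw [norm_mul]
    apply mul_le_mul_of_nonneg_left _ (norm_nonneg _)
    exact norm_exp_le he hη0.le (le_of_lt hy) n
  · simp only [mem_ofPred_eq]; linarith
  · exact ha.summable he hτ
  · simp only [mem_ofPred_eq]; linarith

theorem isOpen_reneg : IsOpen {τ : ℂ | τ.re < 0} := isOpen_lt Complex.continuous_re continuous_const

theorem opL_Es (l : List ℝ) {a : ℕ → ℂ} (ha : Gr a) {e : ℝ} (he : 0 ≤ e) :
    ∃ a' : ℕ → ℂ, Gr a' ∧ (∀ n, a' n = (l.map (fun b => ((e + n - b : ℝ) : ℂ))).prod * a n) ∧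
      ∀ τ : ℂ, τ.re < 0 → opL l (Es a e) τ = Es a' e τ := by
  induction l with
  | nil => exact ⟨a, ha, by simp, fun τ _ => rfl⟩
  | cons b l ih =>
    obtain ⟨a', hg, ha', h⟩ := ih
    refine ⟨fun n => (n + (e - b)) * a' n, ?_, ?_, ?_⟩
    · have := hg.mul_lin ((e : ℂ) - b)
      exact this
    · intro n
      simp only [List.map_cons, List.prod_cons]
      rw [ha' n]
      push_cast; ring
    · intro τ hτ
      have hd : HasDerivAt (opL l (Es a e)) (Es (fun n => (n + e) * a' n) e τ) τ := by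
        apply (hg.hasDerivAt he hτ).congr_of_eventuallyEq
        filter_upwards [isOpen_reneg.mem_nhds hτ] with y hy
        exact h y hy
      simp only [opL]
      rw [hd.deriv, h τ hτ]
      unfold Es
      rw [← tsum_mul_left, ← Summable.tsum_sub]
      · congr 1; ext n; ring
      · exact (hg.mul_lin (e : ℂ)).summable he hτ
      · exact (hg.summable he hτ).mul_left _

theorem FK_eq_Es {ν : Measure ℝ} (hν : KM ν) {e : ℝ} (he : 0 ≤ e) {τ : ℂ} (hτ : τ.re < 0) :
    FK ν e τ = Es (fun n => (cK ν (e + n) : ℂ)) e τ := by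
  unfold FK Es
  have h1 : ‖Complex.exp τ‖ < 1 := by rw [Complex.norm_exp]; simpa using hτ
  rw [← (hν.hK_hasSum he h1).tsum_eq, ← tsum_mul_left]
  congr 1; ext n
  rw [add_mul, Complex.exp_add, Complex.exp_nat_mul]
  ring

theorem Gr_cK {ν : Measure ℝ} (hν : KM ν) {e : ℝ} (he : 0 ≤ e) :
    Gr (fun n => (cK ν (e + n) : ℂ)) := by
  intro r hr hr1
  refine Summable.of_nonneg_of_le (fun n => by positivity) (fun n => ?_)
    ((summable_geometric_of_lt_one hr hr1).mul_left (ν.real univ))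
  have h1 := hν.cK_pos (s := e + n) (by positivity)
  have h2 := hν.cK_le (s := e + n) (by positivity)
  rw [Complex.norm_real, Real.norm_eq_abs, abs_of_pos h1]
  gcongr

theorem opL_congr {U : Set ℂ} (hU : IsOpen U) {f g : ℂ → ℂ} (h : EqOn f g U) (l : List ℝ) :
    EqOn (opL l f) (opL l g) U := by
  induction l with
  | nil => exact h
  | cons b l ih =>
    intro τ hτ
    simp only [opL]
    rw [ih hτ]
    congr 1
    apply Filter.EventuallyEq.deriv_eq
    filter_upwards [hU.mem_nhds hτ] with y hy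
    exact ih hy

theorem opL_diff {U : Set ℂ} (hU : IsOpen U) {f : ℂ → ℂ} (h : DifferentiableOn ℂ f U) (l : List ℝ) :
    DifferentiableOn ℂ (opL l f) U := by
  induction l with
  | nil => exact h
  | cons b l ih =>
    simp only [opL]
    exact (ih.deriv hU).sub (ih.const_mul _)

theorem opL_add {U : Set ℂ} (hU : IsOpen U) {f g : ℂ → ℂ} (hf : DifferentiableOn ℂ f U)
    (hg : DifferentiableOn ℂ g U) (l : List ℝ) :
    EqOn (opL l (fun τ => f τ + g τ)) (fun τ => opL l f τ + opL l g τ) U := by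
  induction l with
  | nil => intro τ _; rfl
  | cons b l ih =>
    intro τ hτ
    simp only [opL]
    have h1 : deriv (opL l (fun τ => f τ + g τ)) τ =
        deriv (opL l f) τ + deriv (opL l g) τ := by
      have h2 : opL l (fun τ => f τ + g τ) =ᶠ[𝓝 τ] fun τ => opL l f τ + opL l g τ := by
        filter_upwards [hU.mem_nhds hτ] with y hy
        exact ih hy
      rw [h2.deriv_eq, deriv_fun_add]
      · exact (opL_diff hU hf l).differentiableAt (hU.mem_nhds hτ)
      · exact (opL_diff hU hg l).differentiableAt (hU.mem_nhds hτ)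
    rw [h1, ih hτ]; ring

theorem opL_smul {U : Set ℂ} (hU : IsOpen U) {f : ℂ → ℂ} (hf : DifferentiableOn ℂ f U) (c : ℂ)
    (l : List ℝ) : EqOn (opL l (fun τ => c * f τ)) (fun τ => c * opL l f τ) U := by
  induction l with
  | nil => intro τ _; rfl
  | cons b l ih =>
    intro τ hτ
    simp only [opL]
    have h1 : deriv (opL l (fun τ => c * f τ)) τ = c * deriv (opL l f) τ := by
      have h2 : opL l (fun τ => c * f τ) =ᶠ[𝓝 τ] fun τ => c * opL l f τ := by
        filter_upwards [hU.mem_nhds hτ] with y hy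
        exact ih hy
      rw [h2.deriv_eq, deriv_const_mul]
      exact (opL_diff hU hf l).differentiableAt (hU.mem_nhds hτ)
    rw [h1, ih hτ]; ring

theorem opL_comp_neg {U : Set ℂ} (hU : IsOpen U) {f : ℂ → ℂ}
    (hf : DifferentiableOn ℂ f ((fun τ => -τ) ⁻¹' U)) (l : List ℝ) :
    EqOn (opL l (fun τ => f (-τ))) (fun τ => (-1) ^ l.length * opL (l.map (fun b => -b)) f (-τ)) U := by
  have hU' : IsOpen ((fun τ : ℂ => -τ) ⁻¹' U) := hU.preimage continuous_neg
  induction l with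
  | nil => intro τ _; simp [opL]
  | cons b l ih =>
    intro τ hτ
    simp only [opL, List.map_cons, List.length_cons]
    have hd : DifferentiableAt ℂ (opL (l.map (fun b => -b)) f) (-τ) :=
      (opL_diff hU' hf _).differentiableAt (hU'.mem_nhds (by simpa using hτ))
    have h1 : deriv (opL l (fun τ => f (-τ))) τ =
        (-1) ^ l.length * -(deriv (opL (l.map (fun b => -b)) f) (-τ)) := by
      have h2 : opL l (fun τ => f (-τ)) =ᶠ[𝓝 τ]
          fun τ => (-1) ^ l.length * opL (l.map (fun b => -b)) f (-τ) := by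
        filter_upwards [hU.mem_nhds hτ] with y hy
        exact ih hy
      rw [h2.deriv_eq]
      have h3 : HasDerivAt (fun τ => opL (l.map (fun b => -b)) f (-τ))
          (deriv (opL (l.map (fun b => -b)) f) (-τ) * -1) τ :=
        HasDerivAt.comp τ hd.hasDerivAt (hasDerivAt_neg τ)
      rw [(h3.const_mul _).deriv]; ring
    rw [h1, ih hτ]
    push_cast
    ring

/-- The ODE on the left half plane. -/
theorem FK_ode_left {ν : Measure ℝ} (hν : KM ν) {e : ℝ} (he : 0 ≤ e) (le la : List ℝ)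
    (hmem : e ∈ le)
    (hrec : ∀ s : ℝ, 0 ≤ s → (le.map (fun b => s + 1 - b)).prod * cK ν (s + 1) =
      (la.map (fun a => s + a)).prod * cK ν s) {τ : ℂ} (hτ : τ.re < 0) :
    opL le (FK ν e) τ = Complex.exp τ * opL (la.map (fun a => -a)) (FK ν e) τ := by
  have hEq : EqOn (FK ν e) (Es (fun n => (cK ν (e + n) : ℂ)) e) {τ | τ.re < 0} :=
    fun τ hτ => FK_eq_Es hν he hτ
  rw [opL_congr isOpen_reneg hEq le hτ, opL_congr isOpen_reneg hEq _ hτ]
  obtain ⟨a₁, hg₁, ha₁, h₁⟩ := opL_Es le (Gr_cK hν he) he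
  obtain ⟨a₂, hg₂, ha₂, h₂⟩ := opL_Es (la.map (fun a => -a)) (Gr_cK hν he) he
  rw [h₁ τ hτ, h₂ τ hτ]
  unfold Es
  rw [(hg₁.summable he hτ).tsum_eq_zero_add, ← tsum_mul_left]
  have h0 : a₁ 0 = 0 := by
    rw [ha₁ 0]
    have : (0 : ℂ) ∈ le.map (fun b => ((e + (0 : ℕ) - b : ℝ) : ℂ)) := by
      rw [List.mem_map]
      exact ⟨e, hmem, by simp⟩
    rw [List.prod_eq_zero this, zero_mul]
  rw [h0, zero_mul, zero_add]
  congr 1; ext n
  have hr := hrec (e + n) (by positivity)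
  have hr' : a₁ (n + 1) = a₂ n := by
    rw [ha₁, ha₂, List.map_map]
    have h5 : ((le.map (fun b => ((e + (n + 1 : ℕ) - b : ℝ) : ℂ))).prod) =
        (((le.map (fun b => e + n + 1 - b)).prod : ℝ) : ℂ) := by
      rw [← Complex.ofRealHom_eq_coe, map_list_prod, List.map_map]
      congr 1
      apply List.map_congr_left
      intro b _
      simp; ring
    have h6 : ((la.map ((fun b => ((e + n - b : ℝ) : ℂ)) ∘ fun a => -a)).prod) =
        (((la.map (fun a => e + n + a)).prod : ℝ) : ℂ) := by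
      rw [← Complex.ofRealHom_eq_coe, map_list_prod, List.map_map]
      congr 1
      apply List.map_congr_left
      intro b _
      simp
    rw [h5, h6]
    have h7 : (e : ℝ) + (n + 1 : ℕ) = e + n + 1 := by push_cast; ring
    rw [h7]
    exact_mod_cast hr
  rw [hr']
  push_cast
  rw [mul_left_comm, ← Complex.exp_add]
  congr 2; ring

/-- Extension of the ODE to convex open sets meeting the left half plane. -/
theorem FK_ode {ν : Measure ℝ} (hν : KM ν) {e : ℝ} (he : 0 ≤ e) (le la : List ℝ)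
    (hmem : e ∈ le)
    (hrec : ∀ s : ℝ, 0 ≤ s → (le.map (fun b => s + 1 - b)).prod * cK ν (s + 1) =
      (la.map (fun a => s + a)).prod * cK ν s)
    {U : Set ℂ} (hU : IsOpen U) (hUc : Convex ℝ U)
    (hUs : ∀ τ ∈ U, 1 - Complex.exp τ ∈ Complex.slitPlane) (hUn : ∃ τ ∈ U, τ.re < 0)
    {τ : ℂ} (hτ : τ ∈ U) :
    opL le (FK ν e) τ = Complex.exp τ * opL (la.map (fun a => -a)) (FK ν e) τ := by
  have hd : DifferentiableOn ℂ (FK ν e) U := fun τ hτ =>
    (hν.FK_differentiableAt he (hUs τ hτ)).differentiableWithinAt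
  have h1 : AnalyticOnNhd ℂ (opL le (FK ν e)) U := (opL_diff hU hd le).analyticOnNhd hU
  have h2 : AnalyticOnNhd ℂ (fun τ => Complex.exp τ * opL (la.map (fun a => -a)) (FK ν e) τ) U :=
    (Complex.differentiable_exp.differentiableOn.mul (opL_diff hU hd _)).analyticOnNhd hU
  obtain ⟨τ₀, h0, h0n⟩ := hUn
  refine h1.eqOn_of_preconnected_of_eventuallyEq h2 hUc.isPreconnected h0 ?_ hτ
  filter_upwards [isOpen_reneg.mem_nhds h0n] with y hy
  exact FK_ode_left hν he le la hmem hrec hy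

/-! ### Uniqueness -/

theorem opL_order {τ₀ : ℂ} (l : List ℝ) {m : ℕ} (hlm : l.length ≤ m) {f g : ℂ → ℂ}
    (hg : AnalyticAt ℂ g τ₀) (hf : ∀ᶠ τ in 𝓝 τ₀, f τ = (τ - τ₀) ^ m * g τ) :
    ∃ g' : ℂ → ℂ, AnalyticAt ℂ g' τ₀ ∧ g' τ₀ = (m.descFactorial l.length : ℂ) * g τ₀ ∧
      ∀ᶠ τ in 𝓝 τ₀, opL l f τ = (τ - τ₀) ^ (m - l.length) * g' τ := by
  induction l with
  | nil => exact ⟨g, hg, by simp, by simpa [opL] using hf⟩
  | cons b l ih =>
    simp only [List.length_cons] at hlm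
    obtain ⟨g', hg', hg'0, h⟩ := ih (by omega)
    set k := m - l.length with hk
    have hk1 : k = (m - (l.length + 1)) + 1 := by omega
    set k' := m - (l.length + 1) with hk'
    refine ⟨fun τ => k * g' τ + (τ - τ₀) * (deriv g' τ - b * g' τ), ?_, ?_, ?_⟩
    · have := hg'.deriv
      fun_prop
    · simp only [List.length_cons, sub_self, zero_mul, add_zero, hg'0]
      rw [Nat.descFactorial_succ]
      push_cast
      rw [← hk]; ring
    · have hder : ∀ᶠ τ in 𝓝 τ₀, AnalyticAt ℂ g' τ := hg'.eventually_analyticAt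
      filter_upwards [h.eventually_nhds, hder] with τ hτ hgτ
      simp only [opL, List.length_cons]
      have h1 : deriv (opL l f) τ = k * (τ - τ₀) ^ (k - 1) * g' τ + (τ - τ₀) ^ k * deriv g' τ := by
        have h2 : opL l f =ᶠ[𝓝 τ] fun τ => (τ - τ₀) ^ k * g' τ := hτ
        rw [h2.deriv_eq]
        have h3 : HasDerivAt (fun τ => (τ - τ₀) ^ k) (k * (τ - τ₀) ^ (k - 1) * 1) τ :=
          ((hasDerivAt_id τ).sub_const τ₀).pow k
        have h4 := h3.mul hgτ.differentiableAt.hasDerivAt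
        have h5 : HasDerivAt (fun τ => (τ - τ₀) ^ k * g' τ)
          (k * (τ - τ₀) ^ (k - 1) * 1 * g' τ + (τ - τ₀) ^ k * deriv g' τ) τ := h4
        rw [h5.deriv, mul_one]
      rw [h1, hτ.self_of_nhds, hk1, Nat.add_sub_cancel, pow_succ]
      push_cast
      ring

theorem ode_unique (le la : List ℝ) (hlen : le.length = la.length) {τ₀ : ℂ}
    (h1 : Complex.exp τ₀ ≠ 1) {f : ℂ → ℂ} (hf : AnalyticAt ℂ f τ₀)
    (hode : ∀ᶠ τ in 𝓝 τ₀, opL le f τ = Complex.exp τ * opL la f τ)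
    (hord : (le.length : ℕ∞) ≤ analyticOrderAt f τ₀) : ∀ᶠ τ in 𝓝 τ₀, f τ = 0 := by
  by_contra hcon
  have hne : analyticOrderAt f τ₀ ≠ ⊤ := by
    intro h; exact hcon (analyticOrderAt_eq_top.mp h)
  obtain ⟨g, hg, hg0, hfg⟩ := hf.analyticOrderAt_ne_top.mp hne
  set m := analyticOrderNatAt f τ₀ with hm
  have hlm : le.length ≤ m := by
    have h2 : (m : ℕ∞) = analyticOrderAt f τ₀ := Nat.cast_analyticOrderNatAt hne
    rw [← h2] at hord
    exact_mod_cast hord
  have hfg' : ∀ᶠ τ in 𝓝 τ₀, f τ = (τ - τ₀) ^ m * g τ := by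
    filter_upwards [hfg] with τ hτ
    simpa using hτ
  obtain ⟨g₁, hg₁, hg₁0, h₁⟩ := opL_order le hlm hg hfg'
  obtain ⟨g₂, hg₂, hg₂0, h₂⟩ := opL_order la (by omega) hg hfg'
  have h3 : ∀ᶠ τ in 𝓝[≠] τ₀, g₁ τ = Complex.exp τ * g₂ τ := by
    have h4 := (hode.and (h₁.and h₂)).filter_mono (nhdsWithin_le_nhds (s := {τ₀}ᶜ))
    filter_upwards [h4, self_mem_nhdsWithin] with τ hτ hne
    obtain ⟨h5, h6, h7⟩ := hτ
    rw [h6, h7, ← hlen] at h5
    have h8 : (τ - τ₀) ^ (m - le.length) ≠ 0 := pow_ne_zero _ (sub_ne_zero.mpr hne)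
    apply mul_left_cancel₀ h8
    rw [h5]; ring
  have h4 : Tendsto g₁ (𝓝[≠] τ₀) (𝓝 (g₁ τ₀)) := hg₁.continuousAt.mono_left nhdsWithin_le_nhds
  have h5 : Tendsto (fun τ => Complex.exp τ * g₂ τ) (𝓝[≠] τ₀) (𝓝 (Complex.exp τ₀ * g₂ τ₀)) :=
    (Complex.continuous_exp.continuousAt.mul hg₂.continuousAt).mono_left nhdsWithin_le_nhds
  have h6 : g₁ τ₀ = Complex.exp τ₀ * g₂ τ₀ :=
    tendsto_nhds_unique (h4.congr' h3) h5
  rw [hg₁0, hg₂0, ← hlen] at h6
  have h7 : ((m.descFactorial le.length : ℕ) : ℂ) ≠ 0 := by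
    rw [Nat.cast_ne_zero]
    exact (Nat.descFactorial_pos.mpr hlm).ne'
  apply h1
  have h8 : ((m.descFactorial le.length : ℕ) : ℂ) * g τ₀ ≠ 0 := mul_ne_zero h7 hg0
  have h9 : (Complex.exp τ₀ - 1) * (((m.descFactorial le.length : ℕ) : ℂ) * g τ₀) = 0 := by
    rw [sub_mul, one_mul, sub_eq_zero]; exact h6.symm
  rcases mul_eq_zero.mp h9 with h10 | h10
  · exact sub_eq_zero.mp h10
  · exact absurd h10 h8

end Pool.Agent.BallCurve
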