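import Pool.Agent.MP_071e05_an.Chart1
import Pool.Agent.MP_071e05_an.Continuation

/-!
Local comparison of the orbifold charts.
-/

set_option autoImplicit false
set_option linter.unusedSectionVars false

open MeasureTheory Metric Set Filter Topology ComplexConjugate

namespace Pool.Agent.BallCurve

section general

variable {V : Type*} [NormedAddCommGroup V] [InnerProductSpace ℂ V] [CompleteSpace V]

/-- local comparison of a chart with a reference pair of functions -/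
def RefAt (C : OChart V) (m τ₀ : ℂ) (R : ℂ → ℂ) (r : ℂ → V) : Prop :=
  ∃ χ θ : ℂ → ℂ, ContinuousAt χ τ₀ ∧ ContinuousAt θ m ∧ χ τ₀ = m ∧ θ m = τ₀ ∧
    (∀ᶠ x in 𝓝 m, χ (θ x) = x) ∧
    ∃ ψ ∈ UG ℂ, ∃ L ∈ UG V, ∀ᶠ τ in 𝓝 τ₀, R τ ∈ ball (0 : ℂ) 1 ∧ r τ ∈ ball (0 : V) 1 ∧
      C.z (χ τ) = act ψ (R τ) ∧ C.f (χ τ) = act L (r τ) ∧ C.T (χ τ) = some (Complex.exp τ)

theorem locIso_of_ref {C C' : OChart V} {m m' τ₀ : ℂ} {R : ℂ → ℂ} {r : ℂ → V}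
    (h : RefAt C m τ₀ R r) (h' : RefAt C' m' τ₀ R r) : LocIso C C' m m' := by
  obtain ⟨χ, θ, h1, h2, h3, h4, h5, ψ, hψ, L, hL, h6⟩ := h
  obtain ⟨χ', θ', h1', h2', h3', h4', h5', ψ', hψ', L', hL', h6'⟩ := h'
  refine ⟨fun x => χ' (θ x), ?_, ?_, ψ' * ψ⁻¹, (UG ℂ).mul_mem hψ' ((UG ℂ).inv_mem hψ),
    L' * L⁻¹, (UG V).mul_mem hL' ((UG V).inv_mem hL), ?_⟩
  · apply ContinuousAt.comp (g := χ') _ h2
    rw [h4]; exact h1'
  · change χ' (θ m) = m'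
    rw [h4, h3']
  · have hθ : Tendsto θ (𝓝 m) (𝓝 τ₀) := by
      have := h2.tendsto
      rwa [h4] at this
    filter_upwards [h5, hθ.eventually h6, hθ.eventually h6'] with x e1 e2 e3
    obtain ⟨a1, a2, a3, a4, a5⟩ := e2
    obtain ⟨b1, b2, b3, b4, b5⟩ := e3
    rw [e1] at a3 a4 a5
    refine ⟨?_, ?_, ?_⟩
    · rw [b3, a3, act_mul hψ' ((UG ℂ).inv_mem hψ) (act_mem hψ a1), act_inv_act hψ a1]
    · rw [b4, a4, act_mul hL' ((UG V).inv_mem hL) (act_mem hL a2), act_inv_act hL a2]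
    · rw [b5, a5]

theorem RefAt.change {C : OChart V} {m τ₀ : ℂ} {R R₁ : ℂ → ℂ} {r r₁ : ℂ → V}
    (h : RefAt C m τ₀ R r) {ψ₁ : (ℂ × ℂ) ≃L[ℂ] (ℂ × ℂ)} (hψ₁ : ψ₁ ∈ UG ℂ)
    {L₁ : (ℂ × V) ≃L[ℂ] (ℂ × V)} (hL₁ : L₁ ∈ UG V)
    (h1 : ∀ᶠ τ in 𝓝 τ₀, R₁ τ ∈ ball (0 : ℂ) 1 ∧ r₁ τ ∈ ball (0 : V) 1 ∧ R τ = act ψ₁ (R₁ τ) ∧
      r τ = act L₁ (r₁ τ)) : RefAt C m τ₀ R₁ r₁ := by
  obtain ⟨χ, θ, k1, k2, k3, k4, k5, ψ, hψ, L, hL, k6⟩ := h
  refine ⟨χ, θ, k1, k2, k3, k4, k5, ψ * ψ₁, (UG ℂ).mul_mem hψ hψ₁, L * L₁,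
    (UG V).mul_mem hL hL₁, ?_⟩
  filter_upwards [k6, h1] with τ ⟨a1, a2, a3, a4, a5⟩ ⟨b1, b2, b3, b4⟩
  refine ⟨b1, b2, ?_, ?_, a5⟩
  · rw [a3, b3, act_mul hψ hψ₁ b1]
  · rw [a4, b4, act_mul hL hL₁ b2]

theorem locIso_refl (C : OChart V) (m : ℂ) : LocIso C C m m := by
  refine ⟨id, continuousAt_id, rfl, 1, (UG ℂ).one_mem, 1, (UG V).one_mem, ?_⟩
  filter_upwards with x
  rw [act_one, act_one]
  exact ⟨rfl, rfl, rfl⟩

end general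

variable {n : ℕ}

theorem SgnW_of {D : HD (n + 1)} (h : D.Sgn) : SgnW D.om ∧ SgnW D.dual.om := ⟨h.sgnW', h.sgnW⟩

theorem u1_ref_a {D : HD (n + 1)} (h : D.Sgn) {m : ℂ} (hm : ‖m‖ < 1) (hre : m.re ≠ 0) :
    ∃ L ∈ UG (EuclideanSpace ℂ (Fin n)), ∀ᶠ ζ in 𝓝 m, D.u1 ζ = act L (RF D (-ζ ^ 2)) := by
  rcases lt_or_gt_of_ne hre with hlt | hgt
  · -- left half
    obtain ⟨L, hL, hL1⟩ := exists_UG_of_isom h.sgnW h.sgnW
      (fun j l => (if j = l then 1 else 0) + D.wv l) (by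
        intro x
        have : (fun j => ∑ i, ((if j = i then 1 else 0) + D.wv i) * x i) = D.Tr x := by
          funext j
          unfold HD.Tr
          simp only [add_mul, Finset.sum_add_distrib, ite_mul, one_mul, zero_mul,
            Finset.sum_ite_eq, Finset.mem_univ, if_true]
        rw [this]
        exact D.Tr_isom x)
    refine ⟨L, hL, ?_⟩
    have e1 : ∀ᶠ ζ : ℂ in 𝓝 m, ζ.re < 0 :=
      (isOpen_lt Complex.continuous_re continuous_const).mem_nhds hlt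
    have e2 : ∀ᶠ ζ : ℂ in 𝓝 m, ‖ζ‖ < 1 :=
      (isOpen_lt continuous_norm continuous_const).mem_nhds hm
    filter_upwards [e1, e2] with ζ h1 h2
    have hs := slit_neg_sq h2 h1.ne
    have h3 := hL1 (fun j => FK D.ν (D.e j) (-ζ ^ 2)) (h.posD.pos _ hs)
    have h4 : (fun j => ∑ i, ((if j = i then 1 else 0) + D.wv i) * FK D.ν (D.e i) (-ζ ^ 2)) =
        D.Fh ζ := by
      rw [D.Fh_left h1]
      funext j
      unfold HD.Tr HD.F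
      simp only [add_mul, Finset.sum_add_distrib, ite_mul, one_mul, zero_mul,
        Finset.sum_ite_eq, Finset.mem_univ, if_true]
    rw [h4] at h3
    exact h3
  · refine ⟨1, Subgroup.one_mem _, ?_⟩
    have e1 : ∀ᶠ ζ : ℂ in 𝓝 m, 0 < ζ.re :=
      (isOpen_lt continuous_const Complex.continuous_re).mem_nhds hgt
    filter_upwards [e1] with ζ h1
    rw [act_one]
    unfold HD.u1 RF
    rw [D.Fh_right h1]
    rfl

theorem u1_ref_b {D : HD (n + 1)} (h : D.Sgn) {m : ℂ} (hm : ‖m‖ < 1) (him : m.im ≠ 0) :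
    ∃ L ∈ UG (EuclideanSpace ℂ (Fin n)), ∀ᶠ ζ in 𝓝 m,
      D.u1 ζ = act L (RF D.dual (-(-ζ ^ 2))) := by
  have e2 : ∀ᶠ ζ : ℂ in 𝓝 m, ‖ζ‖ < 1 :=
    (isOpen_lt continuous_norm continuous_const).mem_nhds hm
  rcases lt_or_gt_of_ne him with hlt | hgt
  · obtain ⟨L, hL, hL1⟩ := exists_UG_of_isom h.sgnW' h.sgnW D.W D.isom
    refine ⟨L, hL, ?_⟩
    have e1 : ∀ᶠ ζ : ℂ in 𝓝 m, ζ.im < 0 :=
      (isOpen_lt Complex.continuous_im continuous_const).mem_nhds hlt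
    filter_upwards [e1, e2] with ζ h1 h2
    have hs := slit_sq h2 h1.ne
    have h3 := hL1 (fun i => D.G i (-ζ ^ 2)) (h.posD'.pos _ hs)
    rw [← D.Fh_lower h2 h1] at h3
    exact h3
  · obtain ⟨L, hL, hL1⟩ := exists_UG_of_isom h.sgnW' h.sgnW (fun j i => conj (D.W j i))
      D.isom_conj
    refine ⟨L, hL, ?_⟩
    have e1 : ∀ᶠ ζ : ℂ in 𝓝 m, 0 < ζ.im :=
      (isOpen_lt continuous_const Complex.continuous_im).mem_nhds hgt
    filter_upwards [e1, e2] with ζ h1 h2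
    have hs := slit_sq h2 h1.ne'
    have h3 := hL1 (fun i => D.G i (-ζ ^ 2)) (h.posD'.pos _ hs)
    rw [← D.Fh_upper h2 h1] at h3
    exact h3

theorem RF_dual {D : HD (n + 1)} (h : D.Sgn) :
    ∃ L ∈ UG (EuclideanSpace ℂ (Fin n)), ∀ τ ∈ S0, RF D τ = act L (RF D.dual (-τ)) := by
  obtain ⟨L, hL, hL1⟩ := exists_UG_of_isom h.sgnW' h.sgnW D.W D.isom
  refine ⟨L, hL, ?_⟩
  intro τ hτ
  have hs : 1 - Complex.exp (-τ) ∈ Complex.slitPlane := by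
    apply slit_of_strip_neg
    · simpa using hτ.1
    · simpa using hτ.2
  have h3 := hL1 (fun i => D.G i τ) (h.posD'.pos _ hs)
  have h4 : (fun j => ∑ i, D.W j i * D.G i τ) = fun j => FK D.ν (D.e j) τ := by
    funext j
    exact (D.F_eq j hτ).symm
  rw [h4] at h3
  exact h3

end Pool.Agent.BallCurve
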