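import Pool.Agent.MP_071e05_an.WMat2

/-!
Positivity of the invariant form on the strip, by the maximum principle.
-/

set_option autoImplicit false
set_option linter.unusedVariables false

open MeasureTheory Set Filter Topology ComplexConjugate

namespace Pool.Agent.BallCurve

variable {n : ℕ}

/-- Sign conditions. -/
structure HD.Sgn (D : HD (n + 1)) : Prop where
  npos : 0 < n
  hom : ∀ k : Fin n, D.om k.succ < 0
  hom' : ∀ k : Fin n, D.dual.om k.succ < 0

theorem pos_lemma (hn : 0 < n) {w g : Fin (n + 1) → ℝ} (hw0 : 0 < w 0)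
    (hw : ∀ k : Fin n, w k.succ < 0) (hg : ∀ j, 0 < g j) (hg0 : ∀ k : Fin n, g k.succ < g 0)
    (hsum : 0 ≤ ∑ j, w j * g j) : 0 < ∑ j, w j * g j ^ 2 := by
  have h1 : ∑ j, w j * g j ^ 2 = g 0 * ∑ j, w j * g j + ∑ j, w j * g j * (g j - g 0) := by
    rw [Finset.mul_sum, ← Finset.sum_add_distrib]
    apply Finset.sum_congr rfl; intro j _; ring
  rw [h1]
  have h2 : 0 ≤ g 0 * ∑ j, w j * g j := mul_nonneg (hg 0).le hsum
  have h3 : 0 < ∑ j, w j * g j * (g j - g 0) := by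
    rw [Fin.sum_univ_succ, sub_self, mul_zero, zero_add]
    apply Finset.sum_pos
    · intro k _
      have := mul_neg_of_neg_of_pos (hw k) (hg k.succ)
      have := hg0 k
      nlinarith
    · have : Nonempty (Fin n) := ⟨⟨0, hn⟩⟩
      exact Finset.univ_nonempty
  linarith

theorem HD.real_pos' (D : HD (n + 1)) (hn : 0 < n) (hom : ∀ k : Fin n, D.om k.succ < 0)
    {x : ℝ} (hx : x ≤ 0) : 0 < ∑ i, D.om i * (FR D.ν' (D.al i) x) ^ 2 :=
  pos_lemma hn D.om_zero_pos hom (fun j => D.hν'.FR_pos (D.al_nonneg j) hx)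
    (fun k => D.hν'.FR_lt (D.al_nonneg 0) (D.al_mono (Fin.succ_pos k)) hx) (D.sum_om_nonneg hx)

theorem HD.Sgn.real_pos {D : HD (n + 1)} (h : D.Sgn) {x : ℝ} (hx : x ≤ 0) :
    0 < ∑ j, D.dual.om j * (FR D.ν (D.e j) x) ^ 2 :=
  D.dual.real_pos' h.npos h.hom' hx

/-- Extension of `F` to the closed strip. -/
noncomputable def HD.Fx (D : HD (n + 1)) (j : Fin (n + 1)) (τ : ℂ) : ℂ := by
  classical exact if τ.re ≤ 0 then D.F j τ else ∑ i, D.W j i * D.G i τ

/-- The closed strip. -/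
def Sc : Set ℂ := Complex.im ⁻¹' Icc 0 (2 * Real.pi)

theorem HD.F_contOn (D : HD n) (j : Fin n) : ContinuousOn (D.F j) {τ | τ.re ≤ 0} :=
  D.hν.FK_continuousOn (D.e_nonneg j)

theorem HD.G_contOn (D : HD n) (i : Fin n) : ContinuousOn (D.G i) {τ | 0 ≤ τ.re} := by
  have h := D.hν'.FK_continuousOn (D.al_nonneg i)
  exact h.comp continuous_neg.continuousOn (fun τ hτ => by
    simp only [mem_ofPred_eq, Complex.neg_re] at hτ ⊢; linarith)

theorem HD.eq_on_line (D : HD (n + 1)) (j : Fin (n + 1)) {τ : ℂ} (h0 : τ.re = 0) (hτ : τ ∈ Sc) :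
    D.F j τ = ∑ i, D.W j i * D.G i τ := by
  have hpi := Real.pi_pos
  have key : EqOn (D.F j) (fun τ => ∑ i, D.W j i * D.G i τ) ({0} ×ℂ Icc 0 (2 * Real.pi)) := by
    apply Set.EqOn.of_subset_closure (s := {0} ×ℂ Ioo 0 (2 * Real.pi))
    · intro z hz
      rw [Complex.mem_reProdIm] at hz
      exact D.F_eq j ⟨hz.2.1, hz.2.2⟩
    · apply (D.F_contOn j).mono
      intro z hz
      rw [Complex.mem_reProdIm] at hz
      have h1 : z.re = 0 := hz.1
      simp [h1]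
    · apply continuousOn_finsetSum
      intro i _
      apply ContinuousOn.mul continuousOn_const
      apply (D.G_contOn i).mono
      intro z hz
      rw [Complex.mem_reProdIm] at hz
      have h1 : z.re = 0 := hz.1
      simp [h1]
    · intro z hz
      rw [Complex.mem_reProdIm] at hz ⊢
      exact ⟨hz.1, ⟨hz.2.1.le, hz.2.2.le⟩⟩
    · rw [Complex.closure_reProdIm, closure_Ioo (by positivity : (0 : ℝ) ≠ 2 * Real.pi)]
      intro z hz
      rw [Complex.mem_reProdIm] at hz ⊢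
      exact ⟨subset_closure hz.1, hz.2⟩
  apply key
  rw [Complex.mem_reProdIm]
  exact ⟨h0, hτ⟩

theorem HD.Fx_eq_F (D : HD (n + 1)) (j : Fin (n + 1)) {τ : ℂ} (hτ : τ ∈ S0) :
    D.Fx j τ = D.F j τ := by
  unfold HD.Fx
  split_ifs with h
  · rfl
  · exact (D.F_eq j hτ).symm

theorem HD.Fx_eq_left (D : HD (n + 1)) (j : Fin (n + 1)) {τ : ℂ} (hτ : τ.re ≤ 0) :
    D.Fx j τ = D.F j τ := by
  unfold HD.Fx
  rw [if_pos hτ]

theorem HD.Fx_eq_right (D : HD (n + 1)) (j : Fin (n + 1)) {τ : ℂ} (hτ : 0 ≤ τ.re) (hs : τ ∈ Sc) :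
    D.Fx j τ = ∑ i, D.W j i * D.G i τ := by
  unfold HD.Fx
  split_ifs with h
  · exact D.eq_on_line j (le_antisymm h hτ) hs
  · rfl

theorem HD.Fx_contOn (D : HD (n + 1)) (j : Fin (n + 1)) : ContinuousOn (D.Fx j) Sc := by
  have hA : IsClosed (Sc ∩ {τ : ℂ | τ.re ≤ 0}) :=
    (isClosed_Icc.preimage Complex.continuous_im).inter
      (isClosed_le Complex.continuous_re continuous_const)
  have hB : IsClosed (Sc ∩ {τ : ℂ | 0 ≤ τ.re}) :=
    (isClosed_Icc.preimage Complex.continuous_im).inter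
      (isClosed_le continuous_const Complex.continuous_re)
  have hU : Sc = (Sc ∩ {τ : ℂ | τ.re ≤ 0}) ∪ (Sc ∩ {τ : ℂ | 0 ≤ τ.re}) := by
    ext τ
    constructor
    · intro h
      rcases le_total τ.re 0 with h1 | h1
      · exact Or.inl ⟨h, h1⟩
      · exact Or.inr ⟨h, h1⟩
    · rintro (h | h) <;> exact h.1
  rw [hU]
  apply ContinuousOn.union_of_isClosed _ _ hA hB
  · apply ((D.F_contOn j).mono inter_subset_right).congr
    intro τ hτ
    exact D.Fx_eq_left j hτ.2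
  · have : ContinuousOn (fun τ => ∑ i, D.W j i * D.G i τ) (Sc ∩ {τ : ℂ | 0 ≤ τ.re}) := by
      apply continuousOn_finsetSum
      intro i _
      exact continuousOn_const.mul ((D.G_contOn i).mono inter_subset_right)
    apply this.congr
    intro τ hτ
    exact D.Fx_eq_right j hτ.2 hτ.1

/-- The form on the closed strip. -/
noncomputable def HD.D0 (D : HD (n + 1)) (τ : ℂ) : ℝ := ∑ j, D.dual.om j * ‖D.Fx j τ‖ ^ 2

theorem HD.D0_right (D : HD (n + 1)) {τ : ℂ} (hτ : 0 ≤ τ.re) (hs : τ ∈ Sc) :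
    D.D0 τ = ∑ i, D.om i * ‖D.G i τ‖ ^ 2 := by
  unfold HD.D0
  simp_rw [D.Fx_eq_right _ hτ hs]
  exact D.isom _

theorem norm_FK_shift (ν : Measure ℝ) (e : ℝ) {τ : ℂ} (h : τ.im = 2 * Real.pi) :
    ‖FK ν e τ‖ = ‖FK ν e (τ.re : ℂ)‖ := by
  have h1 : τ = (τ.re : ℂ) + 2 * Real.pi * Complex.I := by
    apply Complex.ext <;> simp [h]
  have h2 : ‖Complex.exp (e * (2 * Real.pi * Complex.I))‖ = 1 := by
    rw [show (e * (2 * Real.pi * Complex.I) : ℂ) = ((e * (2 * Real.pi) : ℝ) : ℂ) * Complex.I by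
      push_cast; ring, Complex.norm_exp_ofReal_mul_I]
  rw [h1, FK_period, norm_mul, h2, one_mul]
  simp

theorem norm_FK_shift' (ν : Measure ℝ) (e : ℝ) {τ : ℂ} (h : τ.im = -(2 * Real.pi)) :
    ‖FK ν e τ‖ = ‖FK ν e (τ.re : ℂ)‖ := by
  have h3 : ‖FK ν e (conj τ)‖ = ‖FK ν e τ‖ := by rw [FK_conj, RCLike.norm_conj]
  rw [← h3, norm_FK_shift ν e (by simp [h])]
  simp

theorem HD.Sgn.D0_pos_bdry {D : HD (n + 1)} (h : D.Sgn) {τ : ℂ}
    (hτ : τ.im = 0 ∨ τ.im = 2 * Real.pi) : 0 < D.D0 τ := by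
  have hs : τ ∈ Sc := by
    have := Real.pi_pos
    rcases hτ with h1 | h1
    · change τ.im ∈ Icc 0 (2 * Real.pi)
      rw [h1]; exact ⟨le_rfl, by positivity⟩
    · change τ.im ∈ Icc 0 (2 * Real.pi)
      rw [h1]; exact ⟨by positivity, le_rfl⟩
  rcases le_total τ.re 0 with h1 | h1
  · have h2 : D.D0 τ = ∑ j, D.dual.om j * (FR D.ν (D.e j) τ.re) ^ 2 := by
      unfold HD.D0
      apply Finset.sum_congr rfl
      intro j _
      rw [D.Fx_eq_left j h1]
      congr 1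
      have h3 : ‖D.F j τ‖ = ‖FK D.ν (D.e j) (τ.re : ℂ)‖ := by
        rcases hτ with h4 | h4
        · have : τ = (τ.re : ℂ) := by apply Complex.ext <;> simp [h4]
          unfold HD.F; rw [← this]
        · exact norm_FK_shift _ _ h4
      rw [h3, FK_ofReal, Complex.norm_real, Real.norm_eq_abs, sq_abs]
    rw [h2]; exact h.real_pos h1
  · have h2 : D.D0 τ = ∑ i, D.om i * (FR D.ν' (D.al i) (-τ.re)) ^ 2 := by
      rw [D.D0_right h1 hs]
      apply Finset.sum_congr rfl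
      intro i _
      congr 1
      have h3 : ‖D.G i τ‖ = ‖FK D.ν' (D.al i) ((-τ).re : ℂ)‖ := by
        rcases hτ with h4 | h4
        · have : -τ = ((-τ).re : ℂ) := by apply Complex.ext <;> simp [h4]
          unfold HD.G; rw [← this]
        · exact norm_FK_shift' _ _ (by simp [h4])
      rw [h3, FK_ofReal, Complex.norm_real, Real.norm_eq_abs, sq_abs, Complex.neg_re]
    rw [h2]; exact D.real_pos' h.npos h.hom (by linarith)

theorem HD.Sgn.D0_le {D : HD (n + 1)} (h : D.Sgn) (τ : ℂ) :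
    D.D0 τ ≤ D.dual.om 0 * ‖D.Fx 0 τ‖ ^ 2 := by
  unfold HD.D0
  rw [Fin.sum_univ_succ]
  have : ∑ k : Fin n, D.dual.om k.succ * ‖D.Fx k.succ τ‖ ^ 2 ≤ 0 := by
    apply Finset.sum_nonpos
    intro k _
    exact mul_nonpos_of_nonpos_of_nonneg (h.hom' k).le (by positivity)
  linarith

theorem HD.Sgn.Fx_zero_ne {D : HD (n + 1)} (h : D.Sgn) {τ : ℂ} (hτ : τ ∈ Sc) : D.Fx 0 τ ≠ 0 := by
  by_cases hb : τ.im = 0 ∨ τ.im = 2 * Real.pi
  · intro h0
    have h1 := h.D0_pos_bdry hb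
    have h2 := h.D0_le τ
    rw [h0] at h2
    simp at h2
    linarith
  · push Not at hb
    have hm : τ ∈ S0 := ⟨lt_of_le_of_ne hτ.1 (Ne.symm hb.1), lt_of_le_of_ne hτ.2 hb.2⟩
    rw [D.Fx_eq_F 0 hm]
    exact D.hν.FK_ne_zero (D.e_nonneg 0) hm.1 hm.2

/-- Normalising constants. -/
noncomputable def HD.cst (D : HD (n + 1)) (k : Fin n) : ℝ :=
  Real.sqrt (-D.dual.om k.succ / D.dual.om 0)

theorem HD.Sgn.cst_sq {D : HD (n + 1)} (h : D.Sgn) (k : Fin n) :
    D.cst k ^ 2 = -D.dual.om k.succ / D.dual.om 0 := by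
  unfold HD.cst
  rw [Real.sq_sqrt]
  apply div_nonneg
  · have := h.hom' k; linarith
  · exact D.dual.om_zero_pos.le

/-- The normalised vector `(c_k F_{k+1}/F_0)_k`. -/
noncomputable def HD.uv (D : HD (n + 1)) (τ : ℂ) : EuclideanSpace ℂ (Fin n) :=
  WithLp.toLp 2 (fun k => (D.cst k : ℂ) * (D.Fx k.succ τ / D.Fx 0 τ))

theorem HD.Sgn.norm_uv_sq {D : HD (n + 1)} (h : D.Sgn) {τ : ℂ} (hτ : τ ∈ Sc) :
    ‖D.uv τ‖ ^ 2 = 1 - D.D0 τ / (D.dual.om 0 * ‖D.Fx 0 τ‖ ^ 2) := by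
  have h0 := h.Fx_zero_ne hτ
  have h1 : 0 < ‖D.Fx 0 τ‖ := norm_pos_iff.mpr h0
  have h2 := D.dual.om_zero_pos
  rw [EuclideanSpace.norm_sq_eq]
  simp only [HD.uv, norm_mul, norm_div, Complex.norm_real, mul_pow, div_pow, Real.norm_eq_abs,
    sq_abs, h.cst_sq]
  unfold HD.D0
  rw [Fin.sum_univ_succ, add_div, div_self (by positivity), Finset.sum_div]
  rw [sub_add_cancel_left, ← Finset.sum_neg_distrib]
  apply Finset.sum_congr rfl
  intro k _
  field_simp

theorem HD.Sgn.uv_contOn {D : HD (n + 1)} (h : D.Sgn) : ContinuousOn D.uv Sc := by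
  unfold HD.uv
  apply (PiLp.continuous_toLp 2 _).comp_continuousOn
  apply continuousOn_pi.mpr
  intro k
  exact continuousOn_const.mul ((D.Fx_contOn k.succ).div (D.Fx_contOn 0) fun τ hτ => h.Fx_zero_ne hτ)

theorem S0_subset_Sc : S0 ⊆ Sc := fun τ hτ => ⟨hτ.1.le, hτ.2.le⟩

theorem HD.Fx_diffOn (D : HD (n + 1)) (j : Fin (n + 1)) : DifferentiableOn ℂ (D.Fx j) S0 :=
  (D.F_diff j).congr fun τ hτ => D.Fx_eq_F j hτ

theorem HD.Sgn.uv_diffOn {D : HD (n + 1)} (h : D.Sgn) : DifferentiableOn ℂ D.uv S0 := by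
  unfold HD.uv
  have h1 : DifferentiableOn ℂ (fun τ => (fun k : Fin n => (D.cst k : ℂ) *
      (D.Fx k.succ τ / D.Fx 0 τ))) S0 := by
    apply differentiableOn_pi.mpr
    intro k
    exact ((D.Fx_diffOn k.succ).div (D.Fx_diffOn 0) fun τ hτ =>
      h.Fx_zero_ne (S0_subset_Sc hτ)).const_mul _
  exact (PiLp.continuousLinearEquiv 2 ℂ (fun _ : Fin n => ℂ)).symm.differentiable.comp_differentiableOn h1

/-! ### Behaviour at the ends of the strip -/

theorem tendsto_exp_left : Tendsto Complex.exp (comap Complex.re atBot) (𝓝 0) := by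
  rw [tendsto_zero_iff_norm_tendsto_zero]
  have : (fun x : ℂ => ‖Complex.exp x‖) = Real.exp ∘ Complex.re := by
    ext x; simp [Complex.norm_exp]
  rw [this]
  exact Real.tendsto_exp_atBot.comp tendsto_comap

theorem hK_zero {ν : Measure ℝ} (hν : KM ν) {e : ℝ} (he : 0 ≤ e) : hK ν e 0 = (cK ν e : ℂ) := by
  have := hν.hK_hasSum he (t := 0) (by simp)
  have h1 : HasSum (fun n : ℕ => (cK ν (e + n) : ℂ) * (0 : ℂ) ^ n)
      ((cK ν (e + (0 : ℕ)) : ℂ) * (0 : ℂ) ^ 0) :=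
    hasSum_single 0 (fun b hb => by rw [zero_pow hb, mul_zero])
  have h2 := this.unique h1
  simpa using h2

theorem FK_asymp_left {ν : Measure ℝ} (hν : KM ν) {e k : ℝ} (he : 0 ≤ e) (hk : k ≤ e) :
    Tendsto (fun τ : ℂ => ‖Complex.exp (-(k * τ)) * FK ν e τ - (if e = k then (cK ν e : ℂ) else 0)‖)
      (comap Complex.re atBot) (𝓝 0) := by
  have h2 : Tendsto (fun τ : ℂ => hK ν e (Complex.exp τ)) (comap Complex.re atBot)
      (𝓝 (cK ν e : ℂ)) := by
    rw [← hK_zero hν he]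
    have hc : ContinuousAt (hK ν e) 0 := (hν.hK_hasDerivAt he (by simp)).continuousAt
    exact hc.tendsto.comp tendsto_exp_left
  have h3 : ∀ τ : ℂ, Complex.exp (-(k * τ)) * FK ν e τ =
      Complex.exp (((e - k : ℝ) : ℂ) * τ) * hK ν e (Complex.exp τ) := by
    intro x
    unfold FK
    rw [← mul_assoc, ← Complex.exp_add]
    congr 2
    push_cast; ring
  simp_rw [h3]
  by_cases hek : e = k
  · simp only [hek, sub_self, Complex.ofReal_zero, zero_mul, Complex.exp_zero, one_mul, if_true]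
    rw [← hek]
    rw [← tendsto_iff_norm_sub_tendsto_zero]
    exact h2
  · simp only [hek, if_false, sub_zero]
    have hpos : 0 < e - k := by
      rcases lt_or_eq_of_le hk with h | h
      · linarith
      · exact absurd h.symm hek
    have h4 : Tendsto (fun τ : ℂ => Complex.exp (((e - k : ℝ) : ℂ) * τ))
        (comap Complex.re atBot) (𝓝 0) := by
      rw [tendsto_zero_iff_norm_tendsto_zero]
      have : (fun τ : ℂ => ‖Complex.exp (((e - k : ℝ) : ℂ) * τ)‖) =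
          (fun x : ℝ => Real.exp ((e - k) * x)) ∘ Complex.re := by
        ext x
        rw [Complex.norm_exp, Complex.re_ofReal_mul]
        rfl
      rw [this]
      exact (Real.tendsto_exp_atBot.comp (tendsto_id.const_mul_atBot hpos)).comp tendsto_comap
    have := (h4.mul h2).norm
    simpa using this

theorem FK_asymp_left' {ν : Measure ℝ} (hν : KM ν) {e k : ℝ} (he : 0 ≤ e) (hk : k ≤ e) :
    Tendsto (fun τ : ℂ => Complex.exp (-(k * τ)) * FK ν e τ)
      (comap Complex.re atBot) (𝓝 (if e = k then (cK ν e : ℂ) else 0)) := by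
  rw [tendsto_iff_norm_sub_tendsto_zero]
  exact FK_asymp_left hν he hk

theorem HD.Sgn.uv_left {D : HD (n + 1)} (h : D.Sgn) :
    Tendsto D.uv (comap Complex.re atBot) (𝓝 0) := by
  have h0 : Tendsto (fun τ : ℂ => Complex.exp (-(D.e 0 * τ)) * D.F 0 τ) (comap Complex.re atBot)
      (𝓝 (cK D.ν (D.e 0) : ℂ)) := by
    have := FK_asymp_left' D.hν (D.e_nonneg 0) (k := D.e 0) le_rfl
    simpa [HD.F] using this
  have hk : ∀ k : Fin n, Tendsto (fun τ : ℂ => Complex.exp (-(D.e 0 * τ)) * D.F k.succ τ)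
      (comap Complex.re atBot) (𝓝 0) := by
    intro k
    have h2 := D.e_mono (Fin.succ_pos k)
    have := FK_asymp_left' D.hν (D.e_nonneg k.succ) (k := D.e 0) h2.le
    simpa [h2.ne', HD.F] using this
  have hc0 : (cK D.ν (D.e 0) : ℂ) ≠ 0 := by
    exact_mod_cast (D.hν.cK_pos (D.e_nonneg 0)).ne'
  have hev : ∀ᶠ τ : ℂ in comap Complex.re atBot, τ.re ≤ 0 :=
    tendsto_comap.eventually (eventually_le_atBot 0)
  have hpi : Tendsto (fun τ => (fun k : Fin n => (D.cst k : ℂ) * (D.Fx k.succ τ / D.Fx 0 τ)))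
      (comap Complex.re atBot) (𝓝 (fun k => 0)) := by
    rw [tendsto_pi_nhds]
    intro k
    have h1 : Tendsto (fun τ => (D.cst k : ℂ) * ((Complex.exp (-(D.e 0 * τ)) * D.F k.succ τ) /
        (Complex.exp (-(D.e 0 * τ)) * D.F 0 τ))) (comap Complex.re atBot)
        (𝓝 ((D.cst k : ℂ) * (0 / (cK D.ν (D.e 0) : ℂ)))) :=
      ((hk k).div h0 hc0).const_mul _
    rw [zero_div, mul_zero] at h1
    apply h1.congr'
    filter_upwards [hev] with τ hτ
    rw [D.Fx_eq_left _ hτ, D.Fx_eq_left _ hτ, mul_div_mul_left _ _ (Complex.exp_ne_zero _)]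
  have := (PiLp.continuous_toLp 2 (fun _ : Fin n => ℂ)).tendsto (fun k => 0)
  have h3 := this.comp hpi
  have h4 : (WithLp.toLp 2 (fun k => 0) : EuclideanSpace ℂ (Fin n)) = 0 := by
    ext k; rfl
  rw [h4] at h3
  exact h3

theorem tendsto_neg_right : Tendsto (fun τ : ℂ => -τ) (comap Complex.re atTop)
    (comap Complex.re atBot) := by
  rw [tendsto_comap_iff]
  have : Complex.re ∘ (fun τ : ℂ => -τ) = (fun x => -x) ∘ Complex.re := by
    ext τ; simp
  rw [this]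
  exact tendsto_neg_atTop_atBot.comp tendsto_comap

theorem HD.WG_right (D : HD (n + 1)) (j : Fin (n + 1)) :
    Tendsto (fun τ : ℂ => Complex.exp (D.al 0 * τ) * ∑ i, D.W j i * D.G i τ)
      (comap Complex.re atTop) (𝓝 (D.W j 0 * (cK D.ν' (D.al 0) : ℂ))) := by
  have h1 : ∀ i, Tendsto (fun τ : ℂ => D.W j i * (Complex.exp (D.al 0 * τ) * D.G i τ))
      (comap Complex.re atTop) (𝓝 (if i = 0 then D.W j 0 * (cK D.ν' (D.al 0) : ℂ) else 0)) := by
    intro i
    have h2 := (FK_asymp_left' D.hν' (D.al_nonneg i) (k := D.al 0)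
      (D.al_mono.monotone (Fin.zero_le i))).comp tendsto_neg_right
    have h3 : ((fun τ : ℂ => Complex.exp (-(D.al 0 * τ)) * FK D.ν' (D.al i) τ) ∘ fun τ => -τ) =
        fun τ => Complex.exp (D.al 0 * τ) * D.G i τ := by
      ext τ
      simp [HD.G, Function.comp]
    rw [h3] at h2
    have h4 := h2.const_mul (D.W j i)
    by_cases hi : i = 0
    · subst hi; simpa using h4
    · have h5 : D.al i ≠ D.al 0 := fun h => hi (D.al_mono.injective h)
      simpa [hi, h5] using h4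
  have h2 := tendsto_finsetSum Finset.univ (fun i _ => h1 i)
  simp only [Finset.sum_ite_eq', Finset.mem_univ, if_true] at h2
  apply h2.congr
  intro τ
  rw [Finset.mul_sum]
  apply Finset.sum_congr rfl; intro i _; ring

theorem HD.W_ne_zero (D : HD (n + 1)) (j i : Fin (n + 1)) : D.W j i ≠ 0 := by
  intro h
  have := D.W_im j i
  rw [h] at this
  exact D.om_ne_zero i this.symm

theorem HD.Sgn.uv_right {D : HD (n + 1)} (h : D.Sgn) :
    Tendsto D.uv (comap Complex.re atTop)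
      (𝓝 (WithLp.toLp 2 (fun k => (D.cst k : ℂ) * (D.W k.succ 0 / D.W 0 0)))) := by
  have hev : ∀ᶠ τ : ℂ in comap Complex.re atTop, 0 < τ.re :=
    tendsto_comap.eventually (eventually_gt_atTop 0)
  have hc0 : (cK D.ν' (D.al 0) : ℂ) ≠ 0 := by
    exact_mod_cast (D.hν'.cK_pos (D.al_nonneg 0)).ne'
  have hpi : Tendsto (fun τ => (fun k : Fin n => (D.cst k : ℂ) * (D.Fx k.succ τ / D.Fx 0 τ)))
      (comap Complex.re atTop) (𝓝 (fun k => (D.cst k : ℂ) * (D.W k.succ 0 / D.W 0 0))) := by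
    rw [tendsto_pi_nhds]
    intro k
    have h1 := (((D.WG_right k.succ).div (D.WG_right 0)
      (mul_ne_zero (D.W_ne_zero 0 0) hc0))).const_mul (D.cst k : ℂ)
    rw [mul_div_mul_right _ _ hc0] at h1
    apply h1.congr'
    filter_upwards [hev] with τ hτ
    have h2 : ¬ τ.re ≤ 0 := not_le.mpr hτ
    unfold HD.Fx
    rw [if_neg h2, if_neg h2, Pi.div_apply, mul_div_mul_left _ _ (Complex.exp_ne_zero _)]
  exact ((PiLp.continuous_toLp 2 (fun _ : Fin n => ℂ)).tendsto _).comp hpi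

theorem HD.Sgn.uv_le {D : HD (n + 1)} (h : D.Sgn) {C : ℝ}
    (hC : ∀ τ : ℂ, (τ.im = 0 ∨ τ.im = 2 * Real.pi) → ‖D.uv τ‖ ≤ C) {τ : ℂ} (hτ : τ ∈ Sc) :
    ‖D.uv τ‖ ≤ C := by
  have hcl : closure (Complex.im ⁻¹' Ioo 0 (2 * Real.pi)) = Sc := by
    rw [Complex.closure_preimage_im, closure_Ioo (by positivity)]
    rfl
  apply PhragmenLindelof.horizontal_strip (a := 0) (b := 2 * Real.pi) (f := D.uv) _ _
    (fun z hz => hC z (Or.inl hz)) (fun z hz => hC z (Or.inr hz)) hτ.1 hτ.2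
  · constructor
    · exact h.uv_diffOn
    · rw [hcl]; exact h.uv_contOn
  · refine ⟨0, by rw [sub_zero]; positivity, 0, ?_⟩
    have h1 : comap (abs ∘ Complex.re) atTop = comap Complex.re atBot ⊔ comap Complex.re atTop := by
      rw [← comap_comap, comap_abs_atTop, comap_sup]
    have h2 : D.uv =O[comap (abs ∘ Complex.re) atTop] fun _ => (1 : ℝ) := by
      rw [h1]
      exact (h.uv_left.isBigO_one ℝ).sup (h.uv_right.isBigO_one ℝ)
    simp only [zero_mul, Real.exp_zero]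
    exact h2.mono inf_le_left

theorem HD.Sgn.uv_le_one {D : HD (n + 1)} (h : D.Sgn) {τ : ℂ} (hτ : τ ∈ Sc) : ‖D.uv τ‖ ≤ 1 := by
  apply h.uv_le _ hτ
  intro τ hb
  have hs : τ ∈ Sc := by
    have := Real.pi_pos
    rcases hb with h1 | h1
    · change τ.im ∈ Icc 0 (2 * Real.pi)
      rw [h1]; exact ⟨le_rfl, by positivity⟩
    · change τ.im ∈ Icc 0 (2 * Real.pi)
      rw [h1]; exact ⟨by positivity, le_rfl⟩
  have h1 := h.norm_uv_sq hs
  have h2 := h.D0_pos_bdry hb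
  have h3 : 0 < D.dual.om 0 * ‖D.Fx 0 τ‖ ^ 2 :=
    mul_pos D.dual.om_zero_pos (pow_pos (norm_pos_iff.mpr (h.Fx_zero_ne hs)) 2)
  have h4 : 0 < D.D0 τ / (D.dual.om 0 * ‖D.Fx 0 τ‖ ^ 2) := div_pos h2 h3
  have h5 : ‖D.uv τ‖ ^ 2 ≤ 1 ^ 2 := by rw [h1]; linarith
  exact (pow_le_pow_iff_left₀ (norm_nonneg _) zero_le_one two_ne_zero).mp h5

theorem HD.Sgn.uv_lt_one {D : HD (n + 1)} (h : D.Sgn) {τ : ℂ} (hτ : τ ∈ S0) : ‖D.uv τ‖ < 1 := by
  by_contra hcon
  push Not at hcon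
  have h1 : ‖D.uv τ‖ = 1 := le_antisymm (h.uv_le_one (S0_subset_Sc hτ)) hcon
  have h2 : IsMaxOn (norm ∘ D.uv) S0 τ := by
    intro y hy
    simp only [mem_ofPred_eq, Function.comp]
    rw [h1]; exact h.uv_le_one (S0_subset_Sc hy)
  have h3 := Complex.norm_eqOn_of_isPreconnected_of_isMaxOn convex_S0.isPreconnected isOpen_S0
    h.uv_diffOn hτ h2
  have h4 : Tendsto (fun x : ℝ => ‖D.uv (x + Real.pi * Complex.I)‖) atBot (𝓝 0) := by
    have h5 : Tendsto (fun x : ℝ => (x : ℂ) + Real.pi * Complex.I) atBot (comap Complex.re atBot) := by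
      rw [tendsto_comap_iff]
      have : Complex.re ∘ (fun x : ℝ => (x : ℂ) + Real.pi * Complex.I) = id := by
        ext x; simp
      rw [this]; exact tendsto_id
    have := (h.uv_left.comp h5).norm
    simpa using this
  have h5 : Tendsto (fun x : ℝ => ‖D.uv (x + Real.pi * Complex.I)‖) atBot (𝓝 1) := by
    apply tendsto_const_nhds.congr
    intro x
    have hm : (x : ℂ) + Real.pi * Complex.I ∈ S0 := by
      constructor <;> simp [Real.pi_pos]
    have := h3 hm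
    simp only [Function.comp, Function.const] at this
    rw [this, h1]
  exact zero_ne_one (tendsto_nhds_unique h4 h5)

theorem HD.Sgn.D0_pos {D : HD (n + 1)} (h : D.Sgn) {τ : ℂ} (hτ : τ ∈ Sc) : 0 < D.D0 τ := by
  by_cases hb : τ.im = 0 ∨ τ.im = 2 * Real.pi
  · exact h.D0_pos_bdry hb
  · push Not at hb
    have hm : τ ∈ S0 := ⟨lt_of_le_of_ne hτ.1 (Ne.symm hb.1), lt_of_le_of_ne hτ.2 hb.2⟩
    have h1 := h.norm_uv_sq hτ
    have h2 := h.uv_lt_one hm
    have h3 : 0 < D.dual.om 0 * ‖D.Fx 0 τ‖ ^ 2 :=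
      mul_pos D.dual.om_zero_pos (pow_pos (norm_pos_iff.mpr (h.Fx_zero_ne hτ)) 2)
    have h4 : ‖D.uv τ‖ ^ 2 < 1 := by
      have := norm_nonneg (D.uv τ)
      nlinarith
    have h5 : 0 < D.D0 τ / (D.dual.om 0 * ‖D.Fx 0 τ‖ ^ 2) := by linarith
    exact (div_pos_iff_of_pos_right h3).mp h5

end Pool.Agent.BallCurve
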