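import Pool.Agent.MP_071e05_an.Conn

/-!
Algebraic properties of the connection matrix: symmetry, equal imaginary parts in each column,
the invariant hermitian form, the local monodromy at `t = 1`.
-/

set_option autoImplicit false
set_option linter.unusedVariables false

open MeasureTheory Set Filter Topology ComplexConjugate

namespace Pool.Agent.BallCurve

variable {n : ℕ}

/-- The connection matrix. -/
noncomputable def HD.W (D : HD n) : Fin n → Fin n → ℂ := D.exists_W.choose

theorem HD.F_eq (D : HD n) (j : Fin n) {τ : ℂ} (hτ : τ ∈ S0) :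
    D.F j τ = ∑ i, D.W j i * D.G i τ := D.exists_W.choose_spec j τ hτ

/-- The phase `exp(2πi(e_j + α_i))`. -/
noncomputable def HD.ph (D : HD n) (j i : Fin n) : ℂ :=
  Complex.exp (2 * Real.pi * (D.e j + D.al i) * Complex.I)

theorem HD.G_unique (D : HD n) {c c' : Fin n → ℂ}
    (h : ∀ τ ∈ S0, ∑ j, c j * D.G j τ = ∑ j, c' j * D.G j τ) : ∀ j, c j = c' j := by
  intro j
  have := D.G_linindep (fun j => c j - c' j) (by
    intro τ hτ
    have := h τ hτ
    simp_rw [sub_mul]
    rw [Finset.sum_sub_distrib, this, sub_self]) j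
  exact sub_eq_zero.mp this

theorem HD.F_unique (D : HD n) {c c' : Fin n → ℂ}
    (h : ∀ τ ∈ S0, ∑ j, c j * D.F j τ = ∑ j, c' j * D.F j τ) : ∀ j, c j = c' j := by
  intro j
  have := D.F_linindep (fun j => c j - c' j) (by
    intro τ hτ
    have := h τ hτ
    simp_rw [sub_mul]
    rw [Finset.sum_sub_distrib, this, sub_self]) j
  exact sub_eq_zero.mp this

theorem HD.W_conj (D : HD n) (j i : Fin n) : D.W j i = D.ph j i * conj (D.W j i) := by
  revert i
  apply D.G_unique (c := D.W j) (c' := fun i => D.ph j i * conj (D.W j i))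
  intro τ hτ
  have hmem : conj τ + 2 * Real.pi * Complex.I ∈ S0 := by
    constructor
    · simp; linarith [hτ.2]
    · simp; exact hτ.1
  have h1 := D.F_eq j hmem
  have h2 : D.F j (conj τ + 2 * Real.pi * Complex.I) =
      Complex.exp (D.e j * (2 * Real.pi * Complex.I)) * conj (D.F j τ) := by
    unfold HD.F; rw [FK_period, FK_conj]
  have h3 : ∀ i, D.G i (conj τ + 2 * Real.pi * Complex.I) =
      Complex.exp (-(D.al i * (2 * Real.pi * Complex.I))) * conj (D.G i τ) := by
    intro i
    unfold HD.G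
    have h4 := FK_period (ν := D.ν') (D.al i) (-(conj τ + 2 * Real.pi * Complex.I))
    have h5 : -(conj τ + 2 * Real.pi * Complex.I) + 2 * Real.pi * Complex.I = conj (-τ) := by
      rw [map_neg]; ring
    rw [h5, FK_conj] at h4
    rw [h4, ← mul_assoc, ← Complex.exp_add]
    simp
  rw [← D.F_eq j hτ]
  rw [h2] at h1
  simp_rw [h3] at h1
  have h6 : conj (D.F j τ) = ∑ i, Complex.exp (-(D.e j * (2 * Real.pi * Complex.I))) * D.W j i *
      Complex.exp (-(D.al i * (2 * Real.pi * Complex.I))) * conj (D.G i τ) := by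
    have h7 : conj (D.F j τ) = Complex.exp (-(D.e j * (2 * Real.pi * Complex.I))) *
        (Complex.exp (D.e j * (2 * Real.pi * Complex.I)) * conj (D.F j τ)) := by
      rw [← mul_assoc, ← Complex.exp_add]; simp
    rw [h7, h1, Finset.mul_sum]
    apply Finset.sum_congr rfl
    intro i _; ring
  have h8 : D.F j τ = conj (conj (D.F j τ)) := (Complex.conj_conj _).symm
  rw [h8, h6, map_sum]
  apply Finset.sum_congr rfl
  intro i _
  simp only [map_mul, Complex.conj_conj, ← Complex.exp_conj, map_neg, Complex.conj_ofReal,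
    Complex.conj_I]
  unfold HD.ph
  have h9 : Complex.exp (-(D.e j * (conj 2 * Real.pi * -Complex.I))) *
      Complex.exp (-(D.al i * (conj 2 * Real.pi * -Complex.I))) =
      Complex.exp (2 * Real.pi * (D.e j + D.al i) * Complex.I) := by
    rw [← Complex.exp_add]
    have : (conj (2 : ℂ)) = 2 := by
      rw [show (2 : ℂ) = ((2 : ℝ) : ℂ) by norm_num, Complex.conj_ofReal]
    rw [this]
    congr 1; ring
  rw [← h9]; ring

/-- `G i` is real on the positive real axis. -/
theorem HD.G_ofReal (D : HD n) (i : Fin n) (x : ℝ) : D.G i x = (FR D.ν' (D.al i) (-x) : ℂ) := by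
  unfold HD.G
  rw [← Complex.ofReal_neg, FK_ofReal]

theorem HD.tendsto_G (D : HD n) (i : Fin n) {x : ℝ} (hx : 0 < x) :
    Tendsto (fun ε : ℝ => D.G i (x + ε * Complex.I)) (𝓝[>] 0) (𝓝 (D.G i x)) := by
  have h1 : ContinuousAt (FK D.ν' (D.al i)) (-x) := by
    apply (D.hν'.FK_differentiableAt (D.al_nonneg i) (slit_of_re_neg (by simpa using hx))).continuousAt
  have h2 : Tendsto (fun ε : ℝ => -((x : ℂ) + ε * Complex.I)) (𝓝[>] 0) (𝓝 (-(x : ℂ))) := by
    have : Continuous (fun ε : ℝ => -((x : ℂ) + ε * Complex.I)) := by fun_prop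
    have h := this.tendsto 0
    simp only [Complex.ofReal_zero, zero_mul, add_zero] at h
    exact h.mono_left nhdsWithin_le_nhds
  exact h1.tendsto.comp h2

theorem upper_mem {x ε : ℝ} (hε : 0 < ε) (hε1 : ε < 1) : (x : ℂ) + ε * Complex.I ∈ S0 := by
  constructor
  · simpa using hε
  · simp; linarith [Real.pi_gt_three]

theorem HD.tendsto_F (D : HD n) (j : Fin n) {x : ℝ} (hx : 0 < x) :
    Tendsto (fun ε : ℝ => FK D.ν (D.e j) (x + ε * Complex.I)) (𝓝[>] 0)
      (𝓝 (∑ i, D.W j i * D.G i x)) := by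
  have h1 : Tendsto (fun ε : ℝ => ∑ i, D.W j i * D.G i (x + ε * Complex.I)) (𝓝[>] 0)
      (𝓝 (∑ i, D.W j i * D.G i x)) := by
    apply tendsto_finsetSum
    intro i _
    exact (D.tendsto_G i hx).const_mul _
  apply h1.congr'
  filter_upwards [Ioo_mem_nhdsGT (show (0 : ℝ) < 1 by norm_num)] with ε hε
  rw [← D.F_eq j (upper_mem hε.1 hε.2)]
  rfl

theorem HD.sum_im (D : HD n) (j : Fin n) (x : ℝ) :
    (∑ i, D.W j i * D.G i x).im = ∑ i, (D.W j i).im * FR D.ν' (D.al i) (-x) := by
  rw [Complex.im_sum]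
  apply Finset.sum_congr rfl
  intro i _
  rw [D.G_ofReal, Complex.im_mul_ofReal]

/-- The imaginary parts of the entries of a column agree. -/
theorem HD.W_im_eq (D : HD n) (j j' i : Fin n) : (D.W j i).im = (D.W j' i).im := by
  have h := FK_linindep D.hν' D.al_mono D.al_nonneg 0
    (fun i => (((D.W j i).im - (D.W j' i).im : ℝ) : ℂ)) (by
      intro x hx
      have h1 := D.hν.im_eq_of_tendsto (D.e_nonneg j) (D.e_nonneg j') (-x)
        (D.tendsto_F j (x := -x) (by linarith)) (D.tendsto_F j' (x := -x) (by linarith))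
      rw [D.sum_im, D.sum_im] at h1
      simp only [Complex.ofReal_zero, zero_mul, add_zero]
      simp_rw [FK_ofReal, ← Complex.ofReal_mul]
      rw [← Complex.ofReal_sum]
      rw [Complex.ofReal_eq_zero]
      simp only [neg_neg] at h1
      simp_rw [sub_mul]
      rw [Finset.sum_sub_distrib, h1, sub_self]) i
  have h2 : (D.W j i).im - (D.W j' i).im = 0 := by exact_mod_cast h
  linarith

/-- The weights at infinity. -/
noncomputable def HD.om (D : HD (n + 1)) (i : Fin (n + 1)) : ℝ := (D.W 0 i).im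

theorem HD.W_im (D : HD (n + 1)) (j i : Fin (n + 1)) : (D.W j i).im = D.om i :=
  D.W_im_eq j 0 i

theorem HD.sum_om_G_nonneg (D : HD (n + 1)) {x : ℝ} (hx : x < 0) :
    0 ≤ ∑ i, D.om i * FR D.ν' (D.al i) x := by
  have h := D.hν.im_nonneg_of_tendsto (D.e_nonneg 0) (-x) (D.tendsto_F 0 (x := -x) (by linarith))
  rw [D.sum_im] at h
  simpa [HD.om] using h

/-- Inverse relation from the dual data. -/
theorem HD.G_eq (D : HD n) (i : Fin n) {τ : ℂ} (hτ : τ ∈ S0) :
    D.G i τ = ∑ j, conj (D.dual.W i j) * D.F j τ := by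
  have hmem : -(conj τ) ∈ S0 := by
    constructor
    · simpa using hτ.1
    · simpa using hτ.2
  have h1 := D.dual.F_eq i hmem
  have h2 : D.dual.F i (-(conj τ)) = conj (D.G i τ) := by
    change FK D.ν' (D.al i) (-(conj τ)) = _
    unfold HD.G
    rw [← map_neg, FK_conj]
  have h3 : ∀ j, D.dual.G j (-(conj τ)) = conj (D.F j τ) := by
    intro j
    change FK D.ν (D.e j) (-(-(conj τ))) = _
    unfold HD.F
    rw [neg_neg, FK_conj]
  rw [h2] at h1
  simp_rw [h3] at h1
  have h4 := congrArg conj h1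
  rw [Complex.conj_conj, map_sum] at h4
  rw [h4]
  apply Finset.sum_congr rfl
  intro j _
  rw [map_mul, Complex.conj_conj]

theorem HD.W_mul_dual (D : HD n) (j l : Fin n) :
    ∑ i, D.W j i * conj (D.dual.W i l) = if j = l then 1 else 0 := by
  revert l
  apply D.F_unique (c := fun l => ∑ i, D.W j i * conj (D.dual.W i l))
    (c' := fun l => if j = l then 1 else 0)
  intro τ hτ
  simp only [ite_mul, one_mul, zero_mul, Finset.sum_ite_eq, Finset.mem_univ, if_true]
  rw [D.F_eq j hτ]
  simp_rw [D.G_eq _ hτ, Finset.mul_sum, Finset.sum_mul]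
  rw [Finset.sum_comm]
  apply Finset.sum_congr rfl; intro i _
  apply Finset.sum_congr rfl; intro l _
  ring

theorem HD.dual_mul_W (D : HD n) (i k : Fin n) :
    ∑ j, conj (D.dual.W i j) * D.W j k = if i = k then 1 else 0 := by
  revert k
  apply D.G_unique (c := fun k => ∑ j, conj (D.dual.W i j) * D.W j k)
    (c' := fun k => if i = k then 1 else 0)
  intro τ hτ
  simp only [ite_mul, one_mul, zero_mul, Finset.sum_ite_eq, Finset.mem_univ, if_true]
  rw [D.G_eq i hτ]
  simp_rw [D.F_eq _ hτ, Finset.mul_sum, Finset.sum_mul]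
  rw [Finset.sum_comm]
  apply Finset.sum_congr rfl; intro j _
  apply Finset.sum_congr rfl; intro k _
  ring

theorem HD.ph_dual (D : HD n) (j i : Fin n) : D.dual.ph i j = D.ph j i := by
  unfold HD.ph
  change Complex.exp (2 * Real.pi * (D.al i + D.e j) * Complex.I) = _
  rw [add_comm (D.al i : ℂ)]

/-- Two complex numbers on the line `{z = p * conj z}`. -/
theorem line_aux {z w p : ℂ} (hz : z = p * conj z) (hw : w = p * conj w) (hp : ‖p‖ = 1) :
    z * (w.im : ℂ) = w * (z.im : ℂ) := by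
  have h1 : (w.im : ℂ) = (w - conj w) / (2 * Complex.I) := by
    rw [Complex.sub_conj]; push_cast; field_simp
  have h2 : (z.im : ℂ) = (z - conj z) / (2 * Complex.I) := by
    rw [Complex.sub_conj]; push_cast; field_simp
  have hp0 : p ≠ 0 := by rintro rfl; simp at hp
  rw [h1, h2]
  have : z * conj w = w * conj z := by
    have h3 : p * (z * conj w) = p * (w * conj z) := by
      calc p * (z * conj w) = z * (p * conj w) := by ring
        _ = z * w := by rw [← hw]
        _ = w * (p * conj z) := by rw [← hz]; ring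
        _ = p * (w * conj z) := by ring
    exact mul_left_cancel₀ hp0 h3
  field_simp
  linear_combination -this

theorem HD.norm_ph (D : HD n) (j i : Fin n) : ‖D.ph j i‖ = 1 := by
  unfold HD.ph
  have : (2 * Real.pi * (D.e j + D.al i) * Complex.I : ℂ) =
    ((2 * Real.pi * (D.e j + D.al i) : ℝ) : ℂ) * Complex.I := by push_cast; ring
  rw [this, Complex.norm_exp_ofReal_mul_I]

theorem HD.W_om (D : HD (n + 1)) (j i : Fin (n + 1)) :
    D.W j i * (D.dual.om j : ℂ) = D.dual.W i j * (D.om i : ℂ) := by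
  have h := line_aux (D.W_conj j i) (by have := D.dual.W_conj i j; rwa [D.ph_dual] at this)
    (D.norm_ph j i)
  rw [D.W_im j i, D.dual.W_im i j] at h
  exact h

/-- `W` is an isometry from the form `∑ ω_i |x_i|²` to `∑ ω'_j |y_j|²`. -/
theorem HD.isom (D : HD (n + 1)) (x : Fin (n + 1) → ℂ) :
    ∑ j, D.dual.om j * ‖∑ i, D.W j i * x i‖ ^ 2 = ∑ i, D.om i * ‖x i‖ ^ 2 := by
  have h1 : ∀ z : ℂ, ((‖z‖ ^ 2 : ℝ) : ℂ) = conj z * z := by
    intro z
    rw [← Complex.normSq_eq_norm_sq, Complex.normSq_eq_conj_mul_self]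
  have key : ((∑ j, D.dual.om j * ‖∑ i, D.W j i * x i‖ ^ 2 : ℝ) : ℂ) =
      ((∑ i, D.om i * ‖x i‖ ^ 2 : ℝ) : ℂ) := by
    push_cast
    have h2 : ∀ z : ℂ, ((‖z‖ : ℝ) : ℂ) ^ 2 = conj z * z := by
      intro z; rw [← h1]; push_cast; rfl
    simp_rw [h2]
    have h3 : ∀ j, (D.dual.om j : ℂ) * (conj (∑ i, D.W j i * x i) * ∑ k, D.W j k * x k) =
        ∑ i, ∑ k, (D.om i : ℂ) * conj (x i) * (conj (D.dual.W i j) * D.W j k) * x k := by
      intro j
      rw [map_sum, Finset.sum_mul_sum, Finset.mul_sum]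
      apply Finset.sum_congr rfl; intro i _
      rw [Finset.mul_sum]
      apply Finset.sum_congr rfl; intro k _
      have h4 := congrArg conj (D.W_om j i)
      simp only [map_mul, Complex.conj_ofReal] at h4
      rw [map_mul]
      linear_combination (conj (x i) * D.W j k * x k) * h4
    simp_rw [h3]
    rw [Finset.sum_comm]
    apply Finset.sum_congr rfl; intro i _
    rw [Finset.sum_comm]
    have h5 : ∀ k, ∑ j, (D.om i : ℂ) * conj (x i) * (conj (D.dual.W i j) * D.W j k) * x k =
        (D.om i : ℂ) * conj (x i) * (if i = k then 1 else 0) * x k := by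
      intro k
      rw [← D.dual_mul_W i k, Finset.mul_sum, Finset.sum_mul]
    simp_rw [h5]
    simp only [mul_ite, mul_one, mul_zero, ite_mul, zero_mul, Finset.sum_ite_eq, Finset.mem_univ,
      if_true]
    ring
  exact_mod_cast key

/-- The same for the complex conjugate matrix. -/
theorem HD.isom_conj (D : HD (n + 1)) (x : Fin (n + 1) → ℂ) :
    ∑ j, D.dual.om j * ‖∑ i, conj (D.W j i) * x i‖ ^ 2 = ∑ i, D.om i * ‖x i‖ ^ 2 := by
  have h := D.isom (fun i => conj (x i))
  have h1 : ∀ j, ‖∑ i, D.W j i * conj (x i)‖ = ‖∑ i, conj (D.W j i) * x i‖ := by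
    intro j
    rw [← RCLike.norm_conj (∑ i, conj (D.W j i) * x i), map_sum]
    simp only [map_mul, Complex.conj_conj]
  simp_rw [h1, RCLike.norm_conj] at h
  exact h

/-- Below the cut the connection matrix is the complex conjugate. -/
theorem HD.F_eq_lower (D : HD n) (j : Fin n) {τ : ℂ} (hτ : -τ ∈ S0) :
    D.F j τ = ∑ i, conj (D.W j i) * D.G i τ := by
  have hmem : conj τ ∈ S0 := by
    have h1 := hτ.1
    have h2 := hτ.2
    rw [Complex.neg_im] at h1 h2
    constructor
    · simpa using h1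
    · simpa using h2
  have h1 := D.F_eq j hmem
  have h2 : D.F j (conj τ) = conj (D.F j τ) := by unfold HD.F; rw [FK_conj]
  have h3 : ∀ i, D.G i (conj τ) = conj (D.G i τ) := by
    intro i; unfold HD.G; rw [← map_neg, FK_conj]
  rw [h2] at h1
  simp_rw [h3] at h1
  have h4 := congrArg conj h1
  rw [Complex.conj_conj, map_sum] at h4
  rw [h4]
  apply Finset.sum_congr rfl; intro i _
  rw [map_mul, Complex.conj_conj]

/-! ### The reflection at `t = 1` -/

/-- The linear form defining the pseudo-reflection. -/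
noncomputable def HD.wv (D : HD (n + 1)) (l : Fin (n + 1)) : ℂ :=
  2 * Complex.I * ∑ i, (D.om i : ℂ) * D.dual.W i l

theorem HD.W_eq_conj_add (D : HD (n + 1)) (j i : Fin (n + 1)) :
    D.W j i = conj (D.W j i) + 2 * Complex.I * D.om i := by
  have h := Complex.sub_conj (D.W j i)
  rw [D.W_im j i] at h
  push_cast at h
  linear_combination h

theorem HD.dual_mul_conjW (D : HD (n + 1)) (i k : Fin (n + 1)) :
    ∑ j, D.dual.W i j * conj (D.W j k) = if i = k then 1 else 0 := by
  have h := congrArg conj (D.dual_mul_W i k)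
  rw [map_sum] at h
  simp only [map_mul, Complex.conj_conj] at h
  rw [h]
  split_ifs <;> simp

theorem HD.conjW_mul_dual (D : HD (n + 1)) (j l : Fin (n + 1)) :
    ∑ i, conj (D.W j i) * D.dual.W i l = if j = l then 1 else 0 := by
  have h := congrArg conj (D.W_mul_dual j l)
  rw [map_sum] at h
  simp only [map_mul, Complex.conj_conj] at h
  rw [h]
  split_ifs <;> simp

theorem HD.wv_conjW (D : HD (n + 1)) (y : Fin (n + 1) → ℂ) :
    ∑ l, D.wv l * (∑ k, conj (D.W l k) * y k) = 2 * Complex.I * ∑ i, (D.om i : ℂ) * y i := by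
  unfold HD.wv
  simp_rw [Finset.mul_sum, Finset.sum_mul]
  have h1 : ∀ l, ∑ k, ∑ i, 2 * Complex.I * ((D.om i : ℂ) * D.dual.W i l) * (conj (D.W l k) * y k) =
    ∑ k, ∑ i, 2 * Complex.I * (D.om i : ℂ) * y k * (D.dual.W i l * conj (D.W l k)) := by
    intro l
    apply Finset.sum_congr rfl; intro k _
    apply Finset.sum_congr rfl; intro i _
    ring
  simp_rw [h1]
  rw [Finset.sum_comm]
  have h2 : ∀ k, ∑ l, ∑ i, 2 * Complex.I * (D.om i : ℂ) * y k * (D.dual.W i l * conj (D.W l k)) =
      ∑ i, 2 * Complex.I * (D.om i : ℂ) * y k * (if i = k then 1 else 0) := by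
    intro k
    rw [Finset.sum_comm]
    apply Finset.sum_congr rfl; intro i _
    rw [← Finset.mul_sum, D.dual_mul_conjW]
  simp_rw [h2]
  apply Finset.sum_congr rfl; intro k _
  simp; ring

/-- The reflection. -/
noncomputable def HD.Tr (D : HD (n + 1)) (x : Fin (n + 1) → ℂ) (j : Fin (n + 1)) : ℂ :=
  x j + ∑ l, D.wv l * x l

theorem HD.Tr_conjW (D : HD (n + 1)) (y : Fin (n + 1) → ℂ) (j : Fin (n + 1)) :
    D.Tr (fun l => ∑ k, conj (D.W l k) * y k) j = ∑ k, D.W j k * y k := by
  unfold HD.Tr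
  rw [D.wv_conjW, Finset.mul_sum, ← Finset.sum_add_distrib]
  apply Finset.sum_congr rfl; intro k _
  rw [D.W_eq_conj_add j k]
  have : conj (conj (D.W j k) + 2 * Complex.I * (D.om k : ℂ)) =
      D.W j k - 2 * Complex.I * D.om k := by
    simp only [map_add, Complex.conj_conj, map_mul, Complex.conj_I, Complex.conj_ofReal]
    have : conj (2 : ℂ) = 2 := by
      rw [show (2 : ℂ) = ((2 : ℝ) : ℂ) by norm_num, Complex.conj_ofReal]
    rw [this]; ring
  rw [← D.W_eq_conj_add j k]
  have h2 := D.W_eq_conj_add j k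
  linear_combination (-(y k)) * h2

theorem HD.exists_conjW (D : HD (n + 1)) (x : Fin (n + 1) → ℂ) :
    ∃ y : Fin (n + 1) → ℂ, x = fun l => ∑ k, conj (D.W l k) * y k := by
  refine ⟨fun k => ∑ l, D.dual.W k l * x l, ?_⟩
  ext j
  simp_rw [Finset.mul_sum]
  rw [Finset.sum_comm]
  simp_rw [← mul_assoc, ← Finset.sum_mul, D.conjW_mul_dual]
  simp

theorem HD.Tr_isom (D : HD (n + 1)) (x : Fin (n + 1) → ℂ) :
    ∑ j, D.dual.om j * ‖D.Tr x j‖ ^ 2 = ∑ j, D.dual.om j * ‖x j‖ ^ 2 := by
  obtain ⟨y, hy⟩ := D.exists_conjW x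
  rw [hy]
  simp_rw [D.Tr_conjW]
  rw [D.isom, D.isom_conj]

end Pool.Agent.BallCurve
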