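import Pool.Agent.MP_071e05_an.WMat

/-!
More on the connection matrix: the reflection is an involution, signs of weights, values at `t=1`.
-/

set_option autoImplicit false
set_option linter.unusedVariables false

open MeasureTheory Set Filter Topology ComplexConjugate

namespace Pool.Agent.BallCurve

variable {n : ℕ}

theorem HD.det_phase (D : HD (n + 1)) :
    (Matrix.of D.W).det = - conj (Matrix.of D.W).det := by
  have h1 : (Matrix.of D.W) = Matrix.of (fun j i => Complex.exp (2 * Real.pi * D.e j * Complex.I) *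
      Matrix.of (fun j i => Complex.exp (2 * Real.pi * D.al i * Complex.I) *
        (Matrix.of (fun j i => conj (D.W j i))) j i) j i) := by
    ext j i
    simp only [Matrix.of_apply]
    rw [← mul_assoc, ← Complex.exp_add]
    have := D.W_conj j i
    unfold HD.ph at this
    rw [show (2 * Real.pi * D.e j * Complex.I + 2 * Real.pi * D.al i * Complex.I : ℂ) =
      2 * Real.pi * (D.e j + D.al i) * Complex.I by ring]
    exact this
  have h2 : (Matrix.of (fun j i => conj (D.W j i))).det = conj (Matrix.of D.W).det := by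
    have : (Matrix.of (fun j i => conj (D.W j i))) = (starRingEnd ℂ).mapMatrix (Matrix.of D.W) := by
      ext j i; rfl
    rw [this, RingHom.map_det]
  calc (Matrix.of D.W).det = (∏ j, Complex.exp (2 * Real.pi * D.e j * Complex.I)) *
        ((∏ i, Complex.exp (2 * Real.pi * D.al i * Complex.I)) * conj (Matrix.of D.W).det) := by
        conv_lhs => rw [h1]
        rw [Matrix.det_mul_column, Matrix.det_mul_row, h2]
    _ = Complex.exp (2 * Real.pi * Complex.I * ((∑ j, D.e j + ∑ i, D.al i : ℝ) : ℂ)) *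
        conj (Matrix.of D.W).det := by
        rw [← mul_assoc, ← Complex.exp_sum, ← Complex.exp_sum, ← Complex.exp_add]
        congr 2
        push_cast
        rw [mul_add, Finset.mul_sum, Finset.mul_sum]
        congr 1
        · apply Finset.sum_congr rfl; intro i _; ring
        · apply Finset.sum_congr rfl; intro i _; ring
    _ = - conj (Matrix.of D.W).det := by
        rw [D.sum_eq]
        have : Complex.exp (2 * Real.pi * Complex.I * ((((n + 1 : ℕ) : ℝ) - 3 / 2 : ℝ) : ℂ)) = -1 := by
          have h3 : (2 * Real.pi * Complex.I * ((((n + 1 : ℕ) : ℝ) - 3 / 2 : ℝ) : ℂ)) =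
            ((n : ℤ) - 1 : ℤ) * (2 * Real.pi * Complex.I) + Real.pi * Complex.I := by
            push_cast; ring
          rw [h3, Complex.exp_add, Complex.exp_int_mul_two_pi_mul_I, Complex.exp_pi_mul_I]; ring
        rw [this]; ring

theorem HD.sum_wv (D : HD (n + 1)) : ∑ l, D.wv l = -2 := by
  have h1 : (Matrix.of (fun j i => conj (D.W j i))) * (Matrix.of D.dual.W) = 1 := by
    ext j l
    rw [Matrix.mul_apply, Matrix.one_apply]
    exact D.conjW_mul_dual j l
  have h2 : (Matrix.of D.W) * (Matrix.of D.dual.W) =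
      1 + Matrix.replicateCol Unit (fun _ => (1 : ℂ)) * Matrix.replicateRow Unit D.wv := by
    ext j l
    rw [Matrix.mul_apply, Matrix.add_apply, Matrix.mul_apply]
    simp only [Matrix.of_apply, Matrix.replicateCol_apply, Matrix.replicateRow_apply, one_mul,
      Finset.univ_unique, Finset.sum_const, Finset.card_singleton, one_smul]
    have h3 := D.conjW_mul_dual j l
    rw [Matrix.one_apply, ← h3]
    unfold HD.wv
    rw [Finset.mul_sum, ← Finset.sum_add_distrib]
    apply Finset.sum_congr rfl; intro i _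
    have := D.W_eq_conj_add j i
    linear_combination (D.dual.W i l) * this
  have h4 := congrArg Matrix.det h1
  have h5 := congrArg Matrix.det h2
  rw [Matrix.det_mul, Matrix.det_one] at h4
  rw [Matrix.det_mul, Matrix.det_one_add_replicateCol_mul_replicateRow] at h5
  have h6 : (Matrix.of (fun j i => conj (D.W j i))).det = conj (Matrix.of D.W).det := by
    have : (Matrix.of (fun j i => conj (D.W j i))) = (starRingEnd ℂ).mapMatrix (Matrix.of D.W) := by
      ext j i; rfl
    rw [this, RingHom.map_det]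
  rw [h6] at h4
  rw [D.det_phase] at h5
  simp only [dotProduct, mul_one] at h5
  linear_combination -h5 - h4

theorem HD.Tr_Tr (D : HD (n + 1)) (x : Fin (n + 1) → ℂ) : D.Tr (D.Tr x) = x := by
  ext j
  unfold HD.Tr
  simp_rw [mul_add]
  rw [Finset.sum_add_distrib, ← Finset.sum_mul, D.sum_wv]
  ring

theorem HD.Tr_W (D : HD (n + 1)) (y : Fin (n + 1) → ℂ) (j : Fin (n + 1)) :
    D.Tr (fun l => ∑ k, D.W l k * y k) j = ∑ k, conj (D.W j k) * y k := by
  have h : (fun l => ∑ k, D.W l k * y k) = D.Tr (fun l => ∑ k, conj (D.W l k) * y k) := by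
    ext j; rw [D.Tr_conjW]
  rw [h, D.Tr_Tr]

/-! ### Explicit form of `W` -/

theorem HD.W_explicit (D : HD (n + 1)) (j i : Fin (n + 1)) :
    D.W j i = D.om i * Complex.exp (Real.pi * (D.e j + D.al i) * Complex.I) /
      (Real.sin (Real.pi * (D.e j + D.al i)) : ℝ) := by
  set θ : ℝ := Real.pi * (D.e j + D.al i) with hθ
  have hs : Real.sin θ ≠ 0 := D.nonint j i
  have hexp : Complex.exp (Real.pi * (D.e j + D.al i) * Complex.I) =
      (Real.cos θ : ℂ) + (Real.sin θ : ℂ) * Complex.I := by
    rw [show (Real.pi * (D.e j + D.al i) * Complex.I : ℂ) = (θ : ℂ) * Complex.I by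
      rw [hθ]; push_cast; ring]
    rw [Complex.exp_mul_I, ← Complex.ofReal_cos, ← Complex.ofReal_sin]
  have hph : D.ph j i = ((Real.cos θ : ℂ) + (Real.sin θ : ℂ) * Complex.I) ^ 2 := by
    rw [← hexp, ← Complex.exp_nat_mul]
    unfold HD.ph; congr 1; push_cast; ring
  have h1 := D.W_conj j i
  have h2 := D.W_im j i
  have hcs : (Real.cos θ : ℂ) ^ 2 + (Real.sin θ : ℂ) ^ 2 = 1 := by
    have := Real.cos_sq_add_sin_sq θ
    exact_mod_cast this
  -- conj(u) * W is real where u = cos + i sin
  set u : ℂ := (Real.cos θ : ℂ) + (Real.sin θ : ℂ) * Complex.I with hu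
  set u' : ℂ := (Real.cos θ : ℂ) - (Real.sin θ : ℂ) * Complex.I with hu'
  have huu : u * u' = 1 := by
    rw [hu, hu']
    have hI := Complex.I_sq
    linear_combination hcs - (Real.sin θ : ℂ) ^ 2 * hI
  have hcu : conj u = u' := by
    rw [hu, hu']; simp only [map_add, map_mul, Complex.conj_ofReal, Complex.conj_I]; ring
  have hcu' : conj u' = u := by rw [← hcu, Complex.conj_conj]
  have hr : conj (u' * D.W j i) = u' * D.W j i := by
    rw [map_mul, hcu']
    rw [hph] at h1
    calc u * conj (D.W j i) = (u * u') * u * conj (D.W j i) := by rw [huu]; ring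
      _ = u' * (u ^ 2 * conj (D.W j i)) := by ring
      _ = u' * D.W j i := by rw [← h1]
  obtain ⟨r, hr'⟩ := Complex.conj_eq_iff_real.mp hr
  have hW : D.W j i = r * u := by
    calc D.W j i = (u * u') * D.W j i := by rw [huu, one_mul]
      _ = u * (u' * D.W j i) := by ring
      _ = r * u := by rw [hr']; ring
  have him : r * Real.sin θ = D.om i := by
    rw [← h2, hW, hu]
    simp only [Complex.add_im, Complex.ofReal_im, Complex.mul_im,
      Complex.ofReal_re, Complex.I_im, Complex.I_re, mul_one, mul_zero, zero_add, add_zero]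
    ring
  rw [hexp, hW, ← him]
  have hs' : ((Real.sin θ : ℝ) : ℂ) ≠ 0 := by exact_mod_cast hs
  rw [Complex.ofReal_mul, eq_div_iff hs']; ring

theorem HD.om_ne_zero (D : HD (n + 1)) (i : Fin (n + 1)) : D.om i ≠ 0 := by
  intro h
  have h1 : ∀ j, D.W j i = 0 := by
    intro j; rw [D.W_explicit, h]; simp
  have h2 := D.dual_mul_W i i
  simp [h1] at h2

theorem HD.sum_div_sin (D : HD (n + 1)) {i k : Fin (n + 1)} (hik : i ≠ k) :
    ∑ j, D.dual.om j / (Real.sin (Real.pi * (D.e j + D.al i)) *
      Real.sin (Real.pi * (D.e j + D.al k))) = 0 := by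
  have h1 := D.dual_mul_W i k
  rw [if_neg hik] at h1
  have h2 : ∀ j, (D.om i : ℂ) * (conj (D.dual.W i j) * D.W j k) =
      ((D.om i * D.om k : ℝ) : ℂ) * Complex.exp (Real.pi * (D.al k - D.al i) * Complex.I) *
      ((D.dual.om j / (Real.sin (Real.pi * (D.e j + D.al i)) *
      Real.sin (Real.pi * (D.e j + D.al k))) : ℝ) : ℂ) := by
    intro j
    have h4 := congrArg conj (D.W_om j i)
    simp only [map_mul, Complex.conj_ofReal] at h4
    have h5 : (D.om i : ℂ) * (conj (D.dual.W i j) * D.W j k) =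
        D.dual.om j * (conj (D.W j i) * D.W j k) := by
      linear_combination -(D.W j k) * h4
    rw [h5, D.W_explicit j i, D.W_explicit j k]
    simp only [map_div₀, map_mul, Complex.conj_ofReal, ← Complex.exp_conj, map_add, Complex.conj_I]
    have hs1 : ((Real.sin (Real.pi * (D.e j + D.al i)) : ℝ) : ℂ) ≠ 0 := by
      exact_mod_cast D.nonint j i
    have hs2 : ((Real.sin (Real.pi * (D.e j + D.al k)) : ℝ) : ℂ) ≠ 0 := by
      exact_mod_cast D.nonint j k
    have hexp : Complex.exp (Real.pi * (D.al k - D.al i) * Complex.I) =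
        Complex.exp (Real.pi * (D.e j + D.al i) * -Complex.I) *
        Complex.exp (Real.pi * (D.e j + D.al k) * Complex.I) := by
      rw [← Complex.exp_add]; congr 1; ring
    rw [hexp]
    push_cast
    push_cast at hs1 hs2
    field_simp
  have h3 : (D.om i : ℂ) * ∑ j, (conj (D.dual.W i j) * D.W j k) = 0 := by rw [h1, mul_zero]
  rw [Finset.mul_sum] at h3
  simp_rw [h2] at h3
  rw [← Finset.mul_sum, ← Complex.ofReal_sum] at h3
  rcases mul_eq_zero.mp h3 with h6 | h6
  · exfalso
    rcases mul_eq_zero.mp h6 with h7 | h7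
    · have : D.om i * D.om k = 0 := by exact_mod_cast h7
      rcases mul_eq_zero.mp this with h8 | h8
      · exact D.om_ne_zero i h8
      · exact D.om_ne_zero k h8
    · exact Complex.exp_ne_zero _ h7
  · exact_mod_cast h6

/-! ### Values at `t = 1` -/

theorem HD.value_one (D : HD (n + 1)) (j : Fin (n + 1)) :
    (FR D.ν (D.e j) 0 : ℂ) = ∑ i, D.W j i * (FR D.ν' (D.al i) 0 : ℂ) := by
  have hF : Tendsto (fun ε : ℝ => FK D.ν (D.e j) (ε * Complex.I)) (𝓝[>] 0)
      (𝓝 (FK D.ν (D.e j) 0)) := by
    have hc := D.hν.FK_continuousOn (D.e_nonneg j) 0 (by simp)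
    apply Tendsto.comp hc
    rw [tendsto_nhdsWithin_iff]
    constructor
    · have : Continuous (fun ε : ℝ => (ε : ℂ) * Complex.I) := by fun_prop
      have h := this.tendsto 0
      simp only [Complex.ofReal_zero, zero_mul] at h
      exact h.mono_left nhdsWithin_le_nhds
    · exact Eventually.of_forall fun ε => by simp
  have hG : ∀ i, Tendsto (fun ε : ℝ => FK D.ν' (D.al i) (-(ε * Complex.I))) (𝓝[>] 0)
      (𝓝 (FK D.ν' (D.al i) 0)) := by
    intro i
    have hc := D.hν'.FK_continuousOn (D.al_nonneg i) 0 (by simp)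
    apply Tendsto.comp hc
    rw [tendsto_nhdsWithin_iff]
    constructor
    · have : Continuous (fun ε : ℝ => -((ε : ℂ) * Complex.I)) := by fun_prop
      have h := this.tendsto 0
      simp only [Complex.ofReal_zero, zero_mul, neg_zero] at h
      exact h.mono_left nhdsWithin_le_nhds
    · exact Eventually.of_forall fun ε => by simp
  have hsum : Tendsto (fun ε : ℝ => ∑ i, D.W j i * FK D.ν' (D.al i) (-(ε * Complex.I))) (𝓝[>] 0)
      (𝓝 (∑ i, D.W j i * FK D.ν' (D.al i) 0)) := by
    apply tendsto_finsetSum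
    intro i _
    exact (hG i).const_mul _
  have hcongr : (fun ε : ℝ => FK D.ν (D.e j) (ε * Complex.I)) =ᶠ[𝓝[>] 0]
      fun ε : ℝ => ∑ i, D.W j i * FK D.ν' (D.al i) (-(ε * Complex.I)) := by
    filter_upwards [Ioo_mem_nhdsGT (show (0 : ℝ) < 1 by norm_num)] with ε hε
    have h := D.F_eq j (τ := (ε : ℂ) * Complex.I) (by
      have := upper_mem (x := 0) hε.1 hε.2
      simpa using this)
    exact h
  have h1 := tendsto_nhds_unique (hF.congr' hcongr) hsum
  have h2 : FK D.ν (D.e j) 0 = (FR D.ν (D.e j) 0 : ℂ) := by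
    rw [← FK_ofReal]; simp
  have h3 : ∀ i, FK D.ν' (D.al i) 0 = (FR D.ν' (D.al i) 0 : ℂ) := by
    intro i; rw [← FK_ofReal]; simp
  rw [h2] at h1
  simp_rw [h3] at h1
  exact h1

theorem HD.sum_om_one (D : HD (n + 1)) : ∑ i, D.om i * FR D.ν' (D.al i) 0 = 0 := by
  have h := congrArg Complex.im (D.value_one 0)
  rw [Complex.ofReal_im, Complex.im_sum] at h
  simp only [Complex.im_mul_ofReal] at h
  exact h.symm

theorem HD.sum_om_nonneg (D : HD (n + 1)) {x : ℝ} (hx : x ≤ 0) :
    0 ≤ ∑ i, D.om i * FR D.ν' (D.al i) x := by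
  rcases lt_or_eq_of_le hx with h | h
  · exact D.sum_om_G_nonneg h
  · rw [h, D.sum_om_one]

/-- The weight of the smallest exponent is positive. -/
theorem HD.om_zero_pos (D : HD (n + 1)) : 0 < D.om 0 := by
  apply lt_of_le_of_ne _ (D.om_ne_zero 0).symm
  have h1 : ∀ i, Tendsto (fun x : ℝ => ((Real.exp (-(D.al 0 * x)) * (D.om i * FR D.ν' (D.al i) x) : ℝ) : ℂ))
      atBot (𝓝 (if i = 0 then (D.om 0 : ℂ) * (cK D.ν' (D.al 0) : ℂ) else 0)) := by
    intro i
    have h2 := (FK_asymp D.hν' (D.al_nonneg i) (k := D.al 0) (D.al_mono.monotone (Fin.zero_le i)) 0).const_mul (D.om i : ℂ)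
    have h3 : (fun x : ℝ => (D.om i : ℂ) * (Complex.exp (-(D.al 0 * (x + (0 : ℝ) * Complex.I))) *
        FK D.ν' (D.al i) (x + (0 : ℝ) * Complex.I))) =
        fun x : ℝ => ((Real.exp (-(D.al 0 * x)) * (D.om i * FR D.ν' (D.al i) x) : ℝ) : ℂ) := by
      ext x
      simp only [Complex.ofReal_zero, zero_mul, add_zero]
      rw [FK_ofReal]
      push_cast; ring
    rw [h3] at h2
    by_cases hi : i = 0
    · subst hi; simpa using h2
    · have h4 : D.al i ≠ D.al 0 := fun h => hi (D.al_mono.injective h)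
      simpa [hi, h4] using h2
  have h2 : Tendsto (fun x : ℝ => ∑ i, ((Real.exp (-(D.al 0 * x)) * (D.om i * FR D.ν' (D.al i) x) : ℝ) : ℂ))
      atBot (𝓝 (∑ i : Fin (n + 1), if i = 0 then (D.om 0 : ℂ) * (cK D.ν' (D.al 0) : ℂ) else 0)) :=
    tendsto_finsetSum _ fun i _ => h1 i
  simp only [Finset.sum_ite_eq', Finset.mem_univ, if_true] at h2
  have h3 := (Complex.continuous_re.tendsto _).comp h2
  have h4 : 0 ≤ ((D.om 0 : ℂ) * (cK D.ν' (D.al 0) : ℂ)).re := by
    apply ge_of_tendsto h3
    filter_upwards [eventually_le_atBot (0 : ℝ)] with x hx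
    simp only [Function.comp]
    rw [← Complex.ofReal_sum, Complex.ofReal_re, ← Finset.mul_sum]
    exact mul_nonneg (Real.exp_pos _).le (D.sum_om_nonneg hx)
  rw [← Complex.ofReal_mul, Complex.ofReal_re] at h4
  have h5 := D.hν'.cK_pos (D.al_nonneg 0)
  by_contra hcon
  push Not at hcon
  nlinarith

end Pool.Agent.BallCurve
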