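import Pool.Agent.MP_071e05_an.Chart0

/-!
The rank-two developing map is locally injective.
-/

set_option autoImplicit false
set_option linter.unusedVariables false

open MeasureTheory Set Filter Topology ComplexConjugate

namespace Pool.Agent.BallCurve

/-- The Wronskian of the rank two system does not vanish. -/
theorem wronskian_ne_aux (E : HD (1 + 1)) {U : Set ℂ} (hU : IsOpen U) (hUc : Convex ℝ U)
    (hUs : ∀ τ ∈ U, 1 - Complex.exp τ ∈ Complex.slitPlane) (θ : ℝ)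
    (hθ : ∀ x : ℝ, x < 0 → (x + θ * Complex.I : ℂ) ∈ U) {τ₀ : ℂ} (hτ₀ : τ₀ ∈ U)
    (hF0 : FK E.ν (E.e 0) τ₀ ≠ 0) :
    deriv (FK E.ν (E.e 1)) τ₀ * FK E.ν (E.e 0) τ₀ - FK E.ν (E.e 1) τ₀ * deriv (FK E.ν (E.e 0)) τ₀
      ≠ 0 := by
  intro hW
  have hd : ∀ j, DifferentiableOn ℂ (FK E.ν (E.e j)) U := fun j τ hτ =>
    (E.hν.FK_differentiableAt (E.e_nonneg j) (hUs τ hτ)).differentiableWithinAt
  have hode : ∀ j, ∀ τ ∈ U, opL (List.ofFn E.e) (FK E.ν (E.e j)) τ =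
      Complex.exp τ * opL ((List.ofFn E.al).map (fun a => -a)) (FK E.ν (E.e j)) τ := by
    intro j τ hτ
    exact FK_ode E.hν (E.e_nonneg j) _ _ (by rw [List.mem_ofFn]; exact ⟨j, rfl⟩) E.rcr hU hUc hUs
      ⟨-1 + θ * Complex.I, by
        have := hθ (-1) (by norm_num)
        push_cast at this; exact this, by simp⟩ hτ
  set c : Fin (1 + 1) → ℂ := ![-FK E.ν (E.e 1) τ₀, FK E.ν (E.e 0) τ₀] with hc
  set f : ℂ → ℂ := fun τ => ∑ j, c j * FK E.ν (E.e j) τ with hf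
  have hfd : DifferentiableOn ℂ f U := DifferentiableOn.fun_sum fun i _ => (hd i).const_mul _
  have hfa : AnalyticAt ℂ f τ₀ := hfd.analyticAt (hU.mem_nhds hτ₀)
  have hfode : ∀ τ ∈ U, opL (List.ofFn E.e) f τ =
      Complex.exp τ * opL ((List.ofFn E.al).map (fun a => -a)) f τ := by
    intro τ hτ
    rw [hf, opL_sum hU hd c _ hτ, opL_sum hU hd c _ hτ]
    simp only
    rw [Finset.mul_sum]
    apply Finset.sum_congr rfl; intro i _
    rw [hode i τ hτ]; ring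
  have hf2 : f = fun τ => -FK E.ν (E.e 1) τ₀ * FK E.ν (E.e 0) τ + FK E.ν (E.e 0) τ₀ * FK E.ν (E.e 1) τ := by
    ext τ
    rw [hf]; simp only
    rw [Fin.sum_univ_two]
    rfl
  have hda : ∀ j, DifferentiableAt ℂ (FK E.ν (E.e j)) τ₀ := fun j =>
    (hd j).differentiableAt (hU.mem_nhds hτ₀)
  have hord : (((List.ofFn E.e).length : ℕ) : ℕ∞) ≤ analyticOrderAt f τ₀ := by
    rw [List.length_ofFn, natCast_le_analyticOrderAt_iff_iteratedDeriv_eq_zero hfa]
    intro i hi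
    interval_cases i
    · rw [iteratedDeriv_zero, hf2]; ring
    · rw [iteratedDeriv_one, hf2]
      have h1 : HasDerivAt (fun τ => -FK E.ν (E.e 1) τ₀ * FK E.ν (E.e 0) τ +
          FK E.ν (E.e 0) τ₀ * FK E.ν (E.e 1) τ)
          (-FK E.ν (E.e 1) τ₀ * deriv (FK E.ν (E.e 0)) τ₀ +
            FK E.ν (E.e 0) τ₀ * deriv (FK E.ν (E.e 1)) τ₀) τ₀ :=
        ((hda 0).hasDerivAt.const_mul _).add ((hda 1).hasDerivAt.const_mul _)
      rw [h1.deriv]
      linear_combination hW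
  have hexp : Complex.exp τ₀ ≠ 1 := by
    intro h
    have := hUs τ₀ hτ₀
    rw [h, sub_self] at this
    exact Complex.zero_notMem_slitPlane this
  have h1 := ode_unique (List.ofFn E.e) ((List.ofFn E.al).map (fun a => -a)) (by simp) hexp hfa
    (by filter_upwards [hU.mem_nhds hτ₀] with y hy using hfode y hy) hord
  have h2 := (hfd.analyticOnNhd hU).eqOn_zero_of_preconnected_of_eventuallyEq_zero
      hUc.isPreconnected hτ₀ h1
  have h3 := FK_linindep E.hν E.e_mono E.e_nonneg θ c (fun x hx => h2 (hθ x hx)) 1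
  exact hF0 h3

theorem wronskian_ne {E : HD (1 + 1)} (hE : E.PosD) {τ₀ : ℂ}
    (h : 1 - Complex.exp τ₀ ∈ Complex.slitPlane) :
    deriv (FK E.ν (E.e 1)) τ₀ * FK E.ν (E.e 0) τ₀ - FK E.ν (E.e 1) τ₀ * deriv (FK E.ν (E.e 0)) τ₀
      ≠ 0 := by
  obtain ⟨k, hk⟩ := slit_cases h
  set σ := τ₀ + k * (2 * Real.pi * Complex.I) with hσ
  have hsl : 1 - Complex.exp σ ∈ Complex.slitPlane := by rw [hσ, exp_shift]; exact h
  have hne : ∀ τ, 1 - Complex.exp τ ∈ Complex.slitPlane → FK E.ν (E.e 0) τ ≠ 0 := fun τ hτ =>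
    x0_ne_of_qw hE.sgn (hE.pos τ hτ)
  have key : deriv (FK E.ν (E.e 1)) σ * FK E.ν (E.e 0) σ -
      FK E.ν (E.e 1) σ * deriv (FK E.ν (E.e 0)) σ ≠ 0 := by
    rcases hk with hk | hk
    · apply wronskian_ne_aux E isOpen_S0 convex_S0 (fun τ hτ => slit_of_strip hτ.1 hτ.2) Real.pi _
        hk (hne σ hsl)
      intro x _
      constructor <;> simp [Real.pi_pos]
    · apply wronskian_ne_aux E isOpen_reneg (convex_halfSpace_re_lt 0) (fun τ hτ => slit_of_re_neg hτ)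
        0 _ hk.2 (hne σ hsl)
      intro x hx
      simpa using hx
  -- transport along the shift
  have hsh : ∀ e : ℝ, deriv (FK E.ν e) σ =
      Complex.exp (e * (k * (2 * Real.pi * Complex.I))) * deriv (FK E.ν e) τ₀ := by
    intro e
    have h1 : (fun τ => FK E.ν e (τ + k * (2 * Real.pi * Complex.I))) =
        fun τ => Complex.exp (e * (k * (2 * Real.pi * Complex.I))) * FK E.ν e τ := by
      ext τ; exact FK_int _ _ _ _
    have h2 : deriv (fun τ => FK E.ν e (τ + k * (2 * Real.pi * Complex.I))) τ₀ =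
        deriv (FK E.ν e) σ := by
      rw [deriv_comp_add_const]
    rw [← h2, h1, deriv_const_mul_field]
  intro h0
  apply key
  rw [hsh, hsh, hσ, FK_int, FK_int]
  linear_combination (Complex.exp (E.e 1 * (k * (2 * Real.pi * Complex.I))) *
    Complex.exp (E.e 0 * (k * (2 * Real.pi * Complex.I)))) * h0

/-- Derivative of the scalar reference function. -/
theorem RF_deriv_ne {E : HD (1 + 1)} (hE : E.PosD) {τ₀ : ℂ}
    (h : 1 - Complex.exp τ₀ ∈ Complex.slitPlane) :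
    deriv (fun τ => RF E τ 0) τ₀ ≠ 0 := by
  have h0 : FK E.ν (E.e 0) τ₀ ≠ 0 := x0_ne_of_qw hE.sgn (hE.pos τ₀ h)
  have h1 : (fun τ => RF E τ 0) = fun τ => (Real.sqrt (-E.dual.om 1 / E.dual.om 0) : ℂ) *
      (FK E.ν (E.e 1) τ / FK E.ν (E.e 0) τ) := by
    ext τ; rfl
  have hda : ∀ j, DifferentiableAt ℂ (FK E.ν (E.e j)) τ₀ := fun j =>
    E.hν.FK_differentiableAt (E.e_nonneg j) h
  rw [h1, deriv_const_mul_field, deriv_fun_div (hda 1) (hda 0) h0]
  apply mul_ne_zero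
  · have h2 : 0 < -E.dual.om 1 / E.dual.om 0 := by
      apply div_pos _ hE.sgn.1
      have := hE.sgn.2 0
      change E.dual.om 1 < 0 at this
      linarith
    exact Complex.ofReal_ne_zero.mpr (Real.sqrt_pos.mpr h2).ne'
  · exact div_ne_zero (wronskian_ne hE h) (pow_ne_zero 2 h0)

theorem deriv_act_ne {L : (ℂ × ℂ) ≃L[ℂ] (ℂ × ℂ)} (hL : L ∈ UG ℂ) {z : ℂ}
    (hz : z ∈ Metric.ball (0 : ℂ) 1) : deriv (act L) z ≠ 0 := by
  intro h
  have h1 : DifferentiableAt ℂ (act L) z := act_differentiableAt hL hz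
  have h2 : DifferentiableAt ℂ (act L⁻¹) (act L z) :=
    act_differentiableAt ((UG ℂ).inv_mem hL) (act_mem hL hz)
  have h3 : HasDerivAt (fun w => act L⁻¹ (act L w)) (deriv (act L⁻¹) (act L z) * deriv (act L) z) z :=
    HasDerivAt.comp z h2.hasDerivAt h1.hasDerivAt
  have h4 : HasDerivAt (fun w => act L⁻¹ (act L w)) 1 z := by
    apply (hasDerivAt_id z).congr_of_eventuallyEq
    filter_upwards [Metric.isOpen_ball.mem_nhds hz] with w hw
    exact act_inv_act hL hw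
  have h5 := h3.unique h4
  rw [h, mul_zero] at h5
  exact zero_ne_one h5

/-- The scalar developing map of the chart at `0`. -/
noncomputable def z0 (E : HD (1 + 1)) (p : ℕ) (m : Fin (1 + 1) → ℕ) (ζ : ℂ) : ℂ :=
  iso1 (u0 E p m ζ)

theorem z0_differentiableAt {E : HD (1 + 1)} (hE : E.PosD) {p : ℕ} {m : Fin (1 + 1) → ℕ}
    (hm : Mult E p m) {ζ : ℂ} (hζ : ζ ∈ M0 p) : DifferentiableAt ℂ (z0 E p m) ζ :=
  iso1.toContinuousLinearEquiv.differentiableAt.comp ζ (u0_differentiableAt hE hm hζ)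

theorem z0_mem {E : HD (1 + 1)} (hE : E.PosD) {p : ℕ} {m : Fin (1 + 1) → ℕ}
    (hm : Mult E p m) {ζ : ℂ} (hζ : ζ ∈ M0 p) : z0 E p m ζ ∈ Metric.ball (0 : ℂ) 1 := by
  have := u0_mem hE hm hζ
  rw [mem_ball_zero_iff] at this ⊢
  unfold z0
  rwa [iso1.norm_map]

theorem z0_chi {E : HD (1 + 1)} (hE : E.PosD) {p : ℕ} {m : Fin (1 + 1) → ℕ} (hm : Mult E p m)
    {m₀ τ₀ : ℂ} (h : m₀ ^ p = Complex.exp τ₀) :
    ∃ L ∈ UG ℂ, ∀ τ : ℂ, 1 - Complex.exp τ ∈ Complex.slitPlane →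
      z0 E p m (chi p m₀ τ₀ τ) = act L (RF E τ 0) := by
  obtain ⟨L, hL, hLe⟩ := u0_chi hE hm h
  obtain ⟨L', hL', hLe'⟩ := UG_transport iso1 hL
  refine ⟨L', hL', fun τ hτ => ?_⟩
  unfold z0
  rw [hLe τ hτ, ← hLe']
  rfl

theorem RF_scalar_mem {E : HD (1 + 1)} (hE : E.PosD) {τ : ℂ}
    (h : 1 - Complex.exp τ ∈ Complex.slitPlane) :
    RF E τ 0 ∈ Metric.ball (0 : ℂ) 1 := by
  have := RF_mem hE h
  rw [mem_ball_zero_iff] at this ⊢
  rw [← iso1_apply, iso1.norm_map]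
  exact this

theorem z0_deriv_ne {E : HD (1 + 1)} (hE : E.PosD) {p : ℕ} {m : Fin (1 + 1) → ℕ}
    (hm : Mult E p m) (hm1 : m 1 = 1) {ζ : ℂ} (hζ : ζ ∈ M0 p) : deriv (z0 E p m) ζ ≠ 0 := by
  by_cases h0 : ζ = 0
  · subst h0
    have h1 : z0 E p m = fun ζ => (Real.sqrt (-E.dual.om 1 / E.dual.om 0) : ℂ) *
        (ζ * (hK E.ν (E.e 1) (ζ ^ p) / hK E.ν (E.e 0) (ζ ^ p))) := by
      ext ζ
      unfold z0
      rw [iso1_apply]
      change (Real.sqrt (-E.dual.om 1 / E.dual.om 0) : ℂ) * (x0 E p m ζ 1 / x0 E p m ζ 0) = _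
      unfold x0
      rw [hm1, hm.m0]
      ring
    have h2 : ∀ j, DifferentiableAt ℂ (fun ζ : ℂ => hK E.ν (E.e j) (ζ ^ p)) 0 := by
      intro j
      exact (E.hν.hK_hasDerivAt (E.e_nonneg j) (zero_mem_M0 hm.ppos)).comp 0
        (by fun_prop : DifferentiableAt ℂ (fun ζ : ℂ => ζ ^ p) 0)
    have h3 : ∀ j, hK E.ν (E.e j) ((0 : ℂ) ^ p) = (cK E.ν (E.e j) : ℂ) := by
      intro j; rw [zero_pow hm.ppos.ne', hK_zero E.hν (E.e_nonneg j)]
    have h4 : ∀ j, (cK E.ν (E.e j) : ℂ) ≠ 0 := fun j => by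
      exact_mod_cast (E.hν.cK_pos (E.e_nonneg j)).ne'
    have h5 : DifferentiableAt ℂ (fun ζ : ℂ => hK E.ν (E.e 1) (ζ ^ p) / hK E.ν (E.e 0) (ζ ^ p)) 0 :=
      (h2 1).div (h2 0) (by rw [h3]; exact h4 0)
    have h6 : HasDerivAt (fun ζ : ℂ => ζ * (hK E.ν (E.e 1) (ζ ^ p) / hK E.ν (E.e 0) (ζ ^ p)))
        (1 * (hK E.ν (E.e 1) ((0 : ℂ) ^ p) / hK E.ν (E.e 0) ((0 : ℂ) ^ p)) + 0 *
          deriv (fun ζ : ℂ => hK E.ν (E.e 1) (ζ ^ p) / hK E.ν (E.e 0) (ζ ^ p)) 0) 0 :=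
      (hasDerivAt_id (0 : ℂ)).mul h5.hasDerivAt
    rw [h1, deriv_const_mul_field, h6.deriv, h3, h3]
    apply mul_ne_zero
    · have h2 : 0 < -E.dual.om 1 / E.dual.om 0 := by
        apply div_pos _ hE.sgn.1
        have := hE.sgn.2 0
        change E.dual.om 1 < 0 at this
        linarith
      exact_mod_cast (Real.sqrt_pos.mpr h2).ne'
    · rw [zero_mul, add_zero, one_mul]
      exact div_ne_zero (h4 1) (h4 0)
  · obtain ⟨τ₀, hτ₀⟩ := exists_log h0 p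
    have hsl : 1 - Complex.exp τ₀ ∈ Complex.slitPlane := by rw [← hτ₀]; exact hζ
    obtain ⟨L, hL, hLe⟩ := z0_chi hE hm hτ₀
    have hchi0 : chi p ζ τ₀ τ₀ = ζ := by unfold chi; simp
    have hchid : DifferentiableAt ℂ (chi p ζ τ₀) τ₀ := by unfold chi; fun_prop
    intro hz
    have h1 : HasDerivAt (fun τ => z0 E p m (chi p ζ τ₀ τ)) (deriv (z0 E p m) ζ * deriv (chi p ζ τ₀) τ₀)
        τ₀ := by
      have h2 : HasDerivAt (z0 E p m) (deriv (z0 E p m) ζ) (chi p ζ τ₀ τ₀) := by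
        rw [hchi0]; exact (z0_differentiableAt hE hm hζ).hasDerivAt
      exact HasDerivAt.comp τ₀ h2 hchid.hasDerivAt
    rw [hz, zero_mul] at h1
    have hRFd : DifferentiableAt ℂ (fun τ => RF E τ 0) τ₀ := by
      have := iso1.toContinuousLinearEquiv.differentiableAt.comp τ₀ (RF_differentiableAt hE hsl)
      exact this
    have h2 : HasDerivAt (fun τ => act L (RF E τ 0))
        (deriv (act L) (RF E τ₀ 0) * deriv (fun τ => RF E τ 0) τ₀) τ₀ := by
      have h3 := (act_differentiableAt hL (RF_scalar_mem hE hsl)).hasDerivAt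
      exact HasDerivAt.comp (h₂ := act L) τ₀ h3 hRFd.hasDerivAt
    have hev : ∀ᶠ τ in 𝓝 τ₀, 1 - Complex.exp τ ∈ Complex.slitPlane := by
      have hc : ContinuousAt (fun τ : ℂ => 1 - Complex.exp τ) τ₀ := by fun_prop
      exact hc.eventually_mem (Complex.isOpen_slitPlane.mem_nhds hsl)
    have h3 : HasDerivAt (fun τ => act L (RF E τ 0)) 0 τ₀ := by
      apply h1.congr_of_eventuallyEq
      filter_upwards [hev] with τ hτ
      exact (hLe τ hτ).symm
    have h4 := h2.unique h3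
    rcases mul_eq_zero.mp h4 with h5 | h5
    · exact deriv_act_ne hL (RF_scalar_mem hE hsl) h5
    · exact RF_deriv_ne hE hsl h5

end Pool.Agent.BallCurve
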